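import Pool.Agent.Lib.MP_fc28e0_an.OrbBasic

/-! # Continuity of orbits in the initial condition, the time and the parameters -/

open Complex Filter Topology

namespace FC28

theorem continuous_mk {X : Type*} [TopologicalSpace X] {f g : X → ℝ} (hf : Continuous f)
    (hg : Continuous g) : Continuous fun x => (⟨f x, g x⟩ : ℂ) := by
  have h : (fun x => (⟨f x, g x⟩ : ℂ)) = fun x => (f x : ℂ) + (g x : ℂ) * I := by
    funext x
    apply Complex.ext <;> simp
  rw [h]
  fun_prop

theorem continuous_nrm (i : Fin 5) : Continuous fun ψ : ℝ => nrm ψ i := by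
  fin_cases i
  · exact continuous_const
  · exact continuous_const
  · exact continuous_const
  · exact continuous_const
  · exact continuous_mk (by fun_prop) (by fun_prop)

theorem continuous_off (i : Fin 5) : Continuous fun x : ℝ × ℝ => off x.1 x.2 i := by
  fin_cases i
  · exact continuous_const
  · exact continuous_const
  · exact continuous_snd
  · exact continuous_const
  · change Continuous fun x : ℝ × ℝ => -(b * Real.cos x.1)
    fun_prop

theorem continuous_ip2 {X : Type*} [TopologicalSpace X] {f g : X → ℂ} (hf : Continuous f)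
    (hg : Continuous g) : Continuous fun x => ip (f x) (g x) := by
  unfold ip
  fun_prop

/-- data of an orbit: `ψ, H, t, p, v` -/
abbrev Dat := ℝ × ℝ × ℝ × ℂ × ℂ

theorem cont_aux (i : Fin 5) :
    Continuous (fun x : Dat => nrm x.1 i) ∧ Continuous (fun x : Dat => off x.1 x.2.1 i) := by
  constructor
  · exact (continuous_nrm i).comp continuous_fst
  · exact (continuous_off i).comp (continuous_fst.prodMk (continuous_fst.comp continuous_snd))

/-- the interior is open jointly in the parameters -/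
theorem int_eventually {x0 : Dat} {P : Dat → ℂ} (hP : ContinuousAt P x0)
    (h : P x0 ∈ intP x0.1 x0.2.1) : ∀ᶠ x in 𝓝 x0, P x ∈ intP x.1 x.2.1 := by
  have h1 : ∀ i, ∀ᶠ x in 𝓝 x0, ip (P x) (nrm x.1 i) < off x.1 x.2.1 i := by
    intro i
    apply ContinuousAt.eventually_lt _ _ (h i)
    · have h3 := (cont_aux i).1.continuousAt (x := x0)
      unfold ip
      fun_prop
    · exact (cont_aux i).2.continuousAt
  exact Filter.eventually_all.mpr h1

/-- strict inequalities at a point of a side are stable -/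
theorem side_eventually {x0 : Dat} {P : Dat → ℂ} {i : Fin 5} (hP : ContinuousAt P x0)
    (h : P x0 ∈ side x0.1 x0.2.1 i) :
    ∀ᶠ x in 𝓝 x0, ∀ j, j ≠ i → ip (P x) (nrm x.1 j) < off x.1 x.2.1 j := by
  have h1 : ∀ j, ∀ᶠ x in 𝓝 x0, j ≠ i → ip (P x) (nrm x.1 j) < off x.1 x.2.1 j := by
    intro j
    by_cases hj : j = i
    · exact Filter.Eventually.of_forall fun x hx => absurd hj hx
    · have h2 : ∀ᶠ x in 𝓝 x0, ip (P x) (nrm x.1 j) < off x.1 x.2.1 j := by
        apply ContinuousAt.eventually_lt _ _ (h.2 j hj)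
        · have h3 := (cont_aux j).1.continuousAt (x := x0)
          unfold ip
          fun_prop
        · exact (cont_aux j).2.continuousAt
      filter_upwards [h2] with x hx _
      exact hx
  exact Filter.eventually_all.mpr h1

theorem Orb.cont_ev {ψ H t : ℝ} {p v q w : ℂ} (h : Orb ψ H t p v q w) {ε : ℝ} (hε : 0 < ε) :
    ∀ᶠ x in 𝓝 ((ψ, H, t, p, v) : Dat), x.2.2.2.1 ∈ inP x.1 x.2.1 →
      ∃ q' w', Orb x.1 x.2.1 x.2.2.1 x.2.2.2.1 x.2.2.2.2 q' w' ∧ ‖q' - q‖ < ε ∧ ‖w' - w‖ < ε := by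
  induction h with
  | @free t p v q ht hp hq e =>
    subst e
    set x0 : Dat := (ψ, H, t, p, v) with hx0
    have hc : Continuous fun x : Dat => x.2.2.2.1 + (x.2.2.1 : ℂ) * x.2.2.2.2 := by fun_prop
    have h1 : ∀ᶠ x in 𝓝 x0, x.2.2.2.1 + (x.2.2.1 : ℂ) * x.2.2.2.2 ∈ intP x.1 x.2.1 :=
      int_eventually hc.continuousAt hq
    have h2 : ∀ᶠ x in 𝓝 x0, 0 < x.2.2.1 := by
      have hc2 : Continuous fun x : Dat => x.2.2.1 := by fun_prop
      exact hc2.continuousAt.eventually_const_lt ht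
    have h3 : ∀ᶠ x in 𝓝 x0, ‖x.2.2.2.1 + (x.2.2.1 : ℂ) * x.2.2.2.2 - (p + t * v)‖ < ε := by
      have hc3 : Continuous fun x : Dat => ‖x.2.2.2.1 + (x.2.2.1 : ℂ) * x.2.2.2.2 - (p + t * v)‖ := by
        fun_prop
      apply hc3.continuousAt.eventually_lt_const
      simpa [hx0] using hε
    have h4 : ∀ᶠ x in 𝓝 x0, ‖x.2.2.2.2 - v‖ < ε := by
      have hc3 : Continuous fun x : Dat => ‖x.2.2.2.2 - v‖ := by fun_prop
      apply hc3.continuousAt.eventually_lt_const
      simpa [hx0] using hε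
    filter_upwards [h1, h2, h3, h4] with x h1 h2 h3 h4 hx
    exact ⟨_, _, Orb.free h2 hx h1 rfl, h3, h4⟩
  | @hit s τ t p v p' v' q w i hτ hp hs hv e1 e2 e3 h ih =>
    set x0 : Dat := (ψ, H, s, p, v) with hx0
    -- the new hitting time, point, direction
    let T : Dat → ℝ := fun x =>
      (off x.1 x.2.1 i - ip x.2.2.2.1 (nrm x.1 i)) / ip x.2.2.2.2 (nrm x.1 i)
    have hT0 : T x0 = τ := by
      change (off ψ H i - ip p (nrm ψ i)) / ip v (nrm ψ i) = τ
      have h1 := hs.1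
      rw [e1, ip_add_left, ip_smul_left] at h1
      rw [div_eq_iff hv.ne', ← h1]
      ring
    have hcn := (cont_aux i).1
    have hco := (cont_aux i).2
    have hcip : Continuous fun x : Dat => ip x.2.2.2.2 (nrm x.1 i) :=
      continuous_ip2 (by fun_prop) hcn
    have hT : ContinuousAt T x0 := by
      apply ContinuousAt.div
      · exact (hco.sub (continuous_ip2 (by fun_prop) hcn)).continuousAt
      · exact hcip.continuousAt
      · exact hv.ne'
    let F : Dat → Dat := fun x => (x.1, x.2.1, x.2.2.1 - T x,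
      x.2.2.2.1 + (T x : ℂ) * x.2.2.2.2, rf x.1 i x.2.2.2.2)
    have hF : ContinuousAt F x0 := by
      refine ContinuousAt.prodMk (by fun_prop) (ContinuousAt.prodMk (by fun_prop)
        (ContinuousAt.prodMk (by fun_prop) (ContinuousAt.prodMk ?_ ?_)))
      · have h1 : ContinuousAt (fun x : Dat => (T x : ℂ)) x0 :=
          Complex.continuous_ofReal.continuousAt.comp hT
        fun_prop
      · unfold rf
        have h1 := hcn.continuousAt (x := x0)
        have h2 : ContinuousAt (fun x : Dat => (starRingEnd ℂ) x.2.2.2.2) x0 := by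
          apply Continuous.continuousAt
          exact Complex.continuous_conj.comp (by fun_prop)
        fun_prop
    have hF0 : F x0 = (ψ, H, t, p', v') := by
      change (ψ, H, s - T x0, p + (T x0 : ℂ) * v, rf ψ i v) = (ψ, H, t, p', v')
      rw [hT0, e1, e2, e3]
      simp
    have hih : ∀ᶠ x in 𝓝 x0, (F x).2.2.2.1 ∈ inP (F x).1 (F x).2.1 →
      ∃ q' w', Orb (F x).1 (F x).2.1 (F x).2.2.1 (F x).2.2.2.1 (F x).2.2.2.2 q' w' ∧
        ‖q' - q‖ < ε ∧ ‖w' - w‖ < ε := by
      rw [← hF0] at ih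
      exact hF.eventually ih
    have h1 : ∀ᶠ x in 𝓝 x0, ∀ j, j ≠ i →
        ip (x.2.2.2.1 + (T x : ℂ) * x.2.2.2.2) (nrm x.1 j) < off x.1 x.2.1 j := by
      apply side_eventually (i := i)
      · have h1 : ContinuousAt (fun x : Dat => (T x : ℂ)) x0 :=
          Complex.continuous_ofReal.continuousAt.comp hT
        fun_prop
      · change p + (T x0 : ℂ) * v ∈ side ψ H i
        rw [hT0, ← e1]
        exact hs
    have h2 : ∀ᶠ x in 𝓝 x0, 0 < T x := hT.eventually_const_lt (by rw [hT0]; exact hτ)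
    have h3 : ∀ᶠ x in 𝓝 x0, 0 < ip x.2.2.2.2 (nrm x.1 i) :=
      hcip.continuousAt.eventually_const_lt hv
    filter_upwards [hih, h1, h2, h3] with x hih h1 h2 h3 hx
    have h4 : x.2.2.2.1 + (T x : ℂ) * x.2.2.2.2 ∈ side x.1 x.2.1 i := by
      refine ⟨?_, h1⟩
      rw [ip_add_left, ip_smul_left]
      change _ + (off x.1 x.2.1 i - ip x.2.2.2.1 (nrm x.1 i)) / ip x.2.2.2.2 (nrm x.1 i) *
        ip x.2.2.2.2 (nrm x.1 i) = _
      rw [div_mul_cancel₀ _ h3.ne']
      ring
    obtain ⟨q', w', h5, h6, h7⟩ := hih (side_subset _ _ _ h4)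
    refine ⟨q', w', Orb.hit i h2 hx h4 h3 rfl rfl ?_ h5, h6, h7⟩
    change x.2.2.1 = T x + (x.2.2.1 - T x)
    ring

/-- stability of an orbit under small changes of everything -/
theorem Orb.cont {ψ H t : ℝ} {p v q w : ℂ} (h : Orb ψ H t p v q w) {ε : ℝ} (hε : 0 < ε) :
    ∃ δ > 0, ∀ ψ' H' t' : ℝ, ∀ p' v' : ℂ, |ψ' - ψ| < δ → |H' - H| < δ → |t' - t| < δ →
      ‖p' - p‖ < δ → ‖v' - v‖ < δ → p' ∈ inP ψ' H' →
      ∃ q' w', Orb ψ' H' t' p' v' q' w' ∧ ‖q' - q‖ < ε ∧ ‖w' - w‖ < ε := by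
  obtain ⟨δ, hδ, h1⟩ := Metric.eventually_nhds_iff.mp (h.cont_ev hε)
  refine ⟨δ, hδ, fun ψ' H' t' p' v' h2 h3 h4 h5 h6 h7 => ?_⟩
  refine h1 (y := (ψ', H', t', p', v')) ?_ h7
  simp only [Prod.dist_eq, max_lt_iff, Real.dist_eq, Complex.dist_eq]
  exact ⟨h2, h3, h4, h5, h6⟩

/-- the initial direction of the ray depends continuously on the parameters -/
theorem dirR_cont (m : ℕ) (hm : m ≠ 0) : Continuous fun x : ℝ × ℝ => dirR x.1 x.2 m := by
  unfold dirR rf em
  have h1 : Continuous fun x : ℝ × ℝ => nrm x.1 4 := (continuous_nrm 4).comp continuous_fst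
  have h2 : Continuous fun x : ℝ × ℝ => (⟨m, x.2⟩ : ℂ) :=
    continuous_mk continuous_const continuous_snd
  have h3 : Continuous fun x : ℝ × ℝ => (Real.sqrt ((m : ℝ) ^ 2 + x.2 ^ 2) : ℂ) := by
    apply Complex.continuous_ofReal.comp
    fun_prop
  have h4 : ∀ x : ℝ × ℝ, (Real.sqrt ((m : ℝ) ^ 2 + x.2 ^ 2) : ℂ) ≠ 0 := by
    intro x
    have hm' : (0 : ℝ) < (m : ℝ) := by
      exact_mod_cast Nat.pos_of_ne_zero hm
    have : 0 < Real.sqrt ((m : ℝ) ^ 2 + x.2 ^ 2) := by
      apply Real.sqrt_pos.mpr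
      positivity
    exact_mod_cast this.ne'
  have h5 : Continuous fun x : ℝ × ℝ => -((⟨m, x.2⟩ : ℂ) / (Real.sqrt ((m : ℝ) ^ 2 + x.2 ^ 2) : ℂ)) :=
    (h2.div h3 h4).neg
  exact ((h1.pow 2).neg).mul (Complex.continuous_conj.comp h5)

end FC28
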