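import Pool.Agent.Lib.MP_fc28e0_an.DenseB
import Pool.Agent.Lib.MP_fc28e0_an.Cont

/-! # Existence of good parameters by the Baire category theorem -/

open Complex

namespace FC28

/-- visiting a target -/
def Vis (ψ H : ℝ) (m : ℕ) (x0 v0 : ℂ) (ε N : ℝ) : Prop :=
  ∃ t > N, ∃ p v, ray ψ H m t p v ∧ ‖p - x0‖ < ε ∧ ‖v - v0‖ < ε

theorem isOpen_par : IsOpen {x : ℝ × ℝ | Par x.1 x.2} := by
  have h1 : IsOpen {x : ℝ × ℝ | |x.1 - Real.pi / 4| < 1 / 100} :=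
    isOpen_lt (by fun_prop) continuous_const
  have h2 : IsOpen {x : ℝ × ℝ | |x.2 - 1 / 2| < 1 / 100} :=
    isOpen_lt (by fun_prop) continuous_const
  exact h1.inter h2

theorem start_mem {ψ H : ℝ} (hP : Par ψ H) : (⟨0, b⟩ : ℂ) ∈ inP ψ H := by
  have := vert_mem hP 4
  simpa [vert] using this

theorem vis_open (m : ℕ) (hm : m = 1 ∨ m = 2) (x0 v0 : ℂ) (ε N : ℝ) :
    IsOpen {x : ℝ × ℝ | Par x.1 x.2 ∧ Vis x.1 x.2 m x0 v0 ε N} := by
  rw [isOpen_iff_mem_nhds]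
  rintro ⟨ψ, H⟩ ⟨hP, t, ht, p, v, hray, hp, hv⟩
  have hm0 : m ≠ 0 := by rcases hm with rfl | rfl <;> norm_num
  have hε' : 0 < min (ε - ‖p - x0‖) (ε - ‖v - v0‖) := lt_min (by linarith) (by linarith)
  obtain ⟨δ, hδ, hcont⟩ := Orb.cont hray hε'
  have hd := (dirR_cont m hm0).continuousAt (x := (ψ, H))
  have e1 : ∀ᶠ x : ℝ × ℝ in nhds (ψ, H), Par x.1 x.2 := isOpen_par.mem_nhds hP
  have e2 : ∀ᶠ x : ℝ × ℝ in nhds (ψ, H), ‖dirR x.1 x.2 m - dirR ψ H m‖ < δ := by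
    have := Metric.tendsto_nhds.1 hd δ hδ
    simpa [dist_eq_norm] using this
  have e3 : ∀ᶠ x : ℝ × ℝ in nhds (ψ, H), dist x (ψ, H) < δ := Metric.ball_mem_nhds _ hδ
  filter_upwards [e1, e2, e3] with x hx1 hx2 hx3
  refine ⟨hx1, t, ht, ?_⟩
  have hx4 : |x.1 - ψ| < δ := lt_of_le_of_lt (le_max_left _ _) hx3
  have hx5 : |x.2 - H| < δ := lt_of_le_of_lt (le_max_right _ _) hx3
  obtain ⟨q', w', h1, h2, h3⟩ := hcont x.1 x.2 t ⟨0, b⟩ (dirR x.1 x.2 m) hx4 hx5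
    (by simpa using hδ) (by simpa using hδ) hx2 (start_mem hx1)
  refine ⟨q', w', h1, ?_, ?_⟩
  · have h4 : ‖q' - x0‖ ≤ ‖q' - p‖ + ‖p - x0‖ := by
      have := norm_add_le (q' - p) (p - x0)
      simpa using this
    have h5 := lt_of_lt_of_le h2 (min_le_left _ _)
    linarith
  · have h4 : ‖w' - v0‖ ≤ ‖w' - v‖ + ‖v - v0‖ := by
      have := norm_add_le (w' - v) (v - v0)
      simpa using this
    have h5 := lt_of_lt_of_le h3 (min_le_right _ _)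
    linarith

theorem isOpen_intP_params (x0 : ℂ) : IsOpen {x : ℝ × ℝ | x0 ∈ intP x.1 x.2} := by
  have h : {x : ℝ × ℝ | x0 ∈ intP x.1 x.2} =
      ⋂ i : Fin 5, {x : ℝ × ℝ | ip x0 (nrm x.1 i) < off x.1 x.2 i} := by
    ext x; simp [intP]
  rw [h]
  refine isOpen_iInter_of_finite fun i => ?_
  fin_cases i <;> simp only [ip, nrm, off] <;>
    · apply isOpen_lt <;> simp <;> fun_prop

theorem vis_dense {ψ0 H0 : ℝ} (hP : Par ψ0 H0) {x0 v0 : ℂ} (hx0 : x0 ∈ intP ψ0 H0)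
    (hv0 : ‖v0‖ = 1) {ε : ℝ} (hε : 0 < ε) (N : ℝ) {η : ℝ} (hη : 0 < η) :
    ∃ ψ H : ℝ, Par ψ H ∧ |ψ - ψ0| < η ∧ |H - H0| < η ∧
      ∀ m, (m = 1 ∨ m = 2) → Vis ψ H m x0 v0 ε N := by
  have hopen : IsOpen {x : ℝ × ℝ | Par x.1 x.2 ∧ x0 ∈ intP x.1 x.2} :=
    isOpen_par.inter (isOpen_intP_params x0)
  obtain ⟨η1, hη1, hball⟩ := Metric.isOpen_iff.1 hopen (ψ0, H0) ⟨hP, hx0⟩
  obtain ⟨Q, hQ⟩ := exists_nat_gt (4 * Real.pi / ε)
  obtain ⟨p, q, hq, hq2, hQq, hpq, hpψ, hpP⟩ :=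
    exists_prime_approx hP.1 (lt_min hη hη1) Q
  obtain ⟨Bad, hBad, hNC⟩ := noConn hpP
  -- choose `H`
  have hη2 : 0 < min η η1 := lt_min hη hη1
  obtain ⟨H, hHB, hH⟩ : ∃ H, H ∉ Bad ∧ |H - H0| < min η η1 := by
    have hd := (hBad.dense_compl ℝ)
    obtain ⟨H, hH1, hH2⟩ := hd.exists_dist_lt H0 hη2
    refine ⟨H, hH1, ?_⟩
    rw [dist_comm] at hH2
    simpa [Real.dist_eq] using hH2
  set ψ : ℝ := Real.pi * p / q with hψ
  have hmem : (ψ, H) ∈ Metric.ball ((ψ0, H0) : ℝ × ℝ) η1 := by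
    rw [Metric.mem_ball, Prod.dist_eq]
    refine max_lt ?_ ?_
    · exact lt_of_lt_of_le hpψ (min_le_right _ _)
    · exact lt_of_lt_of_le hH (min_le_right _ _)
  obtain ⟨hP', hx0'⟩ := hball hmem
  refine ⟨ψ, H, hP', lt_of_lt_of_le hpψ (min_le_left _ _), lt_of_lt_of_le hH (min_le_left _ _),
    fun m hm => ?_⟩
  have hNC' := hNC H hP'.2 hHB m hm
  have hfin := finite_directions (m := m) (H := H) hq.pos hψ
  obtain ⟨F, hF0, hFV, hFc⟩ := full_directions hP' hm hNC' hfin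
  obtain ⟨v, hvF, hv⟩ := spread hP' hm hq hq2 hpq hψ hF0 hFc hv0
  obtain ⟨t, ht, y, hy1, hy2⟩ := hFV v hvF x0 hx0' ε hε N
  refine ⟨t, ht, y, v, hy1, hy2, lt_of_le_of_lt hv ?_⟩
  have hqpos : (0 : ℝ) < q := by exact_mod_cast hq.pos
  have hQq' : (Q : ℝ) ≤ q := by exact_mod_cast hQq
  rw [div_lt_iff₀ hqpos]
  rw [div_lt_iff₀ hε] at hQ
  nlinarith

theorem len_posB {m : ℕ} (hm : m ≠ 0) (H : ℝ) : 0 < len m H := by
  have : (0 : ℝ) < m := by exact_mod_cast Nat.pos_of_ne_zero hm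
  unfold len
  positivity

theorem len_cont (m : ℕ) : Continuous (len m) := by
  unfold len
  fun_prop

theorem finite_len_eq (r : ℝ) : {H : ℝ | len 2 H = r * len 1 H}.Finite := by
  apply Set.Finite.subset
    (Set.toFinite {Real.sqrt ((r ^ 2 - 4) / (1 - r ^ 2)), -Real.sqrt ((r ^ 2 - 4) / (1 - r ^ 2))})
  intro H hH
  simp only [Set.mem_ofPred_eq, len] at hH
  have h1 : (2 * Real.sqrt (((2 : ℕ) : ℝ) ^ 2 + H ^ 2)) ^ 2
      = (r * (2 * Real.sqrt (((1 : ℕ) : ℝ) ^ 2 + H ^ 2))) ^ 2 := by rw [hH]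
  rw [mul_pow, mul_pow, mul_pow, Real.sq_sqrt (by positivity), Real.sq_sqrt (by positivity)] at h1
  push_cast at h1
  have h2 : (1 - r ^ 2) * H ^ 2 = r ^ 2 - 4 := by nlinarith
  have h3 : (1 : ℝ) - r ^ 2 ≠ 0 := by
    intro h0
    rw [h0] at h2
    nlinarith
  have h4 : H ^ 2 = (r ^ 2 - 4) / (1 - r ^ 2) := by
    rw [eq_div_iff h3]; linarith
  rw [← h4, Real.sqrt_sq_eq_abs]
  rcases abs_choice H with h | h
  · left; rw [h]
  · right
    simp [h]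

/-- the open dense sets of parameters -/
def GG (x0 v0 : ℂ) (ε N : ℝ) (m : ℕ) : Set (ℝ × ℝ) :=
  {x : ℝ × ℝ | Par x.1 x.2 ∧ Vis x.1 x.2 m x0 v0 ε N} ∪
    (closure {x : ℝ × ℝ | Par x.1 x.2 ∧ x0 ∈ intP x.1 x.2})ᶜ

theorem GG_open {x0 v0 : ℂ} {ε N : ℝ} {m : ℕ} (hm : m = 1 ∨ m = 2) :
    IsOpen (GG x0 v0 ε N m) :=
  (vis_open m hm x0 v0 ε N).union isClosed_closure.isOpen_compl

theorem GG_dense {x0 v0 : ℂ} (hv0 : ‖v0‖ = 1) {ε N : ℝ} (hε : 0 < ε) {m : ℕ}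
    (hm : m = 1 ∨ m = 2) : Dense (GG x0 v0 ε N m) := by
  rw [Metric.dense_iff]
  intro z r hr
  by_cases hz : z ∈ closure {x : ℝ × ℝ | Par x.1 x.2 ∧ x0 ∈ intP x.1 x.2}
  · obtain ⟨y, hy, hyz⟩ := Metric.mem_closure_iff.1 hz (r / 2) (by positivity)
    obtain ⟨ψ, H, hP, h1, h2, h3⟩ :=
      vis_dense (ψ0 := y.1) (H0 := y.2) hy.1 hy.2 hv0 hε N (η := r / 2) (by positivity)
    refine ⟨(ψ, H), ?_, Or.inl ⟨hP, h3 m hm⟩⟩
    rw [Metric.mem_ball]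
    have h4 : dist ((ψ, H) : ℝ × ℝ) y < r / 2 := by
      rw [Prod.dist_eq]
      exact max_lt (by simpa [Real.dist_eq] using h1) (by simpa [Real.dist_eq] using h2)
    have h5 := dist_triangle ((ψ, H) : ℝ × ℝ) y z
    rw [dist_comm z y] at hyz
    linarith
  · exact ⟨z, Metric.mem_ball_self hr, Or.inr hz⟩

theorem exists_params : ∃ ψ H : ℝ, Par ψ H ∧ DenseRay ψ H 1 ∧ DenseRay ψ H 2 ∧
    Irrational (len 2 H / len 1 H) := by
  classical
  let f : (ℕ × ℕ × ℕ × ℕ × Bool) ⊕ ℚ → Set (ℝ × ℝ) := fun s => match s with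
    | Sum.inl (i, j, n, N, s) =>
        GG (TopologicalSpace.denseSeq ℂ i) ((TopologicalSpace.denseSeq Circle j : Circle) : ℂ)
          (1 / ((n : ℝ) + 1)) N (if s then 1 else 2)
    | Sum.inr r => Prod.snd ⁻¹' {H : ℝ | len 2 H = r * len 1 H}ᶜ
  have hm : ∀ s : Bool, (if s then 1 else 2 : ℕ) = 1 ∨ (if s then 1 else 2 : ℕ) = 2 := by
    intro s; cases s <;> simp
  have ho : ∀ s, IsOpen (f s) := by
    rintro (⟨i, j, n, N, s⟩ | r)
    · exact GG_open (hm s)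
    · exact (isOpen_compl_iff.2 ((finite_len_eq r).isClosed)).preimage continuous_snd
  have hd : ∀ s, Dense (f s) := by
    rintro (⟨i, j, n, N, s⟩ | r)
    · exact GG_dense (Circle.norm_coe _) (by positivity) (hm s)
    · exact ((finite_len_eq r).countable.dense_compl ℝ).preimage isOpenMap_snd
  have hD := dense_iInter_of_isOpen ho hd
  have hne : {x : ℝ × ℝ | Par x.1 x.2}.Nonempty :=
    ⟨(Real.pi / 4, 1 / 2), by simp [Par]⟩
  obtain ⟨⟨ψ, H⟩, hP, hI⟩ := hD.inter_open_nonempty _ isOpen_par hne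
  simp only [Set.mem_iInter] at hI
  have key : ∀ s : Bool, DenseRay ψ H (if s then 1 else 2) := by
    intro s x0 hx0 v0 hv0 ε hε N
    have hopen : IsOpen (intP ψ H ∩ Metric.ball x0 (ε / 2)) :=
      (isOpen_intP ψ H).inter Metric.isOpen_ball
    obtain ⟨i, hi⟩ := (TopologicalSpace.denseRange_denseSeq ℂ).exists_mem_open hopen
      ⟨x0, hx0, Metric.mem_ball_self (by positivity)⟩
    let c0 : Circle := ⟨v0, by simp [Submonoid.unitSphere, hv0]⟩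
    obtain ⟨j, hj⟩ := (TopologicalSpace.denseRange_denseSeq Circle).exists_dist_lt c0
      (show 0 < ε / 2 by positivity)
    obtain ⟨n, hn⟩ := exists_nat_one_div_lt (show 0 < ε / 2 by positivity)
    obtain ⟨N', hN'⟩ := exists_nat_ge N
    have hG := hI (Sum.inl (i, j, n, N', s))
    have hcl : ((ψ, H) : ℝ × ℝ) ∈ closure {x : ℝ × ℝ | Par x.1 x.2 ∧
        TopologicalSpace.denseSeq ℂ i ∈ intP x.1 x.2} := subset_closure ⟨hP, hi.1⟩
    rcases hG with hG | hG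
    · obtain ⟨-, t, ht, p, v, hray, hp, hv⟩ := hG
      refine ⟨t, lt_of_le_of_lt hN' ht, p, v, hray, ?_, ?_⟩
      · have h1 : dist (TopologicalSpace.denseSeq ℂ i) x0 < ε / 2 := hi.2
        rw [dist_eq_norm] at h1
        have h2 := norm_add_le (p - TopologicalSpace.denseSeq ℂ i)
          (TopologicalSpace.denseSeq ℂ i - x0)
        rw [sub_add_sub_cancel] at h2
        linarith
      · have h1 : dist (v0 : ℂ) ((TopologicalSpace.denseSeq Circle j : Circle) : ℂ) < ε / 2 := hj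
        rw [dist_comm, dist_eq_norm] at h1
        have h2 := norm_add_le (v - ((TopologicalSpace.denseSeq Circle j : Circle) : ℂ))
          (((TopologicalSpace.denseSeq Circle j : Circle) : ℂ) - v0)
        rw [sub_add_sub_cancel] at h2
        linarith
    · exact absurd hcl hG
  refine ⟨ψ, H, hP, by simpa using key true, by simpa using key false, ?_⟩
  rintro ⟨r, hr⟩
  have h1 := hI (Sum.inr r)
  apply h1
  have h2 := len_posB one_ne_zero H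
  rw [eq_div_iff h2.ne'] at hr
  exact hr.symm

end FC28
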