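import Pool.Agent.Lib.MP_fc28e0_an.Geo

/-! # The chord map -/

open Complex

namespace FC28

noncomputable section

/-- the shadow of the pentagon in direction `v` -/
def Sl (ψ H : ℝ) (v : ℂ) : Set ℝ := {u | ∃ p ∈ intP ψ H, ip p (I * v) = u}

/-- chord map: the chord with direction `x.1` and transversal coordinate `x.2` leaves the pentagon
through side `i` and is reflected to the chord `y` -/
def ChS (ψ H : ℝ) (x y : ℂ × ℝ) : Prop :=
  ‖x.1‖ = 1 ∧ ∃ p ∈ intP ψ H, ∃ τ : ℝ, 0 < τ ∧ ∃ i, ip p (I * x.1) = x.2 ∧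
    p + τ * x.1 ∈ side ψ H i ∧ y.1 = rf ψ i x.1 ∧ y.2 = ip (p + τ * x.1) (I * y.1)

/-! ## coordinates along a chord -/

theorem ch_ip_self {v : ℂ} (hv : ‖v‖ = 1) : v.re * v.re + v.im * v.im = 1 := by
  have h := Complex.sq_norm v
  rw [hv, Complex.normSq_apply] at h
  linarith

theorem ch_ip_I (v : ℂ) : ip v (I * v) = 0 := by
  simp only [ip, Complex.mul_re, Complex.mul_im, Complex.I_re, Complex.I_im]
  ring

theorem ch_ip_II (v w : ℂ) : ip (I * v) (I * w) = ip v w := by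
  simp only [ip, Complex.mul_re, Complex.mul_im, Complex.I_re, Complex.I_im]
  ring

theorem ch_ip_add_smul (p v w : ℂ) (t : ℝ) : ip (p + t * v) w = ip p w + t * ip v w := by
  rw [ip_add_left, ip_smul_left]

theorem ch_same (p v : ℂ) (t : ℝ) : ip (p + t * v) (I * v) = ip p (I * v) := by
  rw [ch_ip_add_smul, ch_ip_I, mul_zero, add_zero]

/-- two points with the same transversal coordinate -/
theorem ch_on_line {p q v : ℂ} (hv : ‖v‖ = 1) (h : ip p (I * v) = ip q (I * v)) :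
    ∃ s : ℝ, q = p + s * v := by
  have h1 := ch_ip_self hv
  simp only [ip, Complex.mul_re, Complex.mul_im, Complex.I_re, Complex.I_im] at h
  refine ⟨(q.re - p.re) * v.re + (q.im - p.im) * v.im, ?_⟩
  apply Complex.ext
  · simp only [Complex.add_re, Complex.mul_re, Complex.ofReal_re, Complex.ofReal_im]
    have : (q.re - p.re) * (v.re * v.re + v.im * v.im) = q.re - p.re := by rw [h1, mul_one]
    have h2 : (q.re - p.re) * v.im = (q.im - p.im) * v.re := by linarith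
    have h3 : (q.re - p.re) * v.im * v.im = (q.im - p.im) * v.re * v.im := by rw [h2]
    nlinarith
  · simp only [Complex.add_im, Complex.mul_im, Complex.ofReal_re, Complex.ofReal_im]
    have : (q.im - p.im) * (v.re * v.re + v.im * v.im) = q.im - p.im := by rw [h1, mul_one]
    have h2 : (q.re - p.re) * v.im = (q.im - p.im) * v.re := by linarith
    have h3 : (q.re - p.re) * v.im * v.re = (q.im - p.im) * v.re * v.re := by rw [h2]
    nlinarith

theorem ch_norm_I (v : ℂ) : ‖I * v‖ = ‖v‖ := by simp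

theorem ch_convex {ψ H : ℝ} {p q : ℂ} (hp : p ∈ intP ψ H) (hq : q ∈ intP ψ H) {a c : ℝ}
    (ha : 0 ≤ a) (hc : 0 ≤ c) (hac : a + c = 1) : (a : ℂ) * p + (c : ℂ) * q ∈ intP ψ H := by
  intro i
  have h1 := hp i
  have h2 := hq i
  rw [ip_add_left, ip_smul_left, ip_smul_left]
  rcases eq_or_lt_of_le ha with h | h
  · rw [← h] at hac ⊢
    have : c = 1 := by linarith
    rw [this]; linarith
  · have e1 : a * ip p (nrm ψ i) < a * off ψ H i := mul_lt_mul_of_pos_left h1 h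
    have e2 : c * ip q (nrm ψ i) ≤ c * off ψ H i := mul_le_mul_of_nonneg_left h2.le hc
    have e3 : a * off ψ H i + c * off ψ H i = off ψ H i := by rw [← add_mul, hac, one_mul]
    linarith

/-- a point between two interior points of a line is interior -/
theorem ch_between {ψ H : ℝ} {p v : ℂ} {s t r : ℝ} (h1 : p + s * v ∈ intP ψ H)
    (h2 : p + t * v ∈ intP ψ H) (hs : s ≤ r) (ht : r ≤ t) : p + r * v ∈ intP ψ H := by
  rcases eq_or_lt_of_le (hs.trans ht) with h | h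
  · have : r = s := le_antisymm (by linarith) hs
    rw [this]; exact h1
  · have hst : 0 < t - s := by linarith
    have := ch_convex h1 h2 (a := (t - r) / (t - s)) (c := (r - s) / (t - s))
      (div_nonneg (by linarith) hst.le) (div_nonneg (by linarith) hst.le)
      (by rw [← add_div, div_eq_one_iff_eq hst.ne']; ring)
    convert this using 1
    have hne : ((t : ℂ) - s) ≠ 0 := by
      rw [← Complex.ofReal_sub]
      exact Complex.ofReal_ne_zero.mpr hst.ne'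
    push_cast
    field_simp
    ring

/-- the exit point of a chord is unique -/
theorem ch_exit_unique {ψ H : ℝ} {q v : ℂ} {τ τ' : ℝ} {i i' : Fin 5} (hq : q ∈ intP ψ H)
    (hτ : 0 < τ) (hτ' : 0 < τ') (h : q + τ * v ∈ side ψ H i) (h' : q + τ' * v ∈ side ψ H i') :
    τ = τ' ∧ i = i' := by
  have key : ∀ {τ τ' : ℝ} {i i' : Fin 5}, 0 < τ → 0 < τ' → q + τ * v ∈ side ψ H i →
      q + τ' * v ∈ side ψ H i' → ¬ τ < τ' := by
    intro τ τ' i i' hτ hτ' h h' hlt
    have h2 := seg_side (intP_subset ψ H hq) h' (ip_pos_of_exit hq hτ' h') hτ hlt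
    exact absurd h.1 (h2 i).ne
  have e : τ = τ' := le_antisymm (not_lt.mp (key hτ' hτ h' h)) (not_lt.mp (key hτ hτ' h h'))
  subst e
  exact ⟨rfl, side_disj h h'⟩

theorem isOpen_Sl {ψ H : ℝ} {v : ℂ} (hv : ‖v‖ = 1) : IsOpen (Sl ψ H v) := by
  rw [Metric.isOpen_iff]
  rintro u ⟨p, hp, rfl⟩
  obtain ⟨ε, hε, hball⟩ := Metric.isOpen_iff.mp (isOpen_intP ψ H) p hp
  refine ⟨ε, hε, fun u' hu' => ?_⟩
  refine ⟨p + ((u' - ip p (I * v) : ℝ) : ℂ) * (I * v), hball ?_, ?_⟩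
  · rw [Metric.mem_ball, dist_eq_norm]
    have : p + ((u' - ip p (I * v) : ℝ) : ℂ) * (I * v) - p =
      ((u' - ip p (I * v) : ℝ) : ℂ) * (I * v) := by ring
    rw [this, norm_mul, ch_norm_I, hv, mul_one, Complex.norm_real]
    rw [Metric.mem_ball, Real.dist_eq] at hu'
    exact hu'
  · rw [ch_ip_add_smul, ch_ip_II]
    have : ip v v = 1 := ch_ip_self hv
    rw [this]; ring

theorem ordConnected_Sl {ψ H : ℝ} {v : ℂ} : (Sl ψ H v).OrdConnected := by
  refine ⟨?_⟩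
  rintro _ ⟨p, hp, rfl⟩ _ ⟨q, hq, rfl⟩ u ⟨h1, h2⟩
  rcases eq_or_lt_of_le (h1.trans h2) with h | h
  · have : u = ip p (I * v) := le_antisymm (by linarith) h1
    exact ⟨p, hp, this.symm⟩
  · have hd : 0 < ip q (I * v) - ip p (I * v) := by linarith
    refine ⟨_, ch_convex hp hq (a := (ip q (I * v) - u) / (ip q (I * v) - ip p (I * v)))
      (c := (u - ip p (I * v)) / (ip q (I * v) - ip p (I * v)))
      (div_nonneg (by linarith) hd.le) (div_nonneg (by linarith) hd.le)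
      (by rw [← add_div, div_eq_one_iff_eq hd.ne']; ring), ?_⟩
    rw [ip_add_left, ip_smul_left, ip_smul_left]
    field_simp
    ring

theorem bounded_Sl {ψ H : ℝ} (hP : Par ψ H) {v : ℂ} (hv : ‖v‖ = 1) :
    Bornology.IsBounded (Sl ψ H v) := by
  refine (Metric.isBounded_iff_subset_closedBall 0).mpr ⟨2, ?_⟩
  rintro _ ⟨p, hp, rfl⟩
  rw [mem_closedBall_zero_iff, Real.norm_eq_abs]
  have h1 := abs_ip_le p (I * v)
  rw [ch_norm_I, hv, mul_one] at h1
  exact h1.trans (norm_le_of_inP hP (intP_subset ψ H hp))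

theorem ChS.memL {ψ H : ℝ} {x y : ℂ × ℝ} (h : ChS ψ H x y) : x.2 ∈ Sl ψ H x.1 := by
  obtain ⟨_, p, hp, _, _, _, h1, _⟩ := h
  exact ⟨p, hp, h1⟩

theorem ChS.memR {ψ H : ℝ} {x y : ℂ × ℝ} (h : ChS ψ H x y) : y.2 ∈ Sl ψ H y.1 := by
  obtain ⟨hn, p, hp, τ, hτ, i, h1, h2, h3, h4⟩ := h
  have hpos := ip_pos_of_exit hp hτ h2
  have hneg : ip y.1 (nrm ψ i) < 0 := by rw [h3, ip_rf_nrm]; linarith
  obtain ⟨s0, hs0, hs⟩ := inward_of_side h2 hneg
  refine ⟨_, hs s0 hs0 le_rfl, ?_⟩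
  rw [ch_same, h4]

theorem ChS.norm {ψ H : ℝ} {x y : ℂ × ℝ} (h : ChS ψ H x y) : ‖y.1‖ = 1 := by
  obtain ⟨hn, p, hp, τ, hτ, i, h1, h2, h3, h4⟩ := h
  rw [h3, norm_rf, hn]

/-- the side is unique and every interior point of the chord flows to the same exit point -/
theorem ChS.exit {ψ H : ℝ} {x y : ℂ × ℝ} (h : ChS ψ H x y) :
    ∃ i, ∃ p' ∈ side ψ H i, 0 < ip x.1 (nrm ψ i) ∧ y.1 = rf ψ i x.1 ∧
      ip p' (I * x.1) = x.2 ∧ ip p' (I * y.1) = y.2 ∧
      (∀ p ∈ intP ψ H, ip p (I * x.1) = x.2 → ∃ τ : ℝ, 0 < τ ∧ p + τ * x.1 = p') ∧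
      (∀ p ∈ intP ψ H, ip p (I * y.1) = y.2 → ∃ τ : ℝ, 0 < τ ∧ p = p' + τ * y.1) := by
  have hny := h.norm
  obtain ⟨hn, p, hp, τ, hτ, i, h1, h2, h3, h4⟩ := h
  have hpos := ip_pos_of_exit hp hτ h2
  have hneg : ip y.1 (nrm ψ i) < 0 := by rw [h3, ip_rf_nrm]; linarith
  refine ⟨i, p + τ * x.1, h2, hpos, h3, ?_, h4.symm, ?_, ?_⟩
  · rw [ch_same, h1]
  · intro q hq hqx
    obtain ⟨s, hs⟩ := ch_on_line (p := q) (q := p + τ * x.1) hn (by rw [hqx, ch_same, h1])
    refine ⟨s, ?_, hs.symm⟩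
    have e1 := h2.1
    rw [hs, ch_ip_add_smul] at e1
    have e2 := hq i
    by_contra hcon
    have : s * ip x.1 (nrm ψ i) ≤ 0 := mul_nonpos_of_nonpos_of_nonneg (not_lt.mp hcon) hpos.le
    linarith
  · intro q hq hqy
    obtain ⟨s, hs⟩ := ch_on_line (p := p + τ * x.1) (q := q) hny (by rw [hqy, h4])
    refine ⟨s, ?_, hs⟩
    have e1 := h2.1
    have e2 := hq i
    rw [hs, ch_ip_add_smul] at e2
    by_contra hcon
    have : 0 ≤ s * ip y.1 (nrm ψ i) := mul_nonneg_of_nonpos_of_nonpos (not_lt.mp hcon) hneg.le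
    linarith

theorem ChS.func {ψ H : ℝ} {x y y' : ℂ × ℝ} (h : ChS ψ H x y) (h' : ChS ψ H x y') : y = y' := by
  obtain ⟨q, hq, hqx⟩ := h.memL
  obtain ⟨i, p, hp, _, e1, _, e2, e3, _⟩ := h.exit
  obtain ⟨i', p', hp', _, e1', _, e2', e3', _⟩ := h'.exit
  obtain ⟨τ, hτ, eτ⟩ := e3 q hq hqx
  obtain ⟨τ', hτ', eτ'⟩ := e3' q hq hqx
  obtain ⟨h1, h2⟩ := ch_exit_unique hq hτ hτ' (by rw [eτ]; exact hp) (by rw [eτ']; exact hp')
  subst h1
  subst h2
  have hpp : p = p' := eτ.symm.trans eτ'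
  subst hpp
  have hy1 : y.1 = y'.1 := e1.trans e1'.symm
  refine Prod.ext hy1 ?_
  rw [← e2, ← e2', hy1]

theorem ChS.inj {ψ H : ℝ} {x x' y : ℂ × ℝ} (h : ChS ψ H x y) (h' : ChS ψ H x' y) : x = x' := by
  obtain ⟨q, hq, hqy⟩ := h.memR
  obtain ⟨i, p, hp, _, e1, e2, _, _, e3⟩ := h.exit
  obtain ⟨i', p', hp', _, e1', e2', _, _, e3'⟩ := h'.exit
  obtain ⟨τ, hτ, eτ⟩ := e3 q hq hqy
  obtain ⟨τ', hτ', eτ'⟩ := e3' q hq hqy
  have hpq : q + τ * (-y.1) = p := by rw [eτ]; ring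
  have hpq' : q + τ' * (-y.1) = p' := by rw [eτ']; ring
  obtain ⟨h1, h2⟩ := ch_exit_unique hq hτ hτ' (v := -y.1) (by rw [hpq]; exact hp)
    (by rw [hpq']; exact hp')
  subst h1
  subst h2
  have hpp : p = p' := hpq.symm.trans hpq'
  subst hpp
  have hx1 : x.1 = x'.1 := by
    have := congrArg (rf ψ i) (e1.symm.trans e1')
    rwa [rf_rf, rf_rf] at this
  refine Prod.ext hx1 ?_
  rw [← e2, ← e2', hx1]

theorem ch_open_side {ψ H : ℝ} {i : Fin 5} {p : ℂ} (hp : p ∈ side ψ H i) :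
    ∃ ε > 0, ∀ t : ℝ, |t| < ε → p + t * (I * nrm ψ i) ∈ side ψ H i := by
  have hfin : ∀ j, j ≠ i → ∃ ε > 0, ∀ t : ℝ, |t| < ε → ip (p + t * (I * nrm ψ i)) (nrm ψ j) <
      off ψ H j := by
    intro j hj
    refine ⟨off ψ H j - ip p (nrm ψ j), by have := hp.2 j hj; linarith, fun t ht => ?_⟩
    rw [ch_ip_add_smul]
    have h1 := abs_ip_le (I * nrm ψ i) (nrm ψ j)
    rw [ch_norm_I, norm_nrm, norm_nrm, mul_one] at h1
    have h2 : t * ip (I * nrm ψ i) (nrm ψ j) ≤ |t| := by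
      refine (le_abs_self _).trans ?_
      rw [abs_mul]
      exact mul_le_of_le_one_right (abs_nonneg t) h1
    linarith
  choose ε hε hε2 using hfin
  let δ : ℝ := Finset.univ.inf' Finset.univ_nonempty
    (fun j : Fin 5 => if h : j ≠ i then ε j h else 1)
  have hδ : 0 < δ := by
    rw [Finset.lt_inf'_iff]
    intro j _
    split_ifs with h
    · exact hε j h
    · exact one_pos
  refine ⟨δ, hδ, fun t ht => ⟨?_, fun j hj => ?_⟩⟩
  · rw [ch_ip_add_smul, hp.1, ip_comm (I * nrm ψ i), ch_ip_I, mul_zero, add_zero]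
  · refine hε2 j hj t (lt_of_lt_of_le ht ?_)
    have h1 : δ ≤ (if h : j ≠ i then ε j h else 1) :=
      Finset.inf'_le (fun j : Fin 5 => if h : j ≠ i then ε j h else 1) (Finset.mem_univ j)
    rw [dif_pos hj] at h1
    exact h1

theorem ChS.loc {ψ H : ℝ} {x y : ℂ × ℝ} (h : ChS ψ H x y) :
    ∃ δ > 0, ∀ u : ℝ, |u| < δ → ChS ψ H (x.1, x.2 + u) (y.1, y.2 - u) := by
  obtain ⟨hn, p, hp, τ, hτ, i, h1, h2, h3, h4⟩ := h
  have hpos := ip_pos_of_exit hp hτ h2
  set κ := ip x.1 (nrm ψ i) with hκ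
  obtain ⟨ε1, hε1, hb1⟩ := Metric.isOpen_iff.mp (isOpen_intP ψ H) p hp
  obtain ⟨ε2, hε2, hb2⟩ := ch_open_side h2
  -- the identity of vectors
  have hvec : (κ : ℂ) * (I * x.1) - (ip (I * x.1) (nrm ψ i) : ℝ) * x.1 = I * nrm ψ i := by
    have hs := ch_ip_self hn
    apply Complex.ext
    · simp only [hκ, ip, Complex.sub_re, Complex.mul_re, Complex.mul_im, Complex.ofReal_re,
        Complex.ofReal_im, Complex.I_re, Complex.I_im]
      linear_combination (-(nrm ψ i).im) * hs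
    · simp only [hκ, ip, Complex.sub_im, Complex.mul_re, Complex.mul_im, Complex.ofReal_re,
        Complex.ofReal_im, Complex.I_re, Complex.I_im]
      linear_combination ((nrm ψ i).re) * hs
  have hκ0 : (κ : ℂ) ≠ 0 := Complex.ofReal_ne_zero.mpr hpos.ne'
  refine ⟨min (min ε1 (ε2 * κ)) (τ * κ), by positivity, fun u hu => ?_⟩
  have hu1 : |u| < ε1 := lt_of_lt_of_le hu ((min_le_left _ _).trans (min_le_left _ _))
  have hu2 : |u| < ε2 * κ := lt_of_lt_of_le hu ((min_le_left _ _).trans (min_le_right _ _))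
  have hu3 : |u| < τ * κ := lt_of_lt_of_le hu (min_le_right _ _)
  set β := ip (I * x.1) (nrm ψ i) with hβ
  have hβ1 : |β| ≤ 1 := by
    have := abs_ip_le (I * x.1) (nrm ψ i)
    rw [ch_norm_I, hn, norm_nrm, one_mul] at this
    exact this
  have hpt : p + (u : ℂ) * (I * x.1) + ((τ - u * β / κ : ℝ) : ℂ) * x.1 =
      p + τ * x.1 + ((u / κ : ℝ) : ℂ) * (I * nrm ψ i) := by
    rw [← hvec]
    push_cast
    field_simp
    ring
  refine ⟨hn, p + (u : ℂ) * (I * x.1), hb1 ?_, τ - u * β / κ, ?_, i, ?_, ?_, h3, ?_⟩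
  · rw [Metric.mem_ball, dist_eq_norm]
    have : p + (u : ℂ) * (I * x.1) - p = (u : ℂ) * (I * x.1) := by ring
    rw [this, norm_mul, ch_norm_I, hn, mul_one, Complex.norm_real]
    exact hu1
  · have : u * β / κ < τ := by
      rw [div_lt_iff₀ hpos]
      calc u * β ≤ |u * β| := le_abs_self _
        _ = |u| * |β| := abs_mul _ _
        _ ≤ |u| := mul_le_of_le_one_right (abs_nonneg u) hβ1
        _ < τ * κ := hu3
    linarith
  · show ip (p + (u : ℂ) * (I * x.1)) (I * x.1) = x.2 + u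
    rw [ch_ip_add_smul, h1, ch_ip_II]
    have : ip x.1 x.1 = 1 := ch_ip_self hn
    rw [this, mul_one]
  · show p + (u : ℂ) * (I * x.1) + ((τ - u * β / κ : ℝ) : ℂ) * x.1 ∈ side ψ H i
    rw [hpt]
    refine hb2 (u / κ) ?_
    rw [abs_div, abs_of_pos hpos, div_lt_iff₀ hpos]
    exact hu2
  · show y.2 - u = ip (p + (u : ℂ) * (I * x.1) + ((τ - u * β / κ : ℝ) : ℂ) * x.1) (I * y.1)
    rw [hpt, ch_ip_add_smul, ← h4, ch_ip_II, ip_comm (nrm ψ i), h3, ip_rf_nrm, ← hκ]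
    field_simp
    ring

/-- a chord continues or its exit point is a vertex -/
theorem chord_exit_cases {ψ H : ℝ} (hP : Par ψ H) {v : ℂ} (hv : ‖v‖ = 1) {u : ℝ}
    (hu : u ∈ Sl ψ H v) :
    (∃ y, ChS ψ H (v, u) y) ∨
      ∃ a, ∃ p ∈ intP ψ H, ∃ τ : ℝ, 0 < τ ∧ ip p (I * v) = u ∧ vert ψ H a = p + τ * v := by
  obtain ⟨p, hp, hpu⟩ := hu
  obtain ⟨ε, hε, hball⟩ := Metric.isOpen_iff.mp (isOpen_intP ψ H) p hp
  have hin : p + ((ε / 2 : ℝ) : ℂ) * v ∈ intP ψ H := by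
    apply hball
    rw [Metric.mem_ball, dist_eq_norm]
    have : p + ((ε / 2 : ℝ) : ℂ) * v - p = ((ε / 2 : ℝ) : ℂ) * v := by ring
    rw [this, norm_mul, hv, mul_one, Complex.norm_real, Real.norm_eq_abs, abs_of_pos (by linarith)]
    linarith
  obtain ⟨τ, hτ, h1, h2, h3⟩ := exists_exit hP (intP_subset ψ H hp) hv (by linarith : 0 < ε / 2) hin
  have hτ0 : 0 < τ := by linarith
  rcases bdry_cases hP h1 h2 with ⟨i, hi⟩ | ⟨a, ha⟩
  · left
    exact ⟨(rf ψ i v, ip (p + τ * v) (I * rf ψ i v)), hv, p, hp, τ, hτ0, i, hpu, hi, rfl, rfl⟩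
  · right
    exact ⟨a, p, hp, τ, hτ0, hpu, ha.symm⟩

/-- a chord comes from another chord or its entry point is a vertex -/
theorem chord_entry_cases {ψ H : ℝ} (hP : Par ψ H) {v : ℂ} (hv : ‖v‖ = 1) {u : ℝ}
    (hu : u ∈ Sl ψ H v) :
    (∃ x, ChS ψ H x (v, u)) ∨
      ∃ a, ∃ p ∈ intP ψ H, ∃ τ : ℝ, 0 < τ ∧ ip p (I * v) = u ∧ p = vert ψ H a + τ * v := by
  obtain ⟨p, hp, hpu⟩ := hu
  have hv' : ‖-v‖ = 1 := by rw [norm_neg, hv]
  obtain ⟨ε, hε, hball⟩ := Metric.isOpen_iff.mp (isOpen_intP ψ H) p hp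
  have hin : p + ((ε / 2 : ℝ) : ℂ) * (-v) ∈ intP ψ H := by
    apply hball
    rw [Metric.mem_ball, dist_eq_norm]
    have : p + ((ε / 2 : ℝ) : ℂ) * (-v) - p = ((ε / 2 : ℝ) : ℂ) * (-v) := by ring
    rw [this, norm_mul, hv', mul_one, Complex.norm_real, Real.norm_eq_abs,
      abs_of_pos (by linarith)]
    linarith
  obtain ⟨τ, hτ, h1, h2, h3⟩ := exists_exit hP (intP_subset ψ H hp) hv' (by linarith : 0 < ε / 2) hin
  have hτ0 : 0 < τ := by linarith
  rcases bdry_cases hP h1 h2 with ⟨i, hi⟩ | ⟨a, ha⟩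
  · left
    set p' := p + τ * (-v) with hp'
    have hpos : 0 < ip (-v) (nrm ψ i) := ip_pos_of_exit hp hτ0 hi
    have hneg : ip (-(rf ψ i v)) (nrm ψ i) < 0 := by
      rw [ip_neg_left, ip_rf_nrm]
      rw [ip_neg_left] at hpos
      linarith
    obtain ⟨s0, hs0, hs⟩ := inward_of_side hi hneg
    have hback : p' + (s0 : ℂ) * (-(rf ψ i v)) + s0 * rf ψ i v = p' := by ring
    refine ⟨(rf ψ i v, ip p' (I * rf ψ i v)), ?_, p' + s0 * (-(rf ψ i v)), hs s0 hs0 le_rfl, s0,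
      hs0, i, ?_, ?_, ?_, ?_⟩
    · show ‖rf ψ i v‖ = 1
      rw [norm_rf, hv]
    · show ip (p' + s0 * (-(rf ψ i v))) (I * rf ψ i v) = ip p' (I * rf ψ i v)
      rw [ch_ip_add_smul, ip_neg_left, ch_ip_I]
      ring
    · show p' + (s0 : ℂ) * (-(rf ψ i v)) + s0 * rf ψ i v ∈ side ψ H i
      rw [hback]; exact hi
    · show v = rf ψ i (rf ψ i v)
      rw [rf_rf]
    · show u = ip (p' + (s0 : ℂ) * (-(rf ψ i v)) + s0 * rf ψ i v) (I * v)
      rw [hback, hp', ch_ip_add_smul, ip_neg_left, ch_ip_I, hpu]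
      ring
  · right
    refine ⟨a, p, hp, τ, hτ0, hpu, ?_⟩
    rw [← ha]; ring

theorem ch_vert_not_int (ψ H : ℝ) (a : Fin 5) : vert ψ H a ∉ intP ψ H := by
  intro h
  fin_cases a
  · have := h 0
    simp [vert, nrm, off, ip] at this
  · have := h 0
    simp [vert, nrm, off, ip] at this
  · have := h 1
    simp [vert, nrm, off, ip] at this
  · have := h 2
    simp [vert, nrm, off, ip] at this
  · have := h 3
    simp [vert, nrm, off, ip] at this

/-- a chord whose entry point is a vertex does not come from another chord -/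
theorem no_entry_of_vert {ψ H : ℝ} (hP : Par ψ H) {v p : ℂ} {a : Fin 5} {τ : ℝ} (hτ : 0 < τ)
    (hp : p ∈ intP ψ H) (e : p = vert ψ H a + τ * v) {u : ℝ} (hu : ip p (I * v) = u) :
    ¬ ∃ x, ChS ψ H x (v, u) := by
  rintro ⟨x, hx⟩
  obtain ⟨i, p', hp', _, _, _, _, _, e3⟩ := hx.exit
  obtain ⟨τ', hτ', eτ'⟩ := e3 p hp hu
  have eτ'' : p = p' + τ' * v := eτ'
  have e0 : vert ψ H a + τ * v = p' + τ' * v := e.symm.trans eτ''
  rcases lt_trichotomy τ' τ with h | h | h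
  · -- p' is between the vertex and p
    have e4 : p' = vert ψ H a + ((τ - τ' : ℝ) : ℂ) * v := by
      push_cast
      linear_combination -e0
    have hin := seg_int (vert_mem hP a) (e ▸ hp) (s := τ - τ') (by linarith) (by linarith)
    rw [← e4] at hin
    exact absurd hp'.1 (hin i).ne
  · subst h
    have e4 : vert ψ H a = p' := by linear_combination e0
    exact vert_not_side hP a i (e4 ▸ hp')
  · have e4 : vert ψ H a = p' + ((τ' - τ : ℝ) : ℂ) * v := by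
      push_cast
      linear_combination e0
    have hin := seg_int (side_subset ψ H i hp') (eτ'' ▸ hp) (s := τ' - τ) (by linarith) (by linarith)
    rw [← e4] at hin
    exact ch_vert_not_int ψ H a hin

theorem finite_no_exit {ψ H : ℝ} (hP : Par ψ H) {v : ℂ} (hv : ‖v‖ = 1) :
    {u : ℝ | u ∈ Sl ψ H v ∧ ¬ ∃ y, ChS ψ H (v, u) y}.Finite := by
  refine (Set.finite_range (fun a : Fin 5 => ip (vert ψ H a) (I * v))).subset ?_
  rintro u ⟨hu, hn⟩
  rcases chord_exit_cases hP hv hu with h | ⟨a, p, hp, τ, hτ, h1, h2⟩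
  · exact absurd h hn
  · refine ⟨a, ?_⟩
    show ip (vert ψ H a) (I * v) = u
    rw [h2, ch_same, h1]

theorem finite_no_entry {ψ H : ℝ} (hP : Par ψ H) {v : ℂ} (hv : ‖v‖ = 1) :
    {u : ℝ | u ∈ Sl ψ H v ∧ ¬ ∃ x, ChS ψ H x (v, u)}.Finite := by
  refine (Set.finite_range (fun a : Fin 5 => ip (vert ψ H a) (I * v))).subset ?_
  rintro u ⟨hu, hn⟩
  rcases chord_entry_cases hP hv hu with h | ⟨a, p, hp, τ, hτ, h1, h2⟩
  · exact absurd h hn
  · refine ⟨a, ?_⟩
    show ip (vert ψ H a) (I * v) = u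
    rw [← h1, h2, ch_same]

theorem ch_side_nonempty {ψ H : ℝ} (hP : Par ψ H) (i : Fin 5) : ∃ p, p ∈ side ψ H i := by
  obtain ⟨s1, s2⟩ := hP.sin_bd
  obtain ⟨c1, c2⟩ := hP.cos_bd
  obtain ⟨h1, h2⟩ := hP.H_bd
  have hs0 : (0:ℝ) < Real.sin ψ := by linarith
  fin_cases i
  · refine ⟨⟨1 / 2, 0⟩, ?_, ?_⟩
    · simp [nrm, off, ip]
    · intro j hj
      fin_cases j
      · exact absurd rfl hj
      · simp [nrm, off, ip]; norm_num
      · simp [nrm, off, ip]; linarith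
      · simp [nrm, off, ip]
      · simp [nrm, off, ip, b]; linarith
  · refine ⟨⟨1, 1 / 4⟩, ?_, ?_⟩
    · simp [nrm, off, ip]
    · intro j hj
      fin_cases j
      · simp [nrm, off, ip]
      · exact absurd rfl hj
      · simp [nrm, off, ip]; linarith
      · simp [nrm, off, ip]
      · simp [nrm, off, ip, b]; linarith
  · refine ⟨⟨1 / 2, H⟩, ?_, ?_⟩
    · simp [nrm, off, ip]
    · intro j hj
      fin_cases j
      · simp [nrm, off, ip]; linarith
      · simp [nrm, off, ip]; norm_num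
      · exact absurd rfl hj
      · simp [nrm, off, ip]
      · simp [nrm, off, ip, b]; nlinarith
  · refine ⟨⟨0, 1 / 4⟩, ?_, ?_⟩
    · simp [nrm, off, ip]
    · intro j hj
      fin_cases j
      · simp [nrm, off, ip]
      · simp [nrm, off, ip]
      · simp [nrm, off, ip]; linarith
      · exact absurd rfl hj
      · simp [nrm, off, ip, b]; linarith
  · refine ⟨⟨b * Real.cos ψ / Real.sin ψ / 2, b / 2⟩, ?_, ?_⟩
    · simp [nrm, off, ip]
      field_simp
      ring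
    · have hq : Real.cos ψ / Real.sin ψ < 2 := by
        rw [div_lt_iff₀ hs0]; linarith
      have hq0 : 0 < Real.cos ψ / Real.sin ψ := by
        apply div_pos <;> linarith
      have hrw : b * Real.cos ψ / Real.sin ψ / 2 = (Real.cos ψ / Real.sin ψ) / 200 := by
        unfold b; ring
      intro j hj
      rw [hrw]
      fin_cases j
      · simp [nrm, off, ip, b]
      · simp [nrm, off, ip]; linarith
      · simp [nrm, off, ip, b]; linarith
      · simp [nrm, off, ip]; linarith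
      · exact absurd rfl hj

/-- chords in direction `v` leave through side `i` if `ip v (nrm i) > 0` -/
theorem exists_chord_through {ψ H : ℝ} (hP : Par ψ H) {v : ℂ} (hv : ‖v‖ = 1) {i : Fin 5}
    (hi : 0 < ip v (nrm ψ i)) : ∃ u z, ChS ψ H (v, u) (rf ψ i v, z) := by
  obtain ⟨p', hp'⟩ := ch_side_nonempty hP i
  have hneg : ip (-v) (nrm ψ i) < 0 := by rw [ip_neg_left]; linarith
  obtain ⟨s0, hs0, hs⟩ := inward_of_side hp' hneg
  have hback : p' + (s0 : ℂ) * (-v) + s0 * v = p' := by ring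
  refine ⟨ip (p' + s0 * (-v)) (I * v), ip p' (I * rf ψ i v), hv, p' + s0 * (-v),
    hs s0 hs0 le_rfl, s0, hs0, i, rfl, ?_, rfl, ?_⟩
  · show p' + (s0 : ℂ) * (-v) + s0 * v ∈ side ψ H i
    rw [hback]; exact hp'
  · show ip p' (I * rf ψ i v) = ip (p' + (s0 : ℂ) * (-v) + s0 * v) (I * rf ψ i v)
    rw [hback]

end

end FC28
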