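import Pool.Agent.Lib.MP_fc28e0_an.Chord

/-! # A finite chain of chords gives a `Reach` -/

open Complex

namespace FC28

noncomputable section

theorem chb_conj_mem {ψ : ℝ} {c : ℂ} (hc : c ∈ CC ψ) : (starRingEnd ℂ) c ∈ CC ψ := by
  obtain ⟨j, h | h⟩ := hc
  · refine ⟨-j, Or.inl ?_⟩
    rw [h, ← Complex.exp_conj]
    congr 1
    simp only [map_mul, Complex.conj_ofReal, Complex.conj_I, map_ofNat, map_intCast]
    push_cast
    ring
  · refine ⟨-j, Or.inr ?_⟩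
    rw [h, map_neg, ← Complex.exp_conj]
    congr 2
    simp only [map_mul, Complex.conj_ofReal, Complex.conj_I, map_ofNat, map_intCast]
    push_cast
    ring

theorem chb_neg_mem {ψ : ℝ} {c : ℂ} (hc : c ∈ CC ψ) : -c ∈ CC ψ := by
  obtain ⟨j, h | h⟩ := hc
  · exact ⟨j, Or.inr (by rw [h])⟩
  · exact ⟨j, Or.inl (by rw [h, neg_neg])⟩

theorem chb_rot_mem {ψ : ℝ} {c : ℂ} (hc : c ∈ CC ψ) :
    Complex.exp (-(2 * ψ * I)) * c ∈ CC ψ := by
  obtain ⟨j, h | h⟩ := hc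
  · refine ⟨j - 1, Or.inl ?_⟩
    rw [h, ← Complex.exp_add]
    congr 1
    push_cast
    ring
  · refine ⟨j - 1, Or.inr ?_⟩
    rw [h, mul_neg, ← Complex.exp_add]
    congr 2
    push_cast
    ring

theorem chb_rep_conj {m : ℕ} {H : ℝ} {c v : ℂ} (h : Rep m H c v) :
    Rep m H ((starRingEnd ℂ) c) ((starRingEnd ℂ) v) := by
  rcases h with h | h
  · right; rw [h, map_mul]
  · left; rw [h, map_mul, Complex.conj_conj]

theorem chb_rep_neg {m : ℕ} {H : ℝ} {c v : ℂ} (h : Rep m H c v) : Rep m H (-c) (-v) := by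
  rcases h with h | h
  · left; rw [h, neg_mul]
  · right; rw [h, neg_mul]

theorem chb_rep_mul {m : ℕ} {H : ℝ} {c v : ℂ} (a : ℂ) (h : Rep m H c v) :
    Rep m H (a * c) (a * v) := by
  rcases h with h | h
  · left; rw [h, mul_assoc]
  · right; rw [h, mul_assoc]

/-- transport of the representation through a reflection -/
theorem chb_rep_rf {ψ : ℝ} {m : ℕ} {H : ℝ} (i : Fin 5) {c v : ℂ} (hc : c ∈ CC ψ)
    (h : Rep m H c v) :
    ∃ c0 ∈ CC ψ, Rep m H c0 (rf ψ i v) ∧ (i ≠ 4 → |c0.im| = |c.im|) := by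
  fin_cases i
  · refine ⟨(starRingEnd ℂ) c, chb_conj_mem hc, ?_, fun _ => ?_⟩
    · show Rep m H _ (rf ψ 0 v)
      rw [rf_zero]; exact chb_rep_conj h
    · rw [Complex.conj_im, abs_neg]
  · refine ⟨-(starRingEnd ℂ) c, chb_neg_mem (chb_conj_mem hc), ?_, fun _ => ?_⟩
    · show Rep m H _ (rf ψ 1 v)
      rw [rf_one]; exact chb_rep_neg (chb_rep_conj h)
    · rw [Complex.neg_im, Complex.conj_im, neg_neg]
  · refine ⟨(starRingEnd ℂ) c, chb_conj_mem hc, ?_, fun _ => ?_⟩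
    · show Rep m H _ (rf ψ 2 v)
      rw [rf_two]; exact chb_rep_conj h
    · rw [Complex.conj_im, abs_neg]
  · refine ⟨-(starRingEnd ℂ) c, chb_neg_mem (chb_conj_mem hc), ?_, fun _ => ?_⟩
    · show Rep m H _ (rf ψ 3 v)
      rw [rf_three]; exact chb_rep_neg (chb_rep_conj h)
    · rw [Complex.neg_im, Complex.conj_im, neg_neg]
  · refine ⟨Complex.exp (-(2 * ψ * I)) * (starRingEnd ℂ) c, chb_rot_mem (chb_conj_mem hc), ?_,
      fun h4 => absurd rfl h4⟩
    show Rep m H _ (rf ψ 4 v)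
    rw [rf_four]
    exact chb_rep_mul _ (chb_rep_conj h)

/-- a finite chain of chords from a vertex to a vertex gives a `Reach`; moreover the
representation `Rep` of directions is transported back along the chain -/
theorem reach_of_chain {ψ H : ℝ} (hP : Par ψ H) (m n : ℕ) (x : ℕ → ℂ × ℝ)
    (hx : ∀ i < n, ChS ψ H (x i) (x (i + 1))) (hx0 : ‖(x 0).1‖ = 1) {A B : ℂ}
    (hA : A ∈ inP ψ H) (hA2 : ∃ p ∈ intP ψ H, ∃ τ : ℝ, 0 < τ ∧ ip p (I * (x 0).1) = (x 0).2 ∧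
      p = A + τ * (x 0).1)
    (hB : B ∈ inP ψ H) (hB2 : ∃ p ∈ intP ψ H, ∃ τ : ℝ, 0 < τ ∧ ip p (I * (x n).1) = (x n).2 ∧
      B = p + τ * (x n).1) (hBv : B ∉ intP ψ H) :
    ∃ w, Reach ψ H A (x 0).1 w B ∧ ∀ j ≤ n, ∀ c ∈ CC ψ, Rep m H c (x j).1 →
      ∃ c0 ∈ CC ψ, Rep m H c0 (x 0).1 ∧ (4 ∉ w → |c0.im| = |c.im|) := by
  induction n generalizing x A with
  | zero =>
    obtain ⟨p, hp, τ1, hτ1, h1, e1⟩ := hA2
    obtain ⟨p2, hp2, τ2, hτ2, h2, e2⟩ := hB2
    obtain ⟨s, hs⟩ := ch_on_line (p := p) (q := p2) hx0 (by rw [h1, h2])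
    have eB : B = A + ((τ1 + s + τ2 : ℝ) : ℂ) * (x 0).1 := by
      rw [e2, hs, e1]; push_cast; ring
    have ep2 : p2 = A + ((τ1 + s : ℝ) : ℂ) * (x 0).1 := by
      rw [hs, e1]; push_cast; ring
    have hT : τ1 < τ1 + s + τ2 := by
      by_contra hcon
      apply hBv
      rw [eB]
      exact ch_between (s := τ1 + s) (t := τ1) (by rw [← ep2]; exact hp2) (by rw [← e1]; exact hp)
        (by linarith) (by linarith)
    refine ⟨[], Reach.last (τ := τ1 + s + τ2) (by linarith) hA ?_ eB, ?_⟩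
    · intro r hr0 hr1
      by_cases hr : r ≤ τ1
      · exact seg_int hA (by rw [← e1]; exact hp) hr0 hr
      · have hin : B + ((s + τ2 : ℝ) : ℂ) * (-(x 0).1) ∈ intP ψ H := by
          have : B + ((s + τ2 : ℝ) : ℂ) * (-(x 0).1) = p := by
            rw [eB, e1]; push_cast; ring
          rw [this]; exact hp
        have := seg_int (s := τ1 + s + τ2 - r) hB hin (by linarith) (by linarith)
        have e3 : B + ((τ1 + s + τ2 - r : ℝ) : ℂ) * (-(x 0).1) = A + (r : ℂ) * (x 0).1 := by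
          rw [eB]; push_cast; ring
        rwa [e3] at this
    · intro j hj c hc hrep
      have : j = 0 := Nat.le_zero.mp hj
      subst this
      exact ⟨c, hc, hrep, fun _ => rfl⟩
  | succ n ih =>
    have h01 := hx 0 (Nat.succ_pos n)
    obtain ⟨i, p', hp', hpos, e1, e2, e3, e4, e5⟩ := h01.exit
    obtain ⟨p, hp, τ, hτ, h1, h2⟩ := hA2
    obtain ⟨τ', hτ', h3⟩ := e4 p hp h1
    obtain ⟨q, hq, hq1⟩ := h01.memR
    obtain ⟨τ'', hτ'', h4⟩ := e5 q hq hq1
    obtain ⟨w, hw, hw2⟩ := ih (fun k => x (k + 1)) (fun k hk => hx (k + 1) (Nat.succ_lt_succ hk))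
      h01.norm (A := p') (side_subset ψ H i hp') ⟨q, hq, τ'', hτ'', hq1, h4⟩ hB2
    refine ⟨i :: w, Reach.step (τ := τ + τ') i (by linarith) hA hp' hpos ?_ e1 hw, ?_⟩
    · rw [← h3, h2]; push_cast; ring
    · intro j hj c hc hrep
      cases j with
      | zero => exact ⟨c, hc, hrep, fun _ => rfl⟩
      | succ j =>
        obtain ⟨c1, hc1, hr1, him⟩ := hw2 j (Nat.le_of_succ_le_succ hj) c hc hrep
        obtain ⟨c0, hc0, hr0, him0⟩ := chb_rep_rf i hc1 hr1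
        refine ⟨c0, hc0, ?_, fun h4 => ?_⟩
        · have : (x 0).1 = rf ψ i (x (0 + 1)).1 := by rw [e1, rf_rf]
          rw [this]; exact hr0
        · rw [List.mem_cons, not_or] at h4
          rw [him0 (Ne.symm h4.1), him h4.2]

end

end FC28
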