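import Pool.Agent.Lib.MP_fc28e0_an.Fold

/-! # Crossing the cylinder `C_m` in `k` periods -/

open Complex

namespace FC28

namespace Cross

/-- point of the side `K` -/
noncomputable def kp (τ x : ℝ) : ℂ := ⟨x, b - x * τ⟩

theorem tan_bd {ψ H : ℝ} (hP : Par ψ H) :
    9 / 10 < Real.sin ψ / Real.cos ψ ∧ Real.sin ψ / Real.cos ψ < 11 / 10 := by
  obtain ⟨s1, s2⟩ := hP.sin_bd
  obtain ⟨c1, c2⟩ := hP.cos_bd
  have hc : 0 < Real.cos ψ := by linarith
  constructor
  · rw [lt_div_iff₀ hc]; linarith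
  · rw [div_lt_iff₀ hc]; linarith

theorem kp_mem {ψ H x : ℝ} (hP : Par ψ H) (h0 : 0 < x) (h1 : x < 1 / 200) :
    kp (Real.sin ψ / Real.cos ψ) x ∈ side ψ H 4 := by
  obtain ⟨s1, s2⟩ := hP.sin_bd
  obtain ⟨c1, c2⟩ := hP.cos_bd
  obtain ⟨t1, t2⟩ := tan_bd hP
  obtain ⟨H1, H2⟩ := hP.H_bd
  have hc : 0 < Real.cos ψ := by linarith
  have ht : Real.sin ψ / Real.cos ψ * Real.cos ψ = Real.sin ψ := div_mul_cancel₀ _ hc.ne'
  set τ := Real.sin ψ / Real.cos ψ
  have hxt : x * τ < 1 / 150 := by nlinarith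
  have hxt0 : 0 < x * τ := by positivity
  refine ⟨?_, ?_⟩
  · simp only [ip, kp, nrm, off, b, Matrix.cons_val]
    rw [← ht]; ring
  · intro j hj
    fin_cases j
    · simp only [ip, kp, nrm, off, b]; simp; linarith
    · simp only [ip, kp, nrm, off, b]; simp; linarith
    · simp only [ip, kp, nrm, off, b]; simp; linarith
    · simp only [ip, kp, nrm, off, b]; simp; linarith
    · exact absurd rfl hj

/-- numeric facts -/
theorem facts {H τ : ℝ} (hH1 : 49 / 100 < H) (hH2 : H < 51 / 100) (hτ1 : 9 / 10 < τ)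
    (hτ2 : τ < 11 / 10) {K M s : ℝ} (hk : 4 ≤ K) (hm : M = 1 ∨ M = 2) (h0 : 0 < s)
    (hs : s * K ≤ 1 / 100) {Ux Uy : ℝ}
    (hUx : Ux = 2 * (K * M - 1) - s) (hUy : Uy = 2 * K * H - 2 * b + s * τ) :
    s ≤ 1 / 400 ∧ K ≤ Ux ∧ Ux ≤ 4 * K ∧ 3 ≤ Uy ∧ Uy ≤ 2 * K ∧ Uy ≤ τ * Ux := by
  have hb : b = 1 / 100 := rfl
  have h1 : s ≤ 1 / 400 := by nlinarith
  have h2 : s * τ ≤ 1 / 300 := by nlinarith
  have h3 : 0 < s * τ := by positivity
  have h4 : K * H ≤ K * (51 / 100) := by nlinarith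
  have h5 : K * (49 / 100) ≤ K * H := by nlinarith
  have h6 : K * (9 / 10) ≤ K * τ := by nlinarith
  rw [hb] at hUy
  rcases hm with rfl | rfl
  · refine ⟨h1, by linarith, by linarith, by linarith, by linarith, ?_⟩
    have e : τ * Ux = 2 * (K * τ) - 2 * τ - s * τ := by rw [hUx]; ring
    rw [e, hUy]; linarith
  · refine ⟨h1, by linarith, by linarith, by linarith, by linarith, ?_⟩
    have e : τ * Ux = 4 * (K * τ) - 2 * τ - s * τ := by rw [hUx]; ring
    rw [e, hUy]; linarith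

theorem kappa_bd {H τ : ℝ} (hH1 : 49 / 100 < H) (hτ1 : 9 / 10 < τ) {M s : ℝ} (hm : M = 1 ∨ M = 2) (h0 : 0 < s) :
    9 / 10 ≤ 2 * H + H * s - M * (2 * b - s * τ) := by
  have hb : b = 1 / 100 := rfl
  have h3 : 0 < s * τ := by positivity
  have h4 : 0 < H * s := by positivity
  rw [hb]
  rcases hm with rfl | rfl <;> linarith

/-- case `l = 1`, `j < k` -/
theorem case1 {H τ : ℝ} (hH1 : 49 / 100 < H) (hH2 : H < 51 / 100) (hτ1 : 9 / 10 < τ)
    (hτ2 : τ < 11 / 10) {K M s : ℝ} (hk : 4 ≤ K) (hm : M = 1 ∨ M = 2) (h0 : 0 < s)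
    (hs : s * K ≤ 1 / 100) {Ux Uy : ℝ}
    (hUx : Ux = 2 * (K * M - 1) - s) (hUy : Uy = 2 * K * H - 2 * b + s * τ) :
    Ux * b < Uy - (K - 1) * (2 * H + H * s - M * (2 * b - s * τ)) := by
  have hb : b = 1 / 100 := rfl
  have hid2 : Uy - (K - 1) * (2 * H + H * s - M * (2 * b - s * τ)) - Ux * b =
      2 * H - 2 * M * b + s * (τ + b) - (K - 1) * s * (H + M * τ) := by
    rw [hUx, hUy]; ring
  have h5 : (K - 1) * s ≤ 1 / 100 := by nlinarith
  have h6 : 0 ≤ (K - 1) * s := mul_nonneg (by linarith) h0.le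
  have h7 : (K - 1) * s * (H + M * τ) ≤ 1 / 100 * 3 := by
    have h1 : H + M * τ ≤ 3 := by rcases hm with rfl | rfl <;> linarith
    have h0' : 0 ≤ H + M * τ := by rcases hm with rfl | rfl <;> linarith
    exact mul_le_mul h5 h1 h0' (by norm_num)
  have h8 : 0 < s * (τ + b) := by rw [hb]; positivity
  have h9 : 2 * M * b ≤ 4 / 100 := by rw [hb]; rcases hm with rfl | rfl <;> norm_num
  linarith

/-- case `l ≥ 2` -/
theorem case2 {H τ : ℝ} (hH1 : 49 / 100 < H) (hH2 : H < 51 / 100) (hτ1 : 9 / 10 < τ)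
    (hτ2 : τ < 11 / 10) {K M s : ℝ} (hk : 4 ≤ K) (hm : M = 1 ∨ M = 2) (h0 : 0 < s)
    (hs : s * K ≤ 1 / 100) {Ux Uy : ℝ}
    (hUx : Ux = 2 * (K * M - 1) - s) (hUy : Uy = 2 * K * H - 2 * b + s * τ) :
    Ux * b < 2 * Uy - K * (2 * H + H * s - M * (2 * b - s * τ)) := by
  have hb : b = 1 / 100 := rfl
  have hid2 : 2 * Uy - K * (2 * H + H * s - M * (2 * b - s * τ)) - Ux * b =
      2 * (K * H) - 2 * b + 2 * (s * τ) + s * b - K * s * (H + M * τ) := by
    rw [hUx, hUy]; ring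
  have h5 : K * s ≤ 1 / 100 := by linarith
  have h6 : 0 ≤ K * s := mul_nonneg (by linarith) h0.le
  have h7 : K * s * (H + M * τ) ≤ 1 / 100 * 3 := by
    have h1 : H + M * τ ≤ 3 := by rcases hm with rfl | rfl <;> linarith
    have h0' : 0 ≤ H + M * τ := by rcases hm with rfl | rfl <;> linarith
    exact mul_le_mul h5 h1 h0' (by norm_num)
  have h8 : 0 < s * τ := by positivity
  have h9 : 0 < s * b := by rw [hb]; positivity
  have h10 : K * (49 / 100) ≤ K * H := by nlinarith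
  rw [hb] at *
  linarith

/-- the segment avoids all obstacles -/
theorem avoid {H τ : ℝ} (hH1 : 49 / 100 < H) (hH2 : H < 51 / 100) (hτ1 : 9 / 10 < τ)
    (hτ2 : τ < 11 / 10) {k m : ℕ} (hk : 4 ≤ k) (hm : m = 1 ∨ m = 2) {x0 x1 : ℝ} (h0 : 0 < x0)
    (h1 : 0 < x1) (hs : (x0 + x1) * k ≤ 1 / 100) {Ux Uy : ℝ}
    (hUx : Ux = 2 * (k * m - 1) - (x0 + x1)) (hUy : Uy = 2 * k * H - 2 * b + (x0 + x1) * τ)
    {t : ℝ} (ht0 : 0 < t) (ht1 : t < 1) (i j : ℤ) :
    b < τ * |x0 + t * Ux - 2 * i| + |b - x0 * τ + t * Uy - 2 * j * H| := by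
  by_contra hcon
  push Not at hcon
  have hb : b = 1 / 100 := rfl
  have hkR : (4 : ℝ) ≤ k := by exact_mod_cast hk
  have hmR : (m : ℝ) = 1 ∨ (m : ℝ) = 2 := by rcases hm with rfl | rfl <;> norm_num
  have hs0 : 0 < x0 + x1 := by positivity
  obtain ⟨hsmall, hUx1, hUx2, hUy1, hUy2, hUyUx⟩ :=
    facts hH1 hH2 hτ1 hτ2 hkR hmR hs0 hs hUx hUy
  have hκ1 := kappa_bd hH1 hτ1 hmR hs0
  have hC1 := case1 hH1 hH2 hτ1 hτ2 hkR hmR hs0 hs hUx hUy
  have hC2 := case2 hH1 hH2 hτ1 hτ2 hkR hmR hs0 hs hUx hUy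
  set κ := 2 * H + H * (x0 + x1) - m * (2 * b - (x0 + x1) * τ) with hκ
  have hx0k : x0 * k ≤ 1 / 100 := by
    have : x0 * k ≤ (x0 + x1) * k := mul_le_mul_of_nonneg_right (by linarith) (by linarith)
    linarith
  have hτ0 : 0 < τ := by linarith
  have hUx0 : 0 < Ux := by linarith
  have hUy0 : 0 < Uy := by linarith
  have hx0τ : 0 < x0 * τ := by positivity
  have hsτ : (x0 + x1) * τ ≤ 1 / 300 := by
    calc (x0 + x1) * τ ≤ 1 / 400 * (11 / 10) := mul_le_mul hsmall hτ2.le hτ0.le (by norm_num)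
      _ ≤ 1 / 300 := by norm_num
  have hx1τ : 0 < x1 * τ := by positivity
  have hexp : (x0 + x1) * τ = x0 * τ + x1 * τ := by ring
  set dx := x0 + t * Ux - 2 * i with hdx
  set dy := b - x0 * τ + t * Uy - 2 * j * H with hdy
  have hτdx : 0 ≤ τ * |dx| := by positivity
  have hady : |dy| ≤ b := by linarith
  obtain ⟨hdy1, hdy2⟩ := abs_le.1 hady
  have htUy : 0 < t * Uy := by positivity
  have htUy2 : t * Uy ≤ Uy := by
    calc t * Uy ≤ 1 * Uy := mul_le_mul_of_nonneg_right ht1.le hUy0.le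
      _ = Uy := one_mul _
  -- range of `j`
  have hj0 : 0 ≤ j := by
    by_contra hj
    have : j ≤ -1 := by omega
    have hjR : (j : ℝ) ≤ -1 := by exact_mod_cast this
    have h2 : (j : ℝ) * H ≤ -1 * H := mul_le_mul_of_nonneg_right hjR (by linarith)
    linarith
  have hjk : j ≤ k := by
    by_contra hj
    have : (k : ℤ) + 1 ≤ j := by omega
    have hjR : (k : ℝ) + 1 ≤ j := by exact_mod_cast this
    have h2 : ((k : ℝ) + 1) * H ≤ (j : ℝ) * H := mul_le_mul_of_nonneg_right hjR (by linarith)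
    linarith
  have hj0R : (0 : ℝ) ≤ j := by exact_mod_cast hj0
  have hjkR : (j : ℝ) ≤ k := by exact_mod_cast hjk
  -- cross product
  have hcr : |Ux * dy - Uy * dx| ≤ Ux * b := by
    calc |Ux * dy - Uy * dx| ≤ |Ux * dy| + |Uy * dx| := abs_sub _ _
      _ = Ux * |dy| + Uy * |dx| := by
          rw [abs_mul, abs_mul, abs_of_pos hUx0, abs_of_pos hUy0]
      _ ≤ Ux * |dy| + (τ * Ux) * |dx| := by
          have := mul_le_mul_of_nonneg_right hUyUx (abs_nonneg dx)
          linarith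
      _ = Ux * (τ * |dx| + |dy|) := by ring
      _ ≤ Ux * b := mul_le_mul_of_nonneg_left hcon hUx0.le
  obtain ⟨hc1, hc2⟩ := abs_le.1 hcr
  set l : ℤ := j * m - i with hl
  have hlR : (l : ℝ) = j * m - i := by rw [hl]; push_cast; ring
  have hA : x0 * (Ux * τ + Uy) ≤ 1 / 10 := by
    have h2 : Ux * τ + Uy ≤ 7 * k := by
      have : Ux * τ ≤ (4 * k) * (11 / 10) := mul_le_mul hUx2 hτ2.le hτ0.le (by linarith)
      linarith
    calc x0 * (Ux * τ + Uy) ≤ x0 * (7 * k) := mul_le_mul_of_nonneg_left h2 h0.le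
      _ = 7 * (x0 * k) := by ring
      _ ≤ 1 / 10 := by linarith
  have hA0 : 0 ≤ x0 * (Ux * τ + Uy) := by
    have : 0 < Ux * τ := by positivity
    exact mul_nonneg h0.le (by linarith)
  have hid : Ux * dy - Uy * dx = Ux * b - x0 * (Ux * τ + Uy) - 2 * (l * Uy - j * κ) := by
    rw [hdx, hdy, hlR, hκ, hUx, hUy]; ring
  rw [hid] at hc1 hc2
  rcases lt_trichotomy l 0 with hl0 | hl0 | hl0
  · -- `l ≤ -1`
    have : l ≤ -1 := by omega
    have hlm : (l : ℝ) ≤ -1 := by exact_mod_cast this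
    have h3 : (l : ℝ) * Uy ≤ -1 * Uy := mul_le_mul_of_nonneg_right hlm hUy0.le
    have h4 : 0 ≤ (j : ℝ) * κ := mul_nonneg hj0R (by linarith)
    linarith
  · -- `l = 0`
    rw [hl0] at hc1 hc2
    push_cast at hc1 hc2
    by_cases hj1 : j = 0
    · have hi0 : i = 0 := by
        rw [hj1] at hl; rw [hl0] at hl; omega
      have e1 : dx = x0 + t * Ux := by rw [hdx, hi0]; simp
      have e2 : dy = b - x0 * τ + t * Uy := by rw [hdy, hj1]; simp
      have h3 := le_abs_self dx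
      have h4 := le_abs_self dy
      have h6 : 0 < τ * (t * Ux) := by positivity
      have h7 : τ * dx ≤ τ * |dx| := mul_le_mul_of_nonneg_left h3 hτ0.le
      have h8 : τ * dx = x0 * τ + τ * (t * Ux) := by rw [e1]; ring
      linarith
    · have : 1 ≤ j := by omega
      have hj1R : (1 : ℝ) ≤ j := by exact_mod_cast this
      have h4 : 1 * κ ≤ (j : ℝ) * κ := mul_le_mul_of_nonneg_right hj1R (by linarith)
      linarith
  · by_cases hl1 : l = 1
    · rw [hl1] at hc1 hc2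
      push_cast at hc1 hc2
      by_cases hj1 : j = k
      · -- final obstacle
        have hiR : (i : ℝ) = k * m - 1 := by
          rw [hl1, hj1] at hlR; push_cast at hlR; linarith
        have hjR : (j : ℝ) = k := by rw [hj1]; push_cast; rfl
        have e1 : dx = -(x1 + (1 - t) * Ux) := by rw [hdx, hiR, hUx]; ring
        have e2 : dy = -(b - x1 * τ + (1 - t) * Uy) := by rw [hdy, hjR, hUy]; ring
        have h3 := neg_abs_le dx
        have h4 := neg_abs_le dy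
        have ht2 : 0 < 1 - t := by linarith
        have h5 : 0 < (1 - t) * Uy := by positivity
        have h6 : 0 < τ * ((1 - t) * Ux) := by positivity
        have h7 : τ * (-dx) ≤ τ * |dx| := mul_le_mul_of_nonneg_left (by linarith) hτ0.le
        have h8 : τ * (-dx) = x1 * τ + τ * ((1 - t) * Ux) := by rw [e1]; ring
        linarith
      · have : j ≤ k - 1 := by omega
        have hj1R : (j : ℝ) ≤ k - 1 := by exact_mod_cast this
        have h4 : (j : ℝ) * κ ≤ (k - 1) * κ := mul_le_mul_of_nonneg_right hj1R (by linarith)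
        linarith
    · have : 2 ≤ l := by omega
      have hlm : (2 : ℝ) ≤ l := by exact_mod_cast this
      have h3 : 2 * Uy ≤ (l : ℝ) * Uy := mul_le_mul_of_nonneg_right hlm hUy0.le
      have h4 : (j : ℝ) * κ ≤ k * κ := mul_le_mul_of_nonneg_right hjkR (by linarith)
      linarith

/-- generic `x1` avoids all grid points -/
theorem exists_x1 {H τ A B x0 η : ℝ} (hτ : 0 < τ) (hA : 0 < A) (hB : 0 < B) (h0 : 0 < x0)
    (h01 : x0 < 1) (hη : 0 < η) :
    ∃ x1, 0 < x1 ∧ x1 < η ∧ ∀ a l : ℤ,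
      (A - x1) * (l * H - (b - x0 * τ)) - (B + x1 * τ) * (a - x0) ≠ 0 := by
  set S : Set ℝ := ⋃ a : ℤ, ⋃ l : ℤ,
    {x | (A - x) * (l * H - (b - x0 * τ)) - (B + x * τ) * (a - x0) = 0} with hS
  have hcount : S.Countable := by
    refine Set.countable_iUnion fun a => Set.countable_iUnion fun l => ?_
    refine Set.Subsingleton.countable ?_
    intro x hx y hy
    by_contra hne
    simp only [Set.mem_ofPred_eq] at hx hy
    have e1 : (x - y) * ((l * H - (b - x0 * τ)) + τ * (a - x0)) = 0 := by linarith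
    have e2 : (l * H - (b - x0 * τ)) + τ * (a - x0) = 0 := by
      rcases mul_eq_zero.1 e1 with h | h
      · exact absurd (sub_eq_zero.1 h) hne
      · exact h
    have e3 : (A * τ + B) * (a - x0) = 0 := by
      have : l * H - (b - x0 * τ) = -(τ * (a - x0)) := by linarith
      rw [this] at hx
      linarith
    have e4 : (a : ℝ) - x0 = 0 := by
      rcases mul_eq_zero.1 e3 with h | h
      · exfalso; have : 0 < A * τ + B := by positivity
        linarith
      · exact h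
    have h2 : (0 : ℝ) < a := by linarith
    have h3 : (a : ℝ) < 1 := by linarith
    have h2' : (0 : ℤ) < a := by exact_mod_cast h2
    have h3' : a < (1 : ℤ) := by exact_mod_cast h3
    omega
  obtain ⟨x1, hx1, hx1'⟩ := (hcount.dense_compl ℝ).exists_between hη
  refine ⟨x1, hx1'.1, hx1'.2, fun a l h => hx1 ?_⟩
  simp only [hS, Set.mem_iUnion, Set.mem_ofPred_eq]
  exact ⟨a, l, h⟩

/-! ### the direction and the length -/

theorem norm_W {m : ℕ} (hm : m ≠ 0) (H : ℝ) :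
    1 ≤ Real.sqrt ((m : ℝ) ^ 2 + H ^ 2) := by
  rw [Real.one_le_sqrt]
  have : (1 : ℝ) ≤ m := by exact_mod_cast Nat.one_le_iff_ne_zero.2 hm
  nlinarith [sq_nonneg H]

theorem W_eq {m : ℕ} (hm : m ≠ 0) (H : ℝ) :
    (⟨m, H⟩ : ℂ) = (Real.sqrt ((m : ℝ) ^ 2 + H ^ 2) : ℝ) * em m H := by
  unfold em
  have h := norm_W hm H
  have : ((Real.sqrt ((m : ℝ) ^ 2 + H ^ 2) : ℝ) : ℂ) ≠ 0 := by
    exact_mod_cast (show Real.sqrt ((m : ℝ) ^ 2 + H ^ 2) ≠ 0 by linarith)
  rw [mul_div_cancel₀]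
  exact this

theorem norm_sub_sq_ip (a : ℝ) (e V : ℂ) (he : ‖e‖ = 1) :
    ‖(a : ℂ) * e - V‖ ^ 2 = a ^ 2 - 2 * a * ip e V + ‖V‖ ^ 2 := by
  have h1 : e.re * e.re + e.im * e.im = 1 := by
    rw [← Complex.normSq_apply, Complex.normSq_eq_norm_sq, he]; norm_num
  rw [← Complex.normSq_eq_norm_sq, ← Complex.normSq_eq_norm_sq, Complex.normSq_apply,
    Complex.normSq_apply]
  unfold ip
  simp only [Complex.sub_re, Complex.sub_im, Complex.mul_re, Complex.mul_im, Complex.ofReal_re,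
    Complex.ofReal_im]
  linear_combination a ^ 2 * h1

/-- length and direction of `a e - V` for large `a` -/
theorem asym {a : ℝ} {e V : ℂ} (he : ‖e‖ = 1) (hV : ‖V‖ ≤ 3) (ha : 8 ≤ a) :
    a / 2 ≤ ‖(a : ℂ) * e - V‖ ∧
    ‖((a : ℂ) * e - V) / (‖(a : ℂ) * e - V‖ : ℝ) - e‖ ≤ 12 / a ∧
    |‖(a : ℂ) * e - V‖ - (a - ip e V)| ≤ 9 / a := by
  set T := ‖(a : ℂ) * e - V‖ with hT
  have hae : ‖(a : ℂ) * e‖ = a := by
    rw [norm_mul, he, mul_one, Complex.norm_real, Real.norm_eq_abs, abs_of_pos (by linarith)]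
  have h1 : |T - a| ≤ 3 := by
    have : |‖(a : ℂ) * e - V‖ - ‖(a : ℂ) * e‖| ≤ ‖((a : ℂ) * e - V) - (a : ℂ) * e‖ :=
      abs_norm_sub_norm_le _ _
    rw [hae, ← hT] at this
    refine this.trans ?_
    rw [show ((a : ℂ) * e - V) - (a : ℂ) * e = -V by ring, norm_neg]; exact hV
  obtain ⟨h1a, h1b⟩ := abs_le.1 h1
  have hTa : a / 2 ≤ T := by linarith
  have hT0 : 0 < T := by linarith
  refine ⟨hTa, ?_, ?_⟩
  · have hTc : ((T : ℝ) : ℂ) ≠ 0 := by exact_mod_cast hT0.ne'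
    have e1 : ((a : ℂ) * e - V) / (T : ℝ) - e = (((a - T : ℝ) : ℂ) * e - V) / (T : ℝ) := by
      field_simp
      push_cast
      ring
    rw [e1, norm_div, Complex.norm_real, Real.norm_eq_abs, abs_of_pos hT0]
    have e2 : ‖((a - T : ℝ) : ℂ) * e - V‖ ≤ 6 := by
      calc ‖((a - T : ℝ) : ℂ) * e - V‖ ≤ ‖((a - T : ℝ) : ℂ) * e‖ + ‖V‖ := norm_sub_le _ _
        _ ≤ 3 + 3 := by
            refine add_le_add ?_ hV
            rw [norm_mul, he, mul_one, Complex.norm_real, Real.norm_eq_abs, abs_sub_comm]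
            exact h1
        _ = 6 := by norm_num
    calc ‖((a - T : ℝ) : ℂ) * e - V‖ / T ≤ 6 / T := div_le_div_of_nonneg_right e2 hT0.le
      _ ≤ 6 / (a / 2) := div_le_div_of_nonneg_left (by norm_num) (by linarith) hTa
      _ = 12 / a := by field_simp; norm_num
  · set g := ip e V with hg
    have hg3 : |g| ≤ 3 := by
      refine (abs_ip_le e V).trans ?_
      rw [he, one_mul]; exact hV
    obtain ⟨g1, g2⟩ := abs_le.1 hg3
    have hsq := norm_sub_sq_ip a e V he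
    rw [← hT, ← hg] at hsq
    have hS : a ≤ T + (a - g) := by linarith
    have e1 : (T - (a - g)) * (T + (a - g)) = ‖V‖ ^ 2 - g ^ 2 := by linear_combination hsq
    have hV9 : ‖V‖ ^ 2 ≤ 9 := by nlinarith [norm_nonneg V]
    have hg9 : g ^ 2 ≤ 9 := by nlinarith
    have e2 : |(T - (a - g)) * (T + (a - g))| ≤ 9 := by
      rw [e1, abs_le]
      constructor
      · nlinarith [sq_nonneg ‖V‖]
      · nlinarith [sq_nonneg g]
    rw [abs_mul, abs_of_pos (show 0 < T + (a - g) by linarith)] at e2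
    rw [le_div_iff₀ (by linarith)]
    calc |T - (a - g)| * a ≤ |T - (a - g)| * (T + (a - g)) :=
          mul_le_mul_of_nonneg_left hS (abs_nonneg _)
      _ ≤ 9 := e2

end Cross

open FC28.Cross in
/-- For all large `k` there is a billiard orbit from `q0 ∈ K` to `q1 ∈ K` (both near the vertex
`(0,b)`), with direction `u` near `em m H`, of duration `≈ c + k · len m H`. -/
theorem cross {ψ H : ℝ} (hP : Par ψ H) {m : ℕ} (hm : m = 1 ∨ m = 2) :
    ∃ c : ℝ, ∀ ε > 0, ∃ K : ℕ, ∀ k ≥ K, ∃ (q0 q1 u : ℂ) (T : ℝ),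
      q0 ∈ side ψ H 4 ∧ q1 ∈ side ψ H 4 ∧ ‖q0 - ⟨0, b⟩‖ < ε ∧ ‖q1 - ⟨0, b⟩‖ < ε ∧
      ‖u‖ = 1 ∧ ‖u - em m H‖ < ε ∧ 0 < T ∧ |T - (c + k * len m H)| < ε ∧
      ∀ (s : ℝ) (r z : ℂ), Orb ψ H s q1 (rf ψ 4 (-u)) r z → Orb ψ H (T + s) q0 u r z := by
  have hm0 : m ≠ 0 := by rcases hm with rfl | rfl <;> norm_num
  have hm1 : (1 : ℝ) ≤ m := by rcases hm with rfl | rfl <;> norm_num
  have hmR : (m : ℝ) = 1 ∨ (m : ℝ) = 2 := by rcases hm with rfl | rfl <;> norm_num
  obtain ⟨H1, H2⟩ := hP.H_bd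
  obtain ⟨t1, t2⟩ := tan_bd hP
  obtain ⟨cb1, cb2⟩ := hP.cos_bd
  have hcos : 0 < Real.cos ψ := by linarith
  have hsc : Real.sin ψ = Real.sin ψ / Real.cos ψ * Real.cos ψ := (div_mul_cancel₀ _ hcos.ne').symm
  have hmem : ∀ x : ℝ, 0 < x → x < 1 / 200 → kp (Real.sin ψ / Real.cos ψ) x ∈ side ψ H 4 :=
    fun x h0 h1 => kp_mem hP h0 h1
  set τ := Real.sin ψ / Real.cos ψ with hτ
  have hτ0 : 0 < τ := by linarith
  have he := norm_em (H := H) hm0
  have hr := norm_W hm0 H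
  refine ⟨-2 * ip (em m H) ⟨1, b⟩, fun ε hε => ?_⟩
  obtain ⟨K, hK⟩ := exists_nat_gt (50 / ε)
  refine ⟨max K 4, fun k hk => ?_⟩
  have hk4 : 4 ≤ k := le_trans (le_max_right _ _) hk
  have hkK : K ≤ k := le_trans (le_max_left _ _) hk
  have hkR : (4 : ℝ) ≤ k := by exact_mod_cast hk4
  have hk0 : (0 : ℝ) < k := by linarith
  have hkε : 50 / ε < k := lt_of_lt_of_le hK (by exact_mod_cast hkK)
  have hkε' : 50 / (k : ℝ) < ε := by
    rw [div_lt_iff₀ hε] at hkε
    rw [div_lt_iff₀ hk0]; linarith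
  -- the small parameters
  set η : ℝ := min (ε / 32) (1 / (1000 * k)) with hη
  have hη0 : 0 < η := by rw [hη]; positivity
  have hη1 : η ≤ ε / 32 := min_le_left _ _
  have hη2 : η * k ≤ 1 / 1000 := by
    calc η * k ≤ 1 / (1000 * k) * k := mul_le_mul_of_nonneg_right (min_le_right _ _) hk0.le
      _ = 1 / 1000 := by field_simp
  have hη3 : η < 1 / 200 := by
    have : η * 4 ≤ η * k := mul_le_mul_of_nonneg_left hkR hη0.le
    linarith
  set x0 : ℝ := η / 2 with hx0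
  have hx00 : 0 < x0 := by rw [hx0]; positivity
  have hA0 : 0 < 2 * ((k : ℝ) * m - 1) - x0 := by
    have : (k : ℝ) * 1 ≤ k * m := mul_le_mul_of_nonneg_left hm1 hk0.le
    linarith
  have hB0 : 0 < 2 * (k : ℝ) * H - 2 * b + x0 * τ := by
    have : (k : ℝ) * (49 / 100) ≤ k * H := mul_le_mul_of_nonneg_left H1.le hk0.le
    have hb : b = 1 / 100 := rfl
    have : 0 < x0 * τ := by positivity
    rw [hb]; linarith
  obtain ⟨x1, hx1, hx1η, hgen⟩ := exists_x1 (H := H) (τ := τ) hτ0 hA0 hB0 hx00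
    (by linarith) hη0
  have hs : (x0 + x1) * k ≤ 1 / 100 := by
    have : (x0 + x1) * k ≤ (2 * η) * k := mul_le_mul_of_nonneg_right (by linarith) hk0.le
    linarith
  set s := x0 + x1 with hsd
  have hs0 : 0 < s := by positivity
  set Ux : ℝ := 2 * (k * m - 1) - s with hUx
  set Uy : ℝ := 2 * k * H - 2 * b + s * τ with hUy
  obtain ⟨hsm, hUx1, hUx2, hUy1, hUy2, hUyUx⟩ := facts H1 H2 t1 t2 hkR hmR hs0 hs hUx hUy
  have hUx0 : 0 < Ux := by linarith
  have hUy0 : 0 < Uy := by linarith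
  set U : ℂ := ⟨Ux, Uy⟩ with hU
  set V : ℂ := ⟨2 + s, 2 * b - s * τ⟩ with hV
  set a : ℝ := 2 * k * Real.sqrt ((m : ℝ) ^ 2 + H ^ 2) with ha
  have hUV : U = (a : ℂ) * em m H - V := by
    have h := W_eq hm0 H
    have h2 : (a : ℂ) * em m H = (2 * k : ℝ) * (⟨m, H⟩ : ℂ) := by
      rw [h, ha]; push_cast; ring
    rw [h2]
    apply Complex.ext
    · simp only [hU, hV, hUx, Complex.sub_re, Complex.mul_re, Complex.ofReal_re,
        Complex.ofReal_im]
      ring
    · simp only [hU, hV, hUy, Complex.sub_im, Complex.mul_im, Complex.ofReal_re,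
        Complex.ofReal_im]
      ring
  have hsτ : 0 < s * τ := by positivity
  have hsτ2 : s * τ ≤ 1 / 300 := by
    calc s * τ ≤ 1 / 400 * (11 / 10) := mul_le_mul hsm t2.le hτ0.le (by norm_num)
      _ ≤ 1 / 300 := by norm_num
  have hVn : ‖V‖ ≤ 3 := by
    refine (Complex.norm_le_abs_re_add_abs_im V).trans ?_
    have hb : b = 1 / 100 := rfl
    simp only [hV]
    rw [abs_of_pos (by linarith), abs_of_pos (by rw [hb]; linarith), hb]
    linarith
  have ha8 : 8 ≤ a := by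
    rw [ha]
    have : (k : ℝ) * 1 ≤ k * Real.sqrt ((m : ℝ) ^ 2 + H ^ 2) := mul_le_mul_of_nonneg_left hr hk0.le
    linarith
  have hak : (k : ℝ) ≤ a := by
    rw [ha]
    have : (k : ℝ) * 1 ≤ k * Real.sqrt ((m : ℝ) ^ 2 + H ^ 2) := mul_le_mul_of_nonneg_left hr hk0.le
    linarith
  obtain ⟨hT1, hT2, hT3⟩ := asym he hVn ha8
  rw [← hUV] at hT1 hT2 hT3
  set T := ‖U‖ with hT
  have hT0 : 0 < T := by linarith
  have hTc : ((T : ℝ) : ℂ) ≠ 0 := by exact_mod_cast hT0.ne'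
  -- estimates
  have hdiv : 12 / a < ε := by
    refine lt_of_le_of_lt ?_ hkε'
    calc 12 / a ≤ 12 / k := div_le_div_of_nonneg_left (by norm_num) hk0 hak
      _ ≤ 50 / k := div_le_div_of_nonneg_right (by norm_num) hk0.le
  have hdiv2 : 9 / a < ε / 2 := by
    have h2 : 9 / a ≤ (50 / k) / 2 := by
      calc 9 / a ≤ 9 / k := div_le_div_of_nonneg_left (by norm_num) hk0 hak
        _ ≤ 25 / k := div_le_div_of_nonneg_right (by norm_num) hk0.le
        _ = (50 / k) / 2 := by ring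
    linarith
  have hq : ∀ x : ℝ, 0 < x → x ≤ η → ‖kp τ x - ⟨0, b⟩‖ < ε := by
    intro x hx hx2
    refine lt_of_le_of_lt (Complex.norm_le_abs_re_add_abs_im _) ?_
    simp only [kp, Complex.sub_re, Complex.sub_im]
    rw [show x - 0 = x by ring, show b - x * τ - b = -(x * τ) by ring, abs_neg, abs_of_pos hx,
      abs_of_pos (by positivity)]
    have : x * τ ≤ x * 2 := mul_le_mul_of_nonneg_left (by linarith) hx.le
    linarith
  refine ⟨kp τ x0, kp τ x1, U / (T : ℝ), T, hmem x0 hx00 (by linarith),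
    hmem x1 hx1 (by linarith), hq x0 hx00 (by linarith), hq x1 hx1 hx1η.le, ?_,
    lt_of_le_of_lt hT2 hdiv, hT0, ?_, ?_⟩
  · rw [norm_div, Complex.norm_real, Real.norm_eq_abs, abs_of_pos hT0, ← hT, div_self hT0.ne']
  · have hlen : (k : ℝ) * len m H = a := by rw [ha]; unfold len; ring
    rw [hlen]
    have hipV : ip (em m H) V = 2 * ip (em m H) ⟨1, b⟩ + s * ip (em m H) ⟨1, -τ⟩ := by
      simp only [ip, hV]; ring
    have hip1 : |ip (em m H) ⟨1, -τ⟩| ≤ 3 := by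
      refine (abs_ip_le _ _).trans ?_
      rw [he, one_mul]
      refine (Complex.norm_le_abs_re_add_abs_im _).trans ?_
      simp only
      rw [abs_one, abs_neg, abs_of_pos hτ0]; linarith
    have h3 : |s * ip (em m H) ⟨1, -τ⟩| ≤ s * 3 := by
      rw [abs_mul, abs_of_pos hs0]
      exact mul_le_mul_of_nonneg_left hip1 hs0.le
    have e1 : T - (-2 * ip (em m H) ⟨1, b⟩ + a) =
        (T - (a - ip (em m H) V)) + -(s * ip (em m H) ⟨1, -τ⟩) := by rw [hipV]; ring
    rw [e1]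
    refine lt_of_le_of_lt (abs_add_le _ _) ?_
    rw [abs_neg]
    have : s ≤ ε / 8 := by linarith
    linarith
  · -- folding
    have hi : 0 < k * m - 1 := by
      have : 4 * 1 ≤ k * m := Nat.mul_le_mul hk4 (Nat.one_le_iff_ne_zero.2 hm0)
      omega
    have hcast : ((k * m - 1 : ℕ) : ℝ) = k * m - 1 := by
      rw [Nat.cast_sub (by omega)]; push_cast; ring
    have hTu : ∀ t : ℝ, (t : ℂ) * (U / (T : ℝ)) = ((t / T : ℝ) : ℂ) * U := by
      intro t; push_cast; field_simp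
    have hre : ∀ t : ℝ, (kp τ x0 + (t : ℂ) * (U / (T : ℝ))).re = x0 + t / T * Ux := by
      intro t; rw [hTu]; simp [kp, hU]
    have him : ∀ t : ℝ, (kp τ x0 + (t : ℂ) * (U / (T : ℝ))).im = b - x0 * τ + t / T * Uy := by
      intro t; rw [hTu]; simp [kp, hU]
    have hu_re : (U / (T : ℝ)).re = Ux / T := by
      rw [Complex.div_ofReal_re]
    have hu_im : (U / (T : ℝ)).im = Uy / T := by
      rw [Complex.div_ofReal_im]
    refine fold hP (T := T) (i := k * m - 1) (j := k) hi (by omega)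
      (hmem x0 hx00 (by linarith)) (hmem x1 hx1 (by linarith)) ?_ ?_ ?_ hT0 ?_ ?_ ?_
    · rw [norm_div, Complex.norm_real, Real.norm_eq_abs, abs_of_pos hT0, ← hT, div_self hT0.ne']
    · rw [hu_re]; positivity
    · rw [hu_im]; positivity
    · apply Complex.ext
      · rw [hre, div_self hT0.ne', one_mul]
        simp only [Complex.sub_re, kp]
        rw [hcast, hUx]; ring
      · rw [him, div_self hT0.ne', one_mul]
        simp only [Complex.sub_im, kp]
        rw [hUy]; ring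
    · rintro t ht0 htT ⟨i, j, hij⟩
      rw [hre, him] at hij
      have h4 := avoid H1 H2 t1 t2 hk4 hm hx00 hx1 hs hUx hUy (t := t / T)
        (by positivity) (by rw [div_lt_one hT0]; exact htT) i j
      have h5 : Real.sin ψ * |x0 + t / T * Ux - 2 * i| +
          Real.cos ψ * |b - x0 * τ + t / T * Uy - 2 * j * H| =
          Real.cos ψ * (τ * |x0 + t / T * Ux - 2 * i| + |b - x0 * τ + t / T * Uy - 2 * j * H|) := by
        rw [hsc]; ring
      rw [h5] at hij
      have h6 := mul_lt_mul_of_pos_left h4 hcos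
      linarith
    · intro t ht0 htT a' l' heq
      have e1 := congrArg Complex.re heq
      have e2 := congrArg Complex.im heq
      rw [hre] at e1
      rw [him] at e2
      simp only at e1 e2
      apply hgen a' l'
      rw [← e1, ← e2, hUx, hUy]
      ring

end FC28
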