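import Mathlib

/-!
# Polygonal billiards: general definitions

These are the definitions the final statement uses.
-/

open Complex

namespace PolyBilliard

/-- A polygon: a compact region of the plane `ℂ` bounded by a simple closed polygonal curve.
`vert i` (`i` modulo `n`) are the successive vertices, the sides are the segments
`[vert i, vert (i+1)]`.  `simple` says that two different sides meet at most in a common
endpoint; the region is compact, is the closure of its interior, and its topological boundary
is the polygonal curve. -/
structure Polygon where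
  n : ℕ
  three_le : 3 ≤ n
  vert : ZMod n → ℂ
  nondeg : ∀ i, vert i ≠ vert (i + 1)
  simple : ∀ i j, i ≠ j → ∀ z, z ∈ segment ℝ (vert i) (vert (i + 1)) →
    z ∈ segment ℝ (vert j) (vert (j + 1)) → (j = i + 1 ∧ z = vert j) ∨ (i = j + 1 ∧ z = vert i)
  region : Set ℂ
  compact : IsCompact region
  regular : closure (interior region) = region
  frontier_eq : frontier region = ⋃ i, segment ℝ (vert i) (vert (i + 1))

namespace Polygon

variable (P : Polygon)

/-- The unit vector in the direction of side `i`. -/
noncomputable def dir (i : ZMod P.n) : ℂ :=
  (P.vert (i + 1) - P.vert i) / (‖P.vert (i + 1) - P.vert i‖ : ℝ)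

/-- Elastic reflection of a vector `v` in side `i` (the linear reflection that fixes the
direction `dir i` of the side). -/
noncomputable def refl (i : ZMod P.n) (v : ℂ) : ℂ := (P.dir i) ^ 2 * (starRingEnd ℂ) v

/-- `P × S¹`: unit tangent vectors based in the polygon. -/
def PreX : Type := {x : ℂ × ℂ // x.1 ∈ P.region ∧ ‖x.2‖ = 1}

instance : TopologicalSpace P.PreX := inferInstanceAs (TopologicalSpace {x : ℂ × ℂ // _})

/-- Identification of the incoming and the outgoing vector at a boundary point which is not a
vertex. -/
def Ident (x y : P.PreX) : Prop :=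
  ∃ i, x.1.1 ∈ openSegment ℝ (P.vert i) (P.vert (i + 1)) ∧ y.1.1 = x.1.1 ∧
    y.1.2 = P.refl i x.1.2

/-- The phase space `X`: unit tangent vectors based in `P`, modulo the identification, with the
quotient topology. -/
def X : Type := Quot P.Ident

instance : TopologicalSpace P.X := inferInstanceAs (TopologicalSpace (Quot P.Ident))

/-- `P.Flow t a c`: the billiard orbit of `a` is defined up to time `t` and `φ_t(a) = c`.
The point moves at unit speed in a straight line inside the polygon, reflects at boundary points
which are not vertices (through the identification in `X`), and orbits which reach a vertex are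
not continued. -/
inductive Flow : ℝ → P.X → P.X → Prop
  | refl (a : P.X) : Flow 0 a a
  | step {s t : ℝ} {a : P.X} {x y : P.PreX} (h : Flow s a (Quot.mk _ x))
      (hv : ∀ i, x.1.1 ≠ P.vert i) (ht : 0 < t)
      (hin : ∀ r : ℝ, 0 < r → r < t → x.1.1 + r * x.1.2 ∈ interior P.region)
      (hy1 : y.1.1 = x.1.1 + t * x.1.2) (hy2 : y.1.2 = x.1.2) :
      Flow (s + t) a (Quot.mk _ y)

/-- Topological mixing of the billiard flow of `P`. -/
def TopMixing : Prop :=
  ∀ U V : Set P.X, IsOpen U → IsOpen V → U.Nonempty → V.Nonempty →
    ∃ T : ℝ, ∀ t, T ≤ t → ∃ a ∈ U, ∃ c ∈ V, P.Flow t a c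

end Polygon

end PolyBilliard
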