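import Pool.Agent.Lib.MP_fc28e0_an.NoConnA

/-! # Connections parallel to `(m,H)` are trivial -/

open Complex

namespace FC28

noncomputable section

/-- distance from the line of `K` (up to sign) -/
def fK (ψ : ℝ) (p : ℂ) : ℝ := p.re * Real.sin ψ + p.im * Real.cos ψ - b * Real.cos ψ

def gK (ψ : ℝ) (v : ℂ) : ℝ := v.re * Real.sin ψ + v.im * Real.cos ψ

theorem fK_add (ψ : ℝ) (p v : ℂ) (t : ℝ) : fK ψ (p + t * v) = fK ψ p + t * gK ψ v := by
  simp [fK, gK]; ring

theorem ip_nrm4 (ψ : ℝ) (v : ℂ) : ip v (nrm ψ 4) = -gK ψ v := by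
  simp [ip, nrm, gK]; ring

theorem fK_nonneg {ψ H : ℝ} {p : ℂ} (hp : p ∈ inP ψ H) : 0 ≤ fK ψ p := by
  have := hp 4
  rw [ip_nrm4] at this
  simp [off, gK] at this
  simp [fK]; linarith

theorem fK_pos {ψ H : ℝ} {p : ℂ} (hp : p ∈ intP ψ H) : 0 < fK ψ p := by
  have := hp 4
  rw [ip_nrm4] at this
  simp [off, gK] at this
  simp [fK]; linarith

theorem fK_side {ψ H : ℝ} {p : ℂ} (hp : p ∈ side ψ H 4) : fK ψ p = 0 := by
  have := hp.1
  rw [ip_nrm4] at this
  simp [off, gK] at this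
  simp [fK]; linarith

theorem inP_bounds {ψ H : ℝ} {p : ℂ} (hp : p ∈ inP ψ H) :
    0 ≤ p.re ∧ p.re ≤ 1 ∧ 0 ≤ p.im ∧ p.im ≤ H := by
  have h0 := hp 0
  have h1 := hp 1
  have h2 := hp 2
  have h3 := hp 3
  simp [ip, nrm, off] at h0 h1 h2 h3
  exact ⟨by linarith, by linarith, by linarith, by linarith⟩

/-- points of the pentagon on the line of `K` are close to the corner -/
theorem K_small {ψ H : ℝ} (hP : Par ψ H) {p : ℂ} (hp : p ∈ inP ψ H) (hf : fK ψ p = 0) :
    p.re ≤ 1 / 50 ∧ p.im ≤ b := by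
  obtain ⟨h0, -, h2, -⟩ := inP_bounds hp
  have hs := hP.sin_bd
  have hc := hP.cos_bd
  simp only [fK, b] at *
  constructor
  · nlinarith
  · nlinarith

theorem gK_pos_of_inward {ψ H : ℝ} {p v : ℂ} {s : ℝ} (hs : 0 < s) (hf : fK ψ p = 0)
    (h : p + s * v ∈ intP ψ H) : 0 < gK ψ v := by
  have := fK_pos h
  rw [fK_add, hf, zero_add] at this
  exact (pos_iff_pos_of_mul_pos this).1 hs

/-- the combined induction -/
structure Data (ψ H : ℝ) (e p v : ℂ) (w : List (Fin 5)) (b' : Fin 5) (fl : Bool) (c : ℂ)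
    (T N R : ℝ) (Err : ℂ) : Prop where
  hT : 0 < T
  unf : unfA ψ w (vA ψ b') + H * unfB ψ w (vB b') = p + T * v
  hN : N = -ip (I * (T * e.im : ℝ) + fr fl c I * (p.im : ℝ) - H * fr fl c (unfB ψ w (vB b')) - Err)
    ((starRingEnd ℂ) e)
  hErr : ‖Err‖ ≤ b + 2 * b * w.count 4
  hL : c.im ^ 2 * R + 2 / 5 * (w.count 4 / 4 - c.im ^ 2 / 2) ≤ N
  hR : 0 < R
  R1 : 4 ∈ w → p.re - 1 / 50 ≤ R ∧ p.im - 1 / 50 ≤ R
  R1' : 4 ∉ w → |p.re - (vert ψ H b').re| ≤ R ∧ |p.im - (vert ψ H b').im| ≤ R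
  R2 : 0 < gK ψ v → 4 ∈ w → 2 / 5 ≤ R
  R2' : 0 < gK ψ v → 4 ∉ w → (b' = 0 ∨ b' = 4) → 2 / 5 ≤ R

theorem vert_im (ψ H : ℝ) (a : Fin 5) :
    ∃ t : ℝ, 0 ≤ t ∧ t ≤ b ∧ ((vert ψ H a).im = H * (vB a).im + t) := by
  fin_cases a
  · exact ⟨0, le_refl _, by norm_num [b], by simp [vert, vB]⟩
  · exact ⟨0, le_refl _, by norm_num [b], by simp [vert, vB]⟩
  · exact ⟨0, le_refl _, by norm_num [b], by simp [vert, vB]⟩
  · exact ⟨0, le_refl _, by norm_num [b], by simp [vert, vB]⟩
  · exact ⟨b, by norm_num [b], le_refl _, by simp [vert, vB]⟩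

theorem vB_re (a : Fin 5) : (vB a).re = 0 := by
  fin_cases a <;> simp [vB]

theorem fr_imag (fl : Bool) (c : ℂ) {z : ℂ} (hz : z.re = 0) : fr fl c z = z.im * fr fl c I := by
  have : z = (z.im : ℝ) * I := by
    apply Complex.ext <;> simp [hz]
  rw [this, fr_smul]; simp

/-- key algebraic identity for one chord -/
theorem chord_identity {e ξ v : ℂ} (he : ‖e‖ = 1) (hξ : ‖ξ‖ = 1) (hv : v.im = ip e ξ) :
    -ip (I * (e.im : ℝ) - (v.im : ℝ) * ξ) ((starRingEnd ℂ) e) = ξ.re ^ 2 := by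
  have h1 := normsq_eq he
  have h2 := normsq_eq hξ
  rw [hv]
  simp only [ip, sub_re, mul_re, sub_im, mul_im, I_re, I_im, ofReal_re, ofReal_im, conj_re,
    conj_im]
  have h3 : ξ.im ^ 2 = 1 - ξ.re ^ 2 := by linarith
  have h4 : e.im ^ 2 = 1 - e.re ^ 2 := by linarith
  linear_combination (-e.im ^ 2) * h2 + ξ.re ^ 2 * h1

theorem vA_im (ψ : ℝ) (a : Fin 5) : 0 ≤ (vA ψ a).im ∧ (vA ψ a).im ≤ b := by
  fin_cases a <;> simp [vA, b]

theorem im_eq_ip {fl : Bool} {c v e : ℂ} (hc : ‖c‖ = 1) (hv : fr fl c v = e) :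
    v.im = ip e (fr fl c I) := by
  rw [← hv, ip_fr fl hc]; simp [ip]

theorem gK_large {ψ H : ℝ} (hP : Par ψ H) {b' : Fin 5} (hb : b' = 0 ∨ b' = 4) :
    fK ψ (vert ψ H b') = 0 := by
  have hs := hP.sin_bd
  have : Real.sin ψ ≠ 0 := by linarith
  rcases hb with rfl | rfl
  · simp [fK, vert]; field_simp; ring
  · simp [fK, vert]

theorem data_last {ψ H : ℝ} (hP : Par ψ H) {e p v : ℂ} {b' : Fin 5} {fl : Bool} {c : ℂ} {τ : ℝ}
    (he : ‖e‖ = 1) (hc : ‖c‖ = 1) (hv : fr fl c v = e) (hτ : 0 < τ) (hp : p ∈ inP ψ H)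
    (hB : vert ψ H b' = p + τ * v) :
    Data ψ H e p v [] b' fl c τ (τ * c.im ^ 2) τ (fr fl c ((vA ψ b').im * I)) := by
  have hξ : ‖fr fl c I‖ = 1 := by rw [norm_fr fl hc]; simp
  have hvim := im_eq_ip hc hv
  have hnv : ‖v‖ = 1 := by rw [← norm_fr fl hc, hv, he]
  have hre : |v.re| ≤ 1 := hnv ▸ Complex.abs_re_le_norm v
  have him : |v.im| ≤ 1 := hnv ▸ Complex.abs_im_le_norm v
  have key := chord_identity he hξ hvim
  rw [fr_I_re] at key
  refine ⟨hτ, ?_, ?_, ?_, ?_, hτ, ?_, ?_, ?_, ?_⟩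
  · simp only [unfA, unfB]; rw [← vert_eq, hB]
  · have hBim : p.im + τ * v.im = (vA ψ b').im + H * (vB b').im := by
      have := congrArg Complex.im hB
      rw [vert_eq] at this
      simpa using this.symm
    simp only [unfB]
    rw [fr_imag fl c (vB_re b'), fr_imag fl c (z := ((vA ψ b').im : ℂ) * I) (by simp)]
    have : (I * ((τ * e.im : ℝ) : ℂ) + fr fl c I * ((p.im : ℝ) : ℂ) -
        H * (((vB b').im : ℂ) * fr fl c I) - ((((vA ψ b').im : ℂ) * I).im : ℂ) * fr fl c I)
        = τ * (I * (e.im : ℝ) - (v.im : ℝ) * fr fl c I) := by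
      have h2r : p.im = (vA ψ b').im + H * (vB b').im - τ * v.im := by linarith
      have h2 : ((p.im : ℝ) : ℂ) = (vA ψ b').im + H * (vB b').im - τ * v.im := by
        rw [h2r]; push_cast; ring
      rw [h2]; simp; ring
    rw [this, ip_smul_left]
    rw [← key]; ring
  · rw [norm_fr fl hc]
    have := vA_im ψ b'
    simp [abs_of_nonneg this.1]
    exact this.2
  · simp
    nlinarith [sq_nonneg c.im]
  · simp
  · intro _
    rw [hB]
    constructor
    · simp only [add_re, mul_re, ofReal_re, ofReal_im, zero_mul, sub_zero]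
      rw [show p.re - (p.re + τ * v.re) = -(τ * v.re) by ring, abs_neg, abs_mul, abs_of_pos hτ]
      nlinarith
    · simp only [add_im, mul_im, ofReal_re, ofReal_im, zero_mul, add_zero]
      rw [show p.im - (p.im + τ * v.im) = -(τ * v.im) by ring, abs_neg, abs_mul, abs_of_pos hτ]
      nlinarith
  · simp
  · intro hg _ hb
    exfalso
    have h1 := gK_large hP hb
    rw [hB, fK_add] at h1
    have := fK_nonneg hp
    nlinarith [mul_pos hτ hg]

theorem step_identity {ψ H : ℝ} {e p p' v z2 Err' c : ℂ} {fl : Bool} {i : Fin 5} {τ T N' : ℝ}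
    (he : ‖e‖ = 1) (hc : ‖c‖ = 1) (hv : fr fl c v = e) (e1 : p' = p + τ * v)
    (IH : N' = -ip (I * (T * e.im : ℝ) + fr (!fl) ((starRingEnd ℂ) c * rho ψ i) I * (p'.im : ℝ)
      - H * fr (!fl) ((starRingEnd ℂ) c * rho ψ i) z2 - Err') ((starRingEnd ℂ) e)) :
    τ * c.im ^ 2 + N' = -ip (I * (((τ + T) * e.im : ℝ) : ℂ) + fr fl c I * (p.im : ℝ)
      - H * fr fl c (rf ψ i z2 + offB i)
      - (Err' + (fr fl c I - fr (!fl) ((starRingEnd ℂ) c * rho ψ i) I) * (p'.im : ℝ)
        - H * fr fl c (offB i))) ((starRingEnd ℂ) e) := by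
  have hξ : ‖fr fl c I‖ = 1 := by rw [norm_fr fl hc]; simp
  have hvim := im_eq_ip hc hv
  have key := chord_identity he hξ hvim
  rw [fr_I_re] at key
  have h2 : ((p'.im : ℝ) : ℂ) = p.im + τ * v.im := by
    rw [e1]; simp
  have hb : (I * (((τ + T) * e.im : ℝ) : ℂ) + fr fl c I * (p.im : ℝ)
      - H * fr fl c (rf ψ i z2 + offB i)
      - (Err' + (fr fl c I - fr (!fl) ((starRingEnd ℂ) c * rho ψ i) I) * (p'.im : ℝ)
        - H * fr fl c (offB i)))
      = τ * (I * (e.im : ℝ) - (v.im : ℝ) * fr fl c I) +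
        (I * (T * e.im : ℝ) + fr (!fl) ((starRingEnd ℂ) c * rho ψ i) I * (p'.im : ℝ)
      - H * fr (!fl) ((starRingEnd ℂ) c * rho ψ i) z2 - Err') := by
    rw [← fr_rf, ← fr_rf, fr_add, h2]; push_cast; ring
  rw [hb, ip_add_left, ip_smul_left, IH, ← key]
  ring

/-- the error term created at a bounce -/
theorem err_step {ψ H : ℝ} (hP : Par ψ H) {p' c : ℂ} {fl : Bool} {i : Fin 5} (hc : ‖c‖ = 1)
    (hs : p' ∈ side ψ H i) :
    ‖(fr fl c I - fr (!fl) ((starRingEnd ℂ) c * rho ψ i) I) * (p'.im : ℝ)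
        - H * fr fl c (offB i)‖ ≤ if i = 4 then 2 * b else 0 := by
  rw [← fr_rf]
  fin_cases i
  · have h := hs.1
    simp [ip, nrm, off] at h
    simp [rf_zero, offB, h, fr]
  · simp [rf_one, offB, fr]
  · have h := hs.1
    simp [ip, nrm, off] at h
    have : offB 2 = (2 : ℝ) * I := by apply Complex.ext <;> simp [offB]
    simp only [Fin.reduceFinMk]
    rw [rf_two, this, fr_smul, h]
    have : fr fl c ((starRingEnd ℂ) I) = - fr fl c I := by
      have : (starRingEnd ℂ) I = ((-1 : ℝ) : ℂ) * I := by simp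
      rw [this, fr_smul]; simp
    rw [this]
    have : (fr fl c I - -fr fl c I) * (H : ℂ) - H * ((2 : ℝ) * fr fl c I) = 0 := by
      push_cast; ring
    rw [this]; simp
  · simp [rf_three, offB, fr]
  · have h1 := K_small hP (side_subset _ _ _ hs) (fK_side hs)
    have h0 := (inP_bounds (side_subset _ _ _ hs)).2.2.1
    simp only [Fin.reduceFinMk, if_true]
    have : offB 4 = 0 := by simp [offB]
    rw [this]
    have : fr fl c 0 = 0 := by cases fl <;> simp [fr]
    rw [this, mul_zero, sub_zero, norm_mul, norm_real, Real.norm_eq_abs, abs_of_nonneg h0]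
    have : ‖fr fl c I - fr fl c (rf ψ 4 I)‖ ≤ 2 := by
      refine (norm_sub_le _ _).trans ?_
      rw [norm_fr fl hc, norm_fr fl hc, norm_rf]; simp; norm_num
    nlinarith [norm_nonneg (fr fl c I - fr fl c (rf ψ 4 I))]

/-- `(Im c)²` is unchanged at a bounce on the rectangle -/
theorem im_sq_step (ψ : ℝ) {i : Fin 5} (hi : i ≠ 4) (c : ℂ) :
    ((starRingEnd ℂ) c * rho ψ i).im ^ 2 = c.im ^ 2 := by
  fin_cases i
  · simp [rho, nrm, pow_two]
  · simp [rho, nrm, pow_two]
  · simp [rho, nrm, pow_two]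
  · simp [rho, nrm, pow_two]
  · exact absurd rfl hi

theorem im_sq_step4 {ψ H : ℝ} (hP : Par ψ H) {c : ℂ} (hc : ‖c‖ = 1) :
    1 / 2 ≤ ((starRingEnd ℂ) c * rho ψ 4).im ^ 2 + c.im ^ 2 := by
  have h1 := hP.cos_two
  have h2 := hP.sin_two
  have h3 := normsq_eq hc
  have h4 : ((starRingEnd ℂ) c * rho ψ 4).im = -(c.re * Real.sin (2 * ψ) + c.im * Real.cos (2 * ψ)) := by
    rw [Real.sin_two_mul, Real.cos_two_mul']
    simp [rho, nrm, pow_two, -ofReal_sin, -ofReal_cos]
    ring
  rw [h4]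
  have h5 := Real.sin_sq_add_cos_sq (2 * ψ)
  rw [abs_lt] at h1
  have h6 : c.re ^ 2 ≤ 1 := by nlinarith
  have h7 : c.im ^ 2 ≤ 1 := by nlinarith
  set S := Real.sin (2 * ψ)
  set C := Real.cos (2 * ψ)
  have h8 : C ^ 2 ≤ 1 / 1600 := by nlinarith
  have h9 : |c.re * c.im| ≤ 1 / 2 := by
    rw [abs_le]; constructor <;> nlinarith [sq_nonneg (c.re - c.im), sq_nonneg (c.re + c.im)]
  have h10 : |C * S| ≤ 1 / 40 := by
    rw [abs_mul]
    have : |C| ≤ 1 / 40 := abs_le.2 ⟨by linarith, by linarith⟩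
    have : |S| ≤ 1 := Real.abs_sin_le_one _
    nlinarith [abs_nonneg C, abs_nonneg S]
  have h11 : |(c.re * c.im) * (C * S)| ≤ 1 / 80 := by
    rw [abs_mul]; nlinarith [abs_nonneg (c.re * c.im), abs_nonneg (C * S)]
  rw [abs_le] at h11
  nlinarith [h11.1, h11.2]


theorem vert_small {ψ H : ℝ} (hP : Par ψ H) {b' : Fin 5} (hb : b' = 0 ∨ b' = 4) :
    0 ≤ (vert ψ H b').re ∧ (vert ψ H b').re ≤ 1 / 50 ∧ 0 ≤ (vert ψ H b').im ∧
      (vert ψ H b').im ≤ 1 / 50 := by
  have h1 := K_small hP (vert_mem hP b') (gK_large hP hb)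
  have h2 := inP_bounds (vert_mem hP b')
  have : b ≤ 1 / 50 := by norm_num [b]
  exact ⟨h2.1, h1.1, h2.2.2.1, h1.2.trans this⟩

theorem run_K {ψ H : ℝ} (hP : Par ψ H) {e p v : ℂ} {w : List (Fin 5)} {b' : Fin 5} {fl : Bool}
    {c : ℂ} {T N R : ℝ} {Err : ℂ} (D : Data ψ H e p v w b' fl c T N R Err) (hp : p ∈ inP ψ H)
    (hf : fK ψ p = 0) (hg : 0 < gK ψ v) : 2 / 5 ≤ R := by
  by_cases h4 : 4 ∈ w
  · exact D.R2 hg h4
  · have hH := hP.H_bd
    have h1 := K_small hP hp hf
    have h2 := inP_bounds hp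
    have hb : b = 1 / 100 := rfl
    by_cases hb' : b' = 0 ∨ b' = 4
    · exact D.R2' hg h4 hb'
    · have h3 := D.R1' h4
      rw [not_or] at hb'
      fin_cases b'
      · exact absurd rfl hb'.1
      · have := (abs_le.1 h3.1).1
        simp [vert] at this
        linarith
      · have := (abs_le.1 h3.1).1
        simp [vert] at this
        linarith
      · have := (abs_le.1 h3.2).1
        simp [vert] at this
        linarith
      · exact absurd rfl hb'.2

theorem data_step {ψ H : ℝ} (hP : Par ψ H) {e p v p' v' : ℂ} {w : List (Fin 5)} {b' : Fin 5}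
    {fl : Bool} {c : ℂ} {τ T N R : ℝ} {Err : ℂ} {i : Fin 5}
    (he : ‖e‖ = 1) (hc : ‖c‖ = 1) (hv : fr fl c v = e) (hτ : 0 < τ) (hp : p ∈ inP ψ H)
    (hs : p' ∈ side ψ H i) (hvi : 0 < ip v (nrm ψ i)) (e1 : p' = p + τ * v) (e2 : v' = rf ψ i v)
    (D : Data ψ H e p' v' w b' (!fl) ((starRingEnd ℂ) c * rho ψ i) T N R Err) :
    Data ψ H e p v (i :: w) b' fl c (τ + T) (τ * c.im ^ 2 + N) (if i = 4 then τ else τ + R)
      (Err + (fr fl c I - fr (!fl) ((starRingEnd ℂ) c * rho ψ i) I) * (p'.im : ℝ)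
        - H * fr fl c (offB i)) := by
  have hH := hP.H_bd
  have hb : b = 1 / 100 := rfl
  have hnv : ‖v‖ = 1 := by rw [← norm_fr fl hc, hv, he]
  have hre := abs_le.1 (hnv ▸ Complex.abs_re_le_norm v)
  have him := abs_le.1 (hnv ▸ Complex.abs_im_le_norm v)
  have hpre : p'.re = p.re + τ * v.re := by rw [e1]; simp
  have hpim : p'.im = p.im + τ * v.im := by rw [e1]; simp
  have hτre : |τ * v.re| ≤ τ := by rw [abs_mul, abs_of_pos hτ]; nlinarith [abs_le.2 hre]
  have hτim : |τ * v.im| ≤ τ := by rw [abs_mul, abs_of_pos hτ]; nlinarith [abs_le.2 him]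
  rw [abs_le] at hτre hτim
  have hDR := D.hR
  refine ⟨by linarith [D.hT], ?_, ?_, ?_, ?_, ?_, ?_, ?_, ?_, ?_⟩
  · exact unf_step hs e1 e2 D.unf
  · exact step_identity he hc hv e1 D.hN
  · have h1 := err_step hP (fl := fl) hc hs
    have h2 := D.hErr
    rw [add_sub_assoc]
    refine (norm_add_le _ _).trans ?_
    refine (add_le_add h2 h1).trans ?_
    rw [List.count_cons]
    by_cases h4 : i = 4
    · simp [h4]; linarith
    · simp [h4]
  · by_cases h4 : i = 4
    · subst h4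
      have h1 := im_sq_step4 hP hc
      have hg : 0 < gK ψ v' := by
        have : ip v' (nrm ψ 4) = -ip v (nrm ψ 4) := by rw [e2, ip_rf_nrm]
        rw [ip_nrm4] at this
        linarith
      have h2 := run_K hP D (side_subset _ _ _ hs) (fK_side hs) hg
      have h3 := D.hL
      simp only [List.count_cons_self, if_true]
      push_cast
      set A := ((starRingEnd ℂ) c * rho ψ 4).im ^ 2 with hA
      have hA0 : 0 ≤ A := sq_nonneg _
      nlinarith [mul_le_mul_of_nonneg_left h2 hA0]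
    · have h3 := D.hL
      rw [im_sq_step ψ h4] at h3
      rw [List.count_cons_of_ne h4, if_neg h4]
      linarith
  · split_ifs <;> linarith
  · intro h4
    by_cases hi : i = 4
    · subst hi
      rw [if_pos rfl]
      have h1 := K_small hP (side_subset _ _ _ hs) (fK_side hs)
      constructor <;> linarith
    · have h5 : 4 ∈ w := by
        rcases List.mem_cons.1 h4 with h | h
        · exact absurd h.symm hi
        · exact h
      rw [if_neg hi]
      have := D.R1 h5
      constructor <;> linarith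
  · intro h4
    have hi : i ≠ 4 := fun h => h4 (by simp [h])
    have h5 : 4 ∉ w := fun h => h4 (List.mem_cons_of_mem _ h)
    rw [if_neg hi]
    have := D.R1' h5
    rw [abs_le, abs_le] at this
    rw [abs_le, abs_le]
    refine ⟨⟨?_, ?_⟩, ⟨?_, ?_⟩⟩ <;> linarith
  · intro hg h4
    have hi : i ≠ 4 := by
      rintro rfl
      rw [ip_nrm4] at hvi; linarith
    have h5 : 4 ∈ w := by
      rcases List.mem_cons.1 h4 with h | h
      · exact absurd h.symm hi
      · exact h
    rw [if_neg hi]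
    have hS := hP.sin_bd
    have hC := hP.cos_bd
    fin_cases i
    · have : 0 < gK ψ v' := by
        rw [e2]
        simp only [gK] at hg ⊢
        simp [ip, nrm] at hvi
        simp [rf_zero]
        nlinarith
      linarith [D.R2 this h5]
    · have h6 := hs.1
      simp [ip, nrm, off] at h6
      have := (D.R1 h5).1
      simp only [h6] at this
      linarith
    · have h6 := hs.1
      simp [ip, nrm, off] at h6
      have := (D.R1 h5).2
      simp only [h6] at this
      linarith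
    · have : 0 < gK ψ v' := by
        rw [e2]
        simp only [gK] at hg ⊢
        simp [ip, nrm] at hvi
        simp [rf_three]
        nlinarith
      linarith [D.R2 this h5]
    · exact absurd rfl hi
  · intro hg h4 hb'
    have hi : i ≠ 4 := fun h => h4 (by simp [h])
    have h5 : 4 ∉ w := fun h => h4 (List.mem_cons_of_mem _ h)
    rw [if_neg hi]
    have hS := hP.sin_bd
    have hC := hP.cos_bd
    have hvs := vert_small hP hb'
    fin_cases i
    · have : 0 < gK ψ v' := by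
        rw [e2]
        simp only [gK] at hg ⊢
        simp [ip, nrm] at hvi
        simp [rf_zero]
        nlinarith
      linarith [D.R2' this h5 hb']
    · have h6 := hs.1
      simp [ip, nrm, off] at h6
      have := (abs_le.1 (D.R1' h5).1).2
      simp only [h6] at this
      linarith
    · have h6 := hs.1
      simp [ip, nrm, off] at h6
      have := (abs_le.1 (D.R1' h5).2).2
      simp only [h6] at this
      linarith
    · have : 0 < gK ψ v' := by
        rw [e2]
        simp only [gK] at hg ⊢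
        simp [ip, nrm] at hvi
        simp [rf_three]
        nlinarith
      linarith [D.R2' this h5 hb']
    · exact absurd rfl hi

theorem exists_data {ψ H : ℝ} (hP : Par ψ H) {e : ℂ} (he : ‖e‖ = 1) {b' : Fin 5} {p v B : ℂ}
    {w : List (Fin 5)} (h : Reach ψ H p v w B) :
    B = vert ψ H b' → ∀ (fl : Bool) (c : ℂ), ‖c‖ = 1 → fr fl c v = e →
      ∃ (T N R : ℝ) (Err : ℂ), Data ψ H e p v w b' fl c T N R Err := by
  induction h with
  | last hτ hp hm e1 =>
    intro hB fl c hc hv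
    exact ⟨_, _, _, _, data_last hP he hc hv hτ hp (hB ▸ e1)⟩
  | @step τ p v p' v' B w i hτ hp hs hvi e1 e2 h ih =>
    intro hB fl c hc hv
    have hc' : ‖(starRingEnd ℂ) c * rho ψ i‖ = 1 := by
      rw [norm_mul, norm_rho, RCLike.norm_conj, hc, mul_one]
    have hv' : fr (!fl) ((starRingEnd ℂ) c * rho ψ i) v' = e := by
      rw [← fr_rf, e2, rf_rf, hv]
    obtain ⟨T, N, R, Err, D⟩ := ih hB (!fl) _ hc' hv'
    exact ⟨_, _, _, _, data_step hP he hc hv hτ hp hs hvi e1 e2 D⟩


theorem unfB_re {ψ : ℝ} {w : List (Fin 5)} (h4 : 4 ∉ w) {z : ℂ} (hz : z.re = 0) :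
    (unfB ψ w z).re = 0 := by
  induction w with
  | nil => simpa [unfB] using hz
  | cons i w ih =>
    have h5 : 4 ∉ w := fun h => h4 (List.mem_cons_of_mem _ h)
    have hi : i ≠ 4 := fun h => h4 (by simp [h])
    have := ih h5
    fin_cases i
    · simp [unfB, rf_zero, offB, this]
    · simp [unfB, rf_one, offB, this]
    · simp [unfB, rf_two, offB, this]
    · simp [unfB, rf_three, offB, this]
    · exact absurd rfl hi

/-- the identity excludes connections with a bounce on `K` and non-special ones -/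
theorem trivial_of_identity {ψ H : ℝ} (hP : Par ψ H) {m : ℕ} (hm : m = 1 ∨ m = 2) {fl : Bool}
    {c : ℂ} (hc : c ∈ CC ψ) {w : List (Fin 5)} {a b' : Fin 5}
    (hR : Reach ψ H (vert ψ H a) (dv m H fl c) w (vert ψ H b')) {T μ : ℝ} (hT : 0 < T)
    (hunf : unfA ψ w (vA ψ b') + H * unfB ψ w (vB b') - (vA ψ a + H * vB a)
      = T * dv m H fl c)
    (hpar : fr fl c (unfB ψ w (vB b') - vB a) = μ * I)
    (hTμ : T = μ * Real.sqrt (m ^ 2 + H ^ 2)) : 4 ∉ w ∧ c.im = 0 := by
  have hm0 : m ≠ 0 := by rcases hm with rfl | rfl <;> norm_num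
  have hc1 := norm_CC hc
  have he : ‖em m H‖ = 1 := norm_em hm0
  have hfr := fr_dv (m := m) H fl hc1
  have hnv : ‖dv m H fl c‖ = 1 := by rw [← norm_fr fl hc1, hfr, he]
  have hH := hP.H_bd
  have hr : 0 < Real.sqrt (m ^ 2 + H ^ 2) := Real.sqrt_pos.2 (by positivity)
  obtain ⟨T', N, R, Err, D⟩ := exists_data hP he hR rfl fl c hc1 hfr
  have hTT : T' = T := by
    have h1 := D.unf
    rw [vert_eq] at h1
    have h2 : ((T' : ℂ) - T) * dv m H fl c = 0 := by
      linear_combination hunf - h1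
    rcases mul_eq_zero.1 h2 with h | h
    · exact_mod_cast sub_eq_zero.1 h
    · rw [h] at hnv; simp at hnv
  subst hTT
  have hμH : μ * H = T' * (em m H).im := by
    have : (em m H).im = H / Real.sqrt (m ^ 2 + H ^ 2) := by
      simp [em, Complex.div_im]
      field_simp
    rw [this, hTμ]; field_simp
  have hva := vert_im ψ H a
  obtain ⟨t, ht0, htb, hvi⟩ := hva
  have hNbd : N ≤ (w.count 4 + 1) / 50 := by
    have h1 : (I * ((T' * (em m H).im : ℝ) : ℂ) + fr fl c I * ((vert ψ H a).im : ℝ)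
        - H * fr fl c (unfB ψ w (vB b')) - Err) = (t : ℂ) * fr fl c I - Err := by
      have h2 : fr fl c (unfB ψ w (vB b')) = μ * I + (vB a).im * fr fl c I := by
        rw [← fr_imag fl c (vB_re a), ← hpar, fr_sub]; ring
      rw [h2, ← hμH, hvi]; push_cast; ring
    have h3 := D.hN
    rw [h1] at h3
    have h4 : |ip ((t : ℂ) * fr fl c I - Err) ((starRingEnd ℂ) (em m H))| ≤ b + (b + 2 * b * w.count 4) := by
      refine (abs_ip_le _ _).trans ?_
      rw [RCLike.norm_conj, he, mul_one]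
      refine (norm_sub_le _ _).trans (add_le_add ?_ D.hErr)
      rw [norm_mul, norm_fr fl hc1]
      simp [abs_of_nonneg ht0, htb]
    have h5 := (abs_le.1 h4).1
    have hb : b = 1 / 100 := rfl
    rw [hb] at h5
    rw [h3]
    linarith
  have h4w : 4 ∉ w := by
    intro h4
    have hcount : (1 : ℝ) ≤ w.count 4 := by
      exact_mod_cast List.count_pos_iff.2 h4
    have hR25 : 2 / 5 ≤ R := by
      have h6 := D.R1 h4
      by_cases ha : a = 0 ∨ a = 4
      · have hg : 0 < gK ψ (dv m H fl c) := by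
          cases hR with
          | last hτ hp hm' e1 =>
            exact gK_pos_of_inward (half_pos hτ) (gK_large hP ha) (hm' _ (half_pos hτ) (by linarith))
          | step i hτ hp hs hv e1 e2 h =>
            exact gK_pos_of_inward (half_pos hτ) (gK_large hP ha)
              (seg_side hp (e1 ▸ hs) hv (half_pos hτ) (by linarith))
        exact run_K hP D (vert_mem hP a) (gK_large hP ha) hg
      · rw [not_or] at ha
        fin_cases a
        · exact absurd rfl ha.1
        · have := h6.1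
          simp [vert] at this
          linarith
        · have := h6.1
          simp [vert] at this
          linarith
        · have := h6.2
          simp [vert] at this
          linarith
        · exact absurd rfl ha.2
    have hL := D.hL
    have hP0 : 0 ≤ c.im ^ 2 := sq_nonneg _
    nlinarith [mul_le_mul_of_nonneg_left hR25 hP0]
  refine ⟨h4w, ?_⟩
  have h1 : (unfB ψ w (vB b') - vB a).re = 0 := by
    rw [sub_re, unfB_re h4w (vB_re b'), vB_re]; simp
  rw [fr_imag fl c h1] at hpar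
  have h2 := congrArg Complex.re hpar
  have h3 := congrArg Complex.im hpar
  simp [fr_I_re] at h2 h3
  rcases h2 with h2 | h2
  · exfalso
    have hμ : 0 < μ := by
      by_contra hneg
      rw [hTμ] at hT
      nlinarith
    have : (unfB ψ w (vB b')).im - (vB a).im = 0 := h2
    rw [this] at h3
    simp at h3
    linarith
  · exact h2

/-- no nontrivial connections in the directions related to `(m, H)` -/
def NoConn (ψ H : ℝ) (m : ℕ) : Prop :=
  ∀ c ∈ CC ψ, ∀ v0, Rep m H c v0 → ∀ w a b',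
    Reach ψ H (vert ψ H a) v0 w (vert ψ H b') → 4 ∉ w ∧ c.im = 0

theorem noConn {ψ : ℝ} (hψ : |ψ - Real.pi / 4| < 1 / 100) :
    ∃ Bad : Set ℝ, Bad.Countable ∧ ∀ H : ℝ, |H - 1 / 2| < 1 / 100 → H ∉ Bad →
      ∀ m : ℕ, (m = 1 ∨ m = 2) → NoConn ψ H m := by
  obtain ⟨Bad, hBad, h⟩ := generic hψ
  refine ⟨Bad, hBad, fun H hH hHB m hm c hc v0 hv0 w a b' hR => ?_⟩
  rcases hv0 with rfl | rfl
  · have := h H hH hHB m hm false c hc w a b' (by simpa [dv] using hR)
    obtain ⟨T, μ, hT, h1, h2, h3⟩ := this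
    exact trivial_of_identity ⟨hψ, hH⟩ hm hc (fl := false) (by simpa [dv] using hR) hT h1 h2 h3
  · have := h H hH hHB m hm true c hc w a b' (by simpa [dv] using hR)
    obtain ⟨T, μ, hT, h1, h2, h3⟩ := this
    exact trivial_of_identity ⟨hψ, hH⟩ hm hc (fl := true) (by simpa [dv] using hR) hT h1 h2 h3

end

end FC28
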