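import Pool.Agent.Lib.MP_fc28e0_an.Geo

/-! # Basic properties of `Orb` -/

open Complex

namespace FC28

theorem Orb.pos {ψ H t : ℝ} {p v q w : ℂ} (h : Orb ψ H t p v q w) : 0 < t := by
  induction h with
  | free ht => exact ht
  | hit i hτ hp hs hv e1 e2 e3 h ih => linarith

theorem Orb.left {ψ H t : ℝ} {p v q w : ℂ} (h : Orb ψ H t p v q w) : p ∈ inP ψ H := by
  cases h with
  | free ht hp => exact hp
  | hit i hτ hp => exact hp

theorem Orb.right {ψ H t : ℝ} {p v q w : ℂ} (h : Orb ψ H t p v q w) : q ∈ intP ψ H := by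
  induction h with
  | free ht hp hq => exact hq
  | hit i hτ hp hs hv e1 e2 e3 h ih => exact ih

theorem Orb.norm {ψ H t : ℝ} {p v q w : ℂ} (h : Orb ψ H t p v q w) : ‖w‖ = ‖v‖ := by
  induction h with
  | free ht => rfl
  | hit i hτ hp hs hv e1 e2 e3 h ih => rw [ih, e2, norm_rf]

theorem Orb.trans {ψ H s t : ℝ} {p v q w r z : ℂ} (h1 : Orb ψ H s p v q w)
    (h2 : Orb ψ H t q w r z) : Orb ψ H (s + t) p v r z := by
  induction h1 with
  | @free s p v q hs0 hp hq e =>
    cases h2 with
    | free ht hp2 hq2 e2 =>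
      refine Orb.free (by linarith) hp hq2 ?_
      rw [e2, e]
      push_cast
      ring
    | @hit _ τ t' _ _ p' v' _ _ i hτ hp2 hs hv e1 e2 e3 h =>
      refine Orb.hit (τ := s + τ) i (by linarith) hp hs hv ?_ e2 ?_ h
      · rw [e1, e]
        push_cast
        ring
      · rw [e3]; ring
  | @hit s0 τ t' p v p' v' q w i hτ hp hs hv e1 e2 e3 h ih =>
    exact Orb.hit i hτ hp hs hv e1 e2 (by rw [e3]; ring) (ih h2)

theorem side_not_int {ψ H : ℝ} {i : Fin 5} {p : ℂ} (h : p ∈ side ψ H i) (h2 : p ∈ intP ψ H) :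
    False := by
  have h3 := h2 i
  rw [h.1] at h3
  exact lt_irrefl _ h3

/-- the orbit is deterministic: the state at the later time is reached from the state at the
earlier time -/
theorem Orb.tail {ψ H s t : ℝ} {p v q w r z : ℂ} (h1 : Orb ψ H s p v q w)
    (h2 : Orb ψ H t p v r z) (hst : s < t) : Orb ψ H (t - s) q w r z := by
  induction h1 generalizing t with
  | @free s p v q hs0 hp hq e =>
    subst e
    cases h2 with
    | free ht hp2 hq2 e2 =>
      refine Orb.free (by linarith) (intP_subset _ _ hq) hq2 ?_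
      rw [e2]
      push_cast
      ring
    | @hit _ τ t' _ _ p' v' _ _ i hτ hp2 hs hv e1 e2 e3 h =>
      have hlt : s < τ := by
        by_contra hcon
        push Not at hcon
        have h3 := seg_int hp hq hτ hcon
        rw [← e1] at h3
        exact side_not_int hs h3
      refine Orb.hit (τ := τ - s) i (by linarith) (intP_subset _ _ hq) hs hv ?_ e2 ?_ h
      · rw [e1]
        push_cast
        ring
      · rw [e3]; ring
  | @hit s0 τ s' p v p' v' q w i hτ hp hs hv e1 e2 e3 h ih =>
    have hs' := h.pos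
    cases h2 with
    | free ht hp2 hq2 e4 =>
      exfalso
      rw [e4] at hq2
      have h3 := seg_int hp hq2 hτ (by linarith)
      rw [← e1] at h3
      exact side_not_int hs h3
    | @hit _ τ2 t' _ _ p2 v2 _ _ j hτ2 hp2 hs2 hv2 e4 e5 e6 h3 =>
      have hττ : τ = τ2 := by
        rcases lt_trichotomy τ τ2 with hlt | heq | hlt
        · exfalso
          rw [e4] at hs2
          have h5 := seg_side hp hs2 hv2 hτ hlt
          rw [← e1] at h5
          exact side_not_int hs h5
        · exact heq
        · exfalso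
          rw [e1] at hs
          have h5 := seg_side hp hs hv hτ2 hlt
          rw [← e4] at h5
          exact side_not_int hs2 h5
      subst hττ
      have hpp : p' = p2 := by rw [e1, e4]
      subst hpp
      have hij : i = j := side_disj hs hs2
      subst hij
      have hvv : v' = v2 := by rw [e2, e5]
      subst hvv
      have h6 := ih h3 (by linarith)
      have e7 : t - s0 = t' - s' := by rw [e3, e6]; ring
      rw [e7]
      exact h6

/-- all intermediate states exist up to finitely many times; in particular states exist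
arbitrarily close to a given earlier time -/
theorem Orb.exists_mid {ψ H t s ε : ℝ} {p v r z : ℂ} (h : Orb ψ H t p v r z) (hs : 0 ≤ s)
    (hst : s < t) (hε : 0 < ε) : ∃ s', s < s' ∧ s' < s + ε ∧ ∃ q w, Orb ψ H s' p v q w := by
  induction h generalizing s with
  | @free t p v q ht hp hq e =>
    subst e
    have h1 : s < min (s + ε) t := lt_min (by linarith) hst
    obtain ⟨s', h2, h3⟩ := exists_between h1
    have h4 : s' < t := h3.trans_le (min_le_right _ _)
    exact ⟨s', h2, h3.trans_le (min_le_left _ _), p + s' * v, v,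
      Orb.free (by linarith) hp (seg_int hp hq (by linarith) h4.le) rfl⟩
  | @hit s0 τ t' p v p' v' q w i hτ hp hs1 hv e1 e2 e3 h ih =>
    rcases lt_or_ge s τ with hlt | hge
    · have h1 : s < min (s + ε) τ := lt_min (by linarith) hlt
      obtain ⟨s', h2, h3⟩ := exists_between h1
      have h4 : s' < τ := h3.trans_le (min_le_right _ _)
      rw [e1] at hs1
      exact ⟨s', h2, h3.trans_le (min_le_left _ _), p + s' * v, v,
        Orb.free (by linarith) hp (seg_side hp hs1 hv (by linarith) h4) rfl⟩
    · obtain ⟨s', h2, h3, q1, w1, h4⟩ := ih (s := s - τ) (by linarith) (by linarith)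
      exact ⟨τ + s', by linarith, by linarith, q1, w1,
        Orb.hit i hτ hp hs1 hv e1 e2 rfl h4⟩

/-- continuation through the point `p` in the direction `u` -/
def ContP (ψ H : ℝ) (p u : ℂ) (s : ℝ) (r z : ℂ) : Prop :=
  (p ∈ intP ψ H ∧ Orb ψ H s p u r z) ∨
    ∃ i, p ∈ side ψ H i ∧ 0 < ip u (nrm ψ i) ∧ Orb ψ H s p (rf ψ i u) r z

theorem ContP.back {ψ H s τ : ℝ} {p q u r z : ℂ} (h : ContP ψ H p u s r z) (hτ : 0 < τ)
    (hq : q ∈ inP ψ H) (e : p = q + τ * u) : Orb ψ H (τ + s) q u r z := by
  rcases h with ⟨h1, h2⟩ | ⟨i, h1, h2, h3⟩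
  · exact (Orb.free hτ hq h1 e).trans h2
  · exact Orb.hit i hτ hq h1 h2 e rfl rfl h3

theorem Orb.glue {ψ H t s : ℝ} {p v q w r z : ℂ} (h1 : Orb ψ H t p v q w)
    (h2 : ContP ψ H p (-v) s r z) : Orb ψ H (t + s) q (-w) r z := by
  induction h1 generalizing s with
  | @free t p v q ht hp hq e =>
    refine h2.back ht (intP_subset _ _ hq) ?_
    rw [e]
    ring
  | @hit s0 τ t' p v p' v' q w i hτ hp hs hv e1 e2 e3 h ih =>
    have h3 : ContP ψ H p' (-v') (τ + s) r z := by
      right
      refine ⟨i, hs, ?_, ?_⟩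
      · rw [e2, ip_neg_left, ip_rf_nrm, neg_neg]
        exact hv
      · have e4 : rf ψ i (-v') = -v := by rw [e2, rf_neg, rf_rf]
        rw [e4]
        refine h2.back hτ (side_subset _ _ _ hs) ?_
        rw [e1]
        ring
    have h4 := ih h3
    have e5 : s0 + s = t' + (τ + s) := by rw [e3]; ring
    rw [e5]
    exact h4

/-- reversal and gluing: if from `q0 ∈ side i` the orbit in direction `v` leads to `(q, w)` in
time `t`, and the orbit of `q0` in direction `rf i (-v)` leads to `(r, z)` in time `s`, then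
`(q, -w)` flows through `q0` to `(r, z)` in time `t + s`. -/
theorem Orb.rev_glue {ψ H s t : ℝ} {i : Fin 5} {q0 v q w r z : ℂ} (h0 : q0 ∈ side ψ H i)
    (hv : ip v (nrm ψ i) < 0) (h1 : Orb ψ H t q0 v q w)
    (h2 : Orb ψ H s q0 (rf ψ i (-v)) r z) : Orb ψ H (t + s) q (-w) r z := by
  refine h1.glue (Or.inr ⟨i, h0, ?_, h2⟩)
  rw [ip_neg_left]
  linarith

/-- time reversal between interior points -/
theorem Orb.rev {ψ H t : ℝ} {p v q w : ℂ} (hp : p ∈ intP ψ H) (h : Orb ψ H t p v q w) :
    Orb ψ H t q (-w) p (-v) := by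
  cases h with
  | free ht hp' hq e =>
    refine Orb.free ht (intP_subset _ _ hq) hp ?_
    rw [e]
    ring
  | @hit _ τ t' _ _ p' v' _ _ i hτ hp' hs hv e1 e2 e3 h =>
    have h3 : ContP ψ H p' (-v') τ p (-v) := by
      right
      refine ⟨i, hs, ?_, ?_⟩
      · rw [e2, ip_neg_left, ip_rf_nrm, neg_neg]
        exact hv
      · have e4 : rf ψ i (-v') = -v := by rw [e2, rf_neg, rf_rf]
        rw [e4]
        refine Orb.free hτ (side_subset _ _ _ hs) hp ?_
        rw [e1]
        ring
    have h4 := h.glue h3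
    rw [e3, add_comm]
    exact h4

end FC28
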