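import Pool.Agent.Lib.MP_fc28e0_an.IET
import Pool.Agent.Lib.MP_fc28e0_an.ChordB
import Pool.Agent.Lib.MP_fc28e0_an.NoConnB
import Pool.Agent.Lib.MP_fc28e0_an.OrbBasic

/-! # Full directions of the ray when the set of directions is finite -/

open Complex

namespace FC28

/-- the ray `ω_m` visits every open subset of the pentagon with exact direction `v`, at
arbitrarily large times -/
def Vd (ψ H : ℝ) (m : ℕ) (v : ℂ) : Prop :=
  ∀ x0 ∈ intP ψ H, ∀ ε > 0, ∀ N : ℝ, ∃ t > N, ∃ p, ray ψ H m t p v ∧ ‖p - x0‖ < ε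

namespace DA

/-! ## chains of a relation -/

/-- an orbit is infinite or ends -/
theorem seq_or_end {α : Type} (R : α → α → Prop) (x : α) :
    (∃ a : ℕ → α, a 0 = x ∧ ∀ n, R (a n) (a (n + 1))) ∨
    (∃ n : ℕ, ∃ y : ℕ → α, y 0 = x ∧ (∀ i < n, R (y i) (y (i + 1))) ∧ ¬ ∃ z, R (y n) z) := by
  classical
  by_cases h : ∃ n : ℕ, ∃ y : ℕ → α, y 0 = x ∧ (∀ i < n, R (y i) (y (i + 1))) ∧
      ¬ ∃ z, R (y n) z
  · exact Or.inr h
  · left
    push Not at h
    let G : Type := {z : α // ∃ n : ℕ, ∃ y : ℕ → α, y 0 = x ∧ (∀ i < n, R (y i) (y (i + 1))) ∧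
      y n = z}
    have hstep : ∀ z : G, ∃ z' : G, R z.1 z'.1 := by
      rintro ⟨z, n, y, hy0, hyR, hyn⟩
      obtain ⟨z', hz'⟩ := h n y hy0 hyR
      refine ⟨⟨z', n + 1, fun i => if i ≤ n then y i else z', by simp [hy0], ?_, by simp⟩, ?_⟩
      · intro i hi
        by_cases hin : i < n
        · simp only [hin.le, if_true, Nat.succ_le_of_lt hin]
          exact hyR i hin
        · have : i = n := by omega
          subst this
          simpa using hz'
      · simpa [← hyn] using hz'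
    choose f hf using hstep
    let s : ℕ → G := fun n => Nat.rec ⟨x, 0, fun _ => x, rfl, by simp, rfl⟩ (fun _ z => f z) n
    exact ⟨fun n => (s n).1, rfl, fun n => hf (s n)⟩

/-! ## the rotation group -/

theorem cc_neg {ψ : ℝ} {c : ℂ} (hc : c ∈ CC ψ) : -c ∈ CC ψ := by
  obtain ⟨j, h | h⟩ := hc
  · exact ⟨j, Or.inr (by rw [h])⟩
  · exact ⟨j, Or.inl (by rw [h, neg_neg])⟩

theorem conj_exp (ψ : ℝ) (j : ℤ) :
    (starRingEnd ℂ) (Complex.exp (2 * ψ * j * I)) = Complex.exp (2 * ψ * (-j : ℤ) * I) := by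
  rw [← Complex.exp_conj]
  congr 1
  simp only [map_mul, Complex.conj_I, Complex.conj_ofReal, map_ofNat, map_intCast]
  push_cast
  ring

theorem cc_conj {ψ : ℝ} {c : ℂ} (hc : c ∈ CC ψ) : (starRingEnd ℂ) c ∈ CC ψ := by
  obtain ⟨j, h | h⟩ := hc
  · exact ⟨-j, Or.inl (by rw [h, conj_exp])⟩
  · exact ⟨-j, Or.inr (by rw [h, map_neg, conj_exp])⟩

theorem cc_mul {ψ : ℝ} {c : ℂ} (hc : c ∈ CC ψ) : Complex.exp (-(2 * ψ * I)) * c ∈ CC ψ := by
  obtain ⟨j, h | h⟩ := hc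
  · refine ⟨j - 1, Or.inl ?_⟩
    rw [h, ← Complex.exp_add]; congr 1; push_cast; ring
  · refine ⟨j - 1, Or.inr ?_⟩
    rw [h, mul_neg, ← Complex.exp_add]; congr 2; push_cast; ring

theorem cc_norm {ψ : ℝ} {c : ℂ} (hc : c ∈ CC ψ) : ‖c‖ = 1 := by
  have h1 : ∀ j : ℤ, ‖Complex.exp (2 * ψ * j * I)‖ = 1 := by
    intro j
    have : (2 * ψ * j * I : ℂ) = ((2 * ψ * j : ℝ) : ℂ) * I := by push_cast; ring
    rw [this, Complex.norm_exp_ofReal_mul_I]
  obtain ⟨j, h | h⟩ := hc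
  · rw [h, h1]
  · rw [h, norm_neg, h1]

theorem rep_norm {ψ H : ℝ} {m : ℕ} (hm : m ≠ 0) {c v : ℂ} (hc : c ∈ CC ψ) (h : Rep m H c v) :
    ‖v‖ = 1 := by
  rcases h with h | h
  · rw [h, norm_mul, cc_norm hc, norm_em hm, mul_one]
  · rw [h, norm_mul, cc_norm hc, RCLike.norm_conj, norm_em hm, mul_one]

theorem rep_conj {m : ℕ} {H : ℝ} {c v : ℂ} (h : Rep m H c v) :
    Rep m H ((starRingEnd ℂ) c) ((starRingEnd ℂ) v) := by
  rcases h with h | h
  · right; rw [h, map_mul]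
  · left; rw [h, map_mul, Complex.conj_conj]

theorem rep_mul {m : ℕ} {H : ℝ} {c v : ℂ} (h : Rep m H c v) (a : ℂ) :
    Rep m H (a * c) (a * v) := by
  rcases h with h | h
  · left; rw [h, mul_assoc]
  · right; rw [h, mul_assoc]

theorem rep_rf {ψ H : ℝ} {m : ℕ} {c v : ℂ} (hc : c ∈ CC ψ) (h : Rep m H c v) (i : Fin 5) :
    ∃ c' ∈ CC ψ, Rep m H c' (rf ψ i v) := by
  have h1 := rep_conj h
  have h2 := cc_conj hc
  have h3 := rep_mul h1 (-1)
  rw [neg_one_mul, neg_one_mul] at h3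
  fin_cases i
  · exact ⟨_, h2, by simpa [rf_zero] using h1⟩
  · exact ⟨_, cc_neg h2, by simpa [rf_one] using h3⟩
  · exact ⟨_, h2, by simpa [rf_two] using h1⟩
  · exact ⟨_, cc_neg h2, by simpa [rf_three] using h3⟩
  · exact ⟨_, cc_mul h2, by simpa [rf_four] using rep_mul h1 (Complex.exp (-(2 * ψ * I)))⟩

/-- the directions -/
def Th (ψ H : ℝ) (m : ℕ) : Set ℂ := {v : ℂ | ∃ c ∈ CC ψ, Rep m H c v}

theorem th_norm {ψ H : ℝ} {m : ℕ} (hm : m ≠ 0) {v : ℂ} (hv : v ∈ Th ψ H m) : ‖v‖ = 1 := by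
  obtain ⟨c, hc, h⟩ := hv
  exact rep_norm hm hc h

theorem th_rf {ψ H : ℝ} {m : ℕ} {v : ℂ} (hv : v ∈ Th ψ H m) (i : Fin 5) :
    rf ψ i v ∈ Th ψ H m := by
  obtain ⟨c, hc, h⟩ := hv
  exact rep_rf hc h i

theorem cc_dirR (ψ : ℝ) : -Complex.exp (-(2 * ψ * I)) ∈ CC ψ := by
  refine ⟨-1, Or.inr ?_⟩
  congr 2; push_cast; ring

theorem rep_dirR (ψ H : ℝ) (m : ℕ) :
    Rep m H (-Complex.exp (-(2 * ψ * I))) (dirR ψ H m) := by
  right
  rw [dirR, rf_four, map_neg]; ring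

theorem im_dirR {ψ H : ℝ} (hP : Par ψ H) : (-Complex.exp (-(2 * ψ * I))).im ≠ 0 := by
  have h1 : (-(2 * ψ * I) : ℂ) = ((-(2 * ψ) : ℝ) : ℂ) * I := by push_cast; ring
  rw [h1, Complex.neg_im, Complex.exp_ofReal_mul_I_im, Real.sin_neg, neg_neg]
  have := hP.sin_two
  intro h; linarith

/-! ## the chord system -/

theorem chs_th {ψ H : ℝ} {m : ℕ} {x y : ℂ × ℝ} (h : ChS ψ H x y) (hx : x.1 ∈ Th ψ H m) :
    y.1 ∈ Th ψ H m := by
  obtain ⟨-, p, -, τ, -, i, -, -, hy, -⟩ := h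
  rw [hy]; exact th_rf hx i

theorem chs_th' {ψ H : ℝ} {m : ℕ} {x y : ℂ × ℝ} (h : ChS ψ H x y) (hy : y.1 ∈ Th ψ H m) :
    x.1 ∈ Th ψ H m := by
  obtain ⟨-, p, -, τ, -, i, -, -, hy', -⟩ := h
  have : x.1 = rf ψ i y.1 := by rw [hy', rf_rf]
  rw [this]; exact th_rf hy i

/-- the chord system on the finite set of directions -/
noncomputable def sysD {ψ H : ℝ} (hP : Par ψ H) {m : ℕ} (hm : m ≠ 0) (hfin : (Th ψ H m).Finite) :
    IETSys {v : ℂ // v ∈ Th ψ H m} where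
  X v := Sl ψ H v.1
  S x y := ChS ψ H (x.1.1, x.2) (y.1.1, y.2)
  open_X v := isOpen_Sl (th_norm hm v.2)
  conn_X v := ordConnected_Sl
  bdd_X v := bounded_Sl hP (th_norm hm v.2)
  memL h := ChS.memL h
  memR h := ChS.memR h
  func {x y y'} h h' := by
    have := ChS.func h h'
    rw [Prod.mk.injEq] at this
    exact Prod.ext (Subtype.ext this.1) this.2
  inj {x x' y} h h' := by
    have := ChS.inj h h'
    rw [Prod.mk.injEq] at this
    exact Prod.ext (Subtype.ext this.1) this.2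
  loc h := ChS.loc h
  finD := by
    have : Finite {v : ℂ // v ∈ Th ψ H m} := hfin
    refine (Set.finite_iUnion fun v : {v : ℂ // v ∈ Th ψ H m} =>
      (finite_no_exit hP (th_norm hm v.2)).image (fun u => (v, u))).subset ?_
    rintro ⟨v, u⟩ ⟨h1, h2⟩
    refine Set.mem_iUnion.mpr ⟨v, u, ⟨h1, ?_⟩, rfl⟩
    rintro ⟨y, hy⟩
    exact h2 ⟨(⟨y.1, chs_th hy v.2⟩, y.2), hy⟩
  finR := by
    have : Finite {v : ℂ // v ∈ Th ψ H m} := hfin
    refine (Set.finite_iUnion fun v : {v : ℂ // v ∈ Th ψ H m} =>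
      (finite_no_entry hP (th_norm hm v.2)).image (fun u => (v, u))).subset ?_
    rintro ⟨v, u⟩ ⟨h1, h2⟩
    refine Set.mem_iUnion.mpr ⟨v, u, ⟨h1, ?_⟩, rfl⟩
    rintro ⟨y, hy⟩
    exact h2 ⟨(⟨y.1, chs_th' hy v.2⟩, y.2), hy⟩

/-! ## infinite orbits -/

theorem vert_tight (ψ H : ℝ) (a : Fin 5) : ip (vert ψ H a) (nrm ψ a) = off ψ H a := by
  fin_cases a <;> simp [vert, nrm, off, ip]

theorem vert_not_int (ψ H : ℝ) (a : Fin 5) : vert ψ H a ∉ intP ψ H := by
  intro h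
  have := h a
  rw [vert_tight] at this
  exact lt_irrefl _ this

theorem inf_orbit {ψ H : ℝ} (hP : Par ψ H) {m : ℕ} (hm : m ≠ 0) (hfin : (Th ψ H m).Finite)
    (hNC : NoConn ψ H m) (v : {v : ℂ // v ∈ Th ψ H m}) {c : ℂ} (hc : c ∈ CC ψ)
    (hcv : Rep m H c v.1) (him : c.im ≠ 0) {u : ℝ} (hu : u ∈ Sl ψ H v.1) :
    (∃ a : ℕ → {v : ℂ // v ∈ Th ψ H m} × ℝ, a 0 = (v, u) ∧
      ∀ n, (sysD hP hm hfin).S (a n) (a (n + 1))) ∨
    (∃ a : ℕ → {v : ℂ // v ∈ Th ψ H m} × ℝ, a 0 = (v, u) ∧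
      ∀ n, (sysD hP hm hfin).S (a (n + 1)) (a n)) := by
  rcases seq_or_end (fun x y : ℂ × ℝ => ChS ψ H x y) (v.1, u) with ⟨a, ha0, ha⟩ | ⟨n, y, hy0, hy, hyn⟩
  · left
    have hth : ∀ n, (a n).1 ∈ Th ψ H m := by
      intro n
      induction n with
      | zero => rw [ha0]; exact v.2
      | succ n ih => exact chs_th (ha n) ih
    refine ⟨fun n => (⟨(a n).1, hth n⟩, (a n).2), ?_, fun n => ha n⟩
    exact Prod.ext (Subtype.ext (by simp [ha0])) (by simp [ha0])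
  · rcases seq_or_end (fun x y : ℂ × ℝ => ChS ψ H y x) (v.1, u) with
      ⟨a, ha0, ha⟩ | ⟨n', y', hy0', hy', hyn'⟩
    · right
      have hth : ∀ n, (a n).1 ∈ Th ψ H m := by
        intro n
        induction n with
        | zero => rw [ha0]; exact v.2
        | succ n ih => exact chs_th' (ha n) ih
      refine ⟨fun n => (⟨(a n).1, hth n⟩, (a n).2), ?_, fun n => ha n⟩
      exact Prod.ext (Subtype.ext (by simp [ha0])) (by simp [ha0])
    · exfalso
      -- the total chain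
      set x : ℕ → ℂ × ℝ := fun i => if i ≤ n' then y' (n' - i) else y (i - n') with hx
      have hxl : ∀ i, i ≤ n' → x i = y' (n' - i) := fun i hi => by simp [hx, hi]
      have hxr : ∀ i, n' ≤ i → x i = y (i - n') := by
        intro i hi
        by_cases h : i ≤ n'
        · have : i = n' := le_antisymm h hi
          subst this
          simp [hx, hy0, hy0']
        · simp [hx, h]
      have hchain : ∀ i < n' + n, ChS ψ H (x i) (x (i + 1)) := by
        intro i hi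
        by_cases h : i < n'
        · rw [hxl i h.le, hxl (i + 1) h]
          have := hy' (n' - (i + 1)) (by omega)
          rwa [show n' - (i + 1) + 1 = n' - i by omega] at this
        · rw [hxr i (by omega), hxr (i + 1) (by omega)]
          have := hy (i - n') (by omega)
          rwa [show i - n' + 1 = i + 1 - n' by omega] at this
      have hxn' : x n' = (v.1, u) := by rw [hxl n' le_rfl, Nat.sub_self, hy0']
      have hth' : ∀ i, i ≤ n' → (y' i).1 ∈ Th ψ H m := by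
        intro i
        induction i with
        | zero => intro _; rw [hy0']; exact v.2
        | succ i ih => intro hi; exact chs_th' (hy' i (by omega)) (ih (by omega))
      have hth : ∀ i, i ≤ n → (y i).1 ∈ Th ψ H m := by
        intro i
        induction i with
        | zero => intro _; rw [hy0]; exact v.2
        | succ i ih => intro hi; exact chs_th (hy i (by omega)) (ih (by omega))
      have hx0 : x 0 = y' n' := by rw [hxl 0 (Nat.zero_le _), Nat.sub_zero]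
      have hxN : x (n' + n) = y n := by rw [hxr _ (by omega), Nat.add_sub_cancel_left]
      have hSl' : (y' n').2 ∈ Sl ψ H (y' n').1 := by
        rcases Nat.eq_zero_or_pos n' with h | h
        · subst h; rw [hy0']; exact hu
        · have := hy' (n' - 1) (by omega)
          rw [show n' - 1 + 1 = n' by omega] at this
          exact ChS.memL this
      have hSl : (y n).2 ∈ Sl ψ H (y n).1 := by
        rcases Nat.eq_zero_or_pos n with h | h
        · subst h; rw [hy0]; exact hu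
        · have := hy (n - 1) (by omega)
          rw [show n - 1 + 1 = n by omega] at this
          exact ChS.memR this
      have hn1' : ‖(y' n').1‖ = 1 := th_norm hm (hth' n' le_rfl)
      have hn1 : ‖(y n).1‖ = 1 := th_norm hm (hth n le_rfl)
      rcases chord_entry_cases hP hn1' hSl' with h | ⟨a, p, hp, τ, hτ, hip, hpe⟩
      · exact hyn' h
      rcases chord_exit_cases hP hn1 hSl with h | ⟨a', p', hp', τ', hτ', hip', hpe'⟩
      · exact hyn h
      obtain ⟨w, hR, hrep⟩ := reach_of_chain hP m (n' + n) x hchain (by rw [hx0]; exact hn1')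
        (A := vert ψ H a) (B := vert ψ H a') (vert_mem hP a)
        ⟨p, hp, τ, hτ, by rw [hx0]; exact hip, by rw [hx0]; exact hpe⟩ (vert_mem hP a')
        ⟨p', hp', τ', hτ', by rw [hxN]; exact hip', by rw [hxN]; exact hpe'⟩
        (vert_not_int ψ H a')
      obtain ⟨c0, hc0, hrep0, him0⟩ := hrep n' (by omega) c hc (by rw [hxn']; exact hcv)
      obtain ⟨h4, h0⟩ := hNC c0 hc0 (x 0).1 hrep0 w a a' hR
      have h5 := him0 h4
      rw [h0, abs_zero] at h5
      exact him (abs_eq_zero.mp h5.symm)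

/-! ## the chord orbit of the ray -/

theorem ip_I_self (v : ℂ) : ip v (I * v) = 0 := by
  simp [ip]; ring

theorem decomp {v : ℂ} (hv : ‖v‖ = 1) (z : ℂ) :
    z = (ip z v : ℝ) * v + (ip z (I * v) : ℝ) * (I * v) := by
  have h1 : v.re * v.re + v.im * v.im = 1 := by
    have := Complex.sq_norm v
    rw [hv, Complex.normSq_apply] at this
    linarith
  apply Complex.ext
  · simp [ip]
    linear_combination (-z.re) * h1
  · simp [ip]
    linear_combination (-z.im) * h1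

/-- points of the same chord differ by a multiple of the direction -/
theorem same_chord {v p q : ℂ} (hv : ‖v‖ = 1) (h : ip p (I * v) = ip q (I * v)) :
    p = q + (ip (p - q) v : ℝ) * v := by
  have h1 := decomp hv (p - q)
  have h2 : ip (p - q) (I * v) = 0 := by
    rw [sub_eq_add_neg, ip_add_left, ip_neg_left, h]; ring
  rw [h2] at h1
  have h3 : p = q + (p - q) := by ring
  rw [h3]
  nth_rewrite 1 [h1]
  simp

theorem start_side (ψ H : ℝ) : ip (⟨0, b⟩ : ℂ) (nrm ψ 3) = off ψ H 3 := by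
  simp [nrm, off, ip]

/-- interior points of the first chord -/
theorem first_chord {ψ H : ℝ} (hP : Par ψ H) {m : ℕ} (hm : m = 1 ∨ m = 2) {p : ℂ}
    (hp : p ∈ intP ψ H) (h : ip p (I * dirR ψ H m) = ip (⟨0, b⟩ : ℂ) (I * dirR ψ H m)) :
    ∃ τ : ℝ, 0 < τ ∧ p = ⟨0, b⟩ + τ * dirR ψ H m := by
  have hm0 : m ≠ 0 := by rcases hm with rfl | rfl <;> norm_num
  have hv : ‖dirR ψ H m‖ = 1 := rep_norm hm0 (cc_dirR ψ) (rep_dirR ψ H m)
  obtain ⟨s0, hs0, hin⟩ := dirR_inward hP hm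
  have h1 := hin s0 hs0 le_rfl 3
  rw [ip_add_left, ip_smul_left, start_side ψ H] at h1
  have h2 : ip (dirR ψ H m) (nrm ψ 3) < 0 := by
    by_contra hcon
    push Not at hcon
    nlinarith [mul_nonneg hs0.le hcon]
  have h3 := same_chord hv h
  set τ := ip (p - ⟨0, b⟩) (dirR ψ H m) with hτ
  refine ⟨τ, ?_, h3⟩
  have h4 := hp 3
  rw [h3, ip_add_left, ip_smul_left, start_side ψ H] at h4
  by_contra hcon
  push Not at hcon
  nlinarith [mul_nonneg_of_nonpos_of_nonpos hcon h2.le]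

/-- times along the chord orbit of the ray -/
theorem ray_times {ψ H : ℝ} (hP : Par ψ H) {m : ℕ} (hm : m = 1 ∨ m = 2) {o : ℕ → ℂ × ℝ}
    (ho0 : o 0 = (dirR ψ H m, ip (⟨0, b⟩ : ℂ) (I * dirR ψ H m)))
    (ho : ∀ n, ChS ψ H (o n) (o (n + 1))) :
    ∃ T : ℕ → ℝ, Monotone T ∧
      (∀ n, ∀ p ∈ intP ψ H, ip p (I * (o n).1) = (o n).2 → ∃ t > T n, ray ψ H m t p (o n).1) ∧
      (∀ n, ∀ p ∈ intP ψ H, ip p (I * (o n).1) = (o n).2 → ∀ d : ℝ, 0 < d →
        p + d * (o n).1 ∈ intP ψ H → T n + d < T (n + 1)) := by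
  choose i p' hp' hpos hrf hip hip' hexit hentry using fun n => ChS.exit (ho n)
  -- entry points
  let e : ℕ → ℂ := fun n => Nat.casesOn n ⟨0, b⟩ p'
  have he0 : e 0 = ⟨0, b⟩ := rfl
  have hes : ∀ n, e (n + 1) = p' n := fun n => rfl
  have hein : ∀ n, e n ∈ inP ψ H := by
    intro n
    cases n with
    | zero => rw [he0]; exact vert_mem hP 4
    | succ n => rw [hes]; exact side_subset _ _ _ (hp' n)
  have hchord : ∀ n, ∀ p ∈ intP ψ H, ip p (I * (o n).1) = (o n).2 →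
      ∃ τ : ℝ, 0 < τ ∧ p = e n + τ * (o n).1 := by
    intro n p hp h
    cases n with
    | zero =>
      rw [ho0] at h ⊢
      rw [he0]
      exact first_chord hP hm hp h
    | succ n => rw [hes]; exact hentry n p hp h
  have hL : ∀ n, ∃ L : ℝ, 0 < L ∧ p' n = e n + L * (o n).1 ∧
      (∀ p ∈ intP ψ H, ip p (I * (o n).1) = (o n).2 → ∀ d : ℝ, 0 < d →
        p + d * (o n).1 ∈ intP ψ H → d < L) := by
    intro n
    obtain ⟨q, hq, hqe⟩ := ChS.memL (ho n)
    obtain ⟨τ1, hτ1, h1⟩ := hchord n q hq hqe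
    obtain ⟨τ2, hτ2, h2⟩ := hexit n q hq hqe
    have hv1 : ‖(o n).1‖ = 1 := (ho n).1
    have hne : (o n).1 ≠ 0 := by
      intro h0; rw [h0, norm_zero] at hv1; exact zero_ne_one hv1
    have hLe : p' n = e n + ((τ1 + τ2 : ℝ) : ℂ) * (o n).1 := by
      rw [← h2, h1]; push_cast; ring
    refine ⟨τ1 + τ2, by linarith, hLe, ?_⟩
    intro p hp hpe d hd hpd
    obtain ⟨τ3, hτ3, h3⟩ := hchord n p hp hpe
    have hpe' : ip (p + d * (o n).1) (I * (o n).1) = (o n).2 := by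
      rw [ip_add_left, ip_smul_left, ip_I_self, hpe]; ring
    obtain ⟨τ4, hτ4, h4⟩ := hexit n _ hpd hpe'
    have h5 : e n + ((τ1 + τ2 : ℝ) : ℂ) * (o n).1 = e n + ((τ3 + d + τ4 : ℝ) : ℂ) * (o n).1 := by
      rw [← hLe, ← h4, h3]; push_cast; ring
    have h6 : ((τ1 + τ2 : ℝ) : ℂ) = ((τ3 + d + τ4 : ℝ) : ℂ) :=
      mul_right_cancel₀ hne (add_left_cancel h5)
    have h7 : τ1 + τ2 = τ3 + d + τ4 := by exact_mod_cast h6
    linarith
  choose L hLpos hLe hLd using hL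
  -- transport
  have htr : ∀ n, ∀ s r z, Orb ψ H s (e n) (o n).1 r z →
      ray ψ H m (∑ j ∈ Finset.range n, L j + s) r z := by
    intro n
    induction n with
    | zero =>
      intro s r z h
      rw [he0, ho0] at h
      simpa [ray] using h
    | succ n ih =>
      intro s r z h
      rw [hes, hrf] at h
      have h1 : Orb ψ H (L n + s) (e n) (o n).1 r z :=
        Orb.hit (i n) (hLpos n) (hein n) (hp' n) (hpos n) (hLe n) rfl rfl h
      have h2 := ih _ _ _ h1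
      rwa [Finset.sum_range_succ, add_assoc]
  refine ⟨fun n => ∑ j ∈ Finset.range n, L j, ?_, ?_, ?_⟩
  · refine monotone_nat_of_le_succ fun n => ?_
    rw [Finset.sum_range_succ]
    linarith [hLpos n]
  · intro n p hp h
    obtain ⟨τ, hτ, h1⟩ := hchord n p hp h
    refine ⟨∑ j ∈ Finset.range n, L j + τ, by simpa using hτ, ?_⟩
    exact htr n τ p _ (Orb.free hτ (hein n) hp h1)
  · intro n p hp h d hd hpd
    have := hLd n p hp h d hd hpd
    simp only [Finset.sum_range_succ]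
    linarith

/-- visits of an open target at arbitrarily large times -/
theorem vd_of_cl {ψ H : ℝ} (hP : Par ψ H) {m : ℕ} (hm : m = 1 ∨ m = 2) {o : ℕ → ℂ × ℝ}
    (ho0 : o 0 = (dirR ψ H m, ip (⟨0, b⟩ : ℂ) (I * dirR ψ H m)))
    (ho : ∀ n, ChS ψ H (o n) (o (n + 1))) {v : ℂ} (hv : ‖v‖ = 1)
    (hcl : ∀ u ∈ Sl ψ H v, ∀ ε > 0, ∃ n, (o n).1 = v ∧ |(o n).2 - u| < ε) : Vd ψ H m v := by
  intro x0 hx0 ε hε N
  obtain ⟨T, hmono, hray, hlen⟩ := ray_times hP hm ho0 ho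
  obtain ⟨ρ, hρ, hball⟩ := Metric.isOpen_iff.mp (isOpen_intP ψ H) x0 hx0
  obtain ⟨d, hd, hd1, hd2⟩ : ∃ d > 0, 2 * d ≤ ρ ∧ 2 * d ≤ ε :=
    ⟨min ρ ε / 2, by positivity, by linarith [min_le_left ρ ε], by linarith [min_le_right ρ ε]⟩
  set u0 := ip x0 (I * v) with hu0
  have hIv : ip (I * v) (I * v) = 1 := by
    have h := Complex.sq_norm v
    rw [hv, Complex.normSq_apply] at h
    simp [ip]; linarith
  -- points near x0 on the chord with parameter u
  have hpt : ∀ u : ℝ, |u - u0| < d → x0 + ((u - u0 : ℝ) : ℂ) * (I * v) ∈ intP ψ H ∧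
      ip (x0 + ((u - u0 : ℝ) : ℂ) * (I * v)) (I * v) = u ∧
      ‖x0 + ((u - u0 : ℝ) : ℂ) * (I * v) - x0‖ < d ∧
      x0 + ((u - u0 : ℝ) : ℂ) * (I * v) + d * v ∈ intP ψ H := by
    intro u hu
    have hn : ‖((u - u0 : ℝ) : ℂ) * (I * v)‖ < d := by
      rw [norm_mul, norm_mul, hv, Complex.norm_I, mul_one, mul_one, Complex.norm_real,
        Real.norm_eq_abs]
      exact hu
    refine ⟨hball ?_, ?_, ?_, hball ?_⟩
    · rw [Metric.mem_ball, dist_eq_norm, add_sub_cancel_left]; linarith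
    · rw [ip_add_left, ip_smul_left, hIv]; rw [← hu0]; ring
    · rw [add_sub_cancel_left]; exact hn
    · rw [Metric.mem_ball, dist_eq_norm]
      have : x0 + ((u - u0 : ℝ) : ℂ) * (I * v) + d * v - x0
          = ((u - u0 : ℝ) : ℂ) * (I * v) + d * v := by ring
      rw [this]
      have h2 : ‖((d : ℝ) : ℂ) * v‖ = d := by
        rw [norm_mul, hv, mul_one, Complex.norm_real, Real.norm_of_nonneg hd.le]
      calc ‖((u - u0 : ℝ) : ℂ) * (I * v) + d * v‖
          ≤ ‖((u - u0 : ℝ) : ℂ) * (I * v)‖ + ‖((d : ℝ) : ℂ) * v‖ := norm_add_le _ _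
        _ < ρ := by rw [h2]; linarith
  -- the visiting indices
  set A : Set ℕ := {n | (o n).1 = v ∧ |(o n).2 - u0| < d} with hA
  have hAinf : A.Infinite := by
    intro hfin
    -- finitely many values
    have hvals : ((fun n => (o n).2) '' A).Finite := hfin.image _
    have hopen : (Metric.ball u0 d \ ((fun n => (o n).2) '' A)).Nonempty := by
      have h1 : (Metric.ball u0 d).Infinite := by
        rw [Real.ball_eq_Ioo]; exact Set.Ioo_infinite (by linarith)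
      exact (h1.sdiff hvals).nonempty
    obtain ⟨u, hu, hu'⟩ := hopen
    have hop : IsOpen (Metric.ball u0 d \ ((fun n => (o n).2) '' A)) :=
      Metric.isOpen_ball.sdiff hvals.isClosed
    obtain ⟨η, hη, hball2⟩ := Metric.isOpen_iff.mp hop u ⟨hu, hu'⟩
    have huSl : u ∈ Sl ψ H v := by
      obtain ⟨h1, h2, -, -⟩ := hpt u (by simpa [Real.dist_eq] using hu)
      exact ⟨_, h1, h2⟩
    obtain ⟨n, hn1, hn2⟩ := hcl u huSl η hη
    have h3 : (o n).2 ∈ Metric.ball u η := by simpa [Real.dist_eq] using hn2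
    obtain ⟨h4, h5⟩ := hball2 h3
    exact h5 ⟨n, ⟨hn1, by simpa [Real.dist_eq] using h4⟩, rfl⟩
  -- growth of the times
  have hgrow : ∀ k : ℕ, ∃ n, T 0 + k * d ≤ T n := by
    intro k
    induction k with
    | zero => exact ⟨0, by simp⟩
    | succ k ih =>
      obtain ⟨n, hn⟩ := ih
      obtain ⟨n', hn'A, hn'⟩ := hAinf.exists_gt n
      obtain ⟨hv', hu'⟩ := hn'A
      obtain ⟨h1, h2, -, h4⟩ := hpt _ hu'
      have h5 := hlen n' _ h1 (by rw [hv']; exact h2) d hd (by rw [hv']; exact h4)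
      refine ⟨n' + 1, ?_⟩
      have h6 := hmono hn'.le
      push_cast
      linarith
  obtain ⟨k, hk⟩ := exists_nat_gt ((N - T 0) / d)
  rw [div_lt_iff₀ hd] at hk
  obtain ⟨n, hn⟩ := hgrow k
  obtain ⟨n', hn'A, hn'⟩ := hAinf.exists_gt n
  obtain ⟨hv', hu'⟩ := hn'A
  obtain ⟨h1, h2, h3, -⟩ := hpt _ hu'
  obtain ⟨t, ht, hr⟩ := hray n' _ h1 (by rw [hv']; exact h2)
  refine ⟨t, ?_, _, by rw [hv'] at hr; exact hr, by linarith⟩
  have := hmono hn'.le
  show N < t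
  have ht' : T n' < t := ht
  linarith

end DA

open DA IETSys in
/-- There is a set `F` of full directions which contains the initial direction of the ray and is
closed under the reflections as long as the direction is not special. -/
theorem full_directions {ψ H : ℝ} (hP : Par ψ H) {m : ℕ} (hm : m = 1 ∨ m = 2)
    (hNC : NoConn ψ H m) (hfin : {v : ℂ | ∃ c ∈ CC ψ, Rep m H c v}.Finite) :
    ∃ F : Set ℂ, dirR ψ H m ∈ F ∧ (∀ v ∈ F, Vd ψ H m v) ∧
      ∀ v ∈ F, ∀ i : Fin 5, ∀ c ∈ CC ψ, Rep m H c (rf ψ i v) → c.im ≠ 0 → rf ψ i v ∈ F := by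
  have hm0 : m ≠ 0 := by rcases hm with rfl | rfl <;> norm_num
  have hfin' : (Th ψ H m).Finite := hfin
  have hfinite : Finite {v : ℂ // v ∈ Th ψ H m} := hfin'
  set Z := sysD hP hm0 hfin' with hZ
  have hdir : dirR ψ H m ∈ Th ψ H m := ⟨_, cc_dirR ψ, rep_dirR ψ H m⟩
  have hdir1 : ‖dirR ψ H m‖ = 1 := th_norm hm0 hdir
  set d0 : {v : ℂ // v ∈ Th ψ H m} := ⟨dirR ψ H m, hdir⟩ with hd0
  set u0 : ℝ := ip (⟨0, b⟩ : ℂ) (I * dirR ψ H m) with hu0
  obtain ⟨s0, hs0, hin⟩ := dirR_inward hP hm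
  have hp0 := hin s0 hs0 le_rfl
  have hpu : ip ((⟨0, b⟩ : ℂ) + s0 * dirR ψ H m) (I * dirR ψ H m) = u0 := by
    rw [ip_add_left, ip_smul_left, ip_I_self]; ring
  have hu0Sl : u0 ∈ Sl ψ H (dirR ψ H m) := ⟨_, hp0, hpu⟩
  have hno : ¬ ∃ x, ChS ψ H x (dirR ψ H m, u0) :=
    no_entry_of_vert hP (a := 4) hs0 hp0 (by simp [vert]) hpu
  -- the infinite chord orbit
  obtain ⟨o, ho0, ho⟩ : ∃ o : ℕ → {v : ℂ // v ∈ Th ψ H m} × ℝ, o 0 = (d0, u0) ∧
      ∀ n, Z.S (o n) (o (n + 1)) := by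
    rcases inf_orbit hP hm0 hfin' hNC d0 (cc_dirR ψ) (rep_dirR ψ H m) (im_dirR hP) hu0Sl with
      h | ⟨a, ha0, ha⟩
    · exact h
    · exfalso
      have h1 := ha 0
      rw [ha0] at h1
      exact hno ⟨_, h1⟩
  have hno' : ¬ ∃ x, Z.S x (o 0) := by
    rintro ⟨x, hx⟩
    rw [ho0] at hx
    exact hno ⟨_, hx⟩
  have hdich : ∀ v : {v : ℂ // v ∈ Th ψ H m}, ∀ c ∈ CC ψ, Rep m H c v.1 → c.im ≠ 0 →
      ∀ u ∈ Sl ψ H v.1, Cl o (v, u) → ∀ u ∈ Sl ψ H v.1, Cl o (v, u) := by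
    intro v c hc hcv him u hu hclu
    rcases dichotomy Z ho hno' v (fun u hu => inf_orbit hP hm0 hfin' hNC v hc hcv him hu) with
      h | h
    · exact h
    · exact absurd hclu (h u hu)
  refine ⟨{v | ∃ hv : v ∈ Th ψ H m, ∀ u ∈ Sl ψ H v, Cl o (⟨v, hv⟩, u)}, ?_, ?_, ?_⟩
  · refine ⟨hdir, hdich d0 _ (cc_dirR ψ) (rep_dirR ψ H m) (im_dirR hP) u0 hu0Sl ?_⟩
    intro ε hε
    exact ⟨0, by rw [ho0], by rw [ho0]; simpa using hε⟩
  · rintro v ⟨hv, hcl⟩
    refine vd_of_cl hP hm (o := fun n => ((o n).1.1, (o n).2)) ?_ (fun n => ho n)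
      (th_norm hm0 hv) ?_
    · simp [ho0, hd0, hu0]
    · intro u hu ε hε
      obtain ⟨n, hn1, hn2⟩ := hcl u hu ε hε
      refine ⟨n, ?_, hn2⟩
      show (o n).1.1 = v
      rw [hn1]
  · rintro v ⟨hv, hcl⟩ i c hc hrep him
    have hrv : rf ψ i v ∈ Th ψ H m := th_rf hv i
    refine ⟨hrv, ?_⟩
    rcases lt_trichotomy (ip v (nrm ψ i)) 0 with h | h | h
    · -- the chord from `rf i v` to `v`
      have h1 : 0 < ip (rf ψ i v) (nrm ψ i) := by rw [ip_rf_nrm]; linarith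
      obtain ⟨u, z, hch⟩ := exists_chord_through hP (th_norm hm0 hrv) h1
      rw [rf_rf] at hch
      have hS : Z.S (⟨rf ψ i v, hrv⟩, u) (⟨v, hv⟩, z) := hch
      have hz : Cl o (⟨v, hv⟩, z) := hcl z (ChS.memR hch)
      exact hdich ⟨rf ψ i v, hrv⟩ c hc hrep him u (ChS.memL hch) ((Cl_iff ho hno' hS).mpr hz)
    · have h2 : rf ψ i v = v := by rw [rf_eq, h]; simp
      intro u hu
      have h3 : (⟨rf ψ i v, hrv⟩ : {v : ℂ // v ∈ Th ψ H m}) = ⟨v, hv⟩ := Subtype.ext h2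
      rw [h3]
      exact hcl u (by rwa [h2] at hu)
    · obtain ⟨u, z, hch⟩ := exists_chord_through hP (th_norm hm0 hv) h
      have hS : Z.S (⟨v, hv⟩, u) (⟨rf ψ i v, hrv⟩, z) := hch
      have hz : Cl o (⟨v, hv⟩, u) := hcl u (ChS.memL hch)
      exact hdich ⟨rf ψ i v, hrv⟩ c hc hrep him z (ChS.memR hch) ((Cl_iff ho hno' hS).mp hz)

end FC28
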