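import Pool.Agent.Lib.MP_fc28e0_an.DenseA

/-! # Rational angles: the directions are finite and spread out -/

open Complex

namespace FC28

theorem finite_rootsOfOne {n : ℕ} (hn : 0 < n) : {z : ℂ | z ^ n = 1}.Finite := by
  refine (Polynomial.nthRoots n (1 : ℂ)).toFinset.finite_toSet.subset ?_
  intro z hz
  simp only [Finset.mem_coe, Multiset.mem_toFinset]
  exact (Polynomial.mem_nthRoots hn).2 hz

theorem CC_pow {ψ : ℝ} {p q : ℕ} (hq : 0 < q) (hψ : ψ = Real.pi * p / q) {c : ℂ}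
    (hc : c ∈ CC ψ) : c ^ (2 * q) = 1 := by
  have hq' : (q : ℂ) ≠ 0 := by exact_mod_cast hq.ne'
  obtain ⟨j, hj⟩ := hc
  have key : (Complex.exp (2 * ψ * j * I)) ^ (2 * q) = 1 := by
    rw [← Complex.exp_nat_mul]
    rw [Complex.exp_eq_one_iff]
    refine ⟨2 * p * j, ?_⟩
    rw [hψ]
    push_cast
    field_simp
  rcases hj with rfl | rfl
  · exact key
  · rw [Even.neg_pow (even_two_mul q)]
    exact key

theorem finite_directions {ψ H : ℝ} {m p q : ℕ} (hq : 0 < q) (hψ : ψ = Real.pi * p / q) :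
    {v : ℂ | ∃ c ∈ CC ψ, Rep m H c v}.Finite := by
  have hf : {z : ℂ | z ^ (2 * q) = 1}.Finite := finite_rootsOfOne (by omega)
  refine ((hf.image (fun z => z * em m H)).union
    (hf.image (fun z => z * (starRingEnd ℂ) (em m H)))).subset ?_
  rintro v ⟨c, hc, h | h⟩
  · exact Or.inl ⟨c, CC_pow hq hψ hc, h.symm⟩
  · exact Or.inr ⟨c, CC_pow hq hψ hc, h.symm⟩

theorem sin_ne_zero_of_not_dvd {p q : ℕ} (hq : q.Prime) (hq2 : 2 < q) (hpq : ¬ q ∣ p) {j : ℤ}
    (hj : ¬ (q : ℤ) ∣ j) : Real.sin (2 * (Real.pi * p / q) * j) ≠ 0 := by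
  have hq0 : (q : ℝ) ≠ 0 := by exact_mod_cast hq.ne_zero
  intro h
  rw [Real.sin_eq_zero_iff] at h
  obtain ⟨n, hn⟩ := h
  have h1 : (n : ℝ) * q = 2 * p * j := by
    have h2 : (n : ℝ) * Real.pi * q = 2 * Real.pi * p * j := by
      rw [hn]; field_simp
    have hpi := Real.pi_ne_zero
    apply mul_left_cancel₀ hpi
    linarith
  have h3 : (n : ℤ) * q = 2 * p * j := by exact_mod_cast h1
  have hqi : Prime (q : ℤ) := Nat.prime_iff_prime_int.1 hq
  have hd : (q : ℤ) ∣ 2 * p * j := ⟨n, by rw [← h3]; ring⟩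
  rcases hqi.dvd_or_dvd hd with h4 | h4
  · rcases hqi.dvd_or_dvd h4 with h5 | h5
    · have := Int.le_of_dvd (by norm_num) h5
      omega
    · exact hpq (by exact_mod_cast h5)
  · exact hj h4

theorem exp_im' (x : ℝ) : (Complex.exp (x * I)).im = Real.sin x := by
  exact Complex.exp_ofReal_mul_I_im x

theorem CC_im_ne {ψ : ℝ} {p q : ℕ} (hq : q.Prime) (hq2 : 2 < q) (hpq : ¬ q ∣ p)
    (hψ : ψ = Real.pi * p / q) {j : ℤ} (hj : ¬ (q : ℤ) ∣ j) :
    (Complex.exp (2 * ψ * j * I)).im ≠ 0 := by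
  have h : (2 * (ψ : ℂ) * j * I) = ((2 * ψ * j : ℝ) : ℂ) * I := by push_cast; ring
  rw [h, exp_im', hψ]
  exact sin_ne_zero_of_not_dvd hq hq2 hpq hj

theorem conj_exp_mul_I (x : ℝ) :
    (starRingEnd ℂ) (Complex.exp (x * I)) = Complex.exp (-(x * I)) := by
  rw [← Complex.exp_conj]
  congr 1
  simp

theorem mem_F_succ {ψ H : ℝ} {m p q : ℕ}
    (hq : q.Prime) (hq2 : 2 < q) (hpq : ¬ q ∣ p) (hψ : ψ = Real.pi * p / q) {F : Set ℂ}
    (hF : ∀ v ∈ F, ∀ i : Fin 5, ∀ c ∈ CC ψ, Rep m H c (rf ψ i v) → c.im ≠ 0 → rf ψ i v ∈ F)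
    (j : ℤ) (hj : ¬ (q : ℤ) ∣ (j + 1))
    (h : Complex.exp (2 * ψ * j * I) * em m H ∈ F) :
    Complex.exp (2 * ψ * (j + 1 : ℤ) * I) * em m H ∈ F := by
  have e1 : rf ψ 4 (Complex.exp (2 * ψ * j * I) * em m H) =
      Complex.exp (2 * ψ * (-(j + 1) : ℤ) * I) * (starRingEnd ℂ) (em m H) := by
    rw [rf_four, map_mul]
    have : (starRingEnd ℂ) (Complex.exp (2 * ψ * j * I)) = Complex.exp (-(2 * ψ * j * I)) := by
      have h' : (2 * (ψ : ℂ) * j * I) = ((2 * ψ * j : ℝ) : ℂ) * I := by push_cast; ring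
      rw [h', conj_exp_mul_I]
    rw [this, ← mul_assoc, ← Complex.exp_add]
    congr 2
    push_cast
    ring
  have h1 : rf ψ 4 (Complex.exp (2 * ψ * j * I) * em m H) ∈ F := by
    refine hF _ h 4 _ ⟨-(j + 1), Or.inl rfl⟩ (Or.inr e1) ?_
    refine CC_im_ne hq hq2 hpq hψ ?_
    rw [dvd_neg]
    exact hj
  rw [e1] at h1
  have e2 : rf ψ 0 (Complex.exp (2 * ψ * (-(j + 1) : ℤ) * I) * (starRingEnd ℂ) (em m H)) =
      Complex.exp (2 * ψ * (j + 1 : ℤ) * I) * em m H := by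
    rw [rf_zero, map_mul, Complex.conj_conj]
    have h' : (2 * (ψ : ℂ) * (-(j + 1) : ℤ) * I) = ((2 * ψ * (-(j + 1) : ℤ) : ℝ) : ℂ) * I := by
      push_cast; ring
    rw [h', conj_exp_mul_I]
    congr 2
    push_cast
    ring
  have h2 := hF _ h1 0 _ ⟨j + 1, Or.inl rfl⟩ (Or.inl e2) (CC_im_ne hq hq2 hpq hψ hj)
  rw [e2] at h2
  exact h2

theorem mem_F_one {ψ H : ℝ} {m p q : ℕ}
    (hq : q.Prime) (hq2 : 2 < q) (hpq : ¬ q ∣ p) (hψ : ψ = Real.pi * p / q) {F : Set ℂ}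
    (h0 : dirR ψ H m ∈ F)
    (hF : ∀ v ∈ F, ∀ i : Fin 5, ∀ c ∈ CC ψ, Rep m H c (rf ψ i v) → c.im ≠ 0 → rf ψ i v ∈ F) :
    Complex.exp (2 * ψ * (1 : ℤ) * I) * em m H ∈ F := by
  have e1 : rf ψ 1 (dirR ψ H m) = Complex.exp (2 * ψ * (1 : ℤ) * I) * em m H := by
    rw [dirR, rf_four, rf_one, map_mul, map_neg, map_neg, Complex.conj_conj]
    have h' : (-(2 * (ψ : ℂ) * I)) = ((-2 * ψ : ℝ) : ℂ) * I := by
      push_cast; ring
    rw [h', conj_exp_mul_I]
    have : -(((-2 * ψ : ℝ) : ℂ) * I) = 2 * ψ * (1 : ℤ) * I := by push_cast; ring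
    rw [this]
    ring
  have h1 := hF _ h0 1 _ ⟨1, Or.inl rfl⟩ (Or.inl e1) (CC_im_ne hq hq2 hpq hψ (by
    intro h
    have := Int.le_of_dvd (by norm_num) h
    omega))
  rw [e1] at h1
  exact h1

theorem mem_F_nat {ψ H : ℝ} {m p q : ℕ}
    (hq : q.Prime) (hq2 : 2 < q) (hpq : ¬ q ∣ p) (hψ : ψ = Real.pi * p / q) {F : Set ℂ}
    (h0 : dirR ψ H m ∈ F)
    (hF : ∀ v ∈ F, ∀ i : Fin 5, ∀ c ∈ CC ψ, Rep m H c (rf ψ i v) → c.im ≠ 0 → rf ψ i v ∈ F)
    (k : ℕ) (hk : k + 1 < q) :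
    Complex.exp (2 * ψ * ((k : ℤ) + 1 : ℤ) * I) * em m H ∈ F := by
  induction k with
  | zero =>
    have := mem_F_one hq hq2 hpq hψ h0 hF
    simpa using this
  | succ k ih =>
    have h1 := ih (by omega)
    have h2 := mem_F_succ hq hq2 hpq hψ hF ((k : ℤ) + 1) (by
      intro h
      have := Int.le_of_dvd (by positivity) h
      omega) h1
    have e : (((k + 1 : ℕ) : ℤ) + 1) = (k : ℤ) + 1 + 1 := by push_cast; ring
    rw [e]
    exact h2

theorem mem_F_res {ψ H : ℝ} {m p q : ℕ}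
    (hq : q.Prime) (hq2 : 2 < q) (hpq : ¬ q ∣ p) (hψ : ψ = Real.pi * p / q) {F : Set ℂ}
    (h0 : dirR ψ H m ∈ F)
    (hF : ∀ v ∈ F, ∀ i : Fin 5, ∀ c ∈ CC ψ, Rep m H c (rf ψ i v) → c.im ≠ 0 → rf ψ i v ∈ F)
    (l : ℤ) (hl : ¬ (q : ℤ) ∣ l) :
    Complex.exp (((2 * Real.pi * l / q : ℝ) : ℂ) * I) * em m H ∈ F := by
  have hq0 : (q : ℂ) ≠ 0 := by exact_mod_cast hq.ne_zero
  have hqi : Prime (q : ℤ) := Nat.prime_iff_prime_int.1 hq
  -- find j with p j ≡ l mod q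
  have hcop : IsCoprime (p : ℤ) (q : ℤ) := by
    rw [Nat.isCoprime_iff_coprime]
    exact ((Nat.Prime.coprime_iff_not_dvd hq).2 hpq).symm
  obtain ⟨a, c, hac⟩ := hcop
  -- a p + c q = 1
  set j : ℤ := (a * l) % q with hj
  have hqpos : (0 : ℤ) < q := by exact_mod_cast hq.pos
  have hj0 : 0 ≤ j := Int.emod_nonneg _ hqpos.ne'
  have hjq : j < q := Int.emod_lt_of_pos _ hqpos
  have hcong : ∃ n : ℤ, (p : ℤ) * j = l + n * q := by
    have : j = a * l - q * (a * l / q) := by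
      rw [hj]; exact Int.emod_def _ _
    refine ⟨-c * l - p * (a * l / q), ?_⟩
    rw [this]
    have h2 : (p : ℤ) * (a * l) = l - c * q * l := by
      have : (a * p) * l = l - c * q * l := by
        have h3 : a * p = 1 - c * q := by linarith
        rw [h3]; ring
      linarith
    calc (p : ℤ) * (a * l - q * (a * l / q)) = p * (a * l) - p * (q * (a * l / q)) := by ring
      _ = l - c * q * l - p * (q * (a * l / q)) := by rw [h2]
      _ = l + (-c * l - p * (a * l / q)) * q := by ring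
  obtain ⟨n, hn⟩ := hcong
  have hj1 : j ≠ 0 := by
    intro h
    rw [h] at hn
    apply hl
    refine ⟨-n, ?_⟩
    linarith
  obtain ⟨k, hk⟩ : ∃ k : ℕ, j = (k : ℤ) + 1 := ⟨(j - 1).toNat, by omega⟩
  have hmem := mem_F_nat hq hq2 hpq hψ h0 hF k (by omega)
  rw [← hk] at hmem
  have e : Complex.exp (2 * ψ * j * I) = Complex.exp (((2 * Real.pi * l / q : ℝ) : ℂ) * I) := by
    rw [Complex.exp_eq_exp_iff_exists_int]
    refine ⟨n, ?_⟩
    rw [hψ]
    have hn' : (p : ℂ) * j = l + n * q := by exact_mod_cast hn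
    push_cast
    field_simp
    linear_combination hn'
  rw [e] at hmem
  exact hmem

theorem norm_exp_sub_exp_le (x y : ℝ) :
    ‖Complex.exp ((x : ℂ) * I) - Complex.exp ((y : ℂ) * I)‖ ≤ |x - y| := by
  have h : Complex.exp ((x : ℂ) * I) - Complex.exp ((y : ℂ) * I) =
      Complex.exp ((y : ℂ) * I) * (Complex.exp (I * ((x - y : ℝ) : ℂ)) - 1) := by
    rw [mul_sub, ← Complex.exp_add, mul_one]
    congr 2
    push_cast
    ring
  rw [h, norm_mul, Complex.norm_exp_ofReal_mul_I, one_mul]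
  exact Real.norm_exp_I_mul_ofReal_sub_one_le

/-- If `ψ = π p / q`, `q` an odd prime not dividing `p`, then every set `F` as in
`full_directions` is `2π·2/q`-dense in the circle. -/
theorem spread {ψ H : ℝ} (hP : Par ψ H) {m : ℕ} (hm : m = 1 ∨ m = 2) {p q : ℕ}
    (hq : q.Prime) (hq2 : 2 < q) (hpq : ¬ q ∣ p) (hψ : ψ = Real.pi * p / q) {F : Set ℂ}
    (h0 : dirR ψ H m ∈ F)
    (hF : ∀ v ∈ F, ∀ i : Fin 5, ∀ c ∈ CC ψ, Rep m H c (rf ψ i v) → c.im ≠ 0 → rf ψ i v ∈ F)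
    {v0 : ℂ} (hv0 : ‖v0‖ = 1) : ∃ v ∈ F, ‖v - v0‖ ≤ 4 * Real.pi / q := by
  have hm0 : m ≠ 0 := by rcases hm with rfl | rfl <;> norm_num
  have hen : ‖em m H‖ = 1 := norm_em hm0
  have he0 : em m H ≠ 0 := by
    intro h; rw [h] at hen; simp at hen
  have hq0 : (0 : ℝ) < q := by exact_mod_cast hq.pos
  have hpi := Real.pi_pos
  set α : ℝ := Complex.arg (v0 / em m H) with hα
  have hv : v0 = Complex.exp ((α : ℂ) * I) * em m H := by
    have h1 : ‖v0 / em m H‖ = 1 := by rw [norm_div, hv0, hen]; norm_num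
    have h2 := Complex.norm_mul_exp_arg_mul_I (v0 / em m H)
    rw [h1] at h2
    simp only [Complex.ofReal_one, one_mul] at h2
    rw [hα, h2]
    field_simp
  set l0 : ℤ := round (α * q / (2 * Real.pi)) with hl0
  have hround : |α * q / (2 * Real.pi) - l0| ≤ 1 / 2 := abs_sub_round _
  have hr2 : |α - 2 * Real.pi * l0 / q| ≤ Real.pi / q := by
    have e : α - 2 * Real.pi * l0 / q = (α * q / (2 * Real.pi) - l0) * (2 * Real.pi / q) := by
      field_simp
    rw [e, abs_mul, abs_of_pos (by positivity : (0 : ℝ) < 2 * Real.pi / q)]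
    calc |α * q / (2 * Real.pi) - l0| * (2 * Real.pi / q) ≤ 1 / 2 * (2 * Real.pi / q) := by gcongr
      _ = Real.pi / q := by ring
  have main : ∀ l : ℤ, ¬ (q : ℤ) ∣ l → |α - 2 * Real.pi * l / q| ≤ 4 * Real.pi / q →
      ∃ v ∈ F, ‖v - v0‖ ≤ 4 * Real.pi / q := by
    intro l hl hle
    refine ⟨_, mem_F_res hq hq2 hpq hψ h0 hF l hl, ?_⟩
    rw [hv, ← sub_mul, norm_mul, hen, mul_one]
    refine (norm_exp_sub_exp_le _ _).trans ?_
    rw [abs_sub_comm]
    exact hle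
  by_cases hd : (q : ℤ) ∣ l0
  · refine main (l0 + 1) ?_ ?_
    · intro h
      have h1 : (q : ℤ) ∣ 1 := by
        have := dvd_sub h hd
        simpa using this
      have := Int.le_of_dvd (by norm_num) h1
      omega
    · have e : α - 2 * Real.pi * ((l0 + 1 : ℤ) : ℝ) / q =
          (α - 2 * Real.pi * l0 / q) - 2 * Real.pi / q := by push_cast; ring
      rw [e]
      calc |(α - 2 * Real.pi * l0 / q) - 2 * Real.pi / q|
          ≤ |α - 2 * Real.pi * l0 / q| + |2 * Real.pi / q| := abs_sub _ _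
        _ ≤ Real.pi / q + 2 * Real.pi / q := by
            gcongr
            rw [abs_of_pos (by positivity)]
        _ ≤ 4 * Real.pi / q := by
            rw [← add_div]
            gcongr
            linarith
  · refine main l0 hd (hr2.trans ?_)
    gcongr
    linarith

/-- rational approximation of the angle by `π p / q` with `q` a large prime -/
theorem exists_prime_approx {ψ0 : ℝ} (hψ0 : |ψ0 - Real.pi / 4| < 1 / 100) {η : ℝ} (hη : 0 < η)
    (Q : ℕ) : ∃ p q : ℕ, q.Prime ∧ 2 < q ∧ Q ≤ q ∧ ¬ q ∣ p ∧ |Real.pi * p / q - ψ0| < η ∧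
      |Real.pi * p / q - Real.pi / 4| < 1 / 100 := by
  have hpi := Real.pi_pos
  have hpi3 := Real.pi_gt_three
  set δ : ℝ := min η (1 / 100 - |ψ0 - Real.pi / 4|) with hδ
  have hδ0 : 0 < δ := lt_min hη (by linarith)
  obtain ⟨N, hN⟩ := exists_nat_gt (Real.pi / δ)
  obtain ⟨q, hqN, hq⟩ := Nat.exists_infinite_primes (max (max N Q) 3)
  have hqN' : N ≤ q := le_trans (le_trans (le_max_left _ _) (le_max_left _ _)) hqN
  have hqQ : Q ≤ q := le_trans (le_trans (le_max_right _ _) (le_max_left _ _)) hqN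
  have hq3 : 3 ≤ q := le_trans (le_max_right _ _) hqN
  have hq0 : (0 : ℝ) < q := by exact_mod_cast hq.pos
  have hpq : Real.pi / q < δ := by
    rw [div_lt_iff₀ hq0]
    rw [div_lt_iff₀ hδ0] at hN
    have : (N : ℝ) ≤ q := by exact_mod_cast hqN'
    nlinarith
  have hψpos : 0 < ψ0 := by
    have := (abs_lt.1 hψ0).1
    linarith
  set p : ℕ := ⌊ψ0 * q / Real.pi⌋₊ with hp
  have h1 : (p : ℝ) ≤ ψ0 * q / Real.pi := Nat.floor_le (by positivity)
  have h2 : ψ0 * q / Real.pi < p + 1 := Nat.lt_floor_add_one _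
  have h3 : |Real.pi * p / q - ψ0| < δ := by
    have a1 : Real.pi * p / q ≤ ψ0 := by
      rw [div_le_iff₀ hq0]
      rw [le_div_iff₀ hpi] at h1
      linarith
    have a2 : ψ0 - Real.pi / q < Real.pi * p / q := by
      rw [sub_lt_iff_lt_add, ← add_div, lt_div_iff₀ hq0]
      rw [div_lt_iff₀ hpi] at h2
      linarith
    rw [abs_lt]
    constructor <;> linarith
  have h4 : |Real.pi * p / q - Real.pi / 4| < 1 / 100 := by
    have b1 : |Real.pi * p / q - Real.pi / 4| ≤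
        |Real.pi * p / q - ψ0| + |ψ0 - Real.pi / 4| := abs_sub_le _ _ _
    have b2 : δ ≤ 1 / 100 - |ψ0 - Real.pi / 4| := min_le_right _ _
    linarith
  refine ⟨p, q, hq, by omega, hqQ, ?_, lt_of_lt_of_le h3 (min_le_left _ _), h4⟩
  have c := abs_lt.1 h4
  have c1 : 0 < Real.pi * p / q := by linarith
  have c2 : Real.pi * p / q < Real.pi := by linarith
  have hp0 : 0 < p := by
    by_contra h
    have : p = 0 := by omega
    rw [this] at c1
    simp at c1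
  have hpltq : p < q := by
    rw [div_lt_iff₀ hq0] at c2
    have : (p : ℝ) < q := by
      by_contra h
      push Not at h
      nlinarith
    exact_mod_cast this
  intro hd
  exact absurd (Nat.le_of_dvd hp0 hd) (by omega)

end FC28
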