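import Pool.Agent.Lib.MP_fc28e0_an.OrbBasic

/-! # Folding of straight segments of the plane into billiard orbits -/

open Complex

namespace FC28

/-! ## membership criteria -/

theorem ip_mk (x y : ℝ) (w : ℂ) : ip ⟨x, y⟩ w = x * w.re + y * w.im := rfl

theorem fold_inP {ψ H x y : ℝ} (hx0 : 0 ≤ x) (hx1 : x ≤ 1) (hy0 : 0 ≤ y) (hyH : y ≤ H)
    (h4 : b * Real.cos ψ ≤ Real.sin ψ * x + Real.cos ψ * y) : (⟨x, y⟩ : ℂ) ∈ inP ψ H := by
  intro i
  fin_cases i <;> simp [ip, nrm, off] <;> linarith

theorem fold_side1 {ψ H y : ℝ} (hy0 : 0 < y) (hyH : y < H)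
    (h4 : b * Real.cos ψ < Real.sin ψ * 1 + Real.cos ψ * y) : (⟨1, y⟩ : ℂ) ∈ side ψ H 1 := by
  constructor
  · simp [ip, nrm, off]
  · intro i hi
    fin_cases i <;> simp [ip, nrm, off] at hi ⊢ <;> linarith

theorem fold_side3 {ψ H y : ℝ} (hy0 : 0 < y) (hyH : y < H)
    (h4 : b * Real.cos ψ < Real.sin ψ * 0 + Real.cos ψ * y) : (⟨0, y⟩ : ℂ) ∈ side ψ H 3 := by
  constructor
  · simp [ip, nrm, off]
  · intro i hi
    fin_cases i <;> simp [ip, nrm, off] at hi ⊢ <;> linarith

theorem fold_side0 {ψ H x : ℝ} (hH : 0 < H) (hx0 : 0 < x) (hx1 : x < 1)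
    (h4 : b * Real.cos ψ < Real.sin ψ * x + Real.cos ψ * 0) : (⟨x, 0⟩ : ℂ) ∈ side ψ H 0 := by
  constructor
  · simp [ip, nrm, off]
  · intro i hi
    fin_cases i <;> simp [ip, nrm, off] at hi ⊢ <;> linarith

theorem fold_side2 {ψ H x : ℝ} (hH : 0 < H) (hx0 : 0 < x) (hx1 : x < 1)
    (h4 : b * Real.cos ψ < Real.sin ψ * x + Real.cos ψ * H) : (⟨x, H⟩ : ℂ) ∈ side ψ H 2 := by
  constructor
  · simp [ip, nrm, off]
  · intro i hi
    fin_cases i <;> simp [ip, nrm, off] at hi ⊢ <;> linarith

theorem fold_side4 {ψ H : ℝ} {q : ℂ} (h : q ∈ side ψ H 4) :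
    0 < q.re ∧ q.re < 1 ∧ 0 < q.im ∧ q.im < H := by
  obtain ⟨_, h2⟩ := h
  have a0 := h2 0 (by decide)
  have a1 := h2 1 (by decide)
  have a2 := h2 2 (by decide)
  have a3 := h2 3 (by decide)
  simp [ip, nrm, off] at a0 a1 a2 a3
  exact ⟨a3, a1, a0, a2⟩

/-! ## folding maps -/

noncomputable section

/-- direction sign in the cell `a` -/
def sg (a : ℕ) : ℝ := if Even a then 1 else -1

/-- folding of the cell `[a w, (a+1) w]` to `[0, w]` -/
def fo (w : ℝ) (a : ℕ) (x : ℝ) : ℝ := if Even a then x - a * w else (a + 1) * w - x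

theorem sg_succ (a : ℕ) : sg (a + 1) = -sg a := by
  unfold sg
  by_cases h : Even a
  · rw [if_pos h, if_neg (by simpa [Nat.even_add_one] using h)]
  · rw [if_neg h, if_pos (by simpa [Nat.even_add_one] using h)]
    norm_num

theorem fo_add (w : ℝ) (a : ℕ) (x t v : ℝ) : fo w a (x + t * v) = fo w a x + t * (sg a * v) := by
  unfold fo sg
  by_cases h : Even a
  · rw [if_pos h, if_pos h, if_pos h]; ring
  · rw [if_neg h, if_neg h, if_neg h]; ring

theorem fo_succ (w : ℝ) (a : ℕ) : fo w (a + 1) ((a + 1) * w) = fo w a ((a + 1) * w) := by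
  unfold fo
  by_cases h : Even a
  · rw [if_pos h, if_neg (by simpa [Nat.even_add_one] using h)]; push_cast; ring
  · rw [if_neg h, if_pos (by simpa [Nat.even_add_one] using h)]; push_cast; ring

theorem fo_nonneg {w x : ℝ} {a : ℕ} (h1 : a * w ≤ x) (h2 : x ≤ (a + 1) * w) : 0 ≤ fo w a x := by
  unfold fo
  split_ifs <;> linarith

theorem fo_le {w x : ℝ} {a : ℕ} (h1 : a * w ≤ x) (h2 : x ≤ (a + 1) * w) : fo w a x ≤ w := by
  unfold fo
  split_ifs <;> linarith

theorem fo_pos {w x : ℝ} {a : ℕ} (h1 : a * w < x) (h2 : x < (a + 1) * w) : 0 < fo w a x := by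
  unfold fo
  split_ifs <;> linarith

theorem fo_lt {w x : ℝ} {a : ℕ} (h1 : a * w < x) (h2 : x < (a + 1) * w) : fo w a x < w := by
  unfold fo
  split_ifs <;> linarith

/-- the fold is the distance to the even corner -/
theorem fo_corner {w x : ℝ} {a : ℕ} (h1 : a * w ≤ x) (h2 : x ≤ (a + 1) * w) :
    ∃ k : ℤ, |x - 2 * k * w| = fo w a x := by
  unfold fo
  by_cases h : Even a
  · obtain ⟨c, hc⟩ := h
    refine ⟨c, ?_⟩
    rw [if_pos ⟨c, hc⟩]
    have e : (2 : ℝ) * ((c : ℤ) : ℝ) = a := by rw [hc]; push_cast; ring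
    rw [e]
    exact abs_of_nonneg (by linarith)
  · rw [if_neg h]
    have h' := Nat.not_even_iff_odd.1 h
    obtain ⟨c, hc⟩ := h'
    refine ⟨c + 1, ?_⟩
    have e : (2 : ℝ) * (((c : ℤ) + 1 : ℤ) : ℝ) = a + 1 := by rw [hc]; push_cast; ring
    rw [e, abs_of_nonpos (by linarith)]
    ring

end

/-! ## crossing one edge -/

/-- bounce off a vertical side -/
theorem fold_hitx {ψ H X Y σ ux v τ t X' Y' : ℝ} {q w : ℂ} (hσ : (σ = 1 ∧ X' = 1) ∨ (σ = -1 ∧ X' = 0))
    (hux : 0 < ux) (hτ : 0 < τ) (hp : (⟨X, Y⟩ : ℂ) ∈ inP ψ H)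
    (hX : X' = X + τ * (σ * ux)) (hY : Y' = Y + τ * v) (hY0 : 0 < Y') (hYH : Y' < H)
    (h4 : b * Real.cos ψ < Real.sin ψ * X' + Real.cos ψ * Y')
    (hO : Orb ψ H t ⟨X', Y'⟩ ⟨-σ * ux, v⟩ q w) : Orb ψ H (τ + t) ⟨X, Y⟩ ⟨σ * ux, v⟩ q w := by
  have e1 : (⟨X', Y'⟩ : ℂ) = ⟨X, Y⟩ + τ * ⟨σ * ux, v⟩ := by
    apply Complex.ext
    · simp [hX]
    · simp [hY]
  rcases hσ with ⟨rfl, hX'⟩ | ⟨rfl, hX'⟩
  · refine Orb.hit (p' := ⟨X', Y'⟩) (v' := ⟨-1 * ux, v⟩) 1 hτ hp ?_ ?_ e1 ?_ rfl hO
    · rw [hX'] at h4 ⊢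
      exact fold_side1 hY0 hYH h4
    · simp [ip, nrm]; linarith
    · rw [rf_one]
      apply Complex.ext
      · simp
      · simp
  · refine Orb.hit (p' := ⟨X', Y'⟩) (v' := ⟨-(-1) * ux, v⟩) 3 hτ hp ?_ ?_ e1 ?_ rfl hO
    · rw [hX'] at h4 ⊢
      exact fold_side3 hY0 hYH h4
    · simp [ip, nrm]; linarith
    · rw [rf_three]
      apply Complex.ext
      · simp
      · simp

/-- bounce off a horizontal side -/
theorem fold_hity {ψ H X Y σ uy v τ t X' Y' : ℝ} {q w : ℂ} (hH : 0 < H)
    (hσ : (σ = 1 ∧ Y' = H) ∨ (σ = -1 ∧ Y' = 0))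
    (huy : 0 < uy) (hτ : 0 < τ) (hp : (⟨X, Y⟩ : ℂ) ∈ inP ψ H)
    (hX : X' = X + τ * v) (hY : Y' = Y + τ * (σ * uy)) (hX0 : 0 < X') (hX1 : X' < 1)
    (h4 : b * Real.cos ψ < Real.sin ψ * X' + Real.cos ψ * Y')
    (hO : Orb ψ H t ⟨X', Y'⟩ ⟨v, -σ * uy⟩ q w) : Orb ψ H (τ + t) ⟨X, Y⟩ ⟨v, σ * uy⟩ q w := by
  have e1 : (⟨X', Y'⟩ : ℂ) = ⟨X, Y⟩ + τ * ⟨v, σ * uy⟩ := by
    apply Complex.ext
    · simp [hX]
    · simp [hY]
  rcases hσ with ⟨rfl, hY'⟩ | ⟨rfl, hY'⟩
  · refine Orb.hit (p' := ⟨X', Y'⟩) (v' := ⟨v, -1 * uy⟩) 2 hτ hp ?_ ?_ e1 ?_ rfl hO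
    · rw [hY'] at h4 ⊢
      exact fold_side2 hH hX0 hX1 h4
    · simp [ip, nrm]; linarith
    · rw [rf_two]
      apply Complex.ext
      · simp
      · simp
  · refine Orb.hit (p' := ⟨X', Y'⟩) (v' := ⟨v, -(-1) * uy⟩) 0 hτ hp ?_ ?_ e1 ?_ rfl hO
    · rw [hY'] at h4 ⊢
      exact fold_side0 hH hX0 hX1 h4
    · simp [ip, nrm]; linarith
    · rw [rf_zero]
      apply Complex.ext
      · simp
      · simp

/-- at a right end of a cell the fold is `w` or `0` according to the sign -/
theorem fo_end (w : ℝ) (a : ℕ) :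
    (sg a = 1 ∧ fo w a ((a + 1) * w) = w) ∨ (sg a = -1 ∧ fo w a ((a + 1) * w) = 0) := by
  unfold sg fo
  by_cases h : Even a
  · left
    rw [if_pos h, if_pos h]
    exact ⟨rfl, by ring⟩
  · right
    rw [if_neg h, if_neg h]
    exact ⟨rfl, by ring⟩

theorem fold_strict {ψ H : ℝ} {p : ℂ} (ho : p ∉ Obs ψ H) {a c : ℕ}
    (h1 : a * (1 : ℝ) ≤ p.re) (h2 : p.re ≤ (a + 1) * 1) (h3 : c * H ≤ p.im)
    (h4 : p.im ≤ (c + 1) * H) :
    b * Real.cos ψ < Real.sin ψ * fo 1 a p.re + Real.cos ψ * fo H c p.im := by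
  obtain ⟨k, hk⟩ := fo_corner h1 h2
  obtain ⟨l, hl⟩ := fo_corner h3 h4
  by_contra hcon
  rw [not_lt] at hcon
  refine ho ⟨k, l, ?_⟩
  rw [← hk, ← hl, mul_one] at hcon
  exact hcon

theorem fold_aux {ψ H : ℝ} (hP : Par ψ H) {q0 q1 u : ℂ} {T : ℝ} {i j : ℕ}
    (h1 : q1 ∈ side ψ H 4) (hre : 0 < u.re) (him : 0 < u.im)
    (hx : q0.re + T * u.re = 2 * i - q1.re) (hy : q0.im + T * u.im = 2 * j * H - q1.im)
    (hobs : ∀ t : ℝ, 0 < t → t < T → q0 + t * u ∉ Obs ψ H)
    (hcor : ∀ t : ℝ, 0 < t → t < T → ∀ k l : ℤ, q0 + t * u ≠ ⟨k, l * H⟩)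
    {s : ℝ} {r z : ℂ} (hO : Orb ψ H s q1 (rf ψ 4 (-u)) r z) :
    ∀ (n a c : ℕ) (t : ℝ), a < 2 * i → c < 2 * j → (2 * i - a) + (2 * j - c) ≤ n → 0 ≤ t → t < T →
      a ≤ q0.re + t * u.re → q0.re + t * u.re < a + 1 → c * H ≤ q0.im + t * u.im →
      q0.im + t * u.im < (c + 1) * H →
      (⟨fo 1 a (q0.re + t * u.re), fo H c (q0.im + t * u.im)⟩ : ℂ) ∈ inP ψ H →
      Orb ψ H (T - t + s) ⟨fo 1 a (q0.re + t * u.re), fo H c (q0.im + t * u.im)⟩
        ⟨sg a * u.re, sg c * u.im⟩ r z := by
  obtain ⟨qx0, qx1, qy0, qyH⟩ := fold_side4 h1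
  have hH : 0 < H := by linarith
  have hsin := hP.sin_bd.1
  have hcos := hP.cos_bd.1
  intro n
  induction n with
  | zero => intro a c t ha hc hn; omega
  | succ n ih =>
    intro a c t ha hc hn ht0 htT hxa hxa' hyc hyc' hin
    set tx : ℝ := (a + 1 - q0.re) / u.re with htx
    set ty : ℝ := ((c + 1) * H - q0.im) / u.im with hty
    have ex : q0.re + tx * u.re = a + 1 := by rw [htx]; field_simp; ring
    have ey : q0.im + ty * u.im = (c + 1) * H := by rw [hty]; field_simp; ring
    have ttx : t < tx := by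
      rw [htx, lt_div_iff₀ hre]; linarith
    have tty : t < ty := by
      rw [hty, lt_div_iff₀ him]; linarith
    by_cases hA : T < tx ∧ T < ty
    · -- last cell
      obtain ⟨hA1, hA2⟩ := hA
      have k1 : q0.re + T * u.re < a + 1 := by
        rw [← ex]
        have := mul_lt_mul_of_pos_right hA1 hre
        linarith
      have k2 : q0.im + T * u.im < (c + 1) * H := by
        rw [← ey]
        have := mul_lt_mul_of_pos_right hA2 him
        linarith
      have ea : a + 1 = 2 * i := by
        have : (2 * i : ℝ) < a + 2 := by linarith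
        have h' : 2 * i < a + 2 := by exact_mod_cast this
        omega
      have ec : c + 1 = 2 * j := by
        have : (2 * j : ℝ) * H < (c + 2) * H := by linarith
        have h'' : (2 * j : ℝ) < c + 2 := lt_of_mul_lt_mul_right this hH.le
        have h' : 2 * j < c + 2 := by exact_mod_cast h''
        omega
      have oa : ¬ Even a := by
        rw [Nat.not_even_iff_odd]
        exact ⟨i - 1, by omega⟩
      have oc : ¬ Even c := by
        rw [Nat.not_even_iff_odd]
        exact ⟨j - 1, by omega⟩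
      have ea' : (a : ℝ) + 1 = 2 * i := by exact_mod_cast ea
      have ec' : (c : ℝ) + 1 = 2 * j := by exact_mod_cast ec
      have f1 : fo 1 a (q0.re + t * u.re) = 2 * i - (q0.re + t * u.re) := by
        unfold fo; rw [if_neg oa, ea']; ring
      have f2 : fo H c (q0.im + t * u.im) = 2 * j * H - (q0.im + t * u.im) := by
        unfold fo; rw [if_neg oc, ec']
      have g1 : sg a = -1 := by unfold sg; rw [if_neg oa]
      have g2 : sg c = -1 := by unfold sg; rw [if_neg oc]
      rw [f1, f2] at hin ⊢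
      rw [g1, g2]
      refine Orb.hit (p' := q1) (v' := rf ψ 4 (-u)) 4 (sub_pos.2 htT) hin h1 ?_ ?_ ?_ rfl hO
      · simp only [ip, nrm]
        simp
        have p1 := mul_pos hre (lt_trans (by norm_num) hsin)
        have p2 := mul_pos him (lt_trans (by norm_num) hcos)
        linarith
      · apply Complex.ext
        · simp; linarith
        · simp; linarith
      · congr 1
        apply Complex.ext
        · simp
        · simp
    · rcases lt_trichotomy tx ty with hlt | heq | hgt
      · -- right edge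
        have hle : tx ≤ T := by
          by_contra hcon
          exact hA ⟨not_le.1 hcon, (not_le.1 hcon).trans hlt⟩
        have hne : tx ≠ T := by
          intro he
          rw [he, hx] at ex
          have h2 : (a : ℝ) + 1 < 2 * i := by linarith
          have h3 : (2 : ℝ) * i < a + 2 := by linarith
          have h2' : a + 1 < 2 * i := by exact_mod_cast h2
          have h3' : 2 * i < a + 2 := by exact_mod_cast h3
          omega
        have htxT : tx < T := lt_of_le_of_ne hle hne
        have ha' : a + 1 < 2 * i := by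
          have h2 : (a : ℝ) + 1 < 2 * i := by
            have := mul_lt_mul_of_pos_right htxT hre
            linarith
          exact_mod_cast h2
        have y1 : c * H < q0.im + tx * u.im := by
          have := mul_lt_mul_of_pos_right ttx him
          linarith
        have y2 : q0.im + tx * u.im < (c + 1) * H := by
          rw [← ey]
          have := mul_lt_mul_of_pos_right hlt him
          linarith
        have tx0 : 0 < tx := lt_of_le_of_lt ht0 ttx
        have ho := hobs tx tx0 htxT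
        have hs := fold_strict (a := a) (c := c) ho (by simp; linarith) (by simp; linarith)
          (by simpa using y1.le) (by simpa using y2.le)
        simp only [Complex.add_re, Complex.mul_re, Complex.ofReal_re, Complex.ofReal_im, zero_mul,
          sub_zero, Complex.add_im, Complex.mul_im, add_zero, ex] at hs
        have hend := fo_end 1 a
        have hf1 : fo 1 a (a + 1) = fo 1 a (q0.re + t * u.re) + (tx - t) * (sg a * u.re) := by
          rw [← ex, ← fo_add]; congr 1; ring
        have hf2 : fo H c (q0.im + tx * u.im) =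
            fo H c (q0.im + t * u.im) + (tx - t) * (sg c * u.im) := by
          rw [← fo_add]; congr 1; ring
        have hin' : (⟨fo 1 (a + 1) (q0.re + tx * u.re), fo H c (q0.im + tx * u.im)⟩ : ℂ) ∈
            inP ψ H := by
          have e : fo 1 (a + 1) (q0.re + tx * u.re) = fo 1 a (a + 1) := by
            rw [ex]
            have := fo_succ 1 a
            rwa [mul_one] at this
          rw [e]
          refine fold_inP (fo_nonneg (by linarith) (by linarith)) (fo_le (by linarith)
            (by linarith)) (fo_nonneg y1.le y2.le) (fo_le y1.le y2.le) hs.le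
        have hI := ih (a + 1) c tx ha' hc (by omega) tx0.le htxT (by push_cast; linarith)
          (by push_cast; linarith) y1.le y2 hin'
        have e : fo 1 (a + 1) (q0.re + tx * u.re) = fo 1 a (a + 1) := by
          rw [ex]
          have := fo_succ 1 a
          rwa [mul_one] at this
        rw [e, sg_succ] at hI
        have et : T - t + s = (tx - t) + (T - tx + s) := by ring
        rw [et]
        refine fold_hitx ?_ hre (sub_pos.2 ttx) hin hf1 hf2 (fo_pos y1 y2) (fo_lt y1 y2) hs hI
        rwa [mul_one] at hend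
      · -- corner: excluded
        exfalso
        have hle : tx ≤ T := by
          by_contra hcon
          exact hA ⟨not_le.1 hcon, heq ▸ not_le.1 hcon⟩
        have hne : tx ≠ T := by
          intro he
          rw [he, hx] at ex
          have h2 : (a : ℝ) + 1 < 2 * i := by linarith
          have h3 : (2 : ℝ) * i < a + 2 := by linarith
          have h2' : a + 1 < 2 * i := by exact_mod_cast h2
          have h3' : 2 * i < a + 2 := by exact_mod_cast h3
          omega
        refine hcor tx (lt_of_le_of_lt ht0 ttx) (lt_of_le_of_ne hle hne) (a + 1) (c + 1) ?_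
        apply Complex.ext
        · simp; linarith
        · simp; rw [heq]; linarith
      · -- top edge
        have hle : ty ≤ T := by
          by_contra hcon
          exact hA ⟨(not_le.1 hcon).trans hgt, not_le.1 hcon⟩
        have hne : ty ≠ T := by
          intro he
          rw [he, hy] at ey
          have h2 : ((c : ℝ) + 1) * H < 2 * j * H := by linarith
          have h3 : (2 : ℝ) * j * H < (c + 2) * H := by linarith
          have h2' : c + 1 < 2 * j := by exact_mod_cast lt_of_mul_lt_mul_right h2 hH.le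
          have h3' : 2 * j < c + 2 := by exact_mod_cast lt_of_mul_lt_mul_right h3 hH.le
          omega
        have htyT : ty < T := lt_of_le_of_ne hle hne
        have hc' : c + 1 < 2 * j := by
          have h2 : ((c : ℝ) + 1) * H < 2 * j * H := by
            have := mul_lt_mul_of_pos_right htyT him
            linarith
          exact_mod_cast lt_of_mul_lt_mul_right h2 hH.le
        have x1 : a < q0.re + ty * u.re := by
          have := mul_lt_mul_of_pos_right tty hre
          linarith
        have x2 : q0.re + ty * u.re < a + 1 := by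
          rw [← ex]
          have := mul_lt_mul_of_pos_right hgt hre
          linarith
        have ty0 : 0 < ty := lt_of_le_of_lt ht0 tty
        have ho := hobs ty ty0 htyT
        have hs := fold_strict (a := a) (c := c) ho (by simp; linarith) (by simp; linarith)
          (by simp; linarith) (by simp; linarith)
        simp only [Complex.add_re, Complex.mul_re, Complex.ofReal_re, Complex.ofReal_im, zero_mul,
          sub_zero, Complex.add_im, Complex.mul_im, add_zero, ey] at hs
        have hend := fo_end H c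
        have hf2 : fo H c ((c + 1) * H) = fo H c (q0.im + t * u.im) + (ty - t) * (sg c * u.im) := by
          rw [← ey, ← fo_add]; congr 1; ring
        have hf1 : fo 1 a (q0.re + ty * u.re) =
            fo 1 a (q0.re + t * u.re) + (ty - t) * (sg a * u.re) := by
          rw [← fo_add]; congr 1; ring
        have e : fo H (c + 1) (q0.im + ty * u.im) = fo H c ((c + 1) * H) := by
          rw [ey]
          exact fo_succ H c
        have x1' : a * (1 : ℝ) < q0.re + ty * u.re := by linarith
        have x2' : q0.re + ty * u.re < (a + 1) * (1 : ℝ) := by linarith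
        have hin' : (⟨fo 1 a (q0.re + ty * u.re), fo H (c + 1) (q0.im + ty * u.im)⟩ : ℂ) ∈
            inP ψ H := by
          rw [e]
          refine fold_inP (fo_nonneg x1'.le x2'.le) (fo_le x1'.le x2'.le)
            (fo_nonneg (by linarith) le_rfl) (fo_le (by linarith) le_rfl) hs.le
        have hI := ih a (c + 1) ty ha hc' (by omega) ty0.le htyT x1.le x2 (by push_cast; linarith)
          (by push_cast; linarith) hin'
        rw [e, sg_succ] at hI
        have et : T - t + s = (ty - t) + (T - ty + s) := by ring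
        rw [et]
        exact fold_hity hH hend him (sub_pos.2 tty) hin hf1 hf2 (fo_pos x1' x2') (fo_lt x1' x2')
          hs hI

/-- A straight segment from `q0 ∈ K` (side `4` of the pentagon) to the point `2(i + jHI) - q1`
of the obstacle centred at `2i + 2jHI`, with direction `u` having positive components, which
meets no closed obstacle and no grid point in between, folds to a billiard orbit that arrives at
`q1 ∈ K`; so it continues with direction `rf 4 (-u)`. -/
theorem fold {ψ H : ℝ} (hP : Par ψ H) {q0 q1 u : ℂ} {T : ℝ} {i j : ℕ} (hi : 0 < i) (hj : 0 < j)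
    (h0 : q0 ∈ side ψ H 4) (h1 : q1 ∈ side ψ H 4) (hu : ‖u‖ = 1) (hre : 0 < u.re)
    (him : 0 < u.im) (hT : 0 < T) (hend : q0 + T * u = ⟨2 * i, 2 * j * H⟩ - q1)
    (hobs : ∀ t : ℝ, 0 < t → t < T → q0 + t * u ∉ Obs ψ H)
    (hcor : ∀ t : ℝ, 0 < t → t < T → ∀ k l : ℤ, q0 + t * u ≠ ⟨k, l * H⟩) :
    ∀ (s : ℝ) (r z : ℂ), Orb ψ H s q1 (rf ψ 4 (-u)) r z → Orb ψ H (T + s) q0 u r z := by
  intro s r z hO
  obtain ⟨p1, p2, p3, p4⟩ := fold_side4 h0
  have hx : q0.re + T * u.re = 2 * i - q1.re := by
    have := congrArg Complex.re hend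
    simpa using this
  have hy : q0.im + T * u.im = 2 * j * H - q1.im := by
    have := congrArg Complex.im hend
    simpa using this
  have e0 : (⟨fo 1 0 (q0.re + 0 * u.re), fo H 0 (q0.im + 0 * u.im)⟩ : ℂ) = q0 := by
    apply Complex.ext <;> simp [fo]
  have e1 : (⟨sg 0 * u.re, sg 0 * u.im⟩ : ℂ) = u := by
    apply Complex.ext <;> simp [sg]
  have h := fold_aux hP h1 hre him hx hy hobs hcor hO ((2 * i - 0) + (2 * j - 0)) 0 0 0
    (by omega) (by omega) le_rfl le_rfl hT (by simp; linarith) (by simp; linarith)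
    (by simp; linarith) (by simp; linarith) (by rw [e0]; exact side_subset ψ H 4 h0)
  rw [e0, e1, sub_zero] at h
  exact h

end FC28
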