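import Pool.Agent.Lib.MP_fc28e0_an.Cont
import Pool.Agent.Lib.MP_fc28e0_an.Cross

/-! # The gate property of the cylinder `C_m` -/

open Complex

namespace FC28

theorem rf_sub (ψ : ℝ) (i : Fin 5) (v w : ℂ) : rf ψ i (v - w) = rf ψ i v - rf ψ i w := by
  simp only [rf, map_sub]; ring

/-- an orbit that starts on a side starts inwards -/
theorem Orb.inward {ψ H t : ℝ} {i : Fin 5} {p v q w : ℂ} (hp : p ∈ side ψ H i)
    (h : Orb ψ H t p v q w) : ip v (nrm ψ i) < 0 := by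
  cases h with
  | free ht _ hq e =>
    have h1 := hq i
    have h2 := hp.1
    rw [e, ip_add_left, ip_smul_left, h2] at h1
    by_contra hcon
    push Not at hcon
    nlinarith [mul_nonneg ht.le hcon]
  | @hit s τ t' p v p' v' q w j hτ _ hs hv e1 e2 e3 h' =>
    have h2 := hp.1
    by_cases hij : j = i
    · subst hij
      have h1 := hs.1
      rw [e1, ip_add_left, ip_smul_left, h2] at h1
      nlinarith [mul_pos hτ hv]
    · have h1 := hs.2 i (fun h => hij h.symm)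
      rw [e1, ip_add_left, ip_smul_left, h2] at h1
      by_contra hcon
      push Not at hcon
      nlinarith [mul_nonneg hτ.le hcon]

/-- from near the reversed ray `-ω_m(s0)` to near `ω_m(s1)` in all times close to
`s0 + s1 + c + k · len m H`, `k` large -/
theorem gate {ψ H : ℝ} (hP : Par ψ H) {m : ℕ} (hm : m = 1 ∨ m = 2) :
    ∃ c : ℝ, ∀ (s0 s1 : ℝ) (p0 v0 p1 v1 : ℂ), ray ψ H m s0 p0 v0 → ray ψ H m s1 p1 v1 →
      ∀ ε > 0, ∃ δ > 0, ∃ K : ℕ, ∀ k ≥ K, ∀ t : ℝ, |t - (s0 + s1 + c + k * len m H)| < δ →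
        ∃ p v q w, p ∈ intP ψ H ∧ ‖v‖ = 1 ∧ Orb ψ H t p v q w ∧
          ‖p - p0‖ < ε ∧ ‖v + v0‖ < ε ∧ ‖q - p1‖ < ε ∧ ‖w - v1‖ < ε := by
  obtain ⟨c, hc⟩ := cross hP hm
  refine ⟨c, ?_⟩
  intro s0 s1 p0 v0 p1 v1 h0 h1 ε hε
  obtain ⟨δ0, hδ0, hcont0⟩ := Orb.cont h0 hε
  obtain ⟨δ1, hδ1, hcont1⟩ := Orb.cont h1 hε
  obtain ⟨δ, hδ, hδ0', hδ1'⟩ : ∃ δ > 0, 2 * δ ≤ δ0 ∧ 2 * δ ≤ δ1 :=
    ⟨min δ0 δ1 / 2, by positivity, by linarith [min_le_left δ0 δ1],
      by linarith [min_le_right δ0 δ1]⟩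
  obtain ⟨K, hK⟩ := hc δ hδ
  refine ⟨δ, hδ, K, ?_⟩
  intro k hk t ht
  obtain ⟨q0, q1, u, T, hq0, hq1, hq0', hq1', hu, hu', hT, hT', hcr⟩ := hK k hk
  have hdir : ‖rf ψ 4 (-u) - dirR ψ H m‖ < δ := by
    rw [dirR, ← rf_sub, norm_rf]
    have : -u - -em m H = -(u - em m H) := by ring
    rw [this, norm_neg]; exact hu'
  obtain ⟨r0, z0, hO0, hr0, hz0⟩ := hcont0 ψ H s0 q0 (rf ψ 4 (-u)) (by simpa using hδ0)
    (by simpa using hδ0) (by simpa using hδ0) (by linarith) (by linarith)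
    (side_subset _ _ _ hq0)
  obtain ⟨r, z, hO1, hr, hz⟩ := hcont1 ψ H (t - s0 - T) q1 (rf ψ 4 (-u)) (by simpa using hδ1)
    (by simpa using hδ1) (by
      have : t - s0 - T - s1 = (t - (s0 + s1 + c + k * len m H)) - (T - (c + k * len m H)) := by
        ring
      rw [this]
      calc |(t - (s0 + s1 + c + k * len m H)) - (T - (c + k * len m H))|
          ≤ |t - (s0 + s1 + c + k * len m H)| + |T - (c + k * len m H)| := abs_sub _ _
        _ < δ1 := by linarith) (by linarith) (by linarith) (side_subset _ _ _ hq1)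
  have hcross := hcr (t - s0 - T) r z hO1
  have hin : ip u (nrm ψ 4) < 0 := Orb.inward hq0 hcross
  have hv : ip (rf ψ 4 (-u)) (nrm ψ 4) < 0 := by
    rw [ip_rf_nrm, ip_neg_left, neg_neg]; exact hin
  have hback : rf ψ 4 (-rf ψ 4 (-u)) = u := by
    rw [rf_neg, rf_neg, rf_neg, neg_neg, rf_rf]
  have hfin := Orb.rev_glue hq0 hv hO0 (hback.symm ▸ hcross)
  have ht' : s0 + (T + (t - s0 - T)) = t := by ring
  rw [ht'] at hfin
  refine ⟨r0, -z0, r, z, Orb.right hO0, ?_, hfin, hr0, ?_, hr, hz⟩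
  · rw [norm_neg, Orb.norm hO0, norm_rf, norm_neg, hu]
  · have : -z0 + v0 = -(z0 - v0) := by ring
    rw [this, norm_neg]; exact hz0

end FC28
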