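import Pool.Agent.Lib.MP_fc28e0_an.Model

/-! # Geometry of the pentagon: numeric bounds, convexity, reflections -/

open Complex

namespace FC28

/-! ## numeric bounds -/

theorem sqrt_two_bd : 141 / 100 < Real.sqrt 2 ∧ Real.sqrt 2 < 142 / 100 := by
  constructor
  · rw [Real.lt_sqrt (by norm_num)]; norm_num
  · rw [Real.sqrt_lt' (by norm_num)]; norm_num

theorem Par.sin_bd {ψ H : ℝ} (h : Par ψ H) : 69 / 100 < Real.sin ψ ∧ Real.sin ψ < 72 / 100 := by
  have h1 : |Real.sin ψ - Real.sin (Real.pi / 4)| ≤ |ψ - Real.pi / 4| := by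
    have := Real.abs_sin_sub_sin_le ψ (Real.pi / 4)
    exact this
  have h2 := h.1
  rw [Real.sin_pi_div_four] at h1
  have h3 := abs_le.1 (h1.trans h2.le)
  have h4 := sqrt_two_bd
  constructor <;> linarith

theorem Par.cos_bd {ψ H : ℝ} (h : Par ψ H) : 69 / 100 < Real.cos ψ ∧ Real.cos ψ < 72 / 100 := by
  have h1 : |Real.cos ψ - Real.cos (Real.pi / 4)| ≤ |ψ - Real.pi / 4| := by
    have := Real.abs_cos_sub_cos_le ψ (Real.pi / 4)
    exact this
  have h2 := h.1
  rw [Real.cos_pi_div_four] at h1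
  have h3 := abs_le.1 (h1.trans h2.le)
  have h4 := sqrt_two_bd
  constructor <;> linarith

theorem Par.cos_two {ψ H : ℝ} (h : Par ψ H) : |Real.cos (2 * ψ)| < 1 / 40 := by
  have h1 : Real.cos (2 * ψ) = -Real.sin (2 * (ψ - Real.pi / 4)) := by
    rw [show 2 * (ψ - Real.pi / 4) = 2 * ψ - Real.pi / 2 by ring, Real.sin_sub_pi_div_two, neg_neg]
  rw [h1, abs_neg]
  have h2 := Real.abs_sin_le_abs (x := 2 * (ψ - Real.pi / 4))
  refine h2.trans_lt ?_
  rw [abs_mul, abs_of_pos (by norm_num : (0:ℝ) < 2)]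
  linarith [h.1]

theorem Par.sin_two {ψ H : ℝ} (h : Par ψ H) : 99 / 100 < Real.sin (2 * ψ) := by
  have h1 : Real.sin (2 * ψ) = Real.cos (2 * (ψ - Real.pi / 4)) := by
    rw [show 2 * (ψ - Real.pi / 4) = 2 * ψ - Real.pi / 2 by ring, Real.cos_sub_pi_div_two]
  rw [h1]
  have h2 := Real.one_sub_sq_div_two_le_cos (x := 2 * (ψ - Real.pi / 4))
  have h3 := abs_lt.1 h.1
  nlinarith [sq_nonneg (ψ - Real.pi / 4)]

theorem Par.H_bd {ψ H : ℝ} (h : Par ψ H) : 49 / 100 < H ∧ H < 51 / 100 := by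
  have := abs_lt.1 h.2
  constructor <;> linarith

/-! ## inner product and reflections -/

theorem norm_nrm (ψ : ℝ) (i : Fin 5) : ‖nrm ψ i‖ = 1 := by
  have key : ∀ z : ℂ, z.re ^ 2 + z.im ^ 2 = 1 → ‖z‖ = 1 := by
    intro z hz
    rw [Complex.norm_eq_sqrt_sq_add_sq, hz, Real.sqrt_one]
  apply key
  fin_cases i
  · simp [nrm]
  · simp [nrm]
  · simp [nrm]
  · simp [nrm]
  · simp [nrm, -ofReal_sin, -ofReal_cos]

theorem ip_add_left (z w u : ℂ) : ip (z + w) u = ip z u + ip w u := by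
  simp [ip]; ring

theorem ip_smul_left (t : ℝ) (z u : ℂ) : ip (t * z) u = t * ip z u := by
  simp [ip]; ring

theorem ip_neg_left (z u : ℂ) : ip (-z) u = -ip z u := by
  simp [ip]; ring

theorem ip_comm (z w : ℂ) : ip z w = ip w z := by
  simp [ip]; ring

theorem abs_ip_le (z w : ℂ) : |ip z w| ≤ ‖z‖ * ‖w‖ := by
  have h1 : ip z w ^ 2 ≤ (‖z‖ * ‖w‖) ^ 2 := by
    rw [mul_pow, Complex.sq_norm, Complex.sq_norm, Complex.normSq_apply, Complex.normSq_apply]
    simp only [ip]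
    nlinarith [sq_nonneg (z.re * w.im - z.im * w.re)]
  exact abs_le_of_sq_le_sq h1 (by positivity)

theorem nrm_sq (ψ : ℝ) (i : Fin 5) : (nrm ψ i).re ^ 2 + (nrm ψ i).im ^ 2 = 1 := by
  have h := norm_nrm ψ i
  have h2 := Complex.sq_norm (nrm ψ i)
  rw [h, Complex.normSq_apply] at h2
  nlinarith

theorem rf_eq (ψ : ℝ) (i : Fin 5) (v : ℂ) : rf ψ i v = v - (2 * ip v (nrm ψ i) : ℝ) * nrm ψ i := by
  have h := nrm_sq ψ i
  apply Complex.ext
  · simp [rf, ip, pow_two]
    linear_combination v.re * h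
  · simp [rf, ip, pow_two]
    linear_combination v.im * h

theorem rf_rf (ψ : ℝ) (i : Fin 5) (v : ℂ) : rf ψ i (rf ψ i v) = v := by
  have h := nrm_sq ψ i
  have h2 : nrm ψ i * (starRingEnd ℂ) (nrm ψ i) = 1 := by
    rw [Complex.mul_conj, Complex.normSq_apply]
    norm_cast; nlinarith
  simp only [rf, map_mul, map_neg, map_pow, conj_conj]
  calc _ = (nrm ψ i * (starRingEnd ℂ) (nrm ψ i)) ^ 2 * v := by ring
    _ = v := by rw [h2]; ring

theorem rf_neg (ψ : ℝ) (i : Fin 5) (v : ℂ) : rf ψ i (-v) = -rf ψ i v := by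
  simp [rf]

theorem norm_rf (ψ : ℝ) (i : Fin 5) (v : ℂ) : ‖rf ψ i v‖ = ‖v‖ := by
  simp [rf, norm_nrm]

theorem ip_rf_rf (ψ : ℝ) (i : Fin 5) (v w : ℂ) : ip (rf ψ i v) (rf ψ i w) = ip v w := by
  have h := nrm_sq ψ i
  rw [rf_eq, rf_eq]
  simp [ip]
  linear_combination (4 * (v.re * (nrm ψ i).re + v.im * (nrm ψ i).im) * (w.re * (nrm ψ i).re + w.im * (nrm ψ i).im)) * h

theorem ip_rf_nrm (ψ : ℝ) (i : Fin 5) (v : ℂ) : ip (rf ψ i v) (nrm ψ i) = -ip v (nrm ψ i) := by
  have h := nrm_sq ψ i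
  rw [rf_eq]
  simp [ip]
  linear_combination (-2 * (v.re * (nrm ψ i).re + v.im * (nrm ψ i).im)) * h

theorem rf_zero (ψ : ℝ) (v : ℂ) : rf ψ 0 v = (starRingEnd ℂ) v := by
  apply Complex.ext <;> simp [rf, nrm, pow_two]

theorem rf_one (ψ : ℝ) (v : ℂ) : rf ψ 1 v = -(starRingEnd ℂ) v := by
  apply Complex.ext <;> simp [rf, nrm, pow_two]

theorem rf_two (ψ : ℝ) (v : ℂ) : rf ψ 2 v = (starRingEnd ℂ) v := by
  apply Complex.ext <;> simp [rf, nrm, pow_two]

theorem rf_three (ψ : ℝ) (v : ℂ) : rf ψ 3 v = -(starRingEnd ℂ) v := by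
  apply Complex.ext <;> simp [rf, nrm, pow_two]

theorem rf_four (ψ : ℝ) (v : ℂ) :
    rf ψ 4 v = Complex.exp (-(2 * ψ * I)) * (starRingEnd ℂ) v := by
  have : -(nrm ψ 4) ^ 2 = Complex.exp (-(2 * ψ * I)) := by
    rw [show (-(2 * (ψ : ℂ) * I)) = ((-(2 * ψ) : ℝ) : ℂ) * I by push_cast; ring,
      Complex.exp_mul_I, ← Complex.ofReal_cos, ← Complex.ofReal_sin, Real.cos_neg, Real.sin_neg,
      Real.sin_two_mul, Real.cos_two_mul']
    apply Complex.ext <;> simp [nrm, pow_two, -ofReal_sin, -ofReal_cos]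
    ring
  rw [rf, this]

theorem norm_em {m : ℕ} {H : ℝ} (hm : m ≠ 0) : ‖em m H‖ = 1 := by
  have hpos : 0 < (m : ℝ) ^ 2 + H ^ 2 := by
    have : (0 : ℝ) < m := by exact_mod_cast Nat.pos_of_ne_zero hm
    positivity
  have hr : 0 < Real.sqrt (m ^ 2 + H ^ 2) := Real.sqrt_pos.2 hpos
  rw [em, norm_div, norm_real, Real.norm_eq_abs, abs_of_pos hr, Complex.norm_eq_sqrt_sq_add_sq]
  exact div_self hr.ne'

/-! ## the sets -/

theorem intP_subset (ψ H : ℝ) : intP ψ H ⊆ inP ψ H := fun _ hp i => (hp i).le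

theorem side_subset (ψ H : ℝ) (i : Fin 5) : side ψ H i ⊆ inP ψ H := by
  intro p hp j
  by_cases h : j = i
  · subst h; exact hp.1.le
  · exact (hp.2 j h).le

theorem continuous_ip (n : ℂ) : Continuous fun p => ip p n := by
  unfold ip; fun_prop

theorem isOpen_intP (ψ H : ℝ) : IsOpen (intP ψ H) := by
  have : intP ψ H = ⋂ i, {p | ip p (nrm ψ i) < off ψ H i} := by
    ext p; simp [intP]
  rw [this]
  exact isOpen_iInter_of_finite fun i => isOpen_lt (continuous_ip _) continuous_const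

theorem isClosed_inP (ψ H : ℝ) : IsClosed (inP ψ H) := by
  have : inP ψ H = ⋂ i, {p | ip p (nrm ψ i) ≤ off ψ H i} := by
    ext p; simp [inP]
  rw [this]
  exact isClosed_iInter fun i => isClosed_le (continuous_ip _) continuous_const

theorem convex_inP (ψ H : ℝ) : Convex ℝ (inP ψ H) := by
  intro p hp q hq s t hs ht hst i
  have h1 := hp i
  have h2 := hq i
  have : ip (s • p + t • q) (nrm ψ i) = s * ip p (nrm ψ i) + t * ip q (nrm ψ i) := by
    simp [ip]; ring
  rw [this]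
  calc _ ≤ s * off ψ H i + t * off ψ H i := by gcongr
    _ = off ψ H i := by rw [← add_mul, hst, one_mul]

theorem inP_box {ψ H : ℝ} {p : ℂ} (hp : p ∈ inP ψ H) :
    0 ≤ p.re ∧ p.re ≤ 1 ∧ 0 ≤ p.im ∧ p.im ≤ H ∧
      b * Real.cos ψ ≤ p.re * Real.sin ψ + p.im * Real.cos ψ := by
  have h0 := hp 0
  have h1 := hp 1
  have h2 := hp 2
  have h3 := hp 3
  have h4 := hp 4
  simp [ip, nrm, off] at h0 h1 h2 h3 h4
  exact ⟨by linarith, by linarith, by linarith, by linarith, by linarith⟩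

theorem mem_inP_iff {ψ H : ℝ} {p : ℂ} : p ∈ inP ψ H ↔
    0 ≤ p.re ∧ p.re ≤ 1 ∧ 0 ≤ p.im ∧ p.im ≤ H ∧
      b * Real.cos ψ ≤ p.re * Real.sin ψ + p.im * Real.cos ψ := by
  refine ⟨inP_box, ?_⟩
  rintro ⟨h3, h1, h0, h2, h4⟩ i
  fin_cases i <;> simp [ip, nrm, off] <;> linarith

theorem mem_intP_iff {ψ H : ℝ} {p : ℂ} : p ∈ intP ψ H ↔
    0 < p.re ∧ p.re < 1 ∧ 0 < p.im ∧ p.im < H ∧
      b * Real.cos ψ < p.re * Real.sin ψ + p.im * Real.cos ψ := by
  constructor
  · intro hp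
    have h0 := hp 0
    have h1 := hp 1
    have h2 := hp 2
    have h3 := hp 3
    have h4 := hp 4
    simp [ip, nrm, off] at h0 h1 h2 h3 h4
    exact ⟨by linarith, by linarith, by linarith, by linarith, by linarith⟩
  · rintro ⟨h3, h1, h0, h2, h4⟩ i
    fin_cases i <;> simp [ip, nrm, off] <;> linarith

theorem norm_le_of_inP {ψ H : ℝ} (h : Par ψ H) {p : ℂ} (hp : p ∈ inP ψ H) : ‖p‖ ≤ 2 := by
  obtain ⟨h1, h2, h3, h4, -⟩ := inP_box hp
  have hH := h.H_bd
  refine (Complex.norm_le_abs_re_add_abs_im p).trans ?_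
  rw [abs_of_nonneg h1, abs_of_nonneg h3]
  linarith

theorem cot_bd {ψ H : ℝ} (h : Par ψ H) :
    0 < b * Real.cos ψ / Real.sin ψ ∧ b * Real.cos ψ / Real.sin ψ < 1 / 50 := by
  have hs := h.sin_bd
  have hc := h.cos_bd
  have hb : b = 1 / 100 := rfl
  have hs0 : 0 < Real.sin ψ := by linarith
  constructor
  · rw [hb]; apply div_pos _ hs0; nlinarith
  · rw [div_lt_iff₀ hs0, hb]; nlinarith

theorem vert_mem {ψ H : ℝ} (h : Par ψ H) (a : Fin 5) : vert ψ H a ∈ inP ψ H := by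
  have hs := h.sin_bd
  have hc := h.cos_bd
  have hH := h.H_bd
  have hcot := cot_bd h
  have hb : b = 1 / 100 := rfl
  have hs0 : Real.sin ψ ≠ 0 := by linarith
  rw [mem_inP_iff]
  fin_cases a
  · simp only [vert, Fin.zero_eta, Matrix.cons_val_zero]
    refine ⟨by linarith, by linarith, le_refl _, by linarith, ?_⟩
    rw [div_mul_cancel₀ _ hs0]; simp
  · simp [vert]
    refine ⟨by linarith, ?_⟩
    rw [hb]; nlinarith
  · simp [vert]
    refine ⟨by linarith, ?_⟩
    rw [hb]; nlinarith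
  · simp [vert]
    refine ⟨by linarith, ?_⟩
    rw [hb]; nlinarith
  · simp [vert]
    rw [hb]; constructor <;> linarith

theorem side_disj {ψ H : ℝ} {i j : Fin 5} {p : ℂ} (hi : p ∈ side ψ H i) (hj : p ∈ side ψ H j) :
    i = j := by
  by_contra h
  have := hi.2 j (Ne.symm h)
  exact absurd hj.1 this.ne

theorem vert_not_side {ψ H : ℝ} (h : Par ψ H) (a i : Fin 5) : vert ψ H a ∉ side ψ H i := by
  have hs := h.sin_bd
  have hs0 : Real.sin ψ ≠ 0 := by linarith
  -- two different constraints are tight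
  have key : ∀ j k : Fin 5, j ≠ k → ip (vert ψ H a) (nrm ψ j) = off ψ H j →
      ip (vert ψ H a) (nrm ψ k) = off ψ H k → vert ψ H a ∉ side ψ H i := by
    intro j k hjk h1 h2 hi
    by_cases hji : j = i
    · have hki : k ≠ i := fun h => hjk (hji.trans h.symm)
      exact absurd h2 (hi.2 k hki).ne
    · exact absurd h1 (hi.2 j hji).ne
  fin_cases a
  · apply key 0 4 (by decide)
    · simp [ip, vert, nrm, off]
    · simp [ip, vert, nrm, off, -ofReal_sin, -ofReal_cos]
      field_simp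
  · apply key 0 1 (by decide)
    · simp [ip, vert, nrm, off]
    · simp [ip, vert, nrm, off]
  · apply key 1 2 (by decide)
    · simp [ip, vert, nrm, off]
    · simp [ip, vert, nrm, off]
  · apply key 2 3 (by decide)
    · simp [ip, vert, nrm, off]
    · simp [ip, vert, nrm, off]
  · apply key 3 4 (by decide)
    · simp [ip, vert, nrm, off]
    · simp [ip, vert, nrm, off]

/-- a specific interior point -/
theorem center_mem {ψ H : ℝ} (h : Par ψ H) : (⟨1 / 4, 1 / 4⟩ : ℂ) ∈ intP ψ H := by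
  have hs := h.sin_bd
  have hc := h.cos_bd
  have hH := h.H_bd
  have hb : b = 1 / 100 := rfl
  rw [mem_intP_iff]
  refine ⟨by norm_num, by norm_num, by norm_num, ?_, ?_⟩
  · simp only; linarith
  · simp only; rw [hb]; linarith

theorem ip_add_smul (p v n : ℂ) (t : ℝ) : ip (p + t * v) n = ip p n + t * ip v n := by
  rw [ip_add_left, ip_smul_left]

/-- the half-open segment from a point of `inP` to a point of `intP` is interior -/
theorem seg_int {ψ H : ℝ} {p v : ℂ} {t s : ℝ} (hp : p ∈ inP ψ H) (hq : p + t * v ∈ intP ψ H)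
    (hs : 0 < s) (hst : s ≤ t) : p + s * v ∈ intP ψ H := by
  intro i
  have h1 := hp i
  have h2 := hq i
  rw [ip_add_smul] at h2 ⊢
  have ht : 0 < t := lt_of_lt_of_le hs hst
  by_cases hv : 0 ≤ ip v (nrm ψ i)
  · nlinarith
  · push Not at hv
    nlinarith

/-- the open segment from a point of `inP` to a point of `side i` reached transversally is
interior -/
theorem seg_side {ψ H : ℝ} {p v : ℂ} {t s : ℝ} {i : Fin 5} (hp : p ∈ inP ψ H)
    (hq : p + t * v ∈ side ψ H i) (hv : 0 < ip v (nrm ψ i)) (hs : 0 < s) (hst : s < t) :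
    p + s * v ∈ intP ψ H := by
  intro j
  by_cases hj : j = i
  · subst hj
    have := hq.1
    rw [ip_add_smul] at this ⊢
    nlinarith
  · have h1 := hp j
    have h2 := hq.2 j hj
    rw [ip_add_smul] at h2 ⊢
    by_cases hv : 0 ≤ ip v (nrm ψ j)
    · nlinarith
    · push Not at hv
      nlinarith

/-- a boundary point is in a relatively open side or is a vertex -/
theorem bdry_cases {ψ H : ℝ} (h : Par ψ H) {p : ℂ} (hp : p ∈ inP ψ H) (hn : p ∉ intP ψ H) :
    (∃ i, p ∈ side ψ H i) ∨ ∃ a, p = vert ψ H a := by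
  have hs := h.sin_bd
  have hc := h.cos_bd
  have hH := h.H_bd
  have hb : b = 1 / 100 := rfl
  by_cases hside : ∃ i, p ∈ side ψ H i
  · exact Or.inl hside
  right
  push Not at hside
  have hn' : ∃ i, ip p (nrm ψ i) = off ψ H i := by
    by_contra hcon
    push Not at hcon
    exact hn fun i => lt_of_le_of_ne (hp i) (hcon i)
  obtain ⟨i, hi⟩ := hn'
  have hj' : ∃ j, j ≠ i ∧ ip p (nrm ψ j) = off ψ H j := by
    by_contra hcon
    push Not at hcon
    exact hside i ⟨hi, fun j hj => lt_of_le_of_ne (hp j) (hcon j hj)⟩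
  obtain ⟨j, hji, hj⟩ := hj'
  obtain ⟨g1, g2, g3, g4, g5⟩ := inP_box hp
  have e0 : ip p (nrm ψ 0) = off ψ H 0 → p.im = 0 := by
    intro e; simp [ip, nrm, off] at e; exact e
  have e1 : ip p (nrm ψ 1) = off ψ H 1 → p.re = 1 := by
    intro e; simp [ip, nrm, off] at e; exact e
  have e2 : ip p (nrm ψ 2) = off ψ H 2 → p.im = H := by
    intro e; simp [ip, nrm, off] at e; exact e
  have e3 : ip p (nrm ψ 3) = off ψ H 3 → p.re = 0 := by
    intro e; simp [ip, nrm, off] at e; exact e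
  have e4 : ip p (nrm ψ 4) = off ψ H 4 →
      p.re * Real.sin ψ + p.im * Real.cos ψ = b * Real.cos ψ := by
    intro e; simp [ip, nrm, off] at e; linarith
  have hs0 : Real.sin ψ ≠ 0 := by linarith
  have c01 : p.im = 0 → p.re = 1 → ∃ a, p = vert ψ H a := fun a1 a2 =>
    ⟨1, by apply Complex.ext <;> simp [vert, a1, a2]⟩
  have c12 : p.re = 1 → p.im = H → ∃ a, p = vert ψ H a := fun a1 a2 =>
    ⟨2, by apply Complex.ext <;> simp [vert, a1, a2]⟩
  have c23 : p.im = H → p.re = 0 → ∃ a, p = vert ψ H a := fun a1 a2 =>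
    ⟨3, by apply Complex.ext <;> simp [vert, a1, a2]⟩
  have c34 : p.re = 0 → p.re * Real.sin ψ + p.im * Real.cos ψ = b * Real.cos ψ →
      ∃ a, p = vert ψ H a := fun a1 a2 =>
    ⟨4, by
      rw [a1] at a2
      have : p.im = b := by
        have hc0 : Real.cos ψ ≠ 0 := by linarith
        have : p.im * Real.cos ψ = b * Real.cos ψ := by linarith
        exact mul_right_cancel₀ hc0 this
      apply Complex.ext <;> simp [vert, a1, this]⟩
  have c04 : p.im = 0 → p.re * Real.sin ψ + p.im * Real.cos ψ = b * Real.cos ψ →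
      ∃ a, p = vert ψ H a := fun a1 a2 =>
    ⟨0, by
      rw [a1] at a2
      have : p.re = b * Real.cos ψ / Real.sin ψ := by
        rw [eq_div_iff hs0]; linarith
      apply Complex.ext <;> simp only [vert, Matrix.cons_val_zero]
      · exact this
      · exact a1⟩
  fin_cases i <;> fin_cases j <;> simp only [Fin.zero_eta, Fin.mk_one, Fin.reduceFinMk, ne_eq,
    not_true_eq_false] at hji hi hj
  · exact c01 (e0 hi) (e1 hj)
  · have := e0 hi; have := e2 hj; exfalso; linarith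
  · have := e0 hi; have := e3 hj
    exfalso
    rw [‹p.im = 0›, ‹p.re = 0›, hb] at g5
    linarith
  · exact c04 (e0 hi) (e4 hj)
  · exact c01 (e0 hj) (e1 hi)
  · exact c12 (e1 hi) (e2 hj)
  · have := e1 hi; have := e3 hj; exfalso; linarith
  · have := e1 hi; have := e4 hj
    exfalso
    rw [‹p.re = 1›, hb] at this
    nlinarith
  · have := e0 hj; have := e2 hi; exfalso; linarith
  · exact c12 (e1 hj) (e2 hi)
  · exact c23 (e2 hi) (e3 hj)
  · have := e2 hi; have := e4 hj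
    exfalso
    rw [‹p.im = H›, hb] at this
    nlinarith
  · have := e0 hj; have := e3 hi
    exfalso
    rw [‹p.im = 0›, ‹p.re = 0›, hb] at g5
    linarith
  · have := e1 hj; have := e3 hi; exfalso; linarith
  · exact c23 (e2 hj) (e3 hi)
  · exact c34 (e3 hi) (e4 hj)
  · exact c04 (e0 hj) (e4 hi)
  · have := e1 hj; have := e4 hi
    exfalso
    rw [‹p.re = 1›, hb] at this
    nlinarith
  · have := e2 hj; have := e4 hi
    exfalso
    rw [‹p.im = H›, hb] at this
    nlinarith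
  · exact c34 (e3 hj) (e4 hi)

/-- exit point of a chord -/
theorem exists_exit {ψ H : ℝ} (h : Par ψ H) {p v : ℂ} (hp : p ∈ inP ψ H) (hv : ‖v‖ = 1)
    {s0 : ℝ} (hs0 : 0 < s0) (hin : p + s0 * v ∈ intP ψ H) :
    ∃ τ, s0 < τ ∧ p + τ * v ∈ inP ψ H ∧ p + τ * v ∉ intP ψ H ∧
      ∀ s : ℝ, 0 < s → s < τ → p + s * v ∈ intP ψ H := by
  have hcont : Continuous fun s : ℝ => p + s * v := by fun_prop
  set A : Set ℝ := {s | 0 < s ∧ p + s * v ∈ intP ψ H} with hA
  have hbdd : BddAbove A := by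
    refine ⟨4, fun s hs => ?_⟩
    have h1 := norm_le_of_inP h (intP_subset _ _ hs.2)
    have h2 := norm_le_of_inP h hp
    have h3 : ‖(s : ℂ) * v‖ ≤ 4 := by
      have : (s : ℂ) * v = (p + s * v) - p := by ring
      rw [this]
      refine (norm_sub_le _ _).trans ?_
      linarith
    rw [norm_mul, hv, mul_one, norm_real, Real.norm_eq_abs, abs_of_pos hs.1] at h3
    exact h3
  have hne : A.Nonempty := ⟨s0, hs0, hin⟩
  set τ := sSup A with hτ
  have hle : s0 ≤ τ := le_csSup hbdd ⟨hs0, hin⟩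
  have hτ0 : 0 < τ := lt_of_lt_of_le hs0 hle
  have hlt : ∀ s : ℝ, 0 < s → s < τ → p + s * v ∈ intP ψ H := by
    intro s hs hsτ
    obtain ⟨t, ht, hst⟩ := exists_lt_of_lt_csSup hne hsτ
    exact seg_int hp ht.2 hs hst.le
  have hnot : p + τ * v ∉ intP ψ H := by
    intro hmem
    have hopen : IsOpen {s : ℝ | p + s * v ∈ intP ψ H} := (isOpen_intP ψ H).preimage hcont
    obtain ⟨ε, hε, hball⟩ := Metric.isOpen_iff.1 hopen τ hmem
    have : τ + ε / 2 ∈ A := by
      refine ⟨by linarith, hball ?_⟩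
      rw [Metric.mem_ball, Real.dist_eq]
      rw [show τ + ε / 2 - τ = ε / 2 by ring, abs_of_pos (by linarith)]
      linarith
    have := le_csSup hbdd this
    linarith
  have hclosed : p + τ * v ∈ inP ψ H := by
    have hmem : τ ∈ closure {s : ℝ | p + s * v ∈ inP ψ H} := by
      rw [Metric.mem_closure_iff]
      intro ε hε
      refine ⟨max (τ - ε / 2) (τ / 2), ?_, ?_⟩
      · apply intP_subset
        apply hlt
        · exact lt_max_of_lt_right (by linarith)
        · exact max_lt (by linarith) (by linarith)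
      · rw [Real.dist_eq, abs_of_nonneg]
        · have := le_max_left (τ - ε / 2) (τ / 2)
          linarith
        · have : max (τ - ε / 2) (τ / 2) ≤ τ := max_le (by linarith) (by linarith)
          linarith
    have hcl : IsClosed {s : ℝ | p + s * v ∈ inP ψ H} := (isClosed_inP ψ H).preimage hcont
    rw [hcl.closure_eq] at hmem
    exact hmem
  refine ⟨τ, lt_of_le_of_ne hle ?_, hclosed, hnot, hlt⟩
  intro heq
  rw [heq] at hin
  exact hnot hin

/-- if an interior point flows to a boundary point in `side i` then the hit is transversal -/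
theorem ip_pos_of_exit {ψ H : ℝ} {p v : ℂ} {τ : ℝ} {i : Fin 5} (hp : p ∈ intP ψ H) (hτ : 0 < τ)
    (hs : p + τ * v ∈ side ψ H i) : 0 < ip v (nrm ψ i) := by
  have h1 := hp i
  have h2 := hs.1
  rw [ip_add_smul] at h2
  have : 0 < τ * ip v (nrm ψ i) := by linarith
  exact (pos_iff_pos_of_mul_pos this).1 hτ

theorem small_step {x y o : ℝ} (h : x < o) : ∃ δ > 0, ∀ s : ℝ, 0 < s → s ≤ δ → x + s * y < o := by
  refine ⟨(o - x) / (2 * (|y| + 1)), by apply div_pos; linarith; positivity, ?_⟩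
  intro s hs hs2
  rw [le_div_iff₀ (by positivity)] at hs2
  have h1 : s * y ≤ s * |y| := by
    apply mul_le_mul_of_nonneg_left (le_abs_self y) hs.le
  nlinarith [abs_nonneg y]

/-- from a boundary point the direction `v` points inside if it does so for all tight
constraints -/
theorem inward_of_tight {ψ H : ℝ} {p v : ℂ}
    (h : ∀ i, ip p (nrm ψ i) < off ψ H i ∨ (ip p (nrm ψ i) ≤ off ψ H i ∧ ip v (nrm ψ i) < 0)) :
    ∃ s0 > 0, ∀ s : ℝ, 0 < s → s ≤ s0 → p + s * v ∈ intP ψ H := by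
  have key : ∀ i, ∃ δ > 0, ∀ s : ℝ, 0 < s → s ≤ δ →
      ip p (nrm ψ i) + s * ip v (nrm ψ i) < off ψ H i := by
    intro i
    rcases h i with h | h
    · exact small_step h
    · refine ⟨1, one_pos, fun s hs _ => ?_⟩
      nlinarith [mul_neg_of_pos_of_neg hs h.2]
  choose δ hδ hδ2 using key
  refine ⟨Finset.univ.inf' Finset.univ_nonempty δ, ?_, ?_⟩
  · exact (Finset.lt_inf'_iff Finset.univ_nonempty).2 fun i _ => hδ i
  · intro s hs hs2 i
    rw [ip_add_smul]
    exact hδ2 i s hs (hs2.trans (Finset.inf'_le _ (Finset.mem_univ i)))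

/-- from a point of `side i`, directions with `ip v (nrm i) < 0` point inside -/
theorem inward_of_side {ψ H : ℝ} {p v : ℂ} {i : Fin 5} (hp : p ∈ side ψ H i)
    (hv : ip v (nrm ψ i) < 0) : ∃ s0 > 0, ∀ s : ℝ, 0 < s → s ≤ s0 → p + s * v ∈ intP ψ H := by
  apply inward_of_tight
  intro j
  by_cases hj : j = i
  · subst hj; exact Or.inr ⟨hp.1.le, hv⟩
  · exact Or.inl (hp.2 j hj)

/-- the ray `ω_m` starts inside -/
theorem dirR_inward {ψ H : ℝ} (h : Par ψ H) {m : ℕ} (hm : m = 1 ∨ m = 2) :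
    ∃ s0 > 0, ∀ s : ℝ, 0 < s → s ≤ s0 → (⟨0, b⟩ : ℂ) + s * dirR ψ H m ∈ intP ψ H := by
  have hs := h.sin_bd
  have hc := h.cos_bd
  have hH := h.H_bd
  have hb : b = 1 / 100 := rfl
  have hc2 := abs_lt.1 h.cos_two
  have hs2 := h.sin_two
  have hm1 : (1 : ℝ) ≤ m ∧ (m : ℝ) ≤ 2 := by
    rcases hm with rfl | rfl <;> norm_num
  have hr : 0 < Real.sqrt (m ^ 2 + H ^ 2) := Real.sqrt_pos.2 (by nlinarith)
  have hre : (dirR ψ H m).re = (-(m * Real.cos (2 * ψ)) + H * Real.sin (2 * ψ))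
      / Real.sqrt (m ^ 2 + H ^ 2) := by
    rw [dirR, rf_four, show (-(2 * (ψ : ℂ) * I)) = ((-(2 * ψ) : ℝ) : ℂ) * I by push_cast; ring,
      Complex.exp_mul_I, ← Complex.ofReal_cos, ← Complex.ofReal_sin, Real.cos_neg, Real.sin_neg]
    simp [em, -ofReal_cos, -ofReal_sin, Complex.div_re, Complex.div_im]
    field_simp
    ring
  have hip : ip (dirR ψ H m) (nrm ψ 4) < 0 := by
    rw [dirR, ip_rf_nrm]
    have : ip (-(em m H)) (nrm ψ 4) = (m * Real.sin ψ + H * Real.cos ψ)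
        / Real.sqrt (m ^ 2 + H ^ 2) := by
      simp [ip, em, nrm, Complex.div_re, Complex.div_im]
      field_simp
    rw [this]
    have : 0 < (m * Real.sin ψ + H * Real.cos ψ) / Real.sqrt (m ^ 2 + H ^ 2) := by
      apply div_pos _ hr
      nlinarith
    linarith
  have hre' : 0 < (dirR ψ H m).re := by
    rw [hre]
    apply div_pos _ hr
    nlinarith
  apply inward_of_tight
  intro i
  fin_cases i
  · left; simp [ip, nrm, off, hb]
  · left; simp [ip, nrm, off]
  · left; simp [ip, nrm, off, hb]; linarith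
  · right; simp [ip, nrm, off]; exact hre'
  · right; refine ⟨by simp [ip, nrm, off], ?_⟩
    exact hip

end FC28
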