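import Mathlib

/-! # A minimality lemma for partial interval exchanges with flips -/

namespace FC28

/-- A partial injective map `S` (given as a relation) on a finite disjoint union of bounded open
intervals `X i`, which locally reverses orientation isometrically, and whose domain and range
have finite complement. -/
structure IETSys (ι : Type) where
  X : ι → Set ℝ
  S : ι × ℝ → ι × ℝ → Prop
  open_X : ∀ i, IsOpen (X i)
  conn_X : ∀ i, (X i).OrdConnected
  bdd_X : ∀ i, Bornology.IsBounded (X i)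
  memL : ∀ {x y}, S x y → x.2 ∈ X x.1
  memR : ∀ {x y}, S x y → y.2 ∈ X y.1
  func : ∀ {x y y'}, S x y → S x y' → y = y'
  inj : ∀ {x x' y}, S x y → S x' y → x = x'
  loc : ∀ {x y}, S x y → ∃ δ > 0, ∀ u : ℝ, |u| < δ → S (x.1, x.2 + u) (y.1, y.2 - u)
  finD : {x : ι × ℝ | x.2 ∈ X x.1 ∧ ¬ ∃ y, S x y}.Finite
  finR : {y : ι × ℝ | y.2 ∈ X y.1 ∧ ¬ ∃ x, S x y}.Finite

namespace IETSys

variable {ι : Type} (Z : IETSys ι)

/-- `p` is in the closure of the sequence `o` -/
def Cl (o : ℕ → ι × ℝ) (p : ι × ℝ) : Prop :=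
  ∀ ε > 0, ∃ n, (o n).1 = p.1 ∧ |(o n).2 - p.2| < ε

theorem Cl_iff {Z : IETSys ι} {o : ℕ → ι × ℝ} (ho : ∀ n, Z.S (o n) (o (n + 1)))
    (h0 : ¬ ∃ x, Z.S x (o 0)) {x y : ι × ℝ} (h : Z.S x y) : Cl o x ↔ Cl o y := by
  obtain ⟨δ, hδ, hloc⟩ := Z.loc h
  constructor
  · intro hx ε hε
    obtain ⟨n, h1, h2⟩ := hx (min ε δ) (lt_min hε hδ)
    have h3 := hloc ((o n).2 - x.2) (h2.trans_le (min_le_right _ _))
    have h4 : ((x.1, x.2 + ((o n).2 - x.2)) : ι × ℝ) = o n := by
      apply Prod.ext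
      · exact h1.symm
      · simp
    rw [h4] at h3
    have h5 := Z.func (ho n) h3
    refine ⟨n + 1, by rw [h5], ?_⟩
    rw [h5]
    change |y.2 - ((o n).2 - x.2) - y.2| < ε
    have : y.2 - ((o n).2 - x.2) - y.2 = -((o n).2 - x.2) := by ring
    rw [this, abs_neg]
    exact h2.trans_le (min_le_left _ _)
  · intro hy ε hε
    obtain ⟨n, h1, h2⟩ := hy (min ε δ) (lt_min hε hδ)
    have h3 := hloc (y.2 - (o n).2) (by
      rw [abs_sub_comm]
      exact h2.trans_le (min_le_right _ _))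
    have h4 : ((y.1, y.2 - (y.2 - (o n).2)) : ι × ℝ) = o n := by
      apply Prod.ext
      · exact h1.symm
      · simp
    rw [h4] at h3
    cases n with
    | zero => exact absurd ⟨_, h3⟩ h0
    | succ k =>
      have h5 := Z.inj (ho k) h3
      refine ⟨k, by rw [h5], ?_⟩
      rw [h5]
      change |x.2 + (y.2 - (o (k + 1)).2) - x.2| < ε
      have : x.2 + (y.2 - (o (k + 1)).2) - x.2 = -((o (k + 1)).2 - y.2) := by ring
      rw [this, abs_neg]
      exact h2.trans_le (min_le_left _ _)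

theorem isClosed_Cl (o : ℕ → ι × ℝ) (i : ι) : IsClosed {u : ℝ | Cl o (i, u)} := by
  rw [← isOpen_compl_iff, Metric.isOpen_iff]
  intro u hu
  rw [Set.mem_compl_iff] at hu
  have hu' : ¬ ∀ ε > 0, ∃ n, (o n).1 = i ∧ |(o n).2 - u| < ε := hu
  push Not at hu'
  obtain ⟨ε, hε, h⟩ := hu'
  refine ⟨ε / 2, by positivity, ?_⟩
  intro v hv hv2
  have hv3 : Cl o (i, v) := hv2
  obtain ⟨n, h1, h2⟩ := hv3 (ε / 2) (by positivity)
  rw [Metric.mem_ball, Real.dist_eq] at hv
  have h3 := h n h1
  have h4 : |(o n).2 - u| ≤ |(o n).2 - v| + |v - u| := abs_sub_le _ _ _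
  have h5 : |(o n).2 - v| < ε / 2 := h2
  linarith

/-- the reversed system -/
def rev : IETSys ι where
  X := Z.X
  S x y := Z.S y x
  open_X := Z.open_X
  conn_X := Z.conn_X
  bdd_X := Z.bdd_X
  memL h := Z.memR h
  memR h := Z.memL h
  func h h' := Z.inj h h'
  inj h h' := Z.func h h'
  loc := by
    intro x y h
    obtain ⟨δ, hδ, hl⟩ := Z.loc h
    refine ⟨δ, hδ, fun u hu => ?_⟩
    have := hl (-u) (by rwa [abs_neg])
    rwa [← sub_eq_add_neg, sub_neg_eq_add] at this
  finD := Z.finR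
  finR := Z.finD

/-- uniform version of `loc` along a finite chain -/
theorem chain_loc {Z : IETSys ι} (b : ℕ → ι × ℝ) (N : ℕ) (hb : ∀ n < N, Z.S (b n) (b (n + 1))) :
    ∃ δ > 0, ∀ n < N, ∀ u : ℝ, |u| < δ →
      Z.S ((b n).1, (b n).2 + u) ((b (n + 1)).1, (b (n + 1)).2 - u) := by
  induction N with
  | zero => exact ⟨1, one_pos, fun n hn => absurd hn (Nat.not_lt_zero n)⟩
  | succ N ih =>
    obtain ⟨δ, hδ, h1⟩ := ih (fun n hn => hb n (by omega))
    obtain ⟨δ', hδ', h2⟩ := Z.loc (hb N (by omega))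
    refine ⟨min δ δ', lt_min hδ hδ', fun n hn u hu => ?_⟩
    rcases Nat.lt_succ_iff_lt_or_eq.mp hn with h | rfl
    · exact h1 n h u (hu.trans_le (min_le_left _ _))
    · exact h2 u (hu.trans_le (min_le_right _ _))

/-- a point of the closure of the orbit `o` is not periodic -/
theorem periodic_false {Z : IETSys ι} {o : ℕ → ι × ℝ} (ho : ∀ n, Z.S (o n) (o (n + 1)))
    (h0 : ¬ ∃ x, Z.S x (o 0)) (b : ℕ → ι × ℝ) {k : ℕ} (hk : 0 < k)
    (hb : ∀ n < 2 * k, Z.S (b n) (b (n + 1))) (hbk : b (2 * k) = b 0) (hcl : Cl o (b 0)) :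
    False := by
  obtain ⟨δ, hδ, hloc⟩ := chain_loc b (2 * k) hb
  obtain ⟨j, h1, h2⟩ := hcl δ hδ
  set u : ℝ := (o j).2 - (b 0).2 with hu
  have key : ∀ n ≤ 2 * k, o (j + n) = ((b n).1, (b n).2 + (-1) ^ n * u) := by
    intro n
    induction n with
    | zero =>
      intro _
      apply Prod.ext
      · exact h1
      · simp [hu]
    | succ n ih =>
      intro hn
      have h3 := ih (by omega)
      have habs : |(-1) ^ n * u| = |u| := by
        rw [abs_mul, abs_pow, abs_neg, abs_one, one_pow, one_mul]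
      have h4 := hloc n (by omega) ((-1) ^ n * u) (by rw [habs]; exact h2)
      rw [← h3] at h4
      have h5 := Z.func (ho (j + n)) h4
      rw [← add_assoc, h5]
      apply Prod.ext
      · rfl
      · change (b (n + 1)).2 - (-1) ^ n * u = (b (n + 1)).2 + (-1) ^ (n + 1) * u
        rw [pow_succ]
        ring
  have hper : o (j + 2 * k) = o j := by
    rw [key (2 * k) le_rfl, hbk]
    apply Prod.ext
    · exact h1.symm
    · simp [hu]
  have hback : ∀ i ≤ j, o (j - i + 2 * k) = o (j - i) := by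
    intro i
    induction i with
    | zero => intro _; simpa using hper
    | succ i ih =>
      intro hi
      have h3 := ih (by omega)
      have e1 : j - i = j - (i + 1) + 1 := by omega
      have h4 := ho (j - (i + 1) + 2 * k)
      have h5 := ho (j - (i + 1))
      rw [← e1] at h5
      have e2 : j - (i + 1) + 2 * k + 1 = j - i + 2 * k := by omega
      rw [e2, h3] at h4
      exact Z.inj h4 h5
  have h6 := hback j le_rfl
  rw [Nat.sub_self, Nat.zero_add] at h6
  apply h0
  refine ⟨o (2 * k - 1), ?_⟩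
  have h7 := ho (2 * k - 1)
  have e3 : 2 * k - 1 + 1 = 2 * k := by omega
  rw [e3, h6] at h7
  exact h7

/-- propagation of `S` along an interval contained in the domain -/
theorem slide {Z : IETSys ι} {x y : ι × ℝ} (h : Z.S x y) {s : ℝ} (hs : s = 1 ∨ s = -1) {ℓ : ℝ}
    (hdom : ∀ r, 0 < r → r < ℓ → ∃ z, Z.S (x.1, x.2 + s * r) z) :
    ∀ r, 0 ≤ r → r < ℓ → Z.S (x.1, x.2 + s * r) (y.1, y.2 - s * r) := by
  intro r1 hr1 hr1ℓ
  have habs : ∀ t : ℝ, |s * t| = |t| := by
    intro t
    rcases hs with rfl | rfl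
    · rw [one_mul]
    · rw [neg_one_mul, abs_neg]
  -- local structure at a point of the domain
  have hl : ∀ r, 0 ≤ r → r < ℓ → ∃ z : ι × ℝ, ∃ δ > 0, ∀ t : ℝ, |t - r| < δ →
      Z.S (x.1, x.2 + s * t) (z.1, z.2 - s * (t - r)) := by
    intro r hr hrℓ
    obtain ⟨z, hz⟩ : ∃ z, Z.S (x.1, x.2 + s * r) z := by
      rcases hr.eq_or_lt with rfl | hr'
      · refine ⟨y, ?_⟩
        rw [mul_zero, add_zero]
        exact h
      · exact hdom r hr' hrℓ
    obtain ⟨δ, hδ, h1⟩ := Z.loc hz
    refine ⟨z, δ, hδ, fun t ht => ?_⟩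
    have h2 := h1 (s * (t - r)) (by rw [habs]; exact ht)
    have e : x.2 + s * r + s * (t - r) = x.2 + s * t := by ring
    simp only [e] at h2
    exact h2
  have hsub : Set.Icc 0 r1 ⊆ {r | Z.S (x.1, x.2 + s * r) (y.1, y.2 - s * r)} := by
    apply IsClosed.Icc_subset_of_forall_mem_nhdsWithin
    · rw [← isOpen_compl_iff, Metric.isOpen_iff]
      intro r hr
      by_cases hr2 : r ∈ Set.Icc 0 r1
      · have hr3 : ¬ Z.S (x.1, x.2 + s * r) (y.1, y.2 - s * r) := fun h3 => hr ⟨h3, hr2⟩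
        obtain ⟨z, δ, hδ, h1⟩ := hl r hr2.1 (hr2.2.trans_lt hr1ℓ)
        refine ⟨δ, hδ, ?_⟩
        rintro t ht ⟨ht2, _⟩
        rw [Metric.mem_ball, Real.dist_eq] at ht
        apply hr3
        have h4 := Z.func ht2 (h1 t ht)
        have h5 := h1 r (by simpa using hδ)
        have e : (y.1, y.2 - s * r) = (z.1, z.2 - s * (r - r)) := by
          have e1 := congrArg Prod.fst h4
          have e2 := congrArg Prod.snd h4
          simp only at e1 e2
          apply Prod.ext
          · exact e1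
          · simp only
            linarith
        rw [e]
        exact h5
      · have hop : IsOpen (Set.Icc 0 r1)ᶜ := isClosed_Icc.isOpen_compl
        obtain ⟨ε, hε, h3⟩ := Metric.isOpen_iff.mp hop r hr2
        exact ⟨ε, hε, fun t ht h4 => h3 ht h4.2⟩
    · change Z.S (x.1, x.2 + s * 0) (y.1, y.2 - s * 0)
      rw [mul_zero, add_zero, sub_zero]
      exact h
    · rintro r ⟨hr, hr2⟩
      obtain ⟨δ, hδ, h1⟩ := Z.loc hr
      apply mem_nhdsWithin_of_mem_nhds
      rw [Metric.mem_nhds_iff]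
      refine ⟨δ, hδ, fun t ht => ?_⟩
      rw [Metric.mem_ball, Real.dist_eq] at ht
      have h2 := h1 (s * (t - r)) (by rw [habs]; exact ht)
      change Z.S (x.1, x.2 + s * t) (y.1, y.2 - s * t)
      have e : x.2 + s * r + s * (t - r) = x.2 + s * t := by ring
      have e' : y.2 - s * r - s * (t - r) = y.2 - s * t := by ring
      simp only [e, e'] at h2
      exact h2
  exact hsub ⟨hr1, le_rfl⟩

/-- sign of the gap -/
theorem sgn_cases {s : ℝ} (hs : s = 1 ∨ s = -1) (n : ℕ) :
    (-1) ^ n * s = 1 ∨ (-1) ^ n * s = -1 := by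
  rcases neg_one_pow_eq_or ℝ n with h | h <;> rcases hs with rfl | rfl <;> rw [h] <;> simp

/-- an infinite orbit without repetition in an invariant closed set has no gap -/
theorem no_gap [Finite ι] {Z : IETSys ι} (C : Set (ι × ℝ))
    (hinv : ∀ x y, Z.S x y → (x ∈ C ↔ y ∈ C)) (a : ℕ → ι × ℝ)
    (ha : ∀ n, Z.S (a n) (a (n + 1))) (haC : a 0 ∈ C) (hinj : Function.Injective a) {s ℓ0 : ℝ}
    (hs : s = 1 ∨ s = -1) (hℓ0 : 0 < ℓ0)
    (hgap : ∀ r, 0 < r → r < ℓ0 → (a 0).2 + s * r ∈ Z.X (a 0).1 ∧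
      ((a 0).1, (a 0).2 + s * r) ∉ C) : False := by
  have hC : ∀ n, a n ∈ C := by
    intro n
    induction n with
    | zero => exact haC
    | succ n ih => exact (hinv _ _ (ha n)).mp ih
  let sg : ℕ → ℝ := fun n => (-1) ^ n * s
  have hsg : ∀ n, sg n = 1 ∨ sg n = -1 := sgn_cases hs
  have hsgs : ∀ n, sg (n + 1) = - sg n := by
    intro n
    change (-1) ^ (n + 1) * s = - ((-1) ^ n * s)
    rw [pow_succ]
    ring
  let G : ℕ → ℝ → Prop := fun n ℓ => ∀ r, 0 < r → r < ℓ → (a n).2 + sg n * r ∈ Z.X (a n).1 ∧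
    ((a n).1, (a n).2 + sg n * r) ∉ C
  -- transport of a gap
  have htr : ∀ n ℓ, G n ℓ → (∀ r, 0 < r → r < ℓ → ∃ z, Z.S ((a n).1, (a n).2 + sg n * r) z) →
      G (n + 1) ℓ := by
    intro n ℓ hG hdom r hr hrℓ
    have h1 := slide (ha n) (hsg n) hdom r hr.le hrℓ
    have e : (a (n + 1)).2 - sg n * r = (a (n + 1)).2 + sg (n + 1) * r := by
      rw [hsgs n]; ring
    rw [e] at h1
    refine ⟨Z.memR h1, ?_⟩
    intro h2
    exact (hG r hr hrℓ).2 ((hinv _ _ h1).mpr h2)
  have hpos : ∀ n, ∃ ℓ > 0, G n ℓ := by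
    intro n
    induction n with
    | zero =>
      refine ⟨ℓ0, hℓ0, fun r hr hrℓ => ?_⟩
      have e : sg 0 = s := by
        change (-1) ^ 0 * s = s
        rw [pow_zero, one_mul]
      rw [e]
      exact hgap r hr hrℓ
    | succ n ih =>
      obtain ⟨ℓ, hℓ, hG⟩ := ih
      obtain ⟨δ, hδ, hloc⟩ := Z.loc (ha n)
      refine ⟨min ℓ δ, lt_min hℓ hδ, ?_⟩
      apply htr n (min ℓ δ) (fun r hr hrℓ => hG r hr (hrℓ.trans_le (min_le_left _ _)))
      intro r hr hrℓ
      refine ⟨_, hloc (sg n * r) ?_⟩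
      have : |sg n * r| = r := by
        rcases hsg n with h | h <;> rw [h]
        · rw [one_mul, abs_of_pos hr]
        · rw [neg_one_mul, abs_neg, abs_of_pos hr]
      rw [this]
      exact hrℓ.trans_le (min_le_right _ _)
  -- comparison of two gaps on the same side
  have hcmp : ∀ n m ℓ, G m ℓ → (a n).1 = (a m).1 → sg n = sg m → n ≠ m →
      ∀ r, (a n).2 = (a m).2 + sg m * r → 0 ≤ r → r < ℓ → False := by
    intro n m ℓ hG h1 h2 h3 r h4 h5 h6
    rcases h5.eq_or_lt with rfl | h5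
    · rw [mul_zero, add_zero] at h4
      exact h3 (hinj (Prod.ext h1 h4))
    · apply (hG r h5 h6).2
      rw [← h4, ← h1]
      exact hC n
  -- finitely many bad indices
  let bad : Set ℕ := {n | ∃ ℓ r, G n ℓ ∧ 0 < r ∧ r < ℓ ∧
    ¬ ∃ z, Z.S ((a n).1, (a n).2 + sg n * r) z}
  have hbad : bad.Finite := by
    by_contra hinf
    have hinf' : bad.Infinite := hinf
    have hch : ∀ n ∈ bad, ∃ ℓ r, G n ℓ ∧ 0 < r ∧ r < ℓ ∧
      ¬ ∃ z, Z.S ((a n).1, (a n).2 + sg n * r) z := fun n hn => hn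
    choose! L R hGL hR0 hRL hRz using hch
    let F : ℕ → (ι × ℝ) × ℝ := fun n => (((a n).1, (a n).2 + sg n * R n), sg n)
    have hfin : ((({x : ι × ℝ | x.2 ∈ Z.X x.1 ∧ ¬ ∃ y, Z.S x y}) ×ˢ ({1, -1} : Set ℝ))).Finite :=
      Z.finD.prod (by simp)
    have hmaps : Set.MapsTo F bad
        (({x : ι × ℝ | x.2 ∈ Z.X x.1 ∧ ¬ ∃ y, Z.S x y}) ×ˢ ({1, -1} : Set ℝ)) := by
      intro n hn
      refine ⟨⟨(hGL n hn (R n) (hR0 n hn) (hRL n hn)).1, hRz n hn⟩, ?_⟩
      rcases hsg n with h | h
      · left; exact h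
      · right; exact h
    obtain ⟨n, hn, m, hm, hnm, hF⟩ := hinf'.exists_ne_map_eq_of_mapsTo hmaps hfin
    have e1 : (a n).1 = (a m).1 := congrArg (fun t => t.1.1) hF
    have e2 : (a n).2 + sg n * R n = (a m).2 + sg m * R m := congrArg (fun t => t.1.2) hF
    have e3 : sg n = sg m := congrArg (fun t => t.2) hF
    rcases le_total (R n) (R m) with h | h
    · refine hcmp n m (L m) (hGL m hm) e1 e3 hnm (R m - R n) ?_ (by linarith)
        (by linarith [hR0 n hn, hRL m hm])
      rw [e3] at e2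
      linarith
    · refine hcmp m n (L n) (hGL n hn) e1.symm e3.symm hnm.symm (R n - R m) ?_ (by linarith)
        (by linarith [hR0 m hm, hRL n hn])
      rw [← e3] at e2
      linarith
  -- after the last bad index
  obtain ⟨n0, hn0⟩ : ∃ n0, ∀ n ≥ n0, n ∉ bad := by
    obtain ⟨B, hB⟩ := hbad.bddAbove
    exact ⟨B + 1, fun n hn h => by have := hB h; omega⟩
  obtain ⟨ℓ, hℓ, hG0⟩ := hpos n0
  have hGn : ∀ n ≥ n0, G n ℓ := by
    intro n hn
    induction n, hn using Nat.le_induction with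
    | base => exact hG0
    | succ n hn ih =>
      apply htr n ℓ ih
      intro r hr hrℓ
      by_contra hz
      exact hn0 n hn ⟨ℓ, r, ih, hr, hrℓ, hz⟩
  -- pigeonhole
  obtain ⟨R, hR⟩ : ∃ R : ℝ, ∀ i, ∀ u ∈ Z.X i, |u| ≤ R := by
    have : ∀ i, ∃ R : ℝ, ∀ u ∈ Z.X i, |u| ≤ R := by
      intro i
      obtain ⟨R, hR⟩ := (Z.bdd_X i).exists_norm_le
      exact ⟨R, fun u hu => by simpa using hR u hu⟩
    choose R hR using this
    obtain ⟨M, hM⟩ := (Set.finite_range R).bddAbove
    exact ⟨M, fun i u hu => (hR i u hu).trans (hM ⟨i, rfl⟩)⟩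
  let F : ℕ → ι × (ℝ × ℤ) := fun n => ((a n).1, (sg n, ⌊(a n).2 / ℓ⌋))
  have hfin : ((Set.univ : Set ι) ×ˢ (({1, -1} : Set ℝ) ×ˢ
      (Set.Icc ⌊-R / ℓ⌋ ⌊R / ℓ⌋))).Finite :=
    Set.finite_univ.prod ((by simp : ({1, -1} : Set ℝ).Finite).prod (Set.finite_Icc _ _))
  have hmaps : Set.MapsTo F (Set.Ici n0) ((Set.univ : Set ι) ×ˢ (({1, -1} : Set ℝ) ×ˢ
      (Set.Icc ⌊-R / ℓ⌋ ⌊R / ℓ⌋))) := by
    intro n _
    have hX := hR _ _ (Z.memL (ha n))
    rw [abs_le] at hX
    refine ⟨trivial, ?_, ?_, ?_⟩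
    · rcases hsg n with h | h
      · left; exact h
      · right; exact h
    · exact Int.floor_le_floor (by gcongr; exact hX.1)
    · exact Int.floor_le_floor (by gcongr; exact hX.2)
  obtain ⟨n, hn, m, hm, hnm, hF⟩ :=
    (Set.Ici_infinite n0).exists_ne_map_eq_of_mapsTo hmaps hfin
  have e1 : (a n).1 = (a m).1 := congrArg (fun t => t.1) hF
  have e2 : sg n = sg m := congrArg (fun t => t.2.1) hF
  have e3 : ⌊(a n).2 / ℓ⌋ = ⌊(a m).2 / ℓ⌋ := congrArg (fun t => t.2.2) hF
  have h4 : |(a n).2 - (a m).2| < ℓ := by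
    have h5 := Int.abs_sub_lt_one_of_floor_eq_floor e3
    rw [← sub_div, abs_div, abs_of_pos hℓ, div_lt_one hℓ] at h5
    exact h5
  -- the signed difference
  have h5 : |sg m * ((a n).2 - (a m).2)| < ℓ := by
    rcases hsg m with h | h <;> rw [h]
    · rwa [one_mul]
    · rwa [neg_one_mul, abs_neg]
  have hsq : sg m * sg m = 1 := by
    rcases hsg m with h | h <;> rw [h] <;> norm_num
  rcases le_total 0 (sg m * ((a n).2 - (a m).2)) with h6 | h6
  · refine hcmp n m ℓ (hGn m hm) e1 e2 hnm (sg m * ((a n).2 - (a m).2)) ?_ h6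
      ((le_abs_self _).trans_lt h5)
    rw [← mul_assoc, hsq]
    ring
  · refine hcmp m n ℓ (hGn n hn) e1.symm e2.symm hnm.symm (- (sg m * ((a n).2 - (a m).2))) ?_
      (by linarith) ((neg_le_abs _).trans_lt h5)
    rw [e2, mul_neg, ← mul_assoc, hsq]
    ring

/-- Dichotomy: if no point of `X i` has both a finite forward and a finite backward orbit, then
the orbit `o` (which starts at a point without preimage and is infinite) is dense in `X i` or
avoids it. -/
theorem dichotomy [Finite ι] (Z : IETSys ι) {o : ℕ → ι × ℝ} (ho : ∀ n, Z.S (o n) (o (n + 1)))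
    (h0 : ¬ ∃ x, Z.S x (o 0)) (i : ι)
    (hi : ∀ u ∈ Z.X i, (∃ a : ℕ → ι × ℝ, a 0 = (i, u) ∧ ∀ n, Z.S (a n) (a (n + 1))) ∨
      (∃ a : ℕ → ι × ℝ, a 0 = (i, u) ∧ ∀ n, Z.S (a (n + 1)) (a n))) :
    (∀ u ∈ Z.X i, Cl o (i, u)) ∨ (∀ u ∈ Z.X i, ¬ Cl o (i, u)) := by
  by_contra hcon
  push Not at hcon
  obtain ⟨⟨u2, hu2, hu2n⟩, ⟨u1, hu1, hu1c⟩⟩ := hcon
  -- the point of the closure nearest to `u2`
  have hK : IsCompact (Set.uIcc u1 u2 ∩ {u : ℝ | Cl o (i, u)}) :=
    isCompact_uIcc.inter_right (isClosed_Cl o i)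
  obtain ⟨p, hp, hmin⟩ := hK.exists_isMinOn ⟨u1, Set.left_mem_uIcc, hu1c⟩
    (f := fun u => |u - u2|) (by fun_prop)
  have hpX : p ∈ Z.X i := (Z.conn_X i).uIcc_subset hu1 hu2 hp.1
  have hpne : p ≠ u2 := by
    rintro rfl
    exact hu2n hp.2
  have hsub : Set.uIcc p u2 ⊆ Set.uIcc u1 u2 := Set.uIcc_subset_uIcc_right hp.1
  -- the gap
  obtain ⟨s, ℓ, hs, hℓ, hgap⟩ : ∃ s ℓ : ℝ, (s = 1 ∨ s = -1) ∧ 0 < ℓ ∧
      ∀ r, 0 < r → r < ℓ → p + s * r ∈ Z.X i ∧ ¬ Cl o (i, p + s * r) := by
    have main : ∀ q ∈ Set.uIcc p u2, |q - u2| < |p - u2| → q ∈ Z.X i ∧ ¬ Cl o (i, q) := by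
      intro q hq hlt
      refine ⟨(Z.conn_X i).uIcc_subset hu1 hu2 (hsub hq), fun hc => ?_⟩
      have : |p - u2| ≤ |q - u2| := hmin ⟨hsub hq, hc⟩
      exact absurd hlt (not_lt.mpr this)
    rcases lt_or_gt_of_ne hpne with h | h
    · refine ⟨1, u2 - p, Or.inl rfl, by linarith, fun r hr hrl => main _ ?_ ?_⟩
      · rw [Set.uIcc_of_le h.le]
        constructor <;> linarith
      · rw [abs_of_nonpos (by linarith), abs_of_nonpos (by linarith)]
        linarith
    · refine ⟨-1, p - u2, Or.inr rfl, by linarith, fun r hr hrl => main _ ?_ ?_⟩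
      · rw [Set.uIcc_of_ge h.le]
        constructor <;> linarith
      · rw [abs_of_nonneg (by linarith), abs_of_nonneg (by linarith)]
        linarith
  rcases hi p hpX with ⟨a, ha0, ha⟩ | ⟨a, ha0, ha⟩
  · by_cases hinj : Function.Injective a
    · refine no_gap {x | Cl o x} (fun x y hxy => Cl_iff ho h0 hxy) a ha ?_ hinj hs hℓ ?_
      · rw [ha0]
        exact hp.2
      · rw [ha0]
        exact hgap
    · -- periodic
      have hex : ∃ n m, n < m ∧ a n = a m := by
        unfold Function.Injective at hinj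
        push Not at hinj
        obtain ⟨n, m, h1, h2⟩ := hinj
        rcases lt_or_gt_of_ne h2 with h | h
        · exact ⟨n, m, h, h1⟩
        · exact ⟨m, n, h, h1.symm⟩
      obtain ⟨n, m, hnm, hanm⟩ := hex
      have hback : ∀ j ≤ n, a (n - j) = a (m - j) := by
        intro j
        induction j with
        | zero => intro _; exact hanm
        | succ j ih =>
          intro hj
          have h1 := ih (by omega)
          have h2 := ha (n - (j + 1))
          have h3 := ha (m - (j + 1))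
          have e1 : n - (j + 1) + 1 = n - j := by omega
          have e2 : m - (j + 1) + 1 = m - j := by omega
          rw [e1, h1] at h2
          rw [e2] at h3
          exact Z.inj h2 h3
      have hk0 := hback n le_rfl
      rw [Nat.sub_self] at hk0
      set k := m - n with hk
      have hkpos : 0 < k := by omega
      have hshift : ∀ j, a (j + k) = a j := by
        intro j
        induction j with
        | zero => rw [Nat.zero_add]; exact hk0.symm
        | succ j ih =>
          have h1 := ha j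
          have h2 := ha (j + k)
          rw [ih] at h2
          have e1 : j + k + 1 = j + 1 + k := by omega
          rw [e1] at h2
          exact Z.func h2 h1
      refine periodic_false ho h0 a hkpos (fun n _ => ha n) ?_ (by rw [ha0]; exact hp.2)
      rw [two_mul, hshift]
      exact hk0.symm
  · by_cases hinj : Function.Injective a
    · refine no_gap (Z := Z.rev) {x | Cl o x} (fun x y hxy => (Cl_iff ho h0 hxy).symm) a ha ?_
        hinj hs hℓ ?_
      · rw [ha0]
        exact hp.2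
      · rw [ha0]
        exact hgap
    · have hex : ∃ n m, n < m ∧ a n = a m := by
        unfold Function.Injective at hinj
        push Not at hinj
        obtain ⟨n, m, h1, h2⟩ := hinj
        rcases lt_or_gt_of_ne h2 with h | h
        · exact ⟨n, m, h, h1⟩
        · exact ⟨m, n, h, h1.symm⟩
      obtain ⟨n, m, hnm, hanm⟩ := hex
      have hback : ∀ j ≤ n, a (n - j) = a (m - j) := by
        intro j
        induction j with
        | zero => intro _; exact hanm
        | succ j ih =>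
          intro hj
          have h1 := ih (by omega)
          have h2 := ha (n - (j + 1))
          have h3 := ha (m - (j + 1))
          have e1 : n - (j + 1) + 1 = n - j := by omega
          have e2 : m - (j + 1) + 1 = m - j := by omega
          rw [e1, h1] at h2
          rw [e2] at h3
          exact Z.func h2 h3
      have hk0 := hback n le_rfl
      rw [Nat.sub_self] at hk0
      set k := m - n with hk
      have hkpos : 0 < k := by omega
      have hshift : ∀ j, a (j + k) = a j := by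
        intro j
        induction j with
        | zero => rw [Nat.zero_add]; exact hk0.symm
        | succ j ih =>
          have h1 := ha j
          have h2 := ha (j + k)
          rw [ih] at h2
          have e1 : j + k + 1 = j + 1 + k := by omega
          rw [e1] at h2
          exact Z.inj h2 h1
      have h2k : a (2 * k) = a 0 := by
        rw [two_mul, hshift]
        exact hk0.symm
      refine periodic_false ho h0 (fun n => a (2 * k - n)) hkpos ?_ ?_ ?_
      · intro n hn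
        have h1 := ha (2 * k - (n + 1))
        have e1 : 2 * k - (n + 1) + 1 = 2 * k - n := by omega
        rw [e1] at h1
        exact h1
      · simp only [Nat.sub_self, Nat.sub_zero]
        exact h2k.symm
      · simp only [Nat.sub_zero]
        rw [h2k, ha0]
        exact hp.2

end IETSys

end FC28
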