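import Mathlib

/-! # Closed sub-semigroups of `ℝ` that are invariant under a translation -/

namespace FC28

theorem semigroup_zsmul {Γ : Set ℝ} {l1 : ℝ}
    (hp : ∀ x ∈ Γ, x + l1 ∈ Γ) (hm : ∀ x ∈ Γ, x - l1 ∈ Γ) (j : ℤ) :
    ∀ x ∈ Γ, x + j * l1 ∈ Γ := by
  induction j using Int.induction_on with
  | zero => intro x hx; simpa using hx
  | succ n ih =>
    intro x hx
    have := hp _ (ih x hx)
    have e : x + ((n : ℤ) : ℝ) * l1 + l1 = x + (((n : ℤ) + 1 : ℤ) : ℝ) * l1 := by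
      push_cast; ring
    rwa [e] at this
  | pred n ih =>
    intro x hx
    have := hm _ (ih x hx)
    have e : x + ((-(n : ℤ) : ℤ) : ℝ) * l1 - l1 = x + ((-(n : ℤ) - 1 : ℤ) : ℝ) * l1 := by
      push_cast; ring
    rwa [e] at this

theorem semigroup_nsmul {Γ : Set ℝ} (hadd : ∀ x ∈ Γ, ∀ y ∈ Γ, x + y ∈ Γ) {x : ℝ} (hx : x ∈ Γ)
    (k : ℕ) : ((k : ℝ) + 1) * x ∈ Γ := by
  induction k with
  | zero => simpa using hx
  | succ k ih =>
    have := hadd _ ih _ hx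
    have e : ((k : ℝ) + 1) * x + x = (((k + 1 : ℕ) : ℝ) + 1) * x := by push_cast; ring
    rwa [e] at this

/-- approximation: some positive multiple of `x` is close to a multiple of `l1` -/
theorem semigroup_approx {l1 : ℝ} (hl1 : 0 < l1) (x : ℝ) {ε : ℝ} (hε : 0 < ε) :
    ∃ (k : ℕ) (j : ℤ), |((k : ℝ) + 1) * x - j * l1| < ε := by
  obtain ⟨n, hn⟩ := exists_nat_gt (l1 / ε)
  have hn0 : 0 < n := by
    have : (0 : ℝ) < n := lt_trans (by positivity) hn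
    exact_mod_cast this
  obtain ⟨j, k, hk, _, h⟩ := Real.exists_int_int_abs_mul_sub_le (x / l1) hn0
  refine ⟨(k - 1).toNat, j, ?_⟩
  have e1 : (((k - 1).toNat : ℕ) : ℝ) + 1 = k := by
    have : (((k - 1).toNat : ℕ) : ℤ) = k - 1 := Int.toNat_of_nonneg (by omega)
    have h2 : ((((k - 1).toNat : ℕ) : ℤ) : ℝ) = ((k - 1 : ℤ) : ℝ) := by rw [this]
    push_cast at h2
    linarith
  rw [e1]
  have e2 : (k : ℝ) * x - j * l1 = (k * (x / l1) - j) * l1 := by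
    field_simp
  rw [e2, abs_mul, abs_of_pos hl1]
  calc |(k : ℝ) * (x / l1) - j| * l1 ≤ 1 / ((n : ℝ) + 1) * l1 :=
        mul_le_mul_of_nonneg_right h hl1.le
    _ < ε := by
        rw [div_mul_eq_mul_div, one_mul, div_lt_iff₀ (by positivity)]
        rw [div_lt_iff₀ hε] at hn
        nlinarith

theorem semigroup_zero {Γ : Set ℝ} (hc : IsClosed Γ) (hne : Γ.Nonempty)
    (hadd : ∀ x ∈ Γ, ∀ y ∈ Γ, x + y ∈ Γ) {l1 : ℝ} (hl1 : 0 < l1)
    (hp : ∀ x ∈ Γ, x + l1 ∈ Γ) (hm : ∀ x ∈ Γ, x - l1 ∈ Γ) : (0 : ℝ) ∈ Γ := by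
  obtain ⟨x, hx⟩ := hne
  rw [← hc.closure_eq, Metric.mem_closure_iff]
  intro ε hε
  obtain ⟨k, j, h⟩ := semigroup_approx hl1 x hε
  refine ⟨((k : ℝ) + 1) * x + ((-j : ℤ) : ℝ) * l1,
    semigroup_zsmul hp hm _ _ (semigroup_nsmul hadd hx k), ?_⟩
  rw [Real.dist_eq]
  have e : 0 - (((k : ℝ) + 1) * x + ((-j : ℤ) : ℝ) * l1) = -(((k : ℝ) + 1) * x - j * l1) := by
    push_cast; ring
  rw [e, abs_neg]
  exact h

/-- A nonempty closed set `Γ ⊆ ℝ`, closed under addition and invariant under `± l1`, is closed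
under negation. -/
theorem semigroup_neg {Γ : Set ℝ} (hc : IsClosed Γ) (hne : Γ.Nonempty)
    (hadd : ∀ x ∈ Γ, ∀ y ∈ Γ, x + y ∈ Γ) {l1 : ℝ} (hl1 : 0 < l1)
    (hp : ∀ x ∈ Γ, x + l1 ∈ Γ) (hm : ∀ x ∈ Γ, x - l1 ∈ Γ) : ∀ x ∈ Γ, -x ∈ Γ := by
  intro x hx
  have h0 := semigroup_zero hc hne hadd hl1 hp hm
  rw [← hc.closure_eq, Metric.mem_closure_iff]
  intro ε hε
  obtain ⟨k, j, h⟩ := semigroup_approx hl1 x hε
  have hk : (k : ℝ) * x ∈ Γ := by
    rcases Nat.eq_zero_or_pos k with rfl | hk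
    · simpa using h0
    · have := semigroup_nsmul hadd hx (k - 1)
      have e : (((k - 1 : ℕ) : ℝ) + 1) = k := by
        rw [Nat.cast_sub hk]; push_cast; ring
      rwa [e] at this
  refine ⟨(k : ℝ) * x + ((-j : ℤ) : ℝ) * l1, semigroup_zsmul hp hm _ _ hk, ?_⟩
  rw [Real.dist_eq]
  have e : -x - ((k : ℝ) * x + ((-j : ℤ) : ℝ) * l1) = -(((k : ℝ) + 1) * x - j * l1) := by
    push_cast; ring
  rw [e, abs_neg]
  exact h

/-- If moreover `l2 ∈ Γ` with `l2 / l1` irrational then `Γ = ℝ`. -/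
theorem semigroup_univ {Γ : Set ℝ} (hc : IsClosed Γ)
    (hadd : ∀ x ∈ Γ, ∀ y ∈ Γ, x + y ∈ Γ) {l1 l2 : ℝ} (hl1 : 0 < l1)
    (hp : ∀ x ∈ Γ, x + l1 ∈ Γ) (hm : ∀ x ∈ Γ, x - l1 ∈ Γ) (h2 : l2 ∈ Γ)
    (hirr : Irrational (l2 / l1)) : ∀ x, x ∈ Γ := by
  have hne : Γ.Nonempty := ⟨l2, h2⟩
  have h0 := semigroup_zero hc hne hadd hl1 hp hm
  have hneg := semigroup_neg hc hne hadd hl1 hp hm
  let S : AddSubgroup ℝ :=
    { carrier := Γ
      add_mem' := fun {a c} ha hb => hadd a ha c hb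
      zero_mem' := h0
      neg_mem' := fun {a} ha => hneg a ha }
  have hl1' : l1 ∈ S := by
    have := hp 0 h0
    rwa [zero_add] at this
  have hd : Dense (AddSubgroup.closure {l2, l1} : Set ℝ) :=
    dense_addSubgroupClosure_pair_iff.2 hirr
  have hsub : (AddSubgroup.closure {l2, l1} : Set ℝ) ⊆ Γ := by
    have : AddSubgroup.closure {l2, l1} ≤ S := by
      rw [AddSubgroup.closure_le]
      intro x hx
      rcases hx with rfl | hx
      · exact h2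
      · rw [Set.mem_singleton_iff] at hx
        rw [hx]
        exact hl1'
    exact this
  intro x
  have := hd.mono hsub x
  rwa [hc.closure_eq] at this

end FC28
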