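import Pool.Agent.Lib.MP_fc28e0_an.Gate
import Pool.Agent.Lib.MP_fc28e0_an.RealGroup

/-! # Topological mixing from density of the two rays -/

open Complex

namespace FC28

/-- the ray `ω_1` accumulates at the state `(x, y)` at times `≈ a` modulo `len 1 H` -/
def Acc (ψ H : ℝ) (x y : ℂ) (a : ℝ) : Prop :=
  ∀ ε > 0, ∀ N : ℝ, ∃ s > N, ∃ p v, ray ψ H 1 s p v ∧ ‖p - x‖ < ε ∧ ‖v - y‖ < ε ∧
    ∃ k : ℤ, |s - a - k * len 1 H| < ε

theorem len_pos {H : ℝ} {m : ℕ} (hm : m ≠ 0) : 0 < len m H := by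
  unfold len
  have hm' : (0 : ℝ) < m := by exact_mod_cast Nat.pos_of_ne_zero hm
  have : 0 < Real.sqrt ((m : ℝ) ^ 2 + H ^ 2) := Real.sqrt_pos.mpr (by positivity)
  positivity

theorem ray_norm {ψ H t : ℝ} {m : ℕ} (hm : m ≠ 0) {p v : ℂ} (h : ray ψ H m t p v) : ‖v‖ = 1 := by
  rw [Orb.norm h, dirR, norm_rf, norm_neg, norm_em hm]

theorem Acc.add_int {ψ H : ℝ} {x y : ℂ} {a : ℝ} (h : Acc ψ H x y a) (k : ℤ) :
    Acc ψ H x y (a + k * len 1 H) := by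
  intro ε hε N
  obtain ⟨s, hs, p, v, hr, hp, hv, k', hk⟩ := h ε hε N
  refine ⟨s, hs, p, v, hr, hp, hv, k' - k, ?_⟩
  have : s - (a + k * len 1 H) - ((k' - k : ℤ) : ℝ) * len 1 H = s - a - k' * len 1 H := by
    push_cast; ring
  rw [this]; exact hk

theorem acc_closed (ψ H : ℝ) (x y : ℂ) (s' : ℝ) : IsClosed {c : ℝ | Acc ψ H x y (s' + c)} := by
  refine isClosed_of_closure_subset ?_
  intro c hc ε hε N
  obtain ⟨b, hb, hcb⟩ := Metric.mem_closure_iff.mp hc (ε / 2) (by positivity)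
  obtain ⟨s, hs, p, v, hr, hp, hv, k, hk⟩ := hb (ε / 2) (by positivity) N
  refine ⟨s, hs, p, v, hr, by linarith, by linarith, k, ?_⟩
  rw [Real.dist_eq] at hcb
  rw [abs_lt] at *
  constructor <;> linarith [hcb.1, hcb.2, hk.1, hk.2]

/-- additivity of the accumulation times -/
theorem Acc.add {ψ H : ℝ} {x y : ℂ} {s' c c' : ℝ} (hx : ray ψ H 1 s' x y)
    (hc : Acc ψ H x y (s' + c)) (hc' : Acc ψ H x y (s' + c')) :
    Acc ψ H x y (s' + (c + c')) := by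
  intro ε hε N
  have hxin : x ∈ intP ψ H := Orb.right hx
  obtain ⟨s1, hs1, p1, v1, hr1, hp1, hv1, k1, hk1⟩ := hc' (ε / 2) (by positivity) s'
  have hF : Orb ψ H (s1 - s') x y p1 v1 := Orb.tail hx hr1 hs1
  obtain ⟨δ, hδ, hcont⟩ := Orb.cont hF (half_pos hε)
  -- a ball around x inside the pentagon
  obtain ⟨ρ, hρ, hball⟩ := Metric.isOpen_iff.mp (isOpen_intP ψ H) x hxin
  obtain ⟨s2, hs2, p2, v2, hr2, hp2, hv2, k2, hk2⟩ :=
    hc (min (min δ ρ) (ε / 2)) (by positivity) (max N 0)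
  have hp2in : p2 ∈ intP ψ H := Orb.right hr2
  obtain ⟨q, w, hqw, hq, hw⟩ := hcont ψ H (s1 - s') p2 v2 (by simpa using hδ) (by simpa using hδ)
    (by simpa using hδ) (lt_of_lt_of_le hp2 ((min_le_left _ _).trans (min_le_left _ _)))
    (lt_of_lt_of_le hv2 ((min_le_left _ _).trans (min_le_left _ _))) (intP_subset _ _ hp2in)
  have hN2 : N < s2 := lt_of_le_of_lt (le_max_left _ _) hs2
  refine ⟨s2 + (s1 - s'), by linarith, q, w, Orb.trans hr2 hqw, ?_, ?_, k1 + k2, ?_⟩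
  · calc ‖q - x‖ = ‖(q - p1) + (p1 - x)‖ := by ring_nf
      _ ≤ ‖q - p1‖ + ‖p1 - x‖ := norm_add_le _ _
      _ < ε := by linarith
  · calc ‖w - y‖ = ‖(w - v1) + (v1 - y)‖ := by ring_nf
      _ ≤ ‖w - v1‖ + ‖v1 - y‖ := norm_add_le _ _
      _ < ε := by linarith
  · have h2 : |s2 - (s' + c) - k2 * len 1 H| < ε / 2 := lt_of_lt_of_le hk2 (min_le_right _ _)
    rw [abs_lt] at *
    push_cast
    constructor <;> nlinarith [hk1.1, hk1.2, h2.1, h2.2]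

/-- late visits near `(x, y)` happen at times close to `s' + Γ` -/
theorem Acc.near (ψ H : ℝ) (x y : ℂ) (s' : ℝ) {ε : ℝ} (hε : 0 < ε) :
    ∃ η > 0, ∃ N : ℝ, ∀ s > N, ∀ p v, ray ψ H 1 s p v → ‖p - x‖ < η → ‖v - y‖ < η →
      ∃ c, Acc ψ H x y (s' + c) ∧ |s - s' - c| < ε := by
  have hl : 0 < len 1 H := len_pos one_ne_zero
  by_contra hcon
  push Not at hcon
  have hn : ∀ n : ℕ, ∃ s p v, (n : ℝ) < s ∧ ray ψ H 1 s p v ∧ ‖p - x‖ < 1 / ((n : ℝ) + 1) ∧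
      ‖v - y‖ < 1 / ((n : ℝ) + 1) ∧ ∀ c, Acc ψ H x y (s' + c) → ε ≤ |s - s' - c| := by
    intro n
    obtain ⟨s, hs, p, v, hr, hp, hv, hc⟩ := hcon (1 / ((n : ℝ) + 1)) (by positivity) n
    exact ⟨s, p, v, hs, hr, hp, hv, hc⟩
  choose s p v hs hr hp hv hc using hn
  set k : ℕ → ℤ := fun n => ⌊(s n - s') / len 1 H⌋ with hk
  set r : ℕ → ℝ := fun n => s n - s' - k n * len 1 H with hrdef
  have hmem : ∀ n, r n ∈ Set.Icc 0 (len 1 H) := by
    intro n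
    have h1 := Int.floor_le ((s n - s') / len 1 H)
    have h2 := Int.lt_floor_add_one ((s n - s') / len 1 H)
    rw [le_div_iff₀ hl] at h1
    rw [div_lt_iff₀ hl] at h2
    simp only [hrdef, hk, Set.mem_Icc]
    constructor
    · linarith
    · nlinarith
  obtain ⟨c, -, φ, hφ, hlim⟩ := isCompact_Icc.tendsto_subseq hmem
  have hev : ∀ ε' > 0, ∃ n0, ∀ n ≥ n0, |r (φ n) - c| < ε' := by
    intro ε' hε'
    have := (Metric.tendsto_atTop.mp hlim) ε' hε'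
    simpa [Real.dist_eq] using this
  have hacc : Acc ψ H x y (s' + c) := by
    intro ε' hε' N
    obtain ⟨n0, hn0⟩ := hev ε' hε'
    obtain ⟨n1, hn1⟩ := exists_nat_gt N
    obtain ⟨n2, hn2⟩ := exists_nat_gt (1 / ε')
    set n := max n0 (max n1 n2) with hndef
    have hφn : n ≤ φ n := hφ.id_le n
    have hφn1 : (n1 : ℝ) ≤ (φ n : ℝ) := by
      exact_mod_cast ((le_max_left n1 n2).trans (le_max_right n0 _)).trans hφn
    have hφn2 : (n2 : ℝ) ≤ (φ n : ℝ) := by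
      exact_mod_cast ((le_max_right n1 n2).trans (le_max_right n0 _)).trans hφn
    have hsmall : 1 / ((φ n : ℝ) + 1) < ε' := by
      rw [div_lt_iff₀ (by positivity)]
      rw [div_lt_iff₀ hε'] at hn2
      nlinarith
    refine ⟨s (φ n), by linarith [hs (φ n)], p (φ n), v (φ n), hr (φ n),
      (hp (φ n)).trans hsmall, (hv (φ n)).trans hsmall, k (φ n), ?_⟩
    have h3 := hn0 n (le_max_left _ _)
    have h4 : s (φ n) - (s' + c) - (k (φ n) : ℝ) * len 1 H = r (φ n) - c := by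
      simp only [hrdef]; ring
    rw [h4]; exact h3
  obtain ⟨n0, hn0⟩ := hev ε hε
  have h5 := hc (φ n0) (c + k (φ n0) * len 1 H) (by
    have := hacc.add_int (k (φ n0))
    rwa [add_assoc] at this)
  have h6 : s (φ n0) - s' - (c + (k (φ n0) : ℝ) * len 1 H) = r (φ n0) - c := by
    simp only [hrdef]; ring
  rw [h6] at h5
  exact absurd (hn0 n0 le_rfl) (not_lt.mpr h5)

theorem acc_nonempty {ψ H : ℝ} (h1 : DenseRay ψ H 1) {x y : ℂ} {s' : ℝ}
    (hx : ray ψ H 1 s' x y) : ∃ c, Acc ψ H x y (s' + c) := by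
  obtain ⟨η, hη, N, hN⟩ := Acc.near ψ H x y s' one_pos
  obtain ⟨t, ht, p, v, hr, hp, hv⟩ := h1 x (Orb.right hx) y (ray_norm one_ne_zero hx) η hη N
  obtain ⟨c, hc, -⟩ := hN t ht p v hr hp hv
  exact ⟨c, hc⟩

/-- negation of accumulation times -/
theorem Acc.neg {ψ H : ℝ} (h1 : DenseRay ψ H 1) {x y : ℂ} {s' : ℝ}
    (hx : ray ψ H 1 s' x y) {c : ℝ} (hc : Acc ψ H x y (s' + c)) : Acc ψ H x y (s' + -c) := by
  have hl : 0 < len 1 H := len_pos one_ne_zero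
  refine semigroup_neg (Γ := {c : ℝ | Acc ψ H x y (s' + c)}) (acc_closed ψ H x y s') ?_ ?_ hl
    ?_ ?_ c hc
  · exact acc_nonempty h1 hx
  · exact fun a ha b hb => Acc.add hx ha hb
  · intro a ha
    have := Acc.add_int ha 1
    simpa [add_assoc] using this
  · intro a ha
    have := Acc.add_int ha (-1)
    have h2 : s' + (a - len 1 H) = s' + a + ((-1 : ℤ) : ℝ) * len 1 H := by push_cast; ring
    show Acc ψ H x y (s' + (a - len 1 H))
    rw [h2]; exact this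

/-- times of passages through the cylinder `C_2` are close to accumulation times -/
theorem len_two_near {ψ H : ℝ} (hP : Par ψ H) (h1 : DenseRay ψ H 1) (h2 : DenseRay ψ H 2)
    {x y : ℂ} {s' : ℝ} (hx : ray ψ H 1 s' x y) {ε : ℝ} (hε : 0 < ε) :
    ∃ D : ℝ, ∃ K : ℕ, ∀ k ≥ K, ∃ g, Acc ψ H x y (s' + g) ∧ |D + k * len 2 H - g| < ε := by
  obtain ⟨η, hη, N, hN⟩ := Acc.near ψ H x y s' (half_pos hε)
  have hxin : x ∈ intP ψ H := Orb.right hx
  have hy : ‖y‖ = 1 := ray_norm one_ne_zero hx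
  obtain ⟨s0, -, p0, v0, hr0, hp0, hv0⟩ := h2 x hxin (-y) (by rw [norm_neg, hy]) (η / 2)
    (half_pos hη) 0
  obtain ⟨s1, -, p1, v1, hr1, hp1, hv1⟩ := h2 x hxin y hy (η / 2) (half_pos hη) 0
  obtain ⟨c, hgate⟩ := gate hP (m := 2) (Or.inr rfl)
  obtain ⟨δ, hδ, K, hK⟩ := hgate s0 s1 p0 v0 p1 v1 hr0 hr1 (η / 4) (by positivity)
  refine ⟨s0 + s1 + c, K, ?_⟩
  intro k hk
  obtain ⟨p, v, q, w, hp, hv, hO, hpp, hvv, hqq, hww⟩ :=
    hK k hk (s0 + s1 + c + k * len 2 H) (by simpa using hδ)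
  obtain ⟨δ', hδ', hcont⟩ := Orb.cont hO (ε := η / 4) (by positivity)
  obtain ⟨τ, hτ, p', v', hr', hp', hv'⟩ := h1 p hp v hv (min δ' (η / 4)) (by positivity)
    (max N 0)
  have hp'in : p' ∈ intP ψ H := Orb.right hr'
  have hτN : N < τ := lt_of_le_of_lt (le_max_left _ _) hτ
  set t := s0 + s1 + c + k * len 2 H with ht
  have htpos : 0 < t := Orb.pos hO
  obtain ⟨q', w', hO', hq', hw'⟩ := hcont ψ H t p' v' (by simpa using hδ') (by simpa using hδ')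
    (by simpa using hδ') (lt_of_lt_of_le hp' (min_le_left _ _))
    (lt_of_lt_of_le hv' (min_le_left _ _)) (intP_subset _ _ hp'in)
  have hr'' : ray ψ H 1 (τ + t) q' w' := Orb.trans hr' hO'
  have hp'4 : ‖p' - p‖ < η / 4 := lt_of_lt_of_le hp' (min_le_right _ _)
  have hv'4 : ‖v' - v‖ < η / 4 := lt_of_lt_of_le hv' (min_le_right _ _)
  obtain ⟨g1, hg1, hg1'⟩ := hN τ hτN p' v' hr' (by
    calc ‖p' - x‖ = ‖(p' - p) + (p - p0) + (p0 - x)‖ := by ring_nf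
      _ ≤ ‖p' - p‖ + ‖p - p0‖ + ‖p0 - x‖ := norm_add₃_le
      _ < η := by linarith) (by
    calc ‖v' - y‖ = ‖(v' - v) + (v + v0) + -(v0 - -y)‖ := by ring_nf
      _ ≤ ‖v' - v‖ + ‖v + v0‖ + ‖-(v0 - -y)‖ := norm_add₃_le
      _ < η := by rw [norm_neg]; linarith)
  obtain ⟨g2, hg2, hg2'⟩ := hN (τ + t) (by linarith) q' w' hr'' (by
    calc ‖q' - x‖ = ‖(q' - q) + (q - p1) + (p1 - x)‖ := by ring_nf
      _ ≤ ‖q' - q‖ + ‖q - p1‖ + ‖p1 - x‖ := norm_add₃_le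
      _ < η := by linarith) (by
    calc ‖w' - y‖ = ‖(w' - w) + (w - v1) + (v1 - y)‖ := by ring_nf
      _ ≤ ‖w' - w‖ + ‖w - v1‖ + ‖v1 - y‖ := norm_add₃_le
      _ < η := by linarith)
  refine ⟨g2 + -g1, Acc.add hx hg2 (Acc.neg h1 hx hg1), ?_⟩
  rw [abs_lt] at *
  constructor <;> linarith [hg1'.1, hg1'.2, hg2'.1, hg2'.2]

theorem acc_len_two {ψ H : ℝ} (hP : Par ψ H) (h1 : DenseRay ψ H 1) (h2 : DenseRay ψ H 2)
    {x y : ℂ} {s' : ℝ} (hx : ray ψ H 1 s' x y) : Acc ψ H x y (s' + len 2 H) := by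
  have hcl := acc_closed ψ H x y s'
  have : len 2 H ∈ closure {c : ℝ | Acc ψ H x y (s' + c)} := by
    rw [Metric.mem_closure_iff]
    intro ε hε
    obtain ⟨D, K, hK⟩ := len_two_near hP h1 h2 hx (half_pos hε)
    obtain ⟨g, hg, hg'⟩ := hK K le_rfl
    obtain ⟨g2, hg2, hg2'⟩ := hK (K + 1) (Nat.le_succ K)
    refine ⟨g2 + -g, Acc.add hx hg2 (Acc.neg h1 hx hg), ?_⟩
    rw [Real.dist_eq]
    push_cast at hg2'
    rw [abs_lt] at *
    constructor <;> linarith [hg'.1, hg'.2, hg2'.1, hg2'.2]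
  rwa [hcl.closure_eq] at this

theorem acc_univ {ψ H : ℝ} (hP : Par ψ H) (h1 : DenseRay ψ H 1) (h2 : DenseRay ψ H 2)
    (hirr : Irrational (len 2 H / len 1 H))
    {x y : ℂ} {s' : ℝ} (hx : ray ψ H 1 s' x y) (c : ℝ) : Acc ψ H x y (s' + c) := by
  have hl : 0 < len 1 H := len_pos one_ne_zero
  refine semigroup_univ (Γ := {c : ℝ | Acc ψ H x y (s' + c)}) (acc_closed ψ H x y s') ?_ hl
    ?_ ?_ (acc_len_two hP h1 h2 hx) hirr c
  · exact fun a ha b hb => Acc.add hx ha hb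
  · intro a ha
    have := Acc.add_int ha 1
    simpa [add_assoc] using this
  · intro a ha
    have := Acc.add_int ha (-1)
    have h2 : s' + (a - len 1 H) = s' + a + ((-1 : ℤ) : ℝ) * len 1 H := by push_cast; ring
    show Acc ψ H x y (s' + (a - len 1 H))
    rw [h2]; exact this

theorem mixing_of_dense {ψ H : ℝ} (hP : Par ψ H) (h1 : DenseRay ψ H 1) (h2 : DenseRay ψ H 2)
    (hirr : Irrational (len 2 H / len 1 H)) : ModelMix ψ H := by
  intro p0 hp0 v0 hv0 q0 hq0 w0 hw0 ε hε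
  have hl : 0 < len 1 H := len_pos one_ne_zero
  set l := len 1 H with hldef
  -- a state of the ray near `(p0, -v0)`
  obtain ⟨s', -, x, y, hx, hxp, hyv⟩ := h1 p0 hp0 (-v0) (by rw [norm_neg, hv0]) (ε / 4)
    (by positivity) 0
  have hacc := acc_univ hP h1 h2 hirr hx
  -- radius
  obtain ⟨ρ0, hρ0, hball⟩ := Metric.isOpen_iff.mp (isOpen_intP ψ H) q0 hq0
  obtain ⟨ρ, hρ, hρ1, hρ2⟩ : ∃ ρ > 0, 2 * ρ ≤ ρ0 ∧ 2 * ρ ≤ ε :=
    ⟨min ρ0 ε / 2, by positivity, by linarith [min_le_left ρ0 ε], by linarith [min_le_right ρ0 ε]⟩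
  obtain ⟨s1, -, p1, v1, hr1, hp1, hv1⟩ := h1 q0 hq0 w0 hw0 (ρ / 4) (by positivity) 0
  obtain ⟨c1, hgate⟩ := gate hP (m := 1) (Or.inl rfl)
  -- good times
  have key : ∀ r : ℝ, ∃ K : ℕ, ∀ k ≥ K, ∀ t : ℝ, r + k * l ≤ t → t < r + k * l + ρ / 4 →
      ∃ p v q w, p ∈ intP ψ H ∧ ‖v‖ = 1 ∧ Orb ψ H t p v q w ∧
      ‖p - p0‖ < ε ∧ ‖v - v0‖ < ε ∧ ‖q - q0‖ < ε ∧ ‖w - w0‖ < ε := by
    intro r
    obtain ⟨s0, -, x0, y0, hr0, hx0, hy0, k0, hk0⟩ :=
      hacc (r - ρ / 4 - s1 - c1 - s') (min (ε / 4) (ρ / 4)) (by positivity) 0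
    obtain ⟨δ, hδ, K, hK⟩ := hgate s0 s1 x0 y0 p1 v1 hr0 hr1 (min (ε / 4) (ρ / 4))
      (by positivity)
    refine ⟨K + k0.natAbs, ?_⟩
    intro k hk t ht1 ht2
    have hkk : (0 : ℤ) ≤ k - k0 - K := by omega
    obtain ⟨k', hk'⟩ := Int.eq_ofNat_of_zero_le (show (0 : ℤ) ≤ k - k0 by omega)
    have hk'K : K ≤ k' := by omega
    have hk'r : (k' : ℝ) = k - k0 := by
      have : ((k' : ℤ) : ℝ) = ((k : ℤ) : ℝ) - (k0 : ℝ) := by rw [← hk']; push_cast; ring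
      simpa using this
    obtain ⟨p, v, q, w, hp, hv, hO, hpp, hvv, hqq, hww⟩ :=
      hK k' hk'K (s0 + s1 + c1 + k' * len 1 H) (by simpa using hδ)
    have hk0' : |s0 - (s' + (r - ρ / 4 - s1 - c1 - s')) - k0 * len 1 H| < ρ / 4 :=
      lt_of_lt_of_le hk0 (min_le_right _ _)
    rw [abs_lt] at hk0'
    set D := s0 + s1 + c1 + k' * len 1 H with hD
    have hD1 : D < r + k * l := by
      rw [hD, hk'r, ← hldef]; rw [← hldef] at hk0'; nlinarith [hk0'.1, hk0'.2]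
    have hD2 : r + k * l - ρ / 2 < D := by
      rw [hD, hk'r, ← hldef]; rw [← hldef] at hk0'; nlinarith [hk0'.1, hk0'.2]
    have hτ : 0 < t - D := by linarith
    have hw1 : ‖w‖ = 1 := by rw [Orb.norm hO, hv]
    have hqε : ‖q - p1‖ < ρ / 4 := lt_of_lt_of_le hqq (min_le_right _ _)
    have hnorm : ‖q + ((t - D : ℝ) : ℂ) * w - q0‖ < 2 * ρ := by
      have e1 : ‖((t - D : ℝ) : ℂ) * w‖ = t - D := by
        rw [norm_mul, hw1, mul_one, Complex.norm_real, Real.norm_of_nonneg hτ.le]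
      calc ‖q + ((t - D : ℝ) : ℂ) * w - q0‖
          = ‖(q - p1) + (p1 - q0) + ((t - D : ℝ) : ℂ) * w‖ := by ring_nf
        _ ≤ ‖q - p1‖ + ‖p1 - q0‖ + ‖((t - D : ℝ) : ℂ) * w‖ := norm_add₃_le
        _ < 2 * ρ := by rw [e1]; linarith
    have hin : q + ((t - D : ℝ) : ℂ) * w ∈ intP ψ H := by
      apply hball
      rw [Metric.mem_ball, dist_eq_norm]
      linarith
    have hO2 : Orb ψ H (t - D) q w (q + ((t - D : ℝ) : ℂ) * w) w :=
      Orb.free hτ (intP_subset _ _ (Orb.right hO)) hin rfl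
    have hO3 := Orb.trans hO hO2
    rw [show D + (t - D) = t by ring] at hO3
    refine ⟨p, v, _, w, hp, hv, hO3, ?_, ?_, ?_, ?_⟩
    · have a1 : ‖p - x0‖ < ε / 4 := lt_of_lt_of_le hpp (min_le_left _ _)
      have a2 : ‖x0 - x‖ < ε / 4 := lt_of_lt_of_le hx0 (min_le_left _ _)
      calc ‖p - p0‖ = ‖(p - x0) + (x0 - x) + (x - p0)‖ := by ring_nf
        _ ≤ ‖p - x0‖ + ‖x0 - x‖ + ‖x - p0‖ := norm_add₃_le
        _ < ε := by linarith
    · have a1 : ‖v + y0‖ < ε / 4 := lt_of_lt_of_le hvv (min_le_left _ _)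
      have a2 : ‖y0 - y‖ < ε / 4 := lt_of_lt_of_le hy0 (min_le_left _ _)
      calc ‖v - v0‖ = ‖(v + y0) + -(y0 - y) + -(y - -v0)‖ := by ring_nf
        _ ≤ ‖v + y0‖ + ‖-(y0 - y)‖ + ‖-(y - -v0)‖ := norm_add₃_le
        _ < ε := by rw [norm_neg, norm_neg]; linarith
    · linarith
    · have a1 : ‖w - v1‖ < ρ / 4 := lt_of_lt_of_le hww (min_le_right _ _)
      calc ‖w - w0‖ = ‖(w - v1) + (v1 - w0)‖ := by ring_nf
        _ ≤ ‖w - v1‖ + ‖v1 - w0‖ := norm_add_le _ _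
        _ < ε := by linarith
  choose K hK using fun j : ℕ => key (j * (ρ / 4))
  obtain ⟨n, hn⟩ := exists_nat_gt (l / (ρ / 4))
  obtain ⟨M, hM⟩ : ∃ M : ℕ, ∀ j ≤ n, K j ≤ M := by
    refine ⟨(Finset.range (n + 1)).sup K, fun j hj => Finset.le_sup (Finset.mem_range.mpr ?_)⟩
    omega
  refine ⟨(M + 1) * l, ?_⟩
  intro t ht
  have ht0 : 0 ≤ t / l := by
    have : 0 ≤ ((M : ℝ) + 1) * l := by positivity
    exact div_nonneg (this.trans ht) hl.le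
  set k := ⌊t / l⌋₊ with hkdef
  have hk1 : (k : ℝ) * l ≤ t := by
    have := Nat.floor_le ht0
    rwa [le_div_iff₀ hl] at this
  have hk2 : t < (k + 1) * l := by
    have := Nat.lt_floor_add_one (t / l)
    rwa [div_lt_iff₀ hl] at this
  have hkM : M ≤ k := by
    have : ((M : ℝ) + 1) ≤ t / l := by rw [le_div_iff₀ hl]; exact ht
    have := Nat.floor_le_floor this
    have h3 : ⌊(M : ℝ) + 1⌋₊ = M + 1 := by exact_mod_cast Nat.floor_natCast (M + 1)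
    omega
  have hρ4 : 0 < ρ / 4 := by positivity
  set j := ⌊(t - k * l) / (ρ / 4)⌋₊ with hjdef
  have hr0 : 0 ≤ (t - k * l) / (ρ / 4) := div_nonneg (by linarith) hρ4.le
  have hj1 : (j : ℝ) * (ρ / 4) ≤ t - k * l := by
    have := Nat.floor_le hr0
    rwa [le_div_iff₀ hρ4] at this
  have hj2 : t - k * l < (j + 1) * (ρ / 4) := by
    have := Nat.lt_floor_add_one ((t - k * l) / (ρ / 4))
    rwa [div_lt_iff₀ hρ4] at this
  have hjn : j ≤ n := by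
    have h4 : (j : ℝ) * (ρ / 4) < n * (ρ / 4) := by
      rw [div_lt_iff₀ hρ4] at hn
      nlinarith
    have h5 : (j : ℝ) < n := lt_of_mul_lt_mul_right h4 hρ4.le
    exact_mod_cast h5.le
  exact hK j k ((hM j hjn).trans hkM) t (by linarith) (by linarith)

end FC28
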