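import Pool.Agent.Lib.MP_fc28e0_an.Poly
import Pool.Agent.Lib.MP_fc28e0_an.OrbBasic

/-! # From the model to the billiard flow of the polygon -/

open Complex

namespace FC28

open PolyBilliard

/-- the point of the phase space -/
def tfPt {ψ H : ℝ} (hP : Par ψ H) (p v : ℂ) (hp : p ∈ inP ψ H) (hv : ‖v‖ = 1) :
    (pent hP).PreX := ⟨(p, v), hp, hv⟩

theorem tf_ident {ψ H : ℝ} (hP : Par ψ H) (i : ZMod 5) {p v v' : ℂ} (hp : p ∈ inP ψ H)
    (hv : ‖v‖ = 1) (hv' : ‖v'‖ = 1) (hs : p ∈ side ψ H i) (e : v' = rf ψ i v) :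
    (pent hP).Ident (tfPt hP p v hp hv) (tfPt hP p v' hp hv') := by
  refine ⟨i, ?_, rfl, ?_⟩
  · show p ∈ openSegment ℝ (vz ψ H i) (vz ψ H (i + 1))
    exact (openSegment_eq hP i).symm ▸ hs
  · exact e.trans (pent_refl hP i v).symm

theorem tf_vert_not_int {ψ H : ℝ} (hP : Par ψ H) (a : ZMod 5) : vert ψ H a ∉ intP ψ H := by
  intro h
  have h1 : vz ψ H a ∈ frontier (inP ψ H) := by
    rw [pent_frontier hP]
    exact Set.mem_iUnion.2 ⟨a, left_mem_segment ℝ _ _⟩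
  rw [← pent_interior hP] at h
  exact h1.2 h

theorem tf_flow {ψ H : ℝ} (hP : Par ψ H) {t : ℝ} {p v q w : ℂ} (h : Orb ψ H t p v q w) :
    ∀ (hp : p ∈ inP ψ H) (hq : q ∈ inP ψ H) (hv : ‖v‖ = 1) (hw : ‖w‖ = 1)
      (_ : ∀ a, p ≠ vert ψ H a) (s : ℝ) (a : (pent hP).X),
      (pent hP).Flow s a (Quot.mk _ (tfPt hP p v hp hv)) →
      (pent hP).Flow (s + t) a (Quot.mk _ (tfPt hP q w hq hw)) := by
  induction h with
  | @free t p v q ht hp' hq' e =>
    intro hp hq hv hw hne s a hF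
    refine Polygon.Flow.step hF (fun i => hne i) ht ?_ e rfl
    intro r hr hrt
    show p + r * v ∈ interior (inP ψ H)
    rw [pent_interior hP]
    exact seg_int hp' (e ▸ hq') hr hrt.le
  | @hit s' τ t p v p' v' q w i hτ hp' hs hv' e1 e2 e3 h ih =>
    intro hp hq hv hw hne s a hF
    have hpi : p' ∈ inP ψ H := side_subset ψ H i hs
    have hvn : ‖v'‖ = 1 := by rw [e2, norm_rf, hv]
    have h1 : (pent hP).Flow (s + τ) a (Quot.mk _ (tfPt hP p' v hpi hv)) := by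
      refine Polygon.Flow.step hF (fun i => hne i) hτ ?_ e1 rfl
      intro r hr hrt
      show p + r * v ∈ interior (inP ψ H)
      rw [pent_interior hP]
      exact seg_side hp' (e1 ▸ hs) hv' hr hrt
    have h2 : (Quot.mk (pent hP).Ident (tfPt hP p' v hpi hv)) =
        Quot.mk (pent hP).Ident (tfPt hP p' v' hpi hvn) :=
      Quot.sound (tf_ident hP i hpi hv hvn hs e2)
    rw [h2] at h1
    have h3 := ih hpi hq hvn hw (fun a ha => vert_not_side hP a i (ha ▸ hs)) (s + τ) a h1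
    rwa [add_assoc, ← e3] at h3

/-- an open set of the phase space contains a small product around an interior point -/
theorem tf_open {ψ H : ℝ} (hP : Par ψ H) {U : Set (pent hP).X} (hU : IsOpen U) (hne : U.Nonempty) :
    ∃ p0 ∈ intP ψ H, ∃ v0 : ℂ, ‖v0‖ = 1 ∧ ∃ ε > 0, ∀ (p v : ℂ) (hp : p ∈ inP ψ H) (hv : ‖v‖ = 1),
      ‖p - p0‖ < ε → ‖v - v0‖ < ε → (Quot.mk _ (tfPt hP p v hp hv) : (pent hP).X) ∈ U := by
  obtain ⟨a, ha⟩ := hne
  obtain ⟨x, rfl⟩ := Quot.exists_rep a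
  have hpre : IsOpen {y : (pent hP).PreX | (Quot.mk _ y : (pent hP).X) ∈ U} :=
    hU.preimage continuous_quot_mk
  obtain ⟨W, hW, hWe⟩ := isOpen_induced_iff.1 hpre
  have hWe' : ∀ y : (pent hP).PreX, y.1 ∈ W ↔ (Quot.mk _ y : (pent hP).X) ∈ U :=
    fun y => Set.ext_iff.1 hWe y
  have hxW : x.1 ∈ W := (hWe' x).2 ha
  obtain ⟨ε, hε, hball⟩ := Metric.isOpen_iff.1 hW x.1 hxW
  have hx1 : x.1.1 ∈ closure (interior (inP ψ H)) := by
    rw [pent_regular hP]; exact x.2.1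
  rw [pent_interior hP] at hx1
  obtain ⟨p0, hp0, hd⟩ := Metric.mem_closure_iff.1 hx1 (ε / 2) (by positivity)
  refine ⟨p0, hp0, x.1.2, x.2.2, ε / 2, by positivity, fun p v hp hv h1 h2 => ?_⟩
  have : (tfPt hP p v hp hv).1 ∈ W := by
    refine hball ?_
    show dist (p, v) x.1 < ε
    rw [Prod.dist_eq]
    refine max_lt ?_ ?_
    · calc dist p x.1.1 ≤ dist p p0 + dist p0 x.1.1 := dist_triangle _ _ _
        _ < ε / 2 + ε / 2 := by
          refine add_lt_add ?_ ?_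
          · rw [dist_eq_norm]; exact h1
          · rw [dist_comm]; exact hd
        _ = ε := by ring
    · calc dist v x.1.2 = ‖v - x.1.2‖ := dist_eq_norm _ _
        _ < ε / 2 := h2
        _ < ε := by linarith
  exact (hWe' _).1 this

theorem topMixing_of_model {ψ H : ℝ} (hP : Par ψ H) (h : ModelMix ψ H) :
    ∃ P : Polygon, P.n = 5 ∧ Convex ℝ P.region ∧ P.TopMixing := by
  refine ⟨pent hP, rfl, convex_inP ψ H, ?_⟩
  intro U V hU hV hUn hVn
  obtain ⟨p0, hp0, v0, hv0, ε1, hε1, h1⟩ := tf_open hP hU hUn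
  obtain ⟨q0, hq0, w0, hw0, ε2, hε2, h2⟩ := tf_open hP hV hVn
  obtain ⟨T, hT⟩ := h p0 hp0 v0 hv0 q0 hq0 w0 hw0 (min ε1 ε2) (lt_min hε1 hε2)
  refine ⟨T, fun t ht => ?_⟩
  obtain ⟨p, v, q, w, hp, hv, ho, e1, e2, e3, e4⟩ := hT t ht
  have hpi := intP_subset ψ H hp
  have hqi := intP_subset ψ H ho.right
  have hw : ‖w‖ = 1 := by rw [ho.norm, hv]
  refine ⟨_, h1 p v hpi hv (e1.trans_le (min_le_left _ _)) (e2.trans_le (min_le_left _ _)), _,
    h2 q w hqi hw (e3.trans_le (min_le_right _ _)) (e4.trans_le (min_le_right _ _)), ?_⟩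
  have hF := tf_flow hP ho hpi hqi hv hw ?_ 0 _ (Polygon.Flow.refl _)
  · rwa [zero_add] at hF
  · rintro a rfl
    exact tf_vert_not_int hP a hp

end FC28
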