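import Pool.Agent.Lib.MP_fc28e0_an.Baire
import Pool.Agent.Lib.MP_fc28e0_an.Mixing
import Pool.Agent.Lib.MP_fc28e0_an.Transfer

namespace FC28

open PolyBilliard

theorem exists_topMixing : ∃ P : Polygon, P.n = 5 ∧ Convex ℝ P.region ∧ P.TopMixing := by
  obtain ⟨ψ, H, hP, h1, h2, hirr⟩ := exists_params
  exact topMixing_of_model hP (mixing_of_dense hP h1 h2 hirr)

end FC28
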