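import Mathlib

/-!
# MP_fc28e0_an: the explicit pentagon model (basic definitions)

Pentagon `inP ψ H`: the rectangle `[0,1] × [0,H]` with the corner `(0,0)` cut off by the
side `K` (index `4`) from `(0,b)` to `(b cot ψ, 0)`, `b = 1/100`.
Sides: `0` bottom, `1` right, `2` top, `3` left, `4` cut side `K`.
Points and vectors are complex numbers, `ip` is the Euclidean inner product.
-/

open Complex

namespace FC28

noncomputable section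

/-- size of the cut corner -/
def b : ℝ := 1 / 100

/-- Euclidean inner product on `ℂ = ℝ²` -/
def ip (z w : ℂ) : ℝ := z.re * w.re + z.im * w.im

/-- unit outer normals -/
def nrm (ψ : ℝ) : Fin 5 → ℂ :=
  ![⟨0, -1⟩, ⟨1, 0⟩, ⟨0, 1⟩, ⟨-1, 0⟩, ⟨-Real.sin ψ, -Real.cos ψ⟩]

/-- offsets of the sides -/
def off (ψ H : ℝ) : Fin 5 → ℝ := ![0, 1, H, 0, -(b * Real.cos ψ)]

/-- the closed pentagon -/
def inP (ψ H : ℝ) : Set ℂ := {p | ∀ i, ip p (nrm ψ i) ≤ off ψ H i}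

/-- its interior -/
def intP (ψ H : ℝ) : Set ℂ := {p | ∀ i, ip p (nrm ψ i) < off ψ H i}

/-- the relatively open side `i` (no vertices) -/
def side (ψ H : ℝ) (i : Fin 5) : Set ℂ :=
  {p | ip p (nrm ψ i) = off ψ H i ∧ ∀ j, j ≠ i → ip p (nrm ψ j) < off ψ H j}

/-- vertices; side `i` goes from `vert i` to `vert (i+1)` -/
def vert (ψ H : ℝ) : Fin 5 → ℂ :=
  ![⟨b * Real.cos ψ / Real.sin ψ, 0⟩, ⟨1, 0⟩, ⟨1, H⟩, ⟨0, H⟩, ⟨0, b⟩]

/-- linear reflection in the direction of side `i` -/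
def rf (ψ : ℝ) (i : Fin 5) (v : ℂ) : ℂ := -(nrm ψ i) ^ 2 * (starRingEnd ℂ) v

/-- parameter range -/
def Par (ψ H : ℝ) : Prop := |ψ - Real.pi / 4| < 1 / 100 ∧ |H - 1 / 2| < 1 / 100

/-- `Orb ψ H t p v q w`: the billiard orbit of `(p, v)` (`p` in the closed pentagon, `v` pointing
inside if `p` is on the boundary) is at time `t > 0` at the interior point `q` with direction `w`. -/
inductive Orb (ψ H : ℝ) : ℝ → ℂ → ℂ → ℂ → ℂ → Prop
  | free {t : ℝ} {p v q : ℂ} (ht : 0 < t) (hp : p ∈ inP ψ H) (hq : q ∈ intP ψ H)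
      (e : q = p + t * v) : Orb ψ H t p v q v
  | hit {s τ t : ℝ} {p v p' v' q w : ℂ} (i : Fin 5) (hτ : 0 < τ) (hp : p ∈ inP ψ H)
      (hs : p' ∈ side ψ H i) (hv : 0 < ip v (nrm ψ i)) (e1 : p' = p + τ * v)
      (e2 : v' = rf ψ i v) (e3 : s = τ + t) (h : Orb ψ H t p' v' q w) : Orb ψ H s p v q w

/-- direction of the cylinder `C_m`: parallel to `(m, H)` -/
def em (m : ℕ) (H : ℝ) : ℂ := (⟨m, H⟩ : ℂ) / (Real.sqrt (m ^ 2 + H ^ 2) : ℝ)

/-- period of the cylinder `C_m` -/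
def len (m : ℕ) (H : ℝ) : ℝ := 2 * Real.sqrt (m ^ 2 + H ^ 2)

/-- initial direction of the ray `ω_m` starting at the vertex `vert 4 = (0, b)` -/
def dirR (ψ H : ℝ) (m : ℕ) : ℂ := rf ψ 4 (-(em m H))

/-- the ray `ω_m` is at time `t` at the interior point `p` with direction `v` -/
def ray (ψ H : ℝ) (m : ℕ) (t : ℝ) (p v : ℂ) : Prop := Orb ψ H t ⟨0, b⟩ (dirR ψ H m) p v

/-- the ray `ω_m` visits every open set of the phase space at arbitrarily large times -/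
def DenseRay (ψ H : ℝ) (m : ℕ) : Prop :=
  ∀ x0 ∈ intP ψ H, ∀ v0 : ℂ, ‖v0‖ = 1 → ∀ ε > 0, ∀ N : ℝ, ∃ t > N, ∃ p v,
    ray ψ H m t p v ∧ ‖p - x0‖ < ε ∧ ‖v - v0‖ < ε

/-- topological mixing in the model -/
def ModelMix (ψ H : ℝ) : Prop :=
  ∀ p0 ∈ intP ψ H, ∀ v0 : ℂ, ‖v0‖ = 1 → ∀ q0 ∈ intP ψ H, ∀ w0 : ℂ, ‖w0‖ = 1 → ∀ ε > 0,
    ∃ T : ℝ, ∀ t ≥ T, ∃ p v q w, p ∈ intP ψ H ∧ ‖v‖ = 1 ∧ Orb ψ H t p v q w ∧
      ‖p - p0‖ < ε ∧ ‖v - v0‖ < ε ∧ ‖q - q0‖ < ε ∧ ‖w - w0‖ < ε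

/-- `Reach ψ H p v w B`: the orbit of `(p, v)` bounces off the sides `w` (in this order) and then
arrives at the point `B` (used when `B` is a vertex). -/
inductive Reach (ψ H : ℝ) : ℂ → ℂ → List (Fin 5) → ℂ → Prop
  | last {τ : ℝ} {p v B : ℂ} (hτ : 0 < τ) (hp : p ∈ inP ψ H)
      (hm : ∀ s : ℝ, 0 < s → s < τ → p + s * v ∈ intP ψ H) (e : B = p + τ * v) :
      Reach ψ H p v [] B
  | step {τ : ℝ} {p v p' v' B : ℂ} {w : List (Fin 5)} (i : Fin 5) (hτ : 0 < τ)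
      (hp : p ∈ inP ψ H) (hs : p' ∈ side ψ H i) (hv : 0 < ip v (nrm ψ i))
      (e1 : p' = p + τ * v) (e2 : v' = rf ψ i v) (h : Reach ψ H p' v' w B) :
      Reach ψ H p v (i :: w) B

/-- the countable rotation group `{± e^{2iψj}}` -/
def CC (ψ : ℝ) : Set ℂ :=
  {c | ∃ j : ℤ, c = Complex.exp (2 * ψ * j * I) ∨ c = -Complex.exp (2 * ψ * j * I)}

/-- `v` is obtained from `em m H` by `z ↦ c z` or from its conjugate -/
def Rep (m : ℕ) (H : ℝ) (c v : ℂ) : Prop :=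
  v = c * em m H ∨ v = c * (starRingEnd ℂ) (em m H)

/-- closed obstacles in the unfolded plane: rhombi centred at `(2i, 2jH)` -/
def Obs (ψ H : ℝ) : Set ℂ :=
  {z | ∃ i j : ℤ, Real.sin ψ * |z.re - 2 * i| + Real.cos ψ * |z.im - 2 * j * H|
    ≤ b * Real.cos ψ}

end

end FC28
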