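import Pool.Agent.Lib.MP_fc28e0_an.Geo

/-! # Unfolding and the exceptional parameters -/

open Complex

namespace FC28

noncomputable section

/-- `2 h_i n_i = offA i + H * offB i` -/
def offA (ψ : ℝ) : Fin 5 → ℂ :=
  ![0, 2, 0, 0, ⟨2 * b * Real.cos ψ * Real.sin ψ, 2 * b * Real.cos ψ ^ 2⟩]

def offB : Fin 5 → ℂ := ![0, 0, ⟨0, 2⟩, 0, 0]

/-- vertices: `vert ψ H a = vA a + H * vB a` -/
def vA (ψ : ℝ) : Fin 5 → ℂ := ![⟨b * Real.cos ψ / Real.sin ψ, 0⟩, ⟨1, 0⟩, ⟨1, 0⟩, 0, ⟨0, b⟩]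

def vB : Fin 5 → ℂ := ![0, 0, ⟨0, 1⟩, ⟨0, 1⟩, 0]

/-- unfolding: composition of the affine reflections in the sides of the word -/
def unfA (ψ : ℝ) : List (Fin 5) → ℂ → ℂ
  | [], z => z
  | i :: w, z => rf ψ i (unfA ψ w z) + offA ψ i

def unfB (ψ : ℝ) : List (Fin 5) → ℂ → ℂ
  | [], z => z
  | i :: w, z => rf ψ i (unfB ψ w z) + offB i

/-- the linear isometry that maps the direction `v0 = c e` (`fl = false`) resp. `c ē`
(`fl = true`) to `e` -/
def fr (fl : Bool) (c z : ℂ) : ℂ :=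
  if fl then c * (starRingEnd ℂ) z else (starRingEnd ℂ) c * z

/-- direction represented by `(fl, c)` -/
def dv (m : ℕ) (H : ℝ) (fl : Bool) (c : ℂ) : ℂ :=
  if fl then c * (starRingEnd ℂ) (em m H) else c * em m H

/-- the multiplier of `rf ψ i` -/
def rho (ψ : ℝ) (i : Fin 5) : ℂ := -(nrm ψ i) ^ 2

theorem rf_rho (ψ : ℝ) (i : Fin 5) (z : ℂ) : rf ψ i z = rho ψ i * (starRingEnd ℂ) z := rfl

theorem norm_rho (ψ : ℝ) (i : Fin 5) : ‖rho ψ i‖ = 1 := by
  simp [rho, norm_nrm]

theorem fr_add (fl : Bool) (c z w : ℂ) : fr fl c (z + w) = fr fl c z + fr fl c w := by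
  cases fl <;> simp [fr, mul_add]

theorem fr_sub (fl : Bool) (c z w : ℂ) : fr fl c (z - w) = fr fl c z - fr fl c w := by
  cases fl <;> simp [fr, mul_sub]

theorem fr_smul (fl : Bool) (c : ℂ) (r : ℝ) (z : ℂ) : fr fl c (r * z) = r * fr fl c z := by
  cases fl <;> simp [fr] <;> ring

theorem fr_rf (ψ : ℝ) (i : Fin 5) (fl : Bool) (c z : ℂ) :
    fr fl c (rf ψ i z) = fr (!fl) ((starRingEnd ℂ) c * rho ψ i) z := by
  cases fl <;> simp [fr, rf_rho] <;> ring

theorem norm_fr (fl : Bool) {c : ℂ} (hc : ‖c‖ = 1) (z : ℂ) : ‖fr fl c z‖ = ‖z‖ := by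
  cases fl <;> simp [fr, hc]

theorem fr_I_re (fl : Bool) (c : ℂ) : (fr fl c I).re = c.im := by
  cases fl <;> simp [fr]

theorem normsq_eq {z : ℂ} (h : ‖z‖ = 1) : z.re ^ 2 + z.im ^ 2 = 1 := by
  have := Complex.sq_norm z
  rw [h, Complex.normSq_apply] at this
  nlinarith

theorem ip_fr (fl : Bool) {c : ℂ} (hc : ‖c‖ = 1) (z w : ℂ) :
    ip (fr fl c z) (fr fl c w) = ip z w := by
  have h := normsq_eq hc
  cases fl
  · simp only [fr, ip, Bool.false_eq_true, if_false, mul_re, mul_im, conj_re, conj_im]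
    linear_combination (z.re * w.re + z.im * w.im) * h
  · simp only [fr, ip, if_true, mul_re, mul_im, conj_re, conj_im]
    linear_combination (z.re * w.re + z.im * w.im) * h

theorem vert_eq (ψ H : ℝ) (a : Fin 5) : vert ψ H a = vA ψ a + H * vB a := by
  fin_cases a <;> apply Complex.ext <;> simp [vert, vA, vB]

/-- reflection of a point of the line of side `i` -/
theorem reflect_point {ψ H : ℝ} {p : ℂ} {i : Fin 5} (hp : p ∈ side ψ H i) :
    rf ψ i p + (offA ψ i + H * offB i) = p := by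
  have h := hp.1
  rw [rf_eq]
  fin_cases i
  · simp [ip, nrm, off] at h
    apply Complex.ext <;> simp [ip, nrm, offA, offB]
    linarith
  · simp [ip, nrm, off] at h
    apply Complex.ext <;> simp [ip, nrm, offA, offB]
    linarith
  · simp [ip, nrm, off] at h
    apply Complex.ext <;> simp [ip, nrm, offA, offB]
    linarith
  · simp [ip, nrm, off] at h
    apply Complex.ext <;> simp [ip, nrm, offA, offB]
    linarith
  · simp [ip, nrm, off] at h
    apply Complex.ext <;> simp [ip, nrm, offA, offB, -ofReal_sin, -ofReal_cos]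
    · linear_combination (2 * Real.sin ψ) * h
    · linear_combination (2 * Real.cos ψ) * h

theorem unf_step {ψ H : ℝ} {p p' v v' z1 z2 : ℂ} {i : Fin 5} {τ T : ℝ} (hp : p' ∈ side ψ H i)
    (e1 : p' = p + τ * v) (e2 : v' = rf ψ i v) (h : z1 + H * z2 = p' + T * v') :
    (rf ψ i z1 + offA ψ i) + H * (rf ψ i z2 + offB i) = p + ((τ + T : ℝ) : ℂ) * v := by
  have hlin : rf ψ i (z1 + H * z2) = rf ψ i z1 + H * rf ψ i z2 := by
    simp only [rf, map_add, map_mul, conj_ofReal]; ring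
  have h2 : rf ψ i (p' + T * v') = rf ψ i p' + T * v := by
    have : rf ψ i (p' + T * v') = rf ψ i p' + T * rf ψ i v' := by
      simp only [rf, map_add, map_mul, conj_ofReal]; ring
    rw [this, e2, rf_rf]
  have h3 := reflect_point hp
  calc _ = (rf ψ i z1 + H * rf ψ i z2) + (offA ψ i + H * offB i) := by ring
    _ = (rf ψ i p' + T * v) + (offA ψ i + H * offB i) := by rw [← hlin, h, h2]
    _ = p' + T * v := by rw [← h3]; rw [h3]; linear_combination h3
    _ = p + ((τ + T : ℝ) : ℂ) * v := by rw [e1]; push_cast; ring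


theorem norm_CC {ψ : ℝ} {c : ℂ} (hc : c ∈ CC ψ) : ‖c‖ = 1 := by
  obtain ⟨j, h | h⟩ := hc
  · rw [h, show (2 * (ψ : ℂ) * j * I) = ((2 * ψ * j : ℝ) : ℂ) * I by push_cast; ring]
    exact Complex.norm_exp_ofReal_mul_I _
  · rw [h, norm_neg, show (2 * (ψ : ℂ) * j * I) = ((2 * ψ * j : ℝ) : ℂ) * I by push_cast; ring]
    exact Complex.norm_exp_ofReal_mul_I _

theorem fr_dv {m : ℕ} (H : ℝ) (fl : Bool) {c : ℂ} (hc : ‖c‖ = 1) :
    fr fl c (dv m H fl c) = em m H := by
  have h : (starRingEnd ℂ) c * c = 1 := by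
    rw [mul_comm, Complex.mul_conj, Complex.normSq_eq_norm_sq, hc]; norm_num
  cases fl
  · simp only [fr, dv, Bool.false_eq_true, if_false]
    rw [← mul_assoc, h, one_mul]
  · simp only [fr, dv, if_true, map_mul, conj_conj]
    rw [← mul_assoc, mul_comm c, h, one_mul]

/-- unfolding a connection -/
theorem unf_reach {ψ H : ℝ} {p v B : ℂ} {w : List (Fin 5)} (h : Reach ψ H p v w B) :
    ∀ b', B = vert ψ H b' → ∃ T : ℝ, 0 < T ∧
      unfA ψ w (vA ψ b') + H * unfB ψ w (vB b') = p + T * v := by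
  induction h with
  | @last τ p v B hτ hp hm e1 =>
    intro b' hB
    refine ⟨τ, hτ, ?_⟩
    simp only [unfA, unfB]
    rw [← vert_eq, ← hB, e1]
  | @step τ p v p' v' B w i hτ hp hs hvi e1 e2 h ih =>
    intro b' hB
    obtain ⟨T, hT, h1⟩ := ih b' hB
    exact ⟨τ + T, by linarith, unf_step hs e1 e2 h1⟩

/-- the quadratic polynomial in `H` -/
def Qp (m : ℕ) (A B : ℂ) (x : ℝ) : ℝ := m * A.im + x * (m * B.im - A.re) - x ^ 2 * B.re

theorem Qp_finite {m : ℕ} {A B : ℂ}
    (h : ¬ (m * A.im = 0 ∧ m * B.im - A.re = 0 ∧ B.re = 0)) : {x : ℝ | Qp m A B x = 0}.Finite := by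
  classical
  set p : Polynomial ℝ := Polynomial.C (m * A.im) + Polynomial.C (m * B.im - A.re) * Polynomial.X
    + Polynomial.C (-B.re) * Polynomial.X ^ 2 with hp
  have hp0 : p ≠ 0 := by
    intro h0
    apply h
    have c0 := congrArg (fun q => Polynomial.coeff q 0) h0
    have c1 := congrArg (fun q => Polynomial.coeff q 1) h0
    have c2 := congrArg (fun q => Polynomial.coeff q 2) h0
    simp [hp, Polynomial.coeff_X, Polynomial.coeff_C, Polynomial.coeff_X_pow] at c0 c1 c2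
    refine ⟨?_, by linarith, by linarith⟩
    rcases c0 with h | h <;> simp [h]
  refine (p.roots.toFinset.finite_toSet).subset ?_
  intro x hx
  simp only [Finset.mem_coe, Multiset.mem_toFinset, Polynomial.mem_roots hp0,
    Polynomial.IsRoot.def]
  simp only [Set.mem_ofPred_eq, Qp] at hx
  simp [hp]
  linarith

theorem CC_countable (ψ : ℝ) : (CC ψ).Countable := by
  have : CC ψ ⊆ (Set.range fun j : ℤ => Complex.exp (2 * ψ * j * I)) ∪
      (Set.range fun j : ℤ => -Complex.exp (2 * ψ * j * I)) := by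
    rintro c ⟨j, h | h⟩
    · exact Or.inl ⟨j, h.symm⟩
    · exact Or.inr ⟨j, h.symm⟩
  exact ((Set.countable_range _).union (Set.countable_range _)).mono this

/-- holonomy coefficients in the frame of `em` -/
def cA (ψ : ℝ) (fl : Bool) (c : ℂ) (w : List (Fin 5)) (a b' : Fin 5) : ℂ :=
  fr fl c (unfA ψ w (vA ψ b') - vA ψ a)

def cB (ψ : ℝ) (fl : Bool) (c : ℂ) (w : List (Fin 5)) (a b' : Fin 5) : ℂ :=
  fr fl c (unfB ψ w (vB b') - vB a)

/-- the exceptional set of one type -/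
def BadT (ψ : ℝ) (m : ℕ) (fl : Bool) (c : ℂ) (w : List (Fin 5)) (a b' : Fin 5) : Set ℝ :=
  {x | ¬ (m * (cA ψ fl c w a b').im = 0 ∧
      m * (cB ψ fl c w a b').im - (cA ψ fl c w a b').re = 0 ∧ (cB ψ fl c w a b').re = 0) ∧
    Qp m (cA ψ fl c w a b') (cB ψ fl c w a b') x = 0}

theorem BadT_finite (ψ : ℝ) (m : ℕ) (fl : Bool) (c : ℂ) (w : List (Fin 5)) (a b' : Fin 5) :
    (BadT ψ m fl c w a b').Finite := by
  by_cases h : (m * (cA ψ fl c w a b').im = 0 ∧
      m * (cB ψ fl c w a b').im - (cA ψ fl c w a b').re = 0 ∧ (cB ψ fl c w a b').re = 0)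
  · have : BadT ψ m fl c w a b' = ∅ := by
      ext x; simp only [BadT, Set.mem_ofPred_eq, Set.mem_empty_iff_false, iff_false]
      exact fun h' => h'.1 h
    rw [this]; exact Set.finite_empty
  · exact (Qp_finite h).subset fun x hx => hx.2

/-- For all `H` outside a countable set: if a connection from vertex `a` to vertex `b'` with
word `w` exists in the direction `dv`, then its holonomy is parallel to `(m, H)` identically
in `H`. -/
theorem generic {ψ : ℝ} (hψ : |ψ - Real.pi / 4| < 1 / 100) :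
    ∃ Bad : Set ℝ, Bad.Countable ∧ ∀ H : ℝ, |H - 1 / 2| < 1 / 100 → H ∉ Bad →
      ∀ m : ℕ, (m = 1 ∨ m = 2) → ∀ fl : Bool, ∀ c ∈ CC ψ, ∀ w a b',
      Reach ψ H (vert ψ H a) (dv m H fl c) w (vert ψ H b') →
      ∃ T μ : ℝ, 0 < T ∧
        unfA ψ w (vA ψ b') + H * unfB ψ w (vB b') - (vA ψ a + H * vB a) = T * dv m H fl c ∧
        fr fl c (unfB ψ w (vB b') - vB a) = μ * I ∧ T = μ * Real.sqrt (m ^ 2 + H ^ 2) := by
  refine ⟨⋃ m : ℕ, ⋃ fl : Bool, ⋃ c ∈ CC ψ, ⋃ w : List (Fin 5), ⋃ a : Fin 5, ⋃ b' : Fin 5,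
    BadT ψ m fl c w a b', ?_, ?_⟩
  · refine Set.countable_iUnion fun m => Set.countable_iUnion fun fl =>
      (CC_countable ψ).biUnion fun c _ => Set.countable_iUnion fun w =>
      Set.countable_iUnion fun a => Set.countable_iUnion fun b' =>
      (BadT_finite ψ m fl c w a b').countable
  · intro H hH hBad m hm fl c hc w a b' hR
    have hP : Par ψ H := ⟨hψ, hH⟩
    have hm0 : m ≠ 0 := by rcases hm with rfl | rfl <;> norm_num
    have hmR : (m : ℝ) ≠ 0 := by exact_mod_cast hm0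
    have hc1 := norm_CC hc
    have hr : 0 < Real.sqrt (m ^ 2 + H ^ 2) := Real.sqrt_pos.2 (by positivity)
    obtain ⟨T, hT, h1⟩ := unf_reach hR b' rfl
    have h2 : unfA ψ w (vA ψ b') + H * unfB ψ w (vB b') - (vA ψ a + H * vB a)
        = T * dv m H fl c := by rw [h1, vert_eq]; ring
    have h3 : cA ψ fl c w a b' + H * cB ψ fl c w a b' = T * em m H := by
      rw [← fr_dv H fl hc1, ← fr_smul, ← h2, cA, cB, ← fr_smul, ← fr_add]
      congr 1; ring
    have hre : (cA ψ fl c w a b').re + H * (cB ψ fl c w a b').re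
        = T * (m / Real.sqrt (m ^ 2 + H ^ 2)) := by
      have := congrArg Complex.re h3
      simp [em, Complex.div_re] at this
      rw [this]; field_simp
    have him : (cA ψ fl c w a b').im + H * (cB ψ fl c w a b').im
        = T * (H / Real.sqrt (m ^ 2 + H ^ 2)) := by
      have := congrArg Complex.im h3
      simp [em, Complex.div_im] at this
      rw [this]; field_simp
    have hQ : Qp m (cA ψ fl c w a b') (cB ψ fl c w a b') H = 0 := by
      have : Qp m (cA ψ fl c w a b') (cB ψ fl c w a b') H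
        = m * ((cA ψ fl c w a b').im + H * (cB ψ fl c w a b').im)
          - H * ((cA ψ fl c w a b').re + H * (cB ψ fl c w a b').re) := by
        simp only [Qp]; ring
      rw [this, hre, him]; ring
    have hcond : (m * (cA ψ fl c w a b').im = 0 ∧
      m * (cB ψ fl c w a b').im - (cA ψ fl c w a b').re = 0 ∧ (cB ψ fl c w a b').re = 0) := by
      by_contra hne
      apply hBad
      simp only [Set.mem_iUnion]
      exact ⟨m, fl, c, hc, w, a, b', hne, hQ⟩
    refine ⟨T, (cB ψ fl c w a b').im, hT, h2, ?_, ?_⟩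
    · change cB ψ fl c w a b' = _
      apply Complex.ext <;> simp [hcond.2.2]
    · have h5 : (cA ψ fl c w a b').re = m * (cB ψ fl c w a b').im := by linarith [hcond.2.1]
      rw [hcond.2.2, h5] at hre
      have h6 : m * (cB ψ fl c w a b').im * Real.sqrt (m ^ 2 + H ^ 2) = T * m := by
        have : m * (cB ψ fl c w a b').im = T * (m / Real.sqrt (m ^ 2 + H ^ 2)) := by linarith
        rw [this]; field_simp
      have h7 : (m : ℝ) * (T - (cB ψ fl c w a b').im * Real.sqrt (m ^ 2 + H ^ 2)) = 0 := by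
        linarith
      rcases mul_eq_zero.1 h7 with h | h
      · exact absurd h hmR
      · linarith

end

end FC28
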