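import Pool.Agent.Lib.MP_fc28e0_an.Defs
import Pool.Agent.Lib.MP_fc28e0_an.Geo

/-! # The pentagon as a `Polygon` -/

open Complex

namespace FC28

open PolyBilliard

noncomputable section

/-- vertices indexed by `ZMod 5` (which is `Fin 5`) -/
def vz (ψ H : ℝ) (i : ZMod 5) : ℂ := vert ψ H i

theorem ip_nrmP0 (ψ : ℝ) (p : ℂ) : ip p (nrm ψ 0) = -p.im := by
  simp [ip, nrm]

theorem ip_nrmP1 (ψ : ℝ) (p : ℂ) : ip p (nrm ψ 1) = p.re := by
  simp [ip, nrm]

theorem ip_nrmP2 (ψ : ℝ) (p : ℂ) : ip p (nrm ψ 2) = p.im := by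
  simp [ip, nrm]

theorem ip_nrmP3 (ψ : ℝ) (p : ℂ) : ip p (nrm ψ 3) = -p.re := by
  simp [ip, nrm]

theorem ip_nrmP4 (ψ : ℝ) (p : ℂ) :
    ip p (nrm ψ 4) = -(p.re * Real.sin ψ + p.im * Real.cos ψ) := by
  simp [ip, nrm]; ring

theorem off0 (ψ H : ℝ) : off ψ H 0 = 0 := rfl
theorem off1 (ψ H : ℝ) : off ψ H 1 = 1 := rfl
theorem off2 (ψ H : ℝ) : off ψ H 2 = H := rfl
theorem off3 (ψ H : ℝ) : off ψ H 3 = 0 := rfl
theorem off4 (ψ H : ℝ) : off ψ H 4 = -(b * Real.cos ψ) := rfl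

theorem forall_fin5 {P : Fin 5 → Prop} : (∀ i, P i) ↔ P 0 ∧ P 1 ∧ P 2 ∧ P 3 ∧ P 4 := by
  constructor
  · intro h; exact ⟨h 0, h 1, h 2, h 3, h 4⟩
  · rintro ⟨h0, h1, h2, h3, h4⟩ i
    fin_cases i <;> assumption

theorem mem_inP_iffP {ψ H : ℝ} {p : ℂ} : p ∈ inP ψ H ↔ 0 ≤ p.im ∧ p.re ≤ 1 ∧ p.im ≤ H ∧ 0 ≤ p.re ∧
    b * Real.cos ψ ≤ p.re * Real.sin ψ + p.im * Real.cos ψ := by
  show (∀ i, ip p (nrm ψ i) ≤ off ψ H i) ↔ _
  rw [forall_fin5, ip_nrmP0, ip_nrmP1, ip_nrmP2, ip_nrmP3, ip_nrmP4, off0, off1, off2, off3, off4]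
  constructor
  · rintro ⟨h0, h1, h2, h3, h4⟩
    exact ⟨by linarith, h1, h2, by linarith, by linarith⟩
  · rintro ⟨h0, h1, h2, h3, h4⟩
    exact ⟨by linarith, h1, h2, by linarith, by linarith⟩

theorem mem_intP_iffP {ψ H : ℝ} {p : ℂ} : p ∈ intP ψ H ↔ 0 < p.im ∧ p.re < 1 ∧ p.im < H ∧ 0 < p.re ∧
    b * Real.cos ψ < p.re * Real.sin ψ + p.im * Real.cos ψ := by
  show (∀ i, ip p (nrm ψ i) < off ψ H i) ↔ _
  rw [forall_fin5, ip_nrmP0, ip_nrmP1, ip_nrmP2, ip_nrmP3, ip_nrmP4, off0, off1, off2, off3, off4]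
  constructor
  · rintro ⟨h0, h1, h2, h3, h4⟩
    exact ⟨by linarith, h1, h2, by linarith, by linarith⟩
  · rintro ⟨h0, h1, h2, h3, h4⟩
    exact ⟨by linarith, h1, h2, by linarith, by linarith⟩

/-- first coordinate of vertex `0` -/
theorem beta_bd {ψ H : ℝ} (hP : Par ψ H) :
    0 < b * Real.cos ψ / Real.sin ψ ∧ b * Real.cos ψ / Real.sin ψ < 1 := by
  have hs := hP.sin_bd
  have hc := hP.cos_bd
  have hb : b = 1 / 100 := rfl
  have hs0 : 0 < Real.sin ψ := by linarith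
  constructor
  · apply div_pos _ hs0
    rw [hb]; nlinarith
  · rw [div_lt_one hs0, hb]; nlinarith

theorem vz0 (ψ H : ℝ) : vz ψ H 0 = ⟨b * Real.cos ψ / Real.sin ψ, 0⟩ := rfl
theorem vz1 (ψ H : ℝ) : vz ψ H 1 = ⟨1, 0⟩ := rfl
theorem vz2 (ψ H : ℝ) : vz ψ H 2 = ⟨1, H⟩ := rfl
theorem vz3 (ψ H : ℝ) : vz ψ H 3 = ⟨0, H⟩ := rfl
theorem vz4 (ψ H : ℝ) : vz ψ H 4 = ⟨0, b⟩ := rfl

/-- `vert (i+1) - vert i` is a positive multiple of `I * nrm i` -/
theorem vz_sub {ψ H : ℝ} (hP : Par ψ H) (i : ZMod 5) :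
    ∃ l : ℝ, 0 < l ∧ vz ψ H (i + 1) - vz ψ H i = l * (I * nrm ψ i) := by
  have hb := beta_bd hP
  have hs := hP.sin_bd
  have hH := hP.H_bd
  have hs0 : Real.sin ψ ≠ 0 := by intro h; rw [h] at hs; linarith
  have hbb : b = 1 / 100 := rfl
  fin_cases i
  · refine ⟨1 - b * Real.cos ψ / Real.sin ψ, by linarith, ?_⟩
    show vz ψ H 1 - vz ψ H 0 = _ * (I * nrm ψ 0)
    rw [vz0, vz1]
    generalize b * Real.cos ψ / Real.sin ψ = β
    apply Complex.ext <;> simp [nrm]
  · refine ⟨H, by linarith, ?_⟩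
    show vz ψ H 2 - vz ψ H 1 = _ * (I * nrm ψ 1)
    rw [vz2, vz1]
    apply Complex.ext <;> simp [nrm]
  · refine ⟨1, by linarith, ?_⟩
    show vz ψ H 3 - vz ψ H 2 = _ * (I * nrm ψ 2)
    rw [vz2, vz3]
    apply Complex.ext <;> simp [nrm]
  · refine ⟨H - b, by rw [hbb]; linarith, ?_⟩
    show vz ψ H 4 - vz ψ H 3 = _ * (I * nrm ψ 3)
    rw [vz4, vz3]
    apply Complex.ext <;> simp [nrm]
  · refine ⟨b / Real.sin ψ, ?_, ?_⟩
    · apply div_pos (by rw [hbb]; norm_num); linarith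
    · show vz ψ H 0 - vz ψ H 4 = _ * (I * nrm ψ 4)
      rw [vz4, vz0]
      have e1 : b * Real.cos ψ / Real.sin ψ = b / Real.sin ψ * Real.cos ψ := by ring
      have e2 : b / Real.sin ψ * Real.sin ψ = b := by field_simp
      rw [e1]
      generalize b / Real.sin ψ = γ at *
      apply Complex.ext
      · simp [nrm]
      · simp [nrm]; linarith

theorem pent_nondeg {ψ H : ℝ} (hP : Par ψ H) (i : ZMod 5) : vz ψ H i ≠ vz ψ H (i + 1) := by
  obtain ⟨l, hl, h⟩ := vz_sub hP i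
  intro e
  rw [← e, sub_self] at h
  have h2 : ‖(l : ℂ) * (I * nrm ψ i)‖ = l := by
    rw [norm_mul, norm_mul, norm_nrm, Complex.norm_I, Complex.norm_real, Real.norm_of_nonneg hl.le]
    ring
  rw [← h, norm_zero] at h2
  linarith

/-- coordinates of the points on the line through two successive vertices -/
theorem comb_re (z w : ℂ) (t : ℝ) : ((1 - t) • z + t • w).re = (1 - t) * z.re + t * w.re := by
  simp

theorem comb_im (z w : ℂ) (t : ℝ) : ((1 - t) • z + t • w).im = (1 - t) * z.im + t * w.im := by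
  simp

theorem mem_side_iff {ψ H : ℝ} {i : Fin 5} {p : ℂ} : p ∈ side ψ H i ↔
    p ∈ inP ψ H ∧ ip p (nrm ψ i) = off ψ H i ∧ ∀ j, j ≠ i → ip p (nrm ψ j) ≠ off ψ H j := by
  constructor
  · rintro ⟨h1, h2⟩
    refine ⟨side_subset ψ H i ⟨h1, h2⟩, h1, fun j hj => (h2 j hj).ne⟩
  · rintro ⟨h1, h2, h3⟩
    exact ⟨h2, fun j hj => lt_of_le_of_ne (h1 j) (h3 j hj)⟩

/-- closed sides -/
theorem segment_eq {ψ H : ℝ} (hP : Par ψ H) (i : ZMod 5) :
    segment ℝ (vz ψ H i) (vz ψ H (i + 1)) = {p | p ∈ inP ψ H ∧ ip p (nrm ψ i) = off ψ H i} := by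
  have hβ := beta_bd hP
  have hs := hP.sin_bd
  have hc := hP.cos_bd
  have hH := hP.H_bd
  have hbb : b = 1 / 100 := rfl
  have hs0 : 0 < Real.sin ψ := by linarith
  have e1 : b * Real.cos ψ / Real.sin ψ * Real.sin ψ = b * Real.cos ψ := by field_simp
  have hv0 : ∀ a : ZMod 5, vz ψ H a ∈ inP ψ H := vert_mem hP
  rw [segment_eq_image]
  apply Set.Subset.antisymm
  · rintro p ⟨t, ⟨ht0, ht1⟩, rfl⟩
    refine ⟨?_, ?_⟩
    · exact convex_inP ψ H (hv0 i) (hv0 (i + 1)) (by linarith) ht0 (by ring)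
    · show ip ((1 - t) • vz ψ H i + t • vz ψ H (i + 1)) (nrm ψ i) = off ψ H i
      obtain ⟨l, hl, h⟩ := vz_sub hP i
      have h1 : (1 - t) • vz ψ H i + t • vz ψ H (i + 1)
          = vz ψ H i + ((t * l : ℝ) : ℂ) * (I * nrm ψ i) := by
        have : vz ψ H (i + 1) = vz ψ H i + l * (I * nrm ψ i) := by rw [← h]; ring
        rw [this, Complex.real_smul, Complex.real_smul]
        push_cast; ring
      rw [h1, ip_add_left, ip_smul_left]
      have h2 : ip (I * nrm ψ i) (nrm ψ i) = 0 := by simp [ip]; ring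
      rw [h2, mul_zero, add_zero]
      clear h h1 h2
      fin_cases i
      · show ip (vz ψ H 0) (nrm ψ 0) = 0
        rw [ip_nrmP0, vz0]; simp
      · show ip (vz ψ H 1) (nrm ψ 1) = 1
        rw [ip_nrmP1, vz1]
      · show ip (vz ψ H 2) (nrm ψ 2) = H
        rw [ip_nrmP2, vz2]
      · show ip (vz ψ H 3) (nrm ψ 3) = 0
        rw [ip_nrmP3, vz3]; simp
      · show ip (vz ψ H 4) (nrm ψ 4) = -(b * Real.cos ψ)
        rw [ip_nrmP4, vz4]; simp
  · rintro p ⟨hp, hi⟩
    rw [mem_inP_iffP] at hp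
    obtain ⟨h0, h1, h2, h3, h4⟩ := hp
    revert hi
    fin_cases i
    · show ip p (nrm ψ 0) = 0 → p ∈ (fun θ : ℝ => (1 - θ) • vz ψ H 0 + θ • vz ψ H 1) '' Set.Icc 0 1
      rw [ip_nrmP0, vz0, vz1]
      intro hi
      have h5 : p.im = 0 := by linarith
      rw [h5] at h4
      generalize b * Real.cos ψ / Real.sin ψ = β at *
      have h6 : β ≤ p.re := by
        by_contra hcon
        push Not at hcon
        nlinarith
      refine ⟨(p.re - β) / (1 - β), ⟨?_, ?_⟩, ?_⟩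
      · apply div_nonneg <;> linarith
      · rw [div_le_one (by linarith)]; linarith
      · have h7 : 1 - β ≠ 0 := by intro h; linarith
        apply Complex.ext
        · show ((1 - (p.re - β) / (1 - β)) • (⟨β, 0⟩ : ℂ) + ((p.re - β) / (1 - β)) • (⟨1, 0⟩ : ℂ)).re = _
          rw [comb_re]
          field_simp
          ring
        · show ((1 - (p.re - β) / (1 - β)) • (⟨β, 0⟩ : ℂ) + ((p.re - β) / (1 - β)) • (⟨1, 0⟩ : ℂ)).im = _
          rw [comb_im, h5]
          simp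
    · show ip p (nrm ψ 1) = 1 → p ∈ (fun θ : ℝ => (1 - θ) • vz ψ H 1 + θ • vz ψ H 2) '' Set.Icc 0 1
      rw [ip_nrmP1, vz1, vz2]
      intro hi
      have h7 : H ≠ 0 := by intro h; linarith
      refine ⟨p.im / H, ⟨?_, ?_⟩, ?_⟩
      · apply div_nonneg <;> linarith
      · rw [div_le_one (by linarith)]; linarith
      · apply Complex.ext
        · show ((1 - p.im / H) • (⟨1, 0⟩ : ℂ) + (p.im / H) • (⟨1, H⟩ : ℂ)).re = _
          rw [comb_re, hi]
          ring
        · show ((1 - p.im / H) • (⟨1, 0⟩ : ℂ) + (p.im / H) • (⟨1, H⟩ : ℂ)).im = _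
          rw [comb_im]
          show (1 - p.im / H) * 0 + p.im / H * H = _
          field_simp
          ring
    · show ip p (nrm ψ 2) = H → p ∈ (fun θ : ℝ => (1 - θ) • vz ψ H 2 + θ • vz ψ H 3) '' Set.Icc 0 1
      rw [ip_nrmP2, vz2, vz3]
      intro hi
      refine ⟨1 - p.re, ⟨by linarith, by linarith⟩, ?_⟩
      apply Complex.ext
      · show ((1 - (1 - p.re)) • (⟨1, H⟩ : ℂ) + (1 - p.re) • (⟨0, H⟩ : ℂ)).re = _
        rw [comb_re]
        ring
      · show ((1 - (1 - p.re)) • (⟨1, H⟩ : ℂ) + (1 - p.re) • (⟨0, H⟩ : ℂ)).im = _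
        rw [comb_im, hi]
        ring
    · show ip p (nrm ψ 3) = 0 → p ∈ (fun θ : ℝ => (1 - θ) • vz ψ H 3 + θ • vz ψ H 4) '' Set.Icc 0 1
      rw [ip_nrmP3, vz3, vz4]
      intro hi
      have h5 : p.re = 0 := by linarith
      rw [h5] at h4
      have h6 : b ≤ p.im := by
        by_contra hcon
        push Not at hcon
        nlinarith
      have h7 : H - b ≠ 0 := by rw [hbb]; intro h; linarith
      have h8 : 0 < H - b := by rw [hbb]; linarith
      refine ⟨(H - p.im) / (H - b), ⟨?_, ?_⟩, ?_⟩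
      · apply div_nonneg <;> linarith
      · rw [div_le_one h8]; linarith
      · apply Complex.ext
        · show ((1 - (H - p.im) / (H - b)) • (⟨0, H⟩ : ℂ) + ((H - p.im) / (H - b)) • (⟨0, b⟩ : ℂ)).re = _
          rw [comb_re, h5]
          simp
        · show ((1 - (H - p.im) / (H - b)) • (⟨0, H⟩ : ℂ) + ((H - p.im) / (H - b)) • (⟨0, b⟩ : ℂ)).im = _
          rw [comb_im]
          show (1 - (H - p.im) / (H - b)) * H + (H - p.im) / (H - b) * b = _
          field_simp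
          ring
    · show ip p (nrm ψ 4) = -(b * Real.cos ψ) →
        p ∈ (fun θ : ℝ => (1 - θ) • vz ψ H 4 + θ • vz ψ H 0) '' Set.Icc 0 1
      rw [ip_nrmP4, vz4, vz0]
      intro hi
      have h5 : p.re * Real.sin ψ = b * Real.cos ψ - p.im * Real.cos ψ := by linarith
      generalize b * Real.cos ψ / Real.sin ψ = β at *
      have h6 : p.re ≤ β := by
        by_contra hcon
        push Not at hcon
        nlinarith
      have h7 : β ≠ 0 := by intro h; linarith
      refine ⟨p.re / β, ⟨div_nonneg h3 hβ.1.le, ?_⟩, ?_⟩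
      · rw [div_le_one hβ.1]; exact h6
      · apply Complex.ext
        · show ((1 - p.re / β) • (⟨0, b⟩ : ℂ) + (p.re / β) • (⟨β, 0⟩ : ℂ)).re = _
          rw [comb_re]
          show (1 - p.re / β) * 0 + p.re / β * β = _
          field_simp
          ring
        · show ((1 - p.re / β) • (⟨0, b⟩ : ℂ) + (p.re / β) • (⟨β, 0⟩ : ℂ)).im = _
          rw [comb_im]
          show (1 - p.re / β) * b + p.re / β * 0 = _
          have h8 : p.re / β * β = p.re := by field_simp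
          generalize p.re / β = γ at *
          have h9 : Real.cos ψ * ((1 - γ) * b + γ * 0 - p.im) = 0 := by
            have : γ * β * Real.sin ψ = b * Real.cos ψ - p.im * Real.cos ψ := by rw [h8, h5]
            have h10 : γ * (b * Real.cos ψ) = b * Real.cos ψ - p.im * Real.cos ψ := by
              rw [← this, ← e1]; ring
            linarith
          rcases mul_eq_zero.1 h9 with h | h
          · rw [h] at hc; linarith
          · linarith

theorem tight2 {ψ H : ℝ} (hP : Par ψ H) (i j : ZMod 5) (hij : i ≠ j) (z : ℂ) (hz : z ∈ inP ψ H)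
    (hi : ip z (nrm ψ i) = off ψ H i) (hj : ip z (nrm ψ j) = off ψ H j) :
    (j = i + 1 ∧ z = vz ψ H j) ∨ (i = j + 1 ∧ z = vz ψ H i) := by
  have hs := hP.sin_bd
  have hc := hP.cos_bd
  have hH := hP.H_bd
  have hbb : b = 1 / 100 := rfl
  rw [mem_inP_iffP] at hz
  obtain ⟨h0, h1, h2, h3, h4⟩ := hz
  have t0 : ip z (nrm ψ 0) = off ψ H 0 → z.im = 0 := by
    intro h; rw [ip_nrmP0, off0] at h; linarith
  have t1 : ip z (nrm ψ 1) = off ψ H 1 → z.re = 1 := by
    intro h; rw [ip_nrmP1, off1] at h; linarith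
  have t2 : ip z (nrm ψ 2) = off ψ H 2 → z.im = H := by
    intro h; rw [ip_nrmP2, off2] at h; linarith
  have t3 : ip z (nrm ψ 3) = off ψ H 3 → z.re = 0 := by
    intro h; rw [ip_nrmP3, off3] at h; linarith
  have t4 : ip z (nrm ψ 4) = off ψ H 4 →
      z.re * Real.sin ψ + z.im * Real.cos ψ = b * Real.cos ψ := by
    intro h; rw [ip_nrmP4, off4] at h; linarith
  have c01 : ip z (nrm ψ 0) = off ψ H 0 → ip z (nrm ψ 1) = off ψ H 1 → z = vz ψ H 1 := by
    intro ha hb
    rw [vz1]; exact Complex.ext (t1 hb) (t0 ha)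
  have c12 : ip z (nrm ψ 1) = off ψ H 1 → ip z (nrm ψ 2) = off ψ H 2 → z = vz ψ H 2 := by
    intro ha hb
    rw [vz2]; exact Complex.ext (t1 ha) (t2 hb)
  have c23 : ip z (nrm ψ 2) = off ψ H 2 → ip z (nrm ψ 3) = off ψ H 3 → z = vz ψ H 3 := by
    intro ha hb
    rw [vz3]; exact Complex.ext (t3 hb) (t2 ha)
  have c34 : ip z (nrm ψ 3) = off ψ H 3 → ip z (nrm ψ 4) = off ψ H 4 → z = vz ψ H 4 := by
    intro ha hb
    have h5 := t3 ha
    have h6 := t4 hb
    rw [h5, zero_mul, zero_add] at h6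
    have h7 : Real.cos ψ ≠ 0 := by intro h; rw [h] at hc; linarith
    rw [vz4]; exact Complex.ext h5 (mul_right_cancel₀ h7 h6)
  have c40 : ip z (nrm ψ 4) = off ψ H 4 → ip z (nrm ψ 0) = off ψ H 0 → z = vz ψ H 0 := by
    intro ha hb
    have h5 := t0 hb
    have h6 := t4 ha
    rw [h5, zero_mul, add_zero] at h6
    have h7 : Real.sin ψ ≠ 0 := by intro h; rw [h] at hs; linarith
    rw [vz0]; exact Complex.ext (by rw [← h6]; field_simp) h5
  have n02 : ip z (nrm ψ 0) = off ψ H 0 → ip z (nrm ψ 2) = off ψ H 2 → False := by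
    intro ha hb
    have := t0 ha; have := t2 hb; linarith
  have n13 : ip z (nrm ψ 1) = off ψ H 1 → ip z (nrm ψ 3) = off ψ H 3 → False := by
    intro ha hb
    have := t1 ha; have := t3 hb; linarith
  have n03 : ip z (nrm ψ 0) = off ψ H 0 → ip z (nrm ψ 3) = off ψ H 3 → False := by
    intro ha hb
    have e1 := t0 ha; have e2 := t3 hb
    rw [e1, e2, hbb] at h4; linarith
  have n14 : ip z (nrm ψ 1) = off ψ H 1 → ip z (nrm ψ 4) = off ψ H 4 → False := by
    intro ha hb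
    have e1 := t1 ha; have e2 := t4 hb
    rw [e1, hbb] at e2; nlinarith
  have n24 : ip z (nrm ψ 2) = off ψ H 2 → ip z (nrm ψ 4) = off ψ H 4 → False := by
    intro ha hb
    have e1 := t2 ha; have e2 := t4 hb
    rw [e1, hbb] at e2; nlinarith
  revert hij hi hj
  fin_cases i <;> fin_cases j
  · intro hij; exact absurd rfl hij
  · intro _ hi hj; exact Or.inl ⟨rfl, c01 hi hj⟩
  · intro _ hi hj; exact absurd hj fun hj => n02 hi hj
  · intro _ hi hj; exact absurd hj fun hj => n03 hi hj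
  · intro _ hi hj; exact Or.inr ⟨rfl, c40 hj hi⟩
  · intro _ hi hj; exact Or.inr ⟨rfl, c01 hj hi⟩
  · intro hij; exact absurd rfl hij
  · intro _ hi hj; exact Or.inl ⟨rfl, c12 hi hj⟩
  · intro _ hi hj; exact absurd hj fun hj => n13 hi hj
  · intro _ hi hj; exact absurd hj fun hj => n14 hi hj
  · intro _ hi hj; exact absurd hj fun hj => n02 hj hi
  · intro _ hi hj; exact Or.inr ⟨rfl, c12 hj hi⟩
  · intro hij; exact absurd rfl hij
  · intro _ hi hj; exact Or.inl ⟨rfl, c23 hi hj⟩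
  · intro _ hi hj; exact absurd hj fun hj => n24 hi hj
  · intro _ hi hj; exact absurd hj fun hj => n03 hj hi
  · intro _ hi hj; exact absurd hj fun hj => n13 hj hi
  · intro _ hi hj; exact Or.inr ⟨rfl, c23 hj hi⟩
  · intro hij; exact absurd rfl hij
  · intro _ hi hj; exact Or.inl ⟨rfl, c34 hi hj⟩
  · intro _ hi hj; exact Or.inl ⟨rfl, c40 hi hj⟩
  · intro _ hi hj; exact absurd hj fun hj => n14 hj hi
  · intro _ hi hj; exact absurd hj fun hj => n24 hj hi
  · intro _ hi hj; exact Or.inr ⟨rfl, c34 hj hi⟩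
  · intro hij; exact absurd rfl hij

theorem vz_tight {ψ H : ℝ} (hP : Par ψ H) (i : ZMod 5) :
    ip (vz ψ H i) (nrm ψ i) = off ψ H i ∧ ip (vz ψ H (i + 1)) (nrm ψ i) = off ψ H i := by
  have h := segment_eq hP i
  have h1 := left_mem_segment ℝ (vz ψ H i) (vz ψ H (i + 1))
  have h2 := right_mem_segment ℝ (vz ψ H i) (vz ψ H (i + 1))
  rw [h] at h1 h2
  exact ⟨h1.2, h2.2⟩

/-- the relatively open sides of the model are the open segments between vertices -/
theorem openSegment_eq {ψ H : ℝ} (hP : Par ψ H) (i : ZMod 5) :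
    openSegment ℝ (vz ψ H i) (vz ψ H (i + 1)) = side ψ H i := by
  have hne := pent_nondeg hP i
  ext z
  rw [mem_side_iff]
  constructor
  · intro hz
    have h1 : z ∈ segment ℝ (vz ψ H i) (vz ψ H (i + 1)) := openSegment_subset_segment ℝ _ _ hz
    rw [segment_eq hP] at h1
    refine ⟨h1.1, h1.2, fun j hj h2 => ?_⟩
    rcases tight2 hP i j (Ne.symm hj) z h1.1 h1.2 h2 with ⟨e, h3⟩ | ⟨_, h3⟩
    · rw [h3, e] at hz
      rw [openSegment_symm] at hz
      exact hne (left_mem_openSegment_iff.1 hz).symm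
    · rw [h3] at hz
      exact hne (left_mem_openSegment_iff.1 hz)
  · rintro ⟨h1, h2, h3⟩
    have h4 : z ∈ segment ℝ (vz ψ H i) (vz ψ H (i + 1)) := by
      rw [segment_eq hP]; exact ⟨h1, h2⟩
    rw [← insert_endpoints_openSegment] at h4
    rcases h4 with h4 | h4 | h4
    · exfalso
      have h5 := (vz_tight hP (i - 1)).2
      rw [sub_add_cancel, ← h4] at h5
      refine h3 (i - 1 : ZMod 5) ?_ h5
      intro e
      have : (i - 1 : ZMod 5) = i := e
      revert this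
      clear * -
      revert i
      decide
    · exfalso
      have h5 := (vz_tight hP (i + 1)).1
      rw [← h4] at h5
      refine h3 (i + 1 : ZMod 5) ?_ h5
      intro e
      have : (i + 1 : ZMod 5) = i := e
      revert this
      clear * -
      revert i
      decide
    · exact h4

theorem pent_simple {ψ H : ℝ} (hP : Par ψ H) (i j : ZMod 5) (hij : i ≠ j) (z : ℂ)
    (hi : z ∈ segment ℝ (vz ψ H i) (vz ψ H (i + 1)))
    (hj : z ∈ segment ℝ (vz ψ H j) (vz ψ H (j + 1))) :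
    (j = i + 1 ∧ z = vz ψ H j) ∨ (i = j + 1 ∧ z = vz ψ H i) := by
  rw [segment_eq hP] at hi hj
  exact tight2 hP i j hij z hi.1 hi.2 hj.2

theorem pent_interior {ψ H : ℝ} (hP : Par ψ H) : interior (inP ψ H) = intP ψ H := by
  apply Set.Subset.antisymm
  · intro p hp i
    have hp1 : p ∈ inP ψ H := interior_subset hp
    rcases lt_or_eq_of_le (hp1 i) with h | h
    · exact h
    exfalso
    rw [mem_interior_iff_mem_nhds, Metric.mem_nhds_iff] at hp
    obtain ⟨ε, hε, hb⟩ := hp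
    have h1 : p + ((ε / 2 : ℝ) : ℂ) * nrm ψ i ∈ inP ψ H := by
      apply hb
      rw [Metric.mem_ball, dist_eq_norm]
      have : p + ((ε / 2 : ℝ) : ℂ) * nrm ψ i - p = ((ε / 2 : ℝ) : ℂ) * nrm ψ i := by ring
      rw [this, norm_mul, norm_nrm, Complex.norm_real, Real.norm_of_nonneg (by linarith)]
      linarith
    have h2 := h1 i
    rw [ip_add_left, ip_smul_left, h] at h2
    have h3 : ip (nrm ψ i) (nrm ψ i) = 1 := by
      have h4 := norm_nrm ψ i
      have h5 : ip (nrm ψ i) (nrm ψ i) = ‖nrm ψ i‖ ^ 2 := by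
        rw [← Complex.normSq_eq_norm_sq, Complex.normSq_apply]; rfl
      rw [h5, h4]; norm_num
    rw [h3] at h2
    linarith
  · exact interior_maximal (intP_subset ψ H) (isOpen_intP ψ H)

theorem pent_compact {ψ H : ℝ} (hP : Par ψ H) : IsCompact (inP ψ H) := by
  apply Metric.isCompact_of_isClosed_isBounded (isClosed_inP ψ H)
  rw [isBounded_iff_forall_norm_le]
  exact ⟨2, fun p hp => norm_le_of_inP hP hp⟩

theorem pent_regular {ψ H : ℝ} (hP : Par ψ H) : closure (interior (inP ψ H)) = inP ψ H := by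
  rw [(convex_inP ψ H).closure_interior_eq_closure_of_nonempty_interior]
  · exact (isClosed_inP ψ H).closure_eq
  · rw [pent_interior hP]
    exact ⟨_, center_mem hP⟩

theorem pent_frontier {ψ H : ℝ} (hP : Par ψ H) :
    frontier (inP ψ H) = ⋃ i : ZMod 5, segment ℝ (vz ψ H i) (vz ψ H (i + 1)) := by
  rw [frontier, (isClosed_inP ψ H).closure_eq, pent_interior hP]
  ext p
  simp only [Set.mem_sdiff, Set.mem_iUnion, segment_eq hP, Set.mem_ofPred_eq]
  constructor
  · rintro ⟨h1, h2⟩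
    have : ¬ ∀ i, ip p (nrm ψ i) < off ψ H i := h2
    push Not at this
    obtain ⟨i, hi⟩ := this
    exact ⟨i, h1, le_antisymm (h1 i) hi⟩
  · rintro ⟨i, h1, h2⟩
    refine ⟨h1, fun h3 => ?_⟩
    have := h3 i
    rw [h2] at this
    exact lt_irrefl _ this

/-- the pentagon as a polygon in the sense of the definitions -/
def pent {ψ H : ℝ} (hP : Par ψ H) : Polygon where
  n := 5
  three_le := by norm_num
  vert := vz ψ H
  nondeg := pent_nondeg hP
  simple := pent_simple hP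
  region := inP ψ H
  compact := pent_compact hP
  regular := pent_regular hP
  frontier_eq := pent_frontier hP

theorem pent_refl {ψ H : ℝ} (hP : Par ψ H) (i : ZMod 5) (v : ℂ) :
    (pent hP).refl i v = rf ψ i v := by
  obtain ⟨l, hl, h⟩ := vz_sub hP i
  have h0 : (pent hP).dir i = I * nrm ψ i := by
    show (vz ψ H (i + 1) - vz ψ H i) / (‖vz ψ H (i + 1) - vz ψ H i‖ : ℝ) = _
    rw [h, norm_mul, norm_mul, norm_nrm, Complex.norm_I, Complex.norm_real,
      Real.norm_of_nonneg hl.le]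
    have : (l : ℂ) ≠ 0 := by exact_mod_cast hl.ne'
    push_cast
    field_simp
  show (pent hP).dir i ^ 2 * (starRingEnd ℂ) v = -(nrm ψ i) ^ 2 * (starRingEnd ℂ) v
  rw [h0, mul_pow, Complex.I_sq]
  ring

end

end FC28
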